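import Mathlib

set_option autoImplicit false
set_option linter.all false

namespace Pool.Agent.H18.Ace6cd

open Filter Topology Set

section generic

variable {E : Type*} [NormedAddCommGroup E] [NormedSpace ℂ E] [CompleteSpace E]

/-- rapidly decreasing eigenvalues -/
noncomputable def nu (R : ℕ → E →L[ℂ] E) : ℕ → ℝ
  | 0 => 1
  | n + 1 => nu R n / (4 * (1 + ‖R (n + 1)‖))

variable (R : ℕ → E →L[ℂ] E)

lemma nu_pos (n : ℕ) : 0 < nu R n := by
  induction n with
  | zero => simp [nu]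
  | succ n ih => rw [nu]; positivity

lemma nu_succ (n : ℕ) : nu R (n + 1) * (1 + ‖R (n + 1)‖) = nu R n / 4 := by
  rw [nu]
  have : 0 < 1 + ‖R (n + 1)‖ := by positivity
  field_simp

lemma nu_succ_le (n : ℕ) : nu R (n + 1) ≤ nu R n / 4 := by
  rw [← nu_succ R n]
  have := nu_pos R (n + 1)
  nlinarith [norm_nonneg (R (n + 1))]

lemma nu_add_le (n i : ℕ) : nu R (n + i) ≤ nu R n * (1 / 4) ^ i := by
  induction i with
  | zero => simp
  | succ i ih =>
    have := nu_succ_le R (n + i)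
    rw [← add_assoc, pow_succ]
    linarith

lemma norm_term_le (n i : ℕ) :
    ‖((nu R (n + 1 + i) : ℝ) : ℂ) • R (n + 1 + i)‖ ≤ nu R n / 4 * (1 / 4) ^ i := by
  rw [norm_smul, Complex.norm_real, Real.norm_eq_abs, abs_of_pos (nu_pos R _)]
  have h1 : n + 1 + i = (n + i) + 1 := by omega
  rw [h1]
  have h2 := nu_succ R (n + i)
  have h3 := nu_add_le R n i
  have h4 := nu_pos R (n + i + 1)
  nlinarith

lemma summable_terms : Summable (fun n => ((nu R n : ℝ) : ℂ) • R n) := by
  rw [← summable_nat_add_iff 1]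
  refine Summable.of_norm_bounded (g := fun i => nu R 0 / 4 * (1 / 4) ^ i) ?_ fun i => ?_
  · exact (summable_geometric_of_lt_one (by norm_num) (by norm_num)).mul_left _
  · have := norm_term_le R 0 i
    have e : 0 + 1 + i = i + 1 := by omega
    rwa [e] at this

/-- the operator -/
noncomputable def opA : E →L[ℂ] E := ∑' n, ((nu R n : ℝ) : ℂ) • R n

lemma hasSum_opA : HasSum (fun n => ((nu R n : ℝ) : ℂ) • R n) (opA R) := (summable_terms R).hasSum

/-- the tails -/
noncomputable def tailA (n : ℕ) : E →L[ℂ] E :=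
  opA R - ∑ i ∈ Finset.range n, ((nu R i : ℝ) : ℂ) • R i

lemma tailA_succ (n : ℕ) : tailA R n = ((nu R n : ℝ) : ℂ) • R n + tailA R (n + 1) := by
  rw [tailA, tailA, Finset.sum_range_succ]; abel

lemma norm_tail (n : ℕ) : ‖tailA R (n + 1)‖ ≤ nu R n / 3 := by
  have h1 : HasSum (fun i => ((nu R (i + (n + 1)) : ℝ) : ℂ) • R (i + (n + 1))) (tailA R (n + 1)) := by
    rw [tailA]
    exact (hasSum_nat_add_iff' (f := fun n => ((nu R n : ℝ) : ℂ) • R n) (n + 1)).2 (hasSum_opA R)
  have h2 : HasSum (fun i : ℕ => nu R n / 4 * (1 / 4 : ℝ) ^ i) (nu R n / 4 * (1 - 1 / 4)⁻¹) :=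
    (hasSum_geometric_of_lt_one (by norm_num) (by norm_num)).mul_left _
  have h3 := h1.tsum_eq
  rw [← h3]
  refine (tsum_of_norm_bounded h2 fun i => ?_).trans (le_of_eq (by norm_num; ring))
  have := norm_term_le R n i
  rwa [add_comm (n + 1) i] at this

variable (hR : ∀ n m, R n * R m = if n = m then R n else 0)
include hR

lemma mul_opA (n : ℕ) : R n * opA R = ((nu R n : ℝ) : ℂ) • R n := by
  have h1 := (hasSum_opA R).mul_left (R n)
  have h2 : ∀ m, R n * (((nu R m : ℝ) : ℂ) • R m) = if m = n then ((nu R n : ℝ) : ℂ) • R n else 0 := by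
    intro m
    rw [mul_smul_comm, hR]
    by_cases h : n = m
    · subst h; simp
    · rw [if_neg h, if_neg (fun h' => h h'.symm), smul_zero]
  simp only [h2] at h1
  exact h1.unique (hasSum_ite_eq n _)

lemma opA_mul (n : ℕ) : opA R * R n = ((nu R n : ℝ) : ℂ) • R n := by
  have h1 := (hasSum_opA R).mul_right (R n)
  have h2 : ∀ m, (((nu R m : ℝ) : ℂ) • R m) * R n = if m = n then ((nu R n : ℝ) : ℂ) • R n else 0 := by
    intro m
    rw [smul_mul_assoc, hR]
    by_cases h : m = n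
    · subst h; simp
    · rw [if_neg h, if_neg h, smul_zero]
  simp only [h2] at h1
  exact h1.unique (hasSum_ite_eq n _)

lemma mul_tail (n : ℕ) : R n * tailA R (n + 1) = 0 := by
  rw [tailA, mul_sub, mul_opA R hR, Finset.mul_sum, Finset.sum_eq_single n]
  · rw [mul_smul_comm, hR, if_pos rfl, sub_self]
  · intro m _ hm
    rw [mul_smul_comm, hR, if_neg (fun h => hm h.symm), smul_zero]
  · intro h
    exact absurd (Finset.mem_range.2 (Nat.lt_succ_self n)) h

lemma tail_mul (n : ℕ) : tailA R (n + 1) * R n = 0 := by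
  rw [tailA, sub_mul, opA_mul R hR, Finset.sum_mul, Finset.sum_eq_single n]
  · rw [smul_mul_assoc, hR, if_pos rfl, sub_self]
  · intro m _ hm
    rw [smul_mul_assoc, hR, if_neg hm, smul_zero]
  · intro h
    exact absurd (Finset.mem_range.2 (Nat.lt_succ_self n)) h

/-- closed invariant subspaces of the operator are invariant under all the projections -/
theorem invariant (M : Submodule ℂ E) (hM : IsClosed (M : Set E)) (hA : ∀ x ∈ M, opA R x ∈ M)
    (n : ℕ) : ∀ x ∈ M, R n x ∈ M := by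
  induction n using Nat.strong_induction_on with
  | _ n ih =>
    intro x hx
    have hν : ((nu R n : ℝ) : ℂ) ≠ 0 := by exact_mod_cast (nu_pos R n).ne'
    set C : E →L[ℂ] E := (((nu R n : ℝ) : ℂ))⁻¹ • tailA R (n + 1) with hC
    have hRC : R n * C = 0 := by rw [hC, mul_smul_comm, mul_tail R hR, smul_zero]
    have hCR : C * R n = 0 := by rw [hC, smul_mul_assoc, tail_mul R hR, smul_zero]
    have hCn : ‖C‖ < 1 := by
      rw [hC, norm_smul, norm_inv, Complex.norm_real, Real.norm_eq_abs, abs_of_pos (nu_pos R n)]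
      have h1 := norm_tail R n
      have h2 := nu_pos R n
      rw [inv_mul_lt_iff₀ h2]
      linarith
    have hpow : ∀ k : ℕ, (R n + C) ^ (k + 1) = R n + C ^ (k + 1) := by
      intro k
      induction k with
      | zero => simp
      | succ k ihk =>
        rw [pow_succ, ihk, add_mul, mul_add, mul_add, hRC, hR, if_pos rfl, add_zero]
        have : C ^ (k + 1) * R n = 0 := by rw [pow_succ, mul_assoc, hCR, mul_zero]
        rw [this, zero_add, ← pow_succ]
    have hB : (((nu R n : ℝ) : ℂ))⁻¹ • tailA R n = R n + C := by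
      rw [tailA_succ, smul_add, smul_smul, inv_mul_cancel₀ hν, one_smul]
    have hBM : ∀ y ∈ M, (R n + C) y ∈ M := by
      intro y hy
      rw [← hB, ContinuousLinearMap.smul_apply]
      apply M.smul_mem
      rw [tailA, ContinuousLinearMap.sub_apply, ContinuousLinearMap.sum_apply]
      apply M.sub_mem (hA y hy)
      apply M.sum_mem
      intro i hi
      rw [ContinuousLinearMap.smul_apply]
      exact M.smul_mem _ (ih i (Finset.mem_range.1 hi) y hy)
    have hpM : ∀ k : ℕ, ((R n + C) ^ k) x ∈ M := by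
      intro k
      induction k with
      | zero => simpa using hx
      | succ k ihk =>
        rw [pow_succ', ContinuousLinearMap.mul_apply]
        exact hBM _ ihk
    have hlim : Tendsto (fun k : ℕ => ((R n + C) ^ (k + 1)) x) atTop (𝓝 (R n x)) := by
      have h1 : Tendsto (fun k : ℕ => C ^ (k + 1)) atTop (𝓝 0) :=
        (tendsto_pow_atTop_nhds_zero_of_norm_lt_one hCn).comp (tendsto_add_atTop_nat 1)
      have h2 : Tendsto (fun k : ℕ => (C ^ (k + 1)) x) atTop (𝓝 ((0 : E →L[ℂ] E) x)) :=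
        ((ContinuousLinearMap.apply ℂ E x).continuous.tendsto _).comp h1
      have h3 := (tendsto_const_nhds (x := R n x)).add h2
      simp only [ContinuousLinearMap.zero_apply, add_zero] at h3
      refine h3.congr fun k => ?_
      rw [hpow, ContinuousLinearMap.add_apply]
    exact hM.mem_of_tendsto hlim (Eventually.of_forall fun k => hpM (k + 1))

lemma mul_aeval (p : Polynomial ℂ) (n : ℕ) :
    R n * Polynomial.aeval (opA R) p = (p.eval ((nu R n : ℝ) : ℂ)) • R n := by
  have hpow : ∀ k : ℕ, R n * (opA R) ^ k = (((nu R n : ℝ) : ℂ) ^ k) • R n := by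
    intro k
    induction k with
    | zero => simp
    | succ k ih => rw [pow_succ, ← mul_assoc, ih, smul_mul_assoc, mul_opA R hR, smul_smul, pow_succ]
  induction p using Polynomial.induction_on' with
  | add p q hp hq => rw [map_add, mul_add, hp, hq, Polynomial.eval_add, add_smul]
  | monomial k a =>
    rw [Polynomial.aeval_monomial, Polynomial.eval_monomial, Algebra.algebraMap_eq_smul_one,
      smul_mul_assoc, one_mul, mul_smul_comm, hpow, smul_smul]

/-- a continuous functional killing all projections kills `A p(A)` -/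
lemma kill (Φ : (E →L[ℂ] E) →L[ℂ] ℂ) (hΦ : ∀ n, Φ (R n) = 0) (p : Polynomial ℂ) :
    Φ (opA R * Polynomial.aeval (opA R) p) = 0 := by
  have h1 := ((hasSum_opA R).mul_right (Polynomial.aeval (opA R) p)).mapL Φ
  have h2 : ∀ n, Φ ((((nu R n : ℝ) : ℂ) • R n) * Polynomial.aeval (opA R) p) = 0 := by
    intro n
    rw [smul_mul_assoc, mul_aeval R hR, map_smul, map_smul, hΦ, smul_zero, smul_zero]
  simp only [h2] at h1
  exact h1.unique hasSum_zero

end generic

section concrete

open scoped InnerProductSpace ComplexConjugate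

/-- the Hilbert space -/
abbrev H : Type := lp (fun _ : ℕ => ℂ) 2

/-- basis vectors -/
noncomputable def e (j : ℕ) : H := lp.single 2 j (1 : ℂ)

lemma e_apply (j k : ℕ) : (e j : H) k = if k = j then 1 else 0 := by
  by_cases h : k = j
  · subst h
    rw [if_pos rfl]
    exact lp.single_apply_self (E := fun _ : ℕ => ℂ) 2 k (1 : ℂ)
  · rw [if_neg h]
    exact lp.single_apply_ne (E := fun _ : ℕ => ℂ) 2 j (1 : ℂ) h

/-- coordinates -/
noncomputable def ev (j : ℕ) : H →L[ℂ] ℂ :=
  LinearMap.mkContinuous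
    { toFun := fun x => x j
      map_add' := fun x y => rfl
      map_smul' := fun c x => rfl } 1 (fun x => by
        rw [one_mul]; exact lp.norm_apply_le_norm (by norm_num) x j)

@[simp] lemma ev_apply (j : ℕ) (x : H) : ev j x = x j := rfl

/-- the weights -/
noncomputable def c (j : ℕ) : ℂ := if j % 2 = 0 ∧ j ≠ 0 then 4 ^ j / 2 else 0

lemma c_mul_succ (j : ℕ) : c j * c (j + 1) = 0 := by
  unfold c
  by_cases h : j % 2 = 0
  · have : ¬ ((j + 1) % 2 = 0 ∧ j + 1 ≠ 0) := by omega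
    rw [if_neg this, mul_zero]
  · have : ¬ (j % 2 = 0 ∧ j ≠ 0) := by omega
    rw [if_neg this, zero_mul]

lemma c_zero : c 0 = 0 := by simp [c]

lemma c_conj (j : ℕ) : conj (c j) = c j := by
  unfold c
  split_ifs
  · rw [map_div₀, map_pow, map_ofNat, map_ofNat]
  · simp

/-- the functionals -/
noncomputable def F (n : ℕ) : H →L[ℂ] ℂ := ev (n + 1) - c (n + 2) • ev (n + 2) - c n • ev n

/-- the vectors -/
noncomputable def f (n : ℕ) : H := e (n + 1) + c (n + 1) • (e n + e (n + 2))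

lemma F_apply (n : ℕ) (x : H) : F n x = x (n + 1) - c (n + 2) * x (n + 2) - c n * x n := rfl

lemma f_apply (n k : ℕ) : (f n : H) k = (if k = n + 1 then 1 else 0) +
    c (n + 1) * ((if k = n then 1 else 0) + (if k = n + 2 then 1 else 0)) := by
  have : (f n : H) k = (e (n + 1) : H) k + c (n + 1) * ((e n : H) k + (e (n + 2) : H) k) := rfl
  rw [this, e_apply, e_apply, e_apply]

lemma F_f (n m : ℕ) : F n (f m) = if n = m then 1 else 0 := by
  rw [F_apply, f_apply, f_apply, f_apply]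
  have h1 := c_mul_succ n
  have h2 := c_mul_succ (n + 1)
  have h3 := c_mul_succ (n + 2)
  have h4 := c_mul_succ m
  rcases lt_trichotomy n m with h | h | h
  · rw [if_neg (by omega : ¬ n = m), if_neg (by omega : ¬ n + 1 = m + 1),
      if_neg (by omega : ¬ n + 1 = m + 2), if_neg (by omega : ¬ n + 2 = m + 2),
      if_neg (by omega : ¬ n = m + 1), if_neg (by omega : ¬ n = m + 2)]
    by_cases h5 : m = n + 1
    · subst h5
      rw [if_pos rfl, if_pos rfl, if_neg (by omega : ¬ n + 2 = n + 1)]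
      ring
    · rw [if_neg (by omega : ¬ n + 1 = m), if_neg (by omega : ¬ n + 2 = m + 1)]
      by_cases h6 : m = n + 2
      · subst h6
        rw [if_pos rfl]
        linear_combination -h3
      · rw [if_neg (by omega : ¬ n + 2 = m)]
        ring
  · subst h
    simp only [if_true, if_neg (by omega : ¬ n + 1 = n), if_neg (by omega : ¬ n + 1 = n + 2),
      if_neg (by omega : ¬ n + 2 = n + 1), if_neg (by omega : ¬ n + 2 = n),
      if_neg (by omega : ¬ n = n + 1), if_neg (by omega : ¬ n = n + 2)]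
    linear_combination -h2 - h1
  · rw [if_neg (by omega : ¬ n = m), if_neg (by omega : ¬ n + 1 = m + 1),
      if_neg (by omega : ¬ n + 1 = m), if_neg (by omega : ¬ n + 2 = m + 2),
      if_neg (by omega : ¬ n + 2 = m + 1), if_neg (by omega : ¬ n + 2 = m)]
    by_cases h5 : n = m + 1
    · subst h5
      rw [if_pos rfl, if_pos rfl, if_neg (by omega : ¬ m + 1 = m + 2)]
      ring
    · rw [if_neg (by omega : ¬ n + 1 = m + 2), if_neg (by omega : ¬ n = m + 1)]
      by_cases h6 : n = m + 2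
      · subst h6
        rw [if_pos rfl]
        have h7 := c_mul_succ (m + 1)
        linear_combination -h7
      · rw [if_neg (by omega : ¬ n = m + 2)]
        ring

/-- the rank one idempotents -/
noncomputable def R (n : ℕ) : H →L[ℂ] H := (F n).smulRight (f n)

lemma R_apply (n : ℕ) (x : H) : R n x = F n x • f n := rfl

lemma R_mul (n m : ℕ) : R n * R m = if n = m then R n else 0 := by
  ext1 x
  rw [ContinuousLinearMap.mul_apply, R_apply, R_apply, map_smul, F_f]
  by_cases h : n = m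
  · subst h
    simp [R_apply]
  · rw [if_neg h, if_neg h]
    simp

lemma hasSum_inner' (y x : H) : HasSum (fun j => conj (y j) * x j) ⟪y, x⟫_ℂ := by
  have := lp.hasSum_inner (𝕜 := ℂ) y x
  simpa only [RCLike.inner_apply'] using this

lemma inner_f (y : H) (n : ℕ) : ⟪y, f n⟫_ℂ =
    conj (y (n + 1)) + c (n + 1) * (conj (y n) + conj (y (n + 2))) := by
  have h1 : ∀ j, ⟪y, (e j : H)⟫_ℂ = conj (y j) := by
    intro j
    have := lp.inner_single_right (𝕜 := ℂ) (G := fun _ : ℕ => ℂ) j (1 : ℂ) y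
    rw [e, this, RCLike.inner_apply', mul_one]
  rw [f, inner_add_right, inner_smul_right, inner_add_right, h1, h1, h1]

/-- the basis is strong -/
lemma strong (x y : H) (hx : x 0 = 0) (h : ∀ n, F n x * ⟪y, f n⟫_ℂ = 0) : ⟪y, x⟫_ℂ = 0 := by
  by_contra hne
  set a : ℕ → ℂ := fun j => conj (y j) with ha
  set τ := ⟪y, x⟫_ℂ with hτ
  have hsum : HasSum (fun j => a j * x j) τ := hasSum_inner' y x
  let T : ℕ → ℂ := fun N => ∑ j ∈ Finset.range (N + 1), a j * x j
  have hT : ∀ N, T N = c (N + 1) * x (N + 1) * a N - c N * x N * a (N + 1) := by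
    intro N
    induction N with
    | zero =>
      have hc1 : c 1 = 0 := by simp [c]
      simp [T, hx, c_zero, hc1]
    | succ N ih =>
      have h1 : T (N + 1) = T N + a (N + 1) * x (N + 1) := Finset.sum_range_succ _ _
      have h2 := h N
      rw [F_apply, inner_f] at h2
      have h3 := c_mul_succ N
      have h4 := c_mul_succ (N + 1)
      have h2' : (x (N + 1) - c (N + 2) * x (N + 2) - c N * x N) *
        (a (N + 1) + c (N + 1) * (a N + a (N + 2))) = 0 := h2
      rw [h1, ih]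
      linear_combination h2' + (x (N + 2) * (a N + a (N + 2))) * h4 + (x N * (a N + a (N + 2))) * h3
  have hTlim : Tendsto T atTop (𝓝 τ) :=
    (hsum.tendsto_sum_nat).comp (tendsto_add_atTop_nat 1)
  set D := ‖τ‖ / 2 with hD
  have hτ0 : 0 < ‖τ‖ := norm_pos_iff.2 hne
  have hD0 : 0 < D := by positivity
  have hTD : ∀ᶠ N in atTop, D < ‖T N‖ := by
    have : Tendsto (fun N => ‖T N‖) atTop (𝓝 ‖τ‖) := hTlim.norm
    exact this.eventually_const_lt (by rw [hD]; linarith)
  -- absolutely summable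
  set d : ℕ → ℝ := fun j => ‖a j * x j‖ with hd
  have hds : Summable d := (summable_norm_iff).2 hsum.summable
  have hd0 : ∀ j, 0 ≤ d j := fun j => norm_nonneg _
  obtain ⟨N₀, hN₀⟩ : ∃ N₀, ∀ M, N₀ ≤ M → ∑ j ∈ Finset.range M, d j - ∑ j ∈ Finset.range N₀, d j ≤ D / 2 := by
    have h1 := hds.hasSum.tendsto_sum_nat
    obtain ⟨N₀, hN₀⟩ := (h1.eventually_const_lt (show ∑' j, d j - D / 2 < ∑' j, d j by linarith)).exists
    refine ⟨N₀, fun M _ => ?_⟩
    have h2 := hds.sum_le_tsum (Finset.range M) (fun j _ => hd0 j)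
    linarith
  obtain ⟨N₁, hN₁⟩ := eventually_atTop.1 hTD
  set K := 2 * (max N₀ N₁) + 1 with hK
  have hK0 : N₀ ≤ K := by have := le_max_left N₀ N₁; omega
  have hK1 : N₁ ≤ K := by have := le_max_right N₀ N₁; omega
  have hcodd : ∀ i, c (K + 2 * i) = 0 := by
    intro i
    unfold c
    rw [if_neg (by omega)]
  have step : ∀ i, ‖a (K + 2 * i)‖ * (1 - d (K + 2 * i + 1) / D) ≤ ‖a (K + 2 * i + 2)‖ := by
    intro i
    set N := K + 2 * i with hN
    have h1 : T N = c (N + 1) * x (N + 1) * a N := by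
      rw [hT, hcodd]; ring
    have h2 : T (N + 1) = - (c (N + 1) * x (N + 1) * a (N + 2)) := by
      rw [hT]
      have : c (N + 1 + 1) = 0 := by
        have := hcodd (i + 1)
        rw [show K + 2 * (i + 1) = N + 1 + 1 by omega] at this
        exact this
      rw [this]; ring
    have h3 : T (N + 1) = T N + a (N + 1) * x (N + 1) := Finset.sum_range_succ _ _
    have h4 : T N * a (N + 2) = - (T (N + 1) * a N) := by rw [h1, h2]; ring
    have h5 : ‖T N‖ * ‖a (N + 2)‖ = ‖T (N + 1)‖ * ‖a N‖ := by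
      rw [← norm_mul, h4, norm_neg, norm_mul]
    have h6 : ‖T N‖ - d (N + 1) ≤ ‖T (N + 1)‖ := by
      rw [h3]
      have := norm_sub_le (T N + a (N + 1) * x (N + 1)) (a (N + 1) * x (N + 1))
      rw [add_sub_cancel_right] at this
      simp only [hd]
      linarith
    have h7 : D < ‖T N‖ := hN₁ N (by omega)
    have h8 : 0 < ‖T N‖ := hD0.trans h7
    have h9 : ‖T N‖ * (1 - d (N + 1) / D) ≤ ‖T N‖ - d (N + 1) := by
      have : d (N + 1) ≤ ‖T N‖ * (d (N + 1) / D) := by
        rw [← mul_div_assoc, le_div_iff₀ hD0]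
        nlinarith [hd0 (N + 1)]
      linarith
    have h10 : ‖T N‖ * (‖a N‖ * (1 - d (N + 1) / D)) ≤ ‖T N‖ * ‖a (N + 2)‖ := by
      rw [h5]
      have := norm_nonneg (a N)
      nlinarith
    exact le_of_mul_le_mul_left h10 h8
  have lower : ∀ i, ‖a K‖ * (1 - (∑ j ∈ Finset.range (K + 2 * i), d j -
      ∑ j ∈ Finset.range K, d j) / D) ≤ ‖a (K + 2 * i)‖ := by
    intro i
    induction i with
    | zero => simp
    | succ i ih =>
      have h1 := step i
      set A := (∑ j ∈ Finset.range (K + 2 * i), d j - ∑ j ∈ Finset.range K, d j) / D with hA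
      have e1 : K + 2 * (i + 1) = (K + 2 * i + 1) + 1 := by omega
      rw [e1, Finset.sum_range_succ, Finset.sum_range_succ]
      have hmono : ∑ j ∈ Finset.range K, d j ≤ ∑ j ∈ Finset.range (K + 2 * i), d j :=
        Finset.sum_le_sum_of_subset_of_nonneg (Finset.range_mono (by omega)) fun j _ _ => hd0 j
      have hA0 : 0 ≤ A := div_nonneg (by linarith) hD0.le
      have hB : d (K + 2 * i + 1) ≤ D / 2 := by
        have h2 := hN₀ (K + 2 * i + 2) (by omega)
        rw [Finset.sum_range_succ, Finset.sum_range_succ] at h2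
        have h3 : ∑ j ∈ Finset.range N₀, d j ≤ ∑ j ∈ Finset.range (K + 2 * i), d j :=
          Finset.sum_le_sum_of_subset_of_nonneg (Finset.range_mono (by omega)) fun j _ _ => hd0 j
        have := hd0 (K + 2 * i)
        linarith
      have hB1 : d (K + 2 * i + 1) / D ≤ 1 / 2 := by
        rw [div_le_iff₀ hD0]; linarith
      have hB0 : 0 ≤ d (K + 2 * i + 1) / D := div_nonneg (hd0 _) hD0.le
      have hC0 : 0 ≤ d (K + 2 * i) / D := div_nonneg (hd0 _) hD0.le
      have e2 : (∑ j ∈ Finset.range (K + 2 * i), d j + d (K + 2 * i) + d (K + 2 * i + 1) -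
          ∑ j ∈ Finset.range K, d j) / D = A + d (K + 2 * i) / D + d (K + 2 * i + 1) / D := by
        rw [hA]; field_simp; ring
      rw [e2]
      have haK := norm_nonneg (a K)
      set B := d (K + 2 * i + 1) / D with hBdef
      have h4 : ‖a K‖ * (1 - A) * (1 - B) ≤ ‖a (K + 2 * i)‖ * (1 - B) :=
        mul_le_mul_of_nonneg_right ih (by linarith)
      have h5 : 0 ≤ ‖a K‖ * (A * B) := by positivity
      have h6 : 0 ≤ ‖a K‖ * (d (K + 2 * i) / D) := by positivity
      have : K + 2 * i + 1 + 1 = K + 2 * i + 2 := by omega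
      rw [this]
      nlinarith
  have half : ∀ i, ‖a K‖ / 2 ≤ ‖a (K + 2 * i)‖ := by
    intro i
    refine le_trans ?_ (lower i)
    have h2 := hN₀ (K + 2 * i) (by omega)
    have h3 : ∑ j ∈ Finset.range N₀, d j ≤ ∑ j ∈ Finset.range K, d j :=
      Finset.sum_le_sum_of_subset_of_nonneg (Finset.range_mono (by omega)) fun j _ _ => hd0 j
    have h4 : (∑ j ∈ Finset.range (K + 2 * i), d j - ∑ j ∈ Finset.range K, d j) / D ≤ 1 / 2 := by
      rw [div_le_iff₀ hD0]; linarith
    have haK := norm_nonneg (a K)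
    nlinarith
  have haK : 0 < ‖a K‖ := by
    rw [norm_pos_iff]
    intro h0
    have h1 : T K = 0 := by
      have := hcodd 0
      rw [mul_zero, add_zero] at this
      rw [hT, this, h0]; ring
    have h2 := hN₁ K hK1
    rw [h1, norm_zero] at h2
    linarith
  -- contradiction with `a → 0`
  have h0 : Tendsto (fun j => conj (y j) * y j) atTop (𝓝 0) := by
    have := (hasSum_inner' y y).summable.tendsto_atTop_zero
    exact this
  have h1 : Tendsto (fun i : ℕ => K + 2 * i) atTop atTop := by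
    apply tendsto_atTop_mono (fun i => (by omega : i ≤ K + 2 * i)) tendsto_id
  have h2 := (h0.comp h1).norm
  rw [norm_zero] at h2
  have h3 := h2.eventually_lt_const (show (0 : ℝ) < (‖a K‖ / 2) ^ 2 by positivity)
  obtain ⟨i, hi⟩ := h3.exists
  have h4 := half i
  have h5 : ‖conj (y (K + 2 * i)) * y (K + 2 * i)‖ = ‖a (K + 2 * i)‖ ^ 2 := by
    simp only [ha, norm_mul, RCLike.norm_conj]; ring
  simp only [Function.comp] at hi
  rw [h5] at hi
  have := pow_le_pow_left₀ (by positivity) h4 2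
  linarith

/-- the operator of the example -/
noncomputable def A : H →L[ℂ] H := opA R

lemma F_e0 (n : ℕ) : F n (e 0) = 0 := by
  rw [F_apply, e_apply, e_apply, e_apply]
  by_cases h : n = 0
  · subst h; simp [c_zero]
  · simp [h]

lemma R_e0 (n : ℕ) : R n (e 0) = 0 := by rw [R_apply, F_e0, zero_smul]

lemma A_e0 : A (e 0) = 0 := by
  have h1 := (hasSum_opA R).mapL (ContinuousLinearMap.apply ℂ H (e 0))
  have h2 : ∀ n, (ContinuousLinearMap.apply ℂ H (e 0)) (((nu R n : ℝ) : ℂ) • R n) = 0 := by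
    intro n
    rw [ContinuousLinearMap.apply_apply, ContinuousLinearMap.smul_apply, R_e0, smul_zero]
  simp only [h2] at h1
  exact h1.unique hasSum_zero

lemma A_R (n : ℕ) (x : H) : A (R n x) = ((nu R n : ℝ) : ℂ) • R n x := by
  have := opA_mul R R_mul n
  have h2 := congrArg (fun B : H →L[ℂ] H => B x) this
  exact h2

lemma F_sub (n : ℕ) (x : H) : F n (x - x 0 • e 0) = F n x := by
  rw [map_sub, map_smul, F_e0, smul_zero, sub_zero]

lemma sub_apply_zero (x : H) : (x - x 0 • e 0 : H) 0 = 0 := by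
  have : (x - x 0 • e 0 : H) 0 = x 0 - x 0 * (e 0 : H) 0 := rfl
  rw [this, e_apply, if_pos rfl, mul_one, sub_self]

lemma key (M : Submodule ℂ H) (hM : IsClosed (M : Set H)) (hA : ∀ x ∈ M, A x ∈ M) (x : H)
    (hx : x ∈ M) : x - x 0 • e 0 ∈
      (Submodule.span ℂ {x : H | x ∈ M ∧ ∃ c : ℂ, A x = c • x}).topologicalClosure := by
  have hRM := invariant R R_mul M hM hA
  rw [← Submodule.orthogonal_orthogonal_eq_closure, Submodule.mem_orthogonal]
  intro u hu
  apply strong _ _ (sub_apply_zero x)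
  intro n
  rw [F_sub]
  have h1 : R n x ∈ Submodule.span ℂ {x : H | x ∈ M ∧ ∃ c : ℂ, A x = c • x} :=
    Submodule.subset_span ⟨hRM n x hx, _, A_R n x⟩
  have h2 := (Submodule.mem_orthogonal' _ _).1 hu _ h1
  rw [R_apply, inner_smul_right] at h2
  exact h2

lemma span_le (M : Submodule ℂ H) (hM : IsClosed (M : Set H)) :
    (Submodule.span ℂ {x : H | x ∈ M ∧ ∃ c : ℂ, A x = c • x}).topologicalClosure ≤ M := by
  apply Submodule.topologicalClosure_minimal _ _ hM
  rw [Submodule.span_le]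
  intro x hx
  exact hx.1

lemma spanned (M : Submodule ℂ H) (hM : IsClosed (M : Set H)) (hA : ∀ x ∈ M, A x ∈ M) :
    M = (Submodule.span ℂ {x : H | x ∈ M ∧ ∃ c : ℂ, A x = c • x}).topologicalClosure := by
  apply le_antisymm _ (span_le M hM)
  intro x hx
  have h1 := key M hM hA x hx
  have h2 := span_le M hM h1
  have h3 : x 0 • e 0 ∈ M := by
    have := M.sub_mem hx h2
    rwa [sub_sub_cancel] at this
  have h4 : x 0 • e 0 ∈
      (Submodule.span ℂ {x : H | x ∈ M ∧ ∃ c : ℂ, A x = c • x}).topologicalClosure := by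
    apply Submodule.le_topologicalClosure
    apply Submodule.subset_span
    refine ⟨h3, 0, ?_⟩
    rw [map_smul, A_e0, smul_zero, zero_smul]
  have := Submodule.add_mem _ h1 h4
  rwa [sub_add_cancel] at this

/-- the bad operator -/
noncomputable def B₀ : H →L[ℂ] H := 1 - (ev 0).smulRight (e 0)

lemma B₀_apply (x : H) : B₀ x = x - x 0 • e 0 := rfl

lemma B₀_inv (M : Submodule ℂ H) (hM : IsClosed (M : Set H)) (hA : ∀ x ∈ M, A x ∈ M) :
    ∀ x ∈ M, B₀ x ∈ M := fun x hx => by
  rw [B₀_apply]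
  exact span_le M hM (key M hM hA x hx)

/-- sequences bounded by a geometric sequence are in `ℓ²` -/
noncomputable def mk (s : ℕ → ℂ) (hs : ∀ j, ‖s j‖ ≤ 4 * (1 / 2) ^ j) : H :=
  ⟨s, by
    apply memℓp_gen
    have h2 : (2 : ENNReal).toReal = 2 := by norm_num
    rw [h2]
    refine Summable.of_nonneg_of_le (fun j => by positivity) (fun j => ?_)
      ((summable_geometric_of_lt_one (r := (1 / 4 : ℝ)) (by norm_num) (by norm_num)).mul_left 16)
    rw [Real.rpow_two]
    calc ‖s j‖ ^ 2 ≤ (4 * (1 / 2) ^ j) ^ 2 := pow_le_pow_left₀ (norm_nonneg _) (hs j) 2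
      _ = 16 * (1 / 4) ^ j := by
        rw [mul_pow, ← pow_mul, mul_comm j 2, pow_mul]; norm_num⟩

lemma mk_apply (s : ℕ → ℂ) (hs : ∀ j, ‖s j‖ ≤ 4 * (1 / 2) ^ j) (j : ℕ) : (mk s hs : H) j = s j := rfl

noncomputable def y1 (j : ℕ) : ℂ := if j % 4 = 1 then (1 / 2) ^ j else 0
noncomputable def y2 (j : ℕ) : ℂ := if j % 4 = 3 then (1 / 2) ^ j else 0
noncomputable def x1 (j : ℕ) : ℂ := if j = 1 then 2 else if j % 4 = 2 then (1 / 2) ^ j else
  if j % 4 = 0 ∧ j ≠ 0 then -4 * (1 / 2) ^ j else 0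
noncomputable def x2 (j : ℕ) : ℂ := if j % 4 = 2 then -4 * (1 / 2) ^ j else
  if j % 4 = 0 ∧ j ≠ 0 then (1 / 2) ^ j else 0

lemma bound_aux (j : ℕ) : ‖((1 / 2 : ℂ)) ^ j‖ ≤ 4 * (1 / 2) ^ j := by
  rw [norm_pow]
  have : ‖(1 / 2 : ℂ)‖ = 1 / 2 := by norm_num
  rw [this]
  have : (0 : ℝ) < (1 / 2) ^ j := by positivity
  linarith

lemma bound_aux4 (j : ℕ) : ‖-4 * ((1 / 2 : ℂ)) ^ j‖ ≤ 4 * (1 / 2) ^ j := by
  rw [norm_mul, norm_pow]
  have : ‖(1 / 2 : ℂ)‖ = 1 / 2 := by norm_num
  rw [this]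
  norm_num

lemma y1_bound (j : ℕ) : ‖y1 j‖ ≤ 4 * (1 / 2) ^ j := by
  unfold y1; split_ifs
  · exact bound_aux j
  · rw [norm_zero]; positivity
lemma y2_bound (j : ℕ) : ‖y2 j‖ ≤ 4 * (1 / 2) ^ j := by
  unfold y2; split_ifs
  · exact bound_aux j
  · rw [norm_zero]; positivity
lemma x1_bound (j : ℕ) : ‖x1 j‖ ≤ 4 * (1 / 2) ^ j := by
  unfold x1; split_ifs with h
  · subst h; norm_num
  · exact bound_aux j
  · exact bound_aux4 j
  · rw [norm_zero]; positivity
lemma x2_bound (j : ℕ) : ‖x2 j‖ ≤ 4 * (1 / 2) ^ j := by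
  unfold x2; split_ifs
  · exact bound_aux4 j
  · exact bound_aux j
  · rw [norm_zero]; positivity

noncomputable def Y1 : H := mk y1 y1_bound
noncomputable def Y2 : H := mk y2 y2_bound
noncomputable def X1 : H := mk x1 x1_bound
noncomputable def X2 : H := mk x2 x2_bound

lemma y1_conj (j : ℕ) : conj (y1 j) = y1 j := by
  unfold y1; split_ifs
  · rw [map_pow, map_div₀, map_one, map_ofNat]
  · simp
lemma y2_conj (j : ℕ) : conj (y2 j) = y2 j := by
  unfold y2; split_ifs
  · rw [map_pow, map_div₀, map_one, map_ofNat]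
  · simp

lemma four_half (n : ℕ) : (4 : ℂ) ^ n * (1 / 2) ^ n * (1 / 2) ^ n = 1 := by
  rw [← mul_pow, ← mul_pow]; norm_num

lemma c_even {j : ℕ} (h : j % 2 = 0) (h0 : j ≠ 0) : c j = 4 ^ j / 2 := by
  unfold c; rw [if_pos ⟨h, h0⟩]
lemma c_odd {j : ℕ} (h : j % 2 = 1) : c j = 0 := by
  unfold c; rw [if_neg (by omega)]
lemma y1_pos {j : ℕ} (h : j % 4 = 1) : y1 j = (1 / 2) ^ j := by unfold y1; rw [if_pos h]
lemma y1_neg {j : ℕ} (h : j % 4 ≠ 1) : y1 j = 0 := by unfold y1; rw [if_neg h]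
lemma y2_pos {j : ℕ} (h : j % 4 = 3) : y2 j = (1 / 2) ^ j := by unfold y2; rw [if_pos h]
lemma y2_neg {j : ℕ} (h : j % 4 ≠ 3) : y2 j = 0 := by unfold y2; rw [if_neg h]
lemma x1_two {j : ℕ} (h : j % 4 = 2) : x1 j = (1 / 2) ^ j := by
  unfold x1; rw [if_neg (by omega), if_pos h]
lemma x1_zero {j : ℕ} (h : j % 4 = 0) (h0 : j ≠ 0) : x1 j = -4 * (1 / 2) ^ j := by
  unfold x1; rw [if_neg (by omega), if_neg (by omega), if_pos ⟨h, h0⟩]
lemma x1_odd {j : ℕ} (h : j % 2 = 1) (h0 : j ≠ 1) : x1 j = 0 := by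
  unfold x1; rw [if_neg h0, if_neg (by omega), if_neg (by omega)]
lemma x2_two {j : ℕ} (h : j % 4 = 2) : x2 j = -4 * (1 / 2) ^ j := by
  unfold x2; rw [if_pos h]
lemma x2_zero {j : ℕ} (h : j % 4 = 0) (h0 : j ≠ 0) : x2 j = (1 / 2) ^ j := by
  unfold x2; rw [if_neg (by omega), if_pos ⟨h, h0⟩]
lemma x2_odd {j : ℕ} (h : j % 2 = 1) : x2 j = 0 := by
  unfold x2; rw [if_neg (by omega), if_neg (by omega)]

lemma cancel (n : ℕ) :
    (x1 (n + 1) - c (n + 2) * x1 (n + 2) - c n * x1 n) *
      (y1 (n + 1) + c (n + 1) * (y1 n + y1 (n + 2))) +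
    (x2 (n + 1) - c (n + 2) * x2 (n + 2) - c n * x2 n) *
      (y2 (n + 1) + c (n + 1) * (y2 n + y2 (n + 2))) = 0 := by
  have h4 : n % 4 = 0 ∨ n % 4 = 1 ∨ n % 4 = 2 ∨ n % 4 = 3 := by omega
  by_cases h0 : n = 0
  · subst h0
    norm_num [x1, x2, y1, y2, c]
  rcases h4 with h | h | h | h
  · rw [x1_odd (j := n + 1) (by omega) (by omega), x1_two (j := n + 2) (by omega),
      x1_zero h h0, y1_pos (j := n + 1) (by omega), c_odd (j := n + 1) (by omega),
      y2_neg (j := n + 1) (by omega), c_even (j := n + 2) (by omega) (by omega),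
      c_even (j := n) (by omega) h0]
    ring
  · rw [x1_two (j := n + 1) (by omega), x2_two (j := n + 1) (by omega),
      y1_neg (j := n + 1) (by omega), y2_neg (j := n + 1) (by omega),
      c_odd (j := n + 2) (by omega), c_odd (j := n) (by omega),
      c_even (j := n + 1) (by omega) (by omega), y1_pos h, y1_neg (j := n + 2) (by omega),
      y2_neg (j := n) (by omega), y2_pos (j := n + 2) (by omega)]
    ring
  · rw [x2_odd (j := n + 1) (by omega), x2_zero (j := n + 2) (by omega) (by omega),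
      x2_two h, y2_pos (j := n + 1) (by omega), c_odd (j := n + 1) (by omega),
      y1_neg (j := n + 1) (by omega), c_even (j := n + 2) (by omega) (by omega),
      c_even (j := n) (by omega) h0]
    ring
  · rw [x1_zero (j := n + 1) (by omega) (by omega), x2_zero (j := n + 1) (by omega) (by omega),
      y1_neg (j := n + 1) (by omega), y2_neg (j := n + 1) (by omega),
      c_odd (j := n + 2) (by omega), c_odd (j := n) (by omega),
      c_even (j := n + 1) (by omega) (by omega), y2_pos h, y2_neg (j := n + 2) (by omega),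
      y1_neg (j := n) (by omega), y1_pos (j := n + 2) (by omega)]
    ring

/-- the functional -/
noncomputable def Φ : (H →L[ℂ] H) →L[ℂ] ℂ :=
  (innerSL ℂ Y1).comp (ContinuousLinearMap.apply ℂ H X1) +
    (innerSL ℂ Y2).comp (ContinuousLinearMap.apply ℂ H X2) -
    (innerSL ℂ (e 0)).comp (ContinuousLinearMap.apply ℂ H (e 0))

lemma Φ_apply (B : H →L[ℂ] H) : Φ B = ⟪Y1, B X1⟫_ℂ + ⟪Y2, B X2⟫_ℂ - ⟪e 0, B (e 0)⟫_ℂ := rfl

lemma Φ_R (n : ℕ) : Φ (R n) = 0 := by
  rw [Φ_apply, R_apply, R_apply, R_e0, inner_zero_right, sub_zero, inner_smul_right,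
    inner_smul_right, inner_f, inner_f, F_apply, F_apply]
  have h1 : ∀ j, (Y1 : H) j = y1 j := fun j => rfl
  have h2 : ∀ j, (Y2 : H) j = y2 j := fun j => rfl
  have h3 : ∀ j, (X1 : H) j = x1 j := fun j => rfl
  have h4 : ∀ j, (X2 : H) j = x2 j := fun j => rfl
  simp only [h1, h2, h3, h4, y1_conj, y2_conj]
  exact cancel n

lemma inner_e (y : H) (j : ℕ) : ⟪y, (e j : H)⟫_ℂ = conj (y j) := by
  have := lp.inner_single_right (𝕜 := ℂ) (G := fun _ : ℕ => ℂ) j (1 : ℂ) y
  rw [e, this, RCLike.inner_apply', mul_one]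

lemma Φ_one : Φ 1 = 0 := by
  rw [Φ_apply]
  have e1 : ((1 : H →L[ℂ] H)) X1 = X1 := rfl
  have e2 : ((1 : H →L[ℂ] H)) X2 = X2 := rfl
  have e3 : ((1 : H →L[ℂ] H)) (e 0) = e 0 := rfl
  rw [e1, e2, e3, inner_e, e_apply, if_pos rfl, map_one]
  have h1 : ⟪Y1, X1⟫_ℂ = 1 := by
    have hs := hasSum_inner' Y1 X1
    have hz : ∀ j, j ≠ 1 → conj ((Y1 : H) j) * (X1 : H) j = 0 := by
      intro j hj
      change conj (y1 j) * x1 j = 0
      by_cases h : j % 2 = 1
      · rw [x1_odd h hj, mul_zero]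
      · rw [y1_neg (by omega), map_zero, zero_mul]
    have h2 := hs.unique (hasSum_single 1 hz)
    rw [h2]
    change conj (y1 1) * x1 1 = 1
    rw [y1_conj]
    norm_num [y1, x1]
  have h2 : ⟪Y2, X2⟫_ℂ = 0 := by
    have hs := hasSum_inner' Y2 X2
    have hz : ∀ j, conj ((Y2 : H) j) * (X2 : H) j = 0 := by
      intro j
      change conj (y2 j) * x2 j = 0
      by_cases h : j % 2 = 1
      · rw [x2_odd h, mul_zero]
      · rw [y2_neg (by omega), map_zero, zero_mul]
    simp only [hz] at hs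
    exact hs.unique hasSum_zero
  rw [h1, h2]; ring

lemma Φ_B₀ : Φ B₀ = 1 := by
  have h1 : B₀ = 1 - (ev 0).smulRight (e 0) := rfl
  rw [h1, map_sub, Φ_one, Φ_apply]
  have e1 : ((ev 0).smulRight (e 0) : H →L[ℂ] H) X1 = 0 := by
    change (X1 : H) 0 • e 0 = 0
    have : (X1 : H) 0 = 0 := by
      change x1 0 = 0
      simp [x1]
    rw [this, zero_smul]
  have e2 : ((ev 0).smulRight (e 0) : H →L[ℂ] H) X2 = 0 := by
    change (X2 : H) 0 • e 0 = 0
    have : (X2 : H) 0 = 0 := by
      change x2 0 = 0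
      simp [x2]
    rw [this, zero_smul]
  have e3 : ((ev 0).smulRight (e 0) : H →L[ℂ] H) (e 0) = e 0 := by
    change (e 0 : H) 0 • e 0 = e 0
    rw [e_apply, if_pos rfl, one_smul]
  rw [e1, e2, e3, inner_zero_right, inner_zero_right, inner_e, e_apply, if_pos rfl, map_one]
  ring

lemma Φ_aeval (p : Polynomial ℂ) : Φ (Polynomial.aeval A p) = 0 := by
  have h1 : Polynomial.aeval A p = A * Polynomial.aeval A p.divX +
      algebraMap ℂ (H →L[ℂ] H) (p.coeff 0) := by
    conv_lhs => rw [← Polynomial.divX_mul_X_add p]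
    rw [map_add, map_mul, Polynomial.aeval_X, Polynomial.aeval_C]
    congr 1
    exact (Polynomial.aeval_X (R := ℂ) A ▸ (Polynomial.commute_X p.divX).map (Polynomial.aeval A)).symm.eq ▸ rfl
  rw [h1, map_add, Algebra.algebraMap_eq_smul_one, map_smul, Φ_one, smul_zero, add_zero]
  exact kill R R_mul Φ Φ_R p.divX

theorem main : ¬ (∀ (H : Type) [NormedAddCommGroup H] [InnerProductSpace ℂ H] [CompleteSpace H]
      (A : H →L[ℂ] H),
      (∀ M : Submodule ℂ H, IsClosed (M : Set H) → (∀ x ∈ M, A x ∈ M) →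
        M = (Submodule.span ℂ {x : H | x ∈ M ∧ ∃ c : ℂ, A x = c • x}).topologicalClosure) →
      ∀ B : H →L[ℂ] H,
        (∀ M : Submodule ℂ H, IsClosed (M : Set H) → (∀ x ∈ M, A x ∈ M) →
          ∀ x ∈ M, B x ∈ M) →
        ∀ (s : Finset (H × H)) (ε : ℝ), 0 < ε →
          ∃ p : Polynomial ℂ, ∀ z ∈ s,
            ‖⟪(B - Polynomial.aeval A p) z.1, z.2⟫_ℂ‖ < ε) := by
  classical
  intro hall
  obtain ⟨p, hp⟩ := hall H A spanned B₀ B₀_inv {(X1, Y1), (X2, Y2), (e 0, e 0)} (1 / 3) (by norm_num)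
  have h1 := hp (X1, Y1) (by simp)
  have h2 := hp (X2, Y2) (by simp)
  have h3 := hp (e 0, e 0) (by simp)
  simp only at h1 h2 h3
  rw [norm_inner_symm] at h1 h2 h3
  have h4 : Φ (B₀ - Polynomial.aeval A p) = 1 := by
    rw [map_sub, Φ_B₀, Φ_aeval, sub_zero]
  rw [Φ_apply] at h4
  have h5 : ‖(1 : ℂ)‖ < 1 := by
    rw [← h4]
    refine (norm_sub_le _ _).trans_lt ?_
    have := norm_add_le ⟪Y1, (B₀ - Polynomial.aeval A p) X1⟫_ℂ ⟪Y2, (B₀ - Polynomial.aeval A p) X2⟫_ℂ
    linarith
  rw [norm_one] at h5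
  exact lt_irrefl _ h5

end concrete

end Pool.Agent.H18.Ace6cd
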