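import Mathlib

set_option autoImplicit false

namespace Pool.Agent.H18.B9b46b

universe u

/-- `A` is an f-ring: a lattice-ordered ring which is a subdirect product of totally ordered
rings, i.e. there is a family of surjective ring homomorphisms `φ i : A → B i` onto totally
ordered rings, jointly injective, each of them preserving the lattice operations. -/
def IsFRing (A : Type u) [CommRing A] [Lattice A] : Prop :=
  ∃ (ι : Type u) (B : ι → Type u) (_ : ∀ i, CommRing (B i)) (_ : ∀ i, LinearOrder (B i))
    (_ : ∀ i, IsOrderedRing (B i)) (φ : ∀ i, A →+* B i),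
    (∀ i, Function.Surjective (φ i)) ∧ (∀ a : A, (∀ i, φ i a = 0) → a = 0) ∧
    (∀ i (a b : A), φ i (a ⊔ b) = φ i a ⊔ φ i b) ∧
    (∀ i (a b : A), φ i (a ⊓ b) = φ i a ⊓ φ i b)

/-- The class `𝒞`: f-rings without nonzero nilpotent elements and with bounded inversion. -/
structure InClassC (A : Type u) [CommRing A] [Lattice A] : Prop where
  fRing : IsFRing A
  reduced : ∀ x : A, IsNilpotent x → x = 0
  boundedInversion : ∀ x : A, 1 < x → IsUnit x

/-- The local-global property. -/
def LocalGlobalProperty (A : Type u) [CommRing A] : Prop :=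
  ∀ (n : ℕ), 1 ≤ n → ∀ f : MvPolynomial (Fin n) A,
    (∀ (M : Ideal A) (_ : M.IsMaximal), ∃ x : Fin n → Localization.AtPrime M,
      IsUnit (MvPolynomial.aeval x f)) →
    ∃ y : Fin n → A, IsUnit (MvPolynomial.eval y f)

/-- Condition (b): for relatively prime `a, b ≥ 0` some `a - b u^2` is a unit. -/
def QuadraticUnitSubstitution (A : Type u) [CommRing A] [Lattice A] : Prop :=
  ∀ a b : A, 0 ≤ a → 0 ≤ b → Ideal.span {a} ⊔ Ideal.span {b} = ⊤ →
    ∃ u : A, IsUnit (a - b * u ^ 2)

end Pool.Agent.H18.B9b46b
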