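import Pool.Agent.H18.B9b46bDefs

set_option autoImplicit false

namespace Pool.Agent.H18.B9b46b

universe u

section Key

variable {B : Type u} [CommRing B] [LinearOrder B] [IsOrderedRing B]

lemma key (w v a b t : B) (hwv : w * v = 1) (hw : w = a ^ 2 - b ^ 2 * t ^ 2) :
    (((w ⊔ 0) * (v ⊔ -v)) * ((w ⊔ 0) * (v ⊔ -v)) = (w ⊔ 0) * (v ⊔ -v)) ∧
    1 ≤ (a ^ 2 * ((w ⊔ 0) * (v ⊔ -v)) + (1 - (w ⊔ 0) * (v ⊔ -v))) *
        ((v ⊔ -v) * ((w ⊔ 0) * (v ⊔ -v)) + (1 - (w ⊔ 0) * (v ⊔ -v))) ∧
    1 ≤ (b ^ 2 * t ^ 2 * (1 - (w ⊔ 0) * (v ⊔ -v)) + (w ⊔ 0) * (v ⊔ -v)) *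
        ((v ⊔ -v) * (1 - (w ⊔ 0) * (v ⊔ -v)) + (w ⊔ 0) * (v ⊔ -v)) := by
  by_cases h10 : (1 : B) = 0
  · have hsub : ∀ x y : B, x = y := fun x y => by
      rw [← mul_one x, ← mul_one y, h10, mul_zero, mul_zero]
    exact ⟨hsub _ _, (hsub _ _).le, (hsub _ _).le⟩
  have h01 : (0 : B) < 1 := lt_of_le_of_ne zero_le_one (Ne.symm h10)
  rcases lt_trichotomy w 0 with h | h | h
  · -- w < 0
    have hv : v < 0 := by
      by_contra hv
      have : w * v ≤ 0 := mul_nonpos_of_nonpos_of_nonneg h.le (not_lt.1 hv)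
      rw [hwv] at this
      exact absurd this (not_le.2 h01)
    have e1 : w ⊔ 0 = 0 := sup_eq_right.2 h.le
    rw [e1]
    have e2 : v ⊔ -v = -v := sup_eq_right.2 (hv.le.trans (neg_nonneg.2 hv.le))
    rw [e2]
    refine ⟨by ring, by simp, ?_⟩
    have h3 : 0 ≤ a ^ 2 * (-v) := mul_nonneg (sq_nonneg a) (neg_nonneg.2 hv.le)
    have h4 : b ^ 2 * t ^ 2 * (-v) = 1 + a ^ 2 * (-v) := by
      have : b ^ 2 * t ^ 2 = a ^ 2 - w := by rw [hw]; ring
      rw [this, ← hwv]; ring
    simp only [zero_mul, sub_zero, mul_one, add_zero]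
    rw [h4]; exact le_add_of_nonneg_right h3
  · exfalso
    rw [h, zero_mul] at hwv
    exact h10 hwv.symm
  · -- 0 < w
    have hv : 0 < v := by
      by_contra hv
      have : w * v ≤ 0 := mul_nonpos_of_nonneg_of_nonpos h.le (not_lt.1 hv)
      rw [hwv] at this
      exact absurd this (not_le.2 h01)
    have e1 : w ⊔ 0 = w := sup_eq_left.2 h.le
    have e2 : v ⊔ -v = v := sup_eq_left.2 ((neg_nonpos.2 hv.le).trans hv.le)
    rw [e1, e2, hwv]
    refine ⟨by ring, ?_, by simp⟩
    have h3 : 0 ≤ (b ^ 2 * t ^ 2) * v := mul_nonneg (mul_nonneg (sq_nonneg b) (sq_nonneg t)) hv.le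
    have h4 : a ^ 2 * v = 1 + (b ^ 2 * t ^ 2) * v := by
      have : a ^ 2 = w + b ^ 2 * t ^ 2 := by rw [hw]; ring
      rw [this, add_mul, hwv]
    simp only [mul_one, sub_self, add_zero]
    rw [h4]; exact le_add_of_nonneg_right h3

end Key

section Main

variable {A : Type u} [CommRing A] [Lattice A]

/-- separation by idempotents -/
lemma separate (hA : InClassC A) (hb : QuadraticUnitSubstitution A) (a b : A)
    (hab : IsCoprime a b) :
    ∃ e : A, e * e = e ∧ IsUnit (a * e + (1 - e)) ∧ IsUnit (b * (1 - e) + e) := by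
  obtain ⟨ι, B, i1, i2, i3, φ, -, hinj, hsup, hinf⟩ := hA.fRing
  have hle : ∀ x y : A, (∀ i, φ i x ≤ φ i y) → x ≤ y := by
    intro x y h
    rw [← sup_eq_right]
    have : x ⊔ y - y = 0 := by
      apply hinj
      intro i
      rw [map_sub, hsup, sup_eq_right.2 (h i), sub_self]
    exact sub_eq_zero.1 this
  have heq : ∀ x y : A, (∀ i, φ i x = φ i y) → x = y := by
    intro x y h
    apply sub_eq_zero.1
    apply hinj
    intro i
    rw [map_sub, h i, sub_self]
  have hunit : ∀ x : A, 1 ≤ x → IsUnit x := by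
    intro x hx
    rcases eq_or_lt_of_le hx with h | h
    · rw [← h]; exact isUnit_one
    · exact hA.boundedInversion x h
  have hsq : ∀ x : A, 0 ≤ x ^ 2 := by
    intro x
    apply hle
    intro i
    rw [map_zero, map_pow]
    exact sq_nonneg _
  have hcop : IsCoprime (a ^ 2) (b ^ 2) := hab.pow
  have htop : Ideal.span {a ^ 2} ⊔ Ideal.span {b ^ 2} = ⊤ := by
    rw [← Ideal.isCoprime_iff_sup_eq, Ideal.isCoprime_span_singleton_iff]
    exact hcop
  obtain ⟨t, ht⟩ := hb (a ^ 2) (b ^ 2) (hsq a) (hsq b) htop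
  obtain ⟨w, hw⟩ := ht
  set v : A := ((w⁻¹ : Aˣ) : A) with hv
  have hwv : (w : A) * v = 1 := w.mul_inv
  set e : A := ((w : A) ⊔ 0) * (v ⊔ -v) with he
  have hφe : ∀ i, φ i e = (φ i w ⊔ 0) * (φ i v ⊔ -φ i v) := by
    intro i
    rw [he, map_mul, hsup, hsup, map_zero, map_neg]
  have hφv : ∀ i, φ i (v ⊔ -v) = φ i v ⊔ -φ i v := by
    intro i
    rw [hsup, map_neg]
  have hk : ∀ i, _ := fun i => key (φ i w) (φ i v) (φ i a) (φ i b) (φ i t)
    (by rw [← map_mul, hwv, map_one])
    (by rw [hw, map_sub, map_mul, map_pow, map_pow, map_pow])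
  refine ⟨e, ?_, ?_, ?_⟩
  · apply heq
    intro i
    rw [map_mul, hφe]
    exact (hk i).1
  · have h1 : (1 : A) ≤ (a ^ 2 * e + (1 - e)) * ((v ⊔ -v) * e + (1 - e)) := by
      apply hle
      intro i
      have := (hk i).2.1
      rw [← hφe] at this
      simpa only [map_one, map_mul, map_add, map_sub, map_pow, hφv] using this
    have hee : e * e = e := by
      apply heq
      intro i
      rw [map_mul, hφe]
      exact (hk i).1
    have h2 := isUnit_of_mul_isUnit_left (hunit _ h1)
    have h3 : a ^ 2 * e + (1 - e) = (a * e + (1 - e)) * (a * e + (1 - e)) := by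
      linear_combination (-a ^ 2 + 2 * a - 1) * hee
    rw [h3] at h2
    exact isUnit_of_mul_isUnit_left h2
  · have h1 : (1 : A) ≤ (b ^ 2 * t ^ 2 * (1 - e) + e) * ((v ⊔ -v) * (1 - e) + e) := by
      apply hle
      intro i
      have := (hk i).2.2
      rw [← hφe] at this
      simpa only [map_one, map_mul, map_add, map_sub, map_pow, hφv] using this
    have hee : e * e = e := by
      apply heq
      intro i
      rw [map_mul, hφe]
      exact (hk i).1
    have h2 := isUnit_of_mul_isUnit_left (hunit _ h1)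
    have h3 : b ^ 2 * t ^ 2 * (1 - e) + e =
        (b * (1 - e) + e) * (b * t ^ 2 * (1 - e) + e) := by
      linear_combination (-b ^ 2 * t ^ 2 + b + b * t ^ 2 - 1) * hee
    rw [h3] at h2
    exact isUnit_of_mul_isUnit_left h2

omit [Lattice A] in
lemma eval_idem {n : ℕ} (e : A) (hee : e * e = e) (y k : Fin n → A) (h : ∀ i, e * y i = e * k i)
    (f : MvPolynomial (Fin n) A) :
    e * MvPolynomial.eval y f = e * MvPolynomial.eval k f := by
  induction f using MvPolynomial.induction_on with
  | C a => simp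
  | add p q hp hq => simp only [map_add, mul_add, hp, hq]
  | mul_X p i hp =>
    simp only [map_mul, MvPolynomial.eval_X]
    calc e * (MvPolynomial.eval y p * y i)
        = (e * MvPolynomial.eval y p) * (e * y i) := by linear_combination (-MvPolynomial.eval y p * y i) * hee
      _ = (e * MvPolynomial.eval k p) * (e * k i) := by rw [hp, h i]
      _ = e * (MvPolynomial.eval k p * k i) := by linear_combination (MvPolynomial.eval k p * k i) * hee

lemma glue (hA : InClassC A) (hb : QuadraticUnitSubstitution A) {n : ℕ}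
    (f : MvPolynomial (Fin n) A) (s : Finset (Fin n → A)) :
    ∀ g : A, g * g = g → ∀ b ∈ Ideal.span ((fun k => MvPolynomial.eval k f) '' (s : Set (Fin n → A))),
      IsUnit (b * g + (1 - g)) → ∃ y : Fin n → A, IsUnit (MvPolynomial.eval y f * g + (1 - g)) := by
  classical
  induction s using Finset.induction_on with
  | empty =>
    intro g hg b hb0 hu
    have hb0' : b = 0 := by simpa using hb0
    rw [hb0', zero_mul, zero_add] at hu
    have h0 : g = 0 := by
      have : (1 - g) * g = 0 := by linear_combination -hg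
      exact (hu.mul_right_eq_zero).1 this
    refine ⟨fun _ => 0, ?_⟩
    rw [h0]
    simp
  | insert k s hk ih =>
    intro g hg b hbm hu
    rw [Finset.coe_insert, Set.image_insert_eq, Ideal.mem_span_insert] at hbm
    obtain ⟨r, b', hb', hbr⟩ := hbm
    set fk := MvPolynomial.eval k f with hfk
    have hcop : IsCoprime (fk * g + (1 - g)) (b' * g) := by
      obtain ⟨c, hc⟩ := hu.exists_right_inv
      refine ⟨c * (r * g + (1 - g)), c, ?_⟩
      rw [hbr] at hc
      linear_combination hc + (c * fk * r - c * fk - c * r + c) * hg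
    obtain ⟨e, hee, hu1, hu2⟩ := separate hA hb _ _ hcop
    have hz : (1 - g) * (1 - e) = 0 := by
      have : (b' * g * (1 - e) + e) * ((1 - g) * (1 - e)) = 0 := by
        linear_combination (-b' * (1 - e) ^ 2) * hg + (g - 1) * hee
      exact (hu2.mul_right_eq_zero).1 this
    have hg' : (g * (1 - e)) * (g * (1 - e)) = g * (1 - e) := by
      linear_combination (1 - e) ^ 2 * hg + g * hee
    obtain ⟨y', hy'⟩ := ih (g * (1 - e)) hg' b' hb' (by
      have : b' * (g * (1 - e)) + (1 - g * (1 - e)) = b' * g * (1 - e) + e := by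
        linear_combination hz
      rw [this]; exact hu2)
    refine ⟨fun i => k i * e + y' i * (1 - e), ?_⟩
    have hy1 : e * MvPolynomial.eval (fun i => k i * e + y' i * (1 - e)) f = e * fk := by
      apply eval_idem e hee
      intro i
      linear_combination (k i - y' i) * hee
    have h1e : (1 - e) * (1 - e) = 1 - e := by linear_combination hee
    have hy2 : (1 - e) * MvPolynomial.eval (fun i => k i * e + y' i * (1 - e)) f
        = (1 - e) * MvPolynomial.eval y' f := by
      apply eval_idem (1 - e) h1e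
      intro i
      linear_combination (y' i - k i) * hee
    set F := MvPolynomial.eval (fun i => k i * e + y' i * (1 - e)) f with hF
    set F' := MvPolynomial.eval y' f with hF'
    have hprod : F * g + (1 - g) =
        ((fk * g + (1 - g)) * e + (1 - e)) * (F' * (g * (1 - e)) + (1 - g * (1 - e))) := by
      have hsum : F = e * fk + (1 - e) * F' := by linear_combination hy1 + hy2
      rw [hsum]
      linear_combination (g ^ 2 * (1 - fk) * (1 - F')) * hee
    rw [hprod]
    exact hu1.mul hy'

lemma natCast_isUnit (hA : InClassC A) (m : ℕ) : IsUnit ((m + 1 : ℕ) : A) := by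
  obtain ⟨ι, B, i1, i2, i3, φ, -, hinj, hsup, hinf⟩ := hA.fRing
  have hle : ∀ x y : A, (∀ i, φ i x ≤ φ i y) → x ≤ y := by
    intro x y h
    rw [← sup_eq_right]
    have : x ⊔ y - y = 0 := by
      apply hinj
      intro i
      rw [map_sub, hsup, sup_eq_right.2 (h i), sub_self]
    exact sub_eq_zero.1 this
  have h1 : (1 : A) ≤ ((m + 1 : ℕ) : A) := by
    apply hle
    intro i
    rw [map_one, map_natCast, Nat.cast_add, Nat.cast_one]
    exact le_add_of_nonneg_left (Nat.cast_nonneg m)
  rcases eq_or_lt_of_le h1 with h | h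
  · rw [← h]; exact isUnit_one
  · exact hA.boundedInversion _ h

lemma b_imp_a (hA : InClassC A) (hb : QuadraticUnitSubstitution A) : LocalGlobalProperty A := by
  classical
  intro n _ f hf
  have htop : Ideal.span (Set.range fun k : Fin n → ℕ =>
      MvPolynomial.eval (fun i => (k i : A)) f) = ⊤ := by
    by_contra hne
    obtain ⟨M, hM, hle⟩ := Ideal.exists_le_maximal _ hne
    obtain ⟨x, hx⟩ := hf M hM
    let _ : Field (A ⧸ M) := Ideal.Quotient.field M
    have hmem : ∀ k : Fin n → ℕ, MvPolynomial.eval (fun i => (k i : A)) f ∈ M := fun k =>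
      hle (Ideal.subset_span ⟨k, rfl⟩)
    have hchar : CharZero (A ⧸ M) := by
      apply charZero_of_inj_zero
      intro p h0
      by_contra hp
      obtain ⟨m, rfl⟩ := Nat.exists_eq_succ_of_ne_zero hp
      have hu : IsUnit ((m + 1 : ℕ) : A) := natCast_isUnit hA m
      have h2 := hu.map (Ideal.Quotient.mk M)
      rw [map_natCast] at h2
      exact h2.ne_zero h0
    have hzero : MvPolynomial.map (Ideal.Quotient.mk M) f = 0 := by
      apply MvPolynomial.funext_set (fun _ => Set.range (Nat.cast : ℕ → A ⧸ M))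
        (fun _ => Set.infinite_range_of_injective Nat.cast_injective)
      intro z hz
      rw [map_zero]
      choose k hk using fun i => (Set.mem_univ_pi.1 hz) i
      have hzk : z = fun i => Ideal.Quotient.mk M (k i : A) := by
        funext i
        rw [map_natCast, hk i]
      rw [hzk]
      have h3 : MvPolynomial.eval (fun i => Ideal.Quotient.mk M (k i : A))
          (MvPolynomial.map (Ideal.Quotient.mk M) f) =
          Ideal.Quotient.mk M (MvPolynomial.eval (fun i => (k i : A)) f) := by
        rw [MvPolynomial.eval_map]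
        exact (MvPolynomial.eval₂_comp_left (Ideal.Quotient.mk M) (RingHom.id A) _ f).symm
      rw [h3]
      exact Ideal.Quotient.eq_zero_iff_mem.2 (hmem k)
    have hcoeff : ∀ d, MvPolynomial.coeff d f ∈ M := by
      intro d
      have := congrArg (MvPolynomial.coeff d) hzero
      rw [MvPolynomial.coeff_map, MvPolynomial.coeff_zero] at this
      exact Ideal.Quotient.eq_zero_iff_mem.1 this
    have hin : MvPolynomial.aeval x f ∈ IsLocalRing.maximalIdeal (Localization.AtPrime M) := by
      rw [MvPolynomial.aeval_def, MvPolynomial.eval₂_eq']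
      apply Ideal.sum_mem
      intro d _
      apply Ideal.mul_mem_right
      rw [← Localization.AtPrime.map_eq_maximalIdeal]
      exact Ideal.mem_map_of_mem _ (hcoeff d)
    exact (IsLocalRing.mem_maximalIdeal _).1 hin hx
  have h1 : (1 : A) ∈ Ideal.span (Set.range fun k : Fin n → ℕ =>
      MvPolynomial.eval (fun i => (k i : A)) f) := by rw [htop]; exact Submodule.mem_top
  obtain ⟨T, hT, hT1⟩ := Submodule.mem_span_finite_of_mem_span h1
  have hex : ∀ z ∈ T, ∃ y : Fin n → A, MvPolynomial.eval y f = z := by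
    intro z hz
    obtain ⟨k, hk⟩ := hT hz
    exact ⟨_, hk⟩
  choose! Y hY using hex
  have hsub : (1 : A) ∈ Ideal.span ((fun k => MvPolynomial.eval k f) ''
      ((T.image Y : Finset (Fin n → A)) : Set (Fin n → A))) := by
    refine Ideal.span_mono ?_ hT1
    intro z hz
    refine ⟨Y z, ?_, hY z hz⟩
    rw [Finset.coe_image]
    exact ⟨z, hz, rfl⟩
  obtain ⟨y, hy⟩ := glue hA hb f (T.image Y) 1 (one_mul 1) 1 hsub (by simp)
  exact ⟨y, by simpa using hy⟩

lemma a_imp_b (hA : InClassC A) (ha : LocalGlobalProperty A) : QuadraticUnitSubstitution A := by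
  intro a b _ _ hab
  obtain ⟨y, hy⟩ := ha 1 le_rfl (MvPolynomial.C a - MvPolynomial.C b * MvPolynomial.X 0 ^ 2) (by
    intro M hM
    by_cases haM : a ∈ M
    · have hbM : b ∉ M := by
        intro hbM
        apply hM.ne_top
        rw [eq_top_iff, ← hab]
        exact sup_le ((Ideal.span_singleton_le_iff_mem M).2 haM)
          ((Ideal.span_singleton_le_iff_mem M).2 hbM)
      refine ⟨fun _ => 1, ?_⟩
      have : MvPolynomial.aeval (fun _ : Fin 1 => (1 : Localization.AtPrime M))
          (MvPolynomial.C a - MvPolynomial.C b * MvPolynomial.X 0 ^ 2) =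
          algebraMap A (Localization.AtPrime M) (a - b) := by
        simp [MvPolynomial.algHom_C]
      rw [this]
      apply IsLocalization.map_units (Localization.AtPrime M) (⟨a - b, ?_⟩ : M.primeCompl)
      intro h
      apply hbM
      have := M.sub_mem haM h
      simpa using this
    · refine ⟨fun _ => 0, ?_⟩
      have : MvPolynomial.aeval (fun _ : Fin 1 => (0 : Localization.AtPrime M))
          (MvPolynomial.C a - MvPolynomial.C b * MvPolynomial.X 0 ^ 2) =
          algebraMap A (Localization.AtPrime M) a := by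
        simp [MvPolynomial.algHom_C]
      rw [this]
      exact IsLocalization.map_units (Localization.AtPrime M) (⟨a, haM⟩ : M.primeCompl))
  refine ⟨y 0, ?_⟩
  simpa using hy

end Main

end Pool.Agent.H18.B9b46b
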