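import Mathlib

set_option autoImplicit false

namespace Pool.Agent.H18.BS

universe u

section
variable {H : Type u} [NormedAddCommGroup H] [InnerProductSpace ℂ H]

/-- The lattice join of two closed subspaces: the closed linear span of their union. -/
def join (M N : Submodule ℂ H) : Submodule ℂ H := (M ⊔ N).topologicalClosure

/-- A Boolean algebra of subspaces of `H`: a family of closed subspaces containing `0` and `H`,
closed under intersection and closed linear span of two members, distributive, complemented. -/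
structure IsBoolAlg (E : Set (Submodule ℂ H)) : Prop where
  closed : ∀ M ∈ E, IsClosed (M : Set H)
  bot_mem : ⊥ ∈ E
  top_mem : ⊤ ∈ E
  inf_mem : ∀ M ∈ E, ∀ N ∈ E, M ⊓ N ∈ E
  join_mem : ∀ M ∈ E, ∀ N ∈ E, join M N ∈ E
  distrib : ∀ M ∈ E, ∀ N ∈ E, ∀ L ∈ E, M ⊓ join N L = join (M ⊓ N) (M ⊓ L)
  compl : ∀ M ∈ E, ∃ N ∈ E, M ⊓ N = ⊥ ∧ join M N = ⊤

/-- Completeness in the Boolean sense: every subfamily has a supremum in `E` for inclusion. -/
def IsCompleteBA (E : Set (Submodule ℂ H)) : Prop :=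
  ∀ S : Set (Submodule ℂ H), S ⊆ E →
    ∃ J ∈ E, (∀ M ∈ S, M ≤ J) ∧ ∀ T ∈ E, (∀ M ∈ S, M ≤ T) → J ≤ T

/-- The bounded operators leaving every member of `E` invariant. -/
def Alg (E : Set (Submodule ℂ H)) : Set (H →L[ℂ] H) := {A | ∀ M ∈ E, ∀ x ∈ M, A x ∈ M}

/-- The closed subspaces invariant under every operator of `S`. -/
def Lat (S : Set (H →L[ℂ] H)) : Set (Submodule ℂ H) :=
  {M | IsClosed (M : Set H) ∧ ∀ A ∈ S, ∀ x ∈ M, A x ∈ M}

/-- Reflexivity: `E = Lat Alg E`. -/
def IsReflexive (E : Set (Submodule ℂ H)) : Prop := E = Lat (Alg E)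

end

/-- Lattice isomorphism of two families of subspaces (of possibly different Hilbert spaces). -/
def LatticeIso {H : Type} [NormedAddCommGroup H] [InnerProductSpace ℂ H] {K : Type u}
    [NormedAddCommGroup K] [InnerProductSpace ℂ K] (E : Set (Submodule ℂ H))
    (F : Set (Submodule ℂ K)) : Prop :=
  ∃ φ : Submodule ℂ H → Submodule ℂ K, Set.BijOn φ E F ∧
    (∀ M ∈ E, ∀ N ∈ E, φ (M ⊓ N) = φ M ⊓ φ N) ∧
    (∀ M ∈ E, ∀ N ∈ E, φ (join M N) = join (φ M) (φ N))

end Pool.Agent.H18.BS
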