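import Mathlib
import Pool.Agent.H18.BSDefs

set_option autoImplicit false
open Filter Topology

namespace Pool.Agent.H18.BS

/-- the Baire space -/
abbrev XX : Type := ℕ → ℕ

/-- the Hilbert space -/
abbrev HH : Type := lp (fun _ : XX => ℂ) 2

/-- vectors supported in `A` -/
def sub (A : Set XX) : Submodule ℂ HH where
  carrier := {f | ∀ q, q ∉ A → (f : XX → ℂ) q = 0}
  add_mem' := by
    intro f g hf hg q hq
    rw [lp.coeFn_add, Pi.add_apply, hf q hq, hg q hq, add_zero]
  zero_mem' := by
    intro q _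
    rw [lp.coeFn_zero, Pi.zero_apply]
  smul_mem' := by
    intro c f hf q hq
    rw [lp.coeFn_smul, Pi.smul_apply, hf q hq, smul_zero]

theorem mem_sub {A : Set XX} {f : HH} : f ∈ sub A ↔ ∀ q, q ∉ A → (f : XX → ℂ) q = 0 := Iff.rfl

theorem sub_closed (A : Set XX) : IsClosed (sub A : Set HH) := by
  have : (sub A : Set HH) = ⋂ q, ⋂ (_ : q ∉ A), {f : HH | (f : XX → ℂ) q = 0} := by
    ext f
    simp only [Set.mem_iInter, Set.mem_setOf_eq, SetLike.mem_coe, mem_sub]
  rw [this]
  refine isClosed_iInter fun q => isClosed_iInter fun _ => ?_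
  have hc : Continuous fun f : HH => (f : XX → ℂ) q :=
    (lp.evalCLM ℂ (fun _ : XX => ℂ) 2 q).continuous
  exact isClosed_eq hc continuous_const

theorem sub_inf (A B : Set XX) : sub A ⊓ sub B = sub (A ∩ B) := by
  ext f
  rw [Submodule.mem_inf, mem_sub, mem_sub, mem_sub]
  constructor
  · rintro ⟨h1, h2⟩ q hq
    by_cases hA : q ∈ A
    · exact h2 q fun hB => hq ⟨hA, hB⟩
    · exact h1 q hA
  · intro h
    exact ⟨fun q hq => h q fun hh => hq hh.1, fun q hq => h q fun hh => hq hh.2⟩

/-- restriction of a vector -/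
theorem exists_restr (A : Set XX) (f : HH) : ∃ g : HH, ∀ q, (g : XX → ℂ) q =
    A.indicator (f : XX → ℂ) q := by
  have hf := lp.memℓp f
  have : Memℓp (A.indicator (f : XX → ℂ)) 2 := by
    rw [memℓp_gen_iff (by norm_num)] at hf ⊢
    refine Summable.of_nonneg_of_le (fun q => by positivity) (fun q => ?_) hf
    refine Real.rpow_le_rpow (norm_nonneg _) ?_ (by norm_num)
    exact norm_indicator_le_norm_self _ _
  exact ⟨⟨_, this⟩, fun q => rfl⟩

theorem sub_mono {A B : Set XX} (h : A ⊆ B) : sub A ≤ sub B :=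
  fun _ hf q hq => hf q fun hA => hq (h hA)

theorem sub_join (A B : Set XX) : join (sub A) (sub B) = sub (A ∪ B) := by
  refine le_antisymm ?_ ?_
  · refine Submodule.topologicalClosure_minimal _ ?_ (sub_closed _)
    exact sup_le (sub_mono Set.subset_union_left) (sub_mono Set.subset_union_right)
  · intro f hf
    refine Submodule.le_topologicalClosure _ ?_
    obtain ⟨g, hg⟩ := exists_restr A f
    have h1 : g ∈ sub A := fun q hq => by rw [hg, Set.indicator_of_notMem hq]
    have h2 : f - g ∈ sub B := by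
      intro q hq
      rw [lp.coeFn_sub, Pi.sub_apply, hg]
      by_cases hA : q ∈ A
      · rw [Set.indicator_of_mem hA, sub_self]
      · rw [Set.indicator_of_notMem hA, sub_zero]
        exact hf q fun hh => hh.elim hA hq
    have : f = g + (f - g) := by abel
    rw [this]
    exact Submodule.add_mem_sup h1 h2

theorem sub_le_iff {A B : Set XX} : sub A ≤ sub B ↔ A ⊆ B := by
  classical
  constructor
  · intro h q hq
    by_contra hB
    have h1 : (lp.single 2 q (1 : ℂ) : HH) ∈ sub A := by
      intro r hr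
      rw [lp.single_apply, Pi.single_eq_of_ne]
      rintro rfl
      exact hr hq
    have h2 := h h1 q hB
    rw [lp.single_apply, Pi.single_eq_same] at h2
    exact one_ne_zero h2
  · exact sub_mono

theorem sub_empty : sub ∅ = ⊥ := by
  rw [eq_bot_iff]
  intro f hf
  rw [Submodule.mem_bot]
  ext q
  rw [lp.coeFn_zero, Pi.zero_apply]
  exact hf q (Set.notMem_empty q)

theorem sub_univ : sub Set.univ = ⊤ := by
  rw [eq_top_iff]
  intro f _ q hq
  exact absurd (Set.mem_univ q) hq

instance nebot (q : XX) : (𝓝 q ⊓ residual XX).NeBot := by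
  rw [inf_neBot_iff]
  intro s hs t ht
  have hd : Dense t := dense_of_mem_residual ht
  rw [Set.inter_comm]
  exact hd.inter_nhds_nonempty hs

/-- generic ultrafilter near `q` -/
noncomputable def UU (q : XX) : Ultrafilter XX := Ultrafilter.of (𝓝 q ⊓ residual XX)

theorem UU_nhds {q : XX} {s : Set XX} (h : s ∈ 𝓝 q) : s ∈ UU q :=
  Ultrafilter.of_le _ (Filter.mem_inf_of_left h)

theorem UU_dense {q : XX} {s : Set XX} (ho : IsOpen s) (hd : Dense s) : s ∈ UU q :=
  Ultrafilter.of_le _ (Filter.mem_inf_of_right (residual_of_dense_open ho hd))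

/-- the points which see the open set `U` -/
def AA (U : Set XX) : Set XX := {q | U ∈ UU q}

theorem AA_inter (U V : Set XX) : AA (U ∩ V) = AA U ∩ AA V := by
  ext q
  exact Filter.inter_mem_iff

theorem AA_union (U V : Set XX) : AA (U ∪ V) = AA U ∪ AA V := by
  ext q
  exact Ultrafilter.union_mem_iff

theorem AA_empty : AA ∅ = ∅ := by
  ext q
  simp [AA]

theorem AA_univ : AA Set.univ = Set.univ := by
  ext q
  simp only [AA, Set.mem_setOf_eq, Set.mem_univ, iff_true]
  exact Filter.univ_mem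

theorem dense_aux (V : Set XX) : Dense (V ∪ (closure V)ᶜ) := by
  intro x
  rw [closure_union]
  by_cases h : x ∈ closure V
  · exact Or.inl h
  · exact Or.inr (subset_closure h)

theorem AA_subset_iff {U V : Set XX} (hU : IsOpen U) (hV : IsOpen V) :
    AA U ⊆ AA V ↔ U ⊆ closure V := by
  constructor
  · intro h q hq
    by_contra hc
    have h1 : q ∈ AA U := UU_nhds (hU.mem_nhds hq)
    have h2 : V ∈ UU q := h h1
    have h3 : (closure V)ᶜ ∈ UU q := UU_nhds (isClosed_closure.isOpen_compl.mem_nhds hc)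
    have h4 : V ∩ (closure V)ᶜ ∈ UU q := Filter.inter_mem h2 h3
    have h5 : V ∩ (closure V)ᶜ = ∅ := by
      ext x
      simp only [Set.mem_inter_iff, Set.mem_compl_iff, Set.mem_empty_iff_false, iff_false, not_and,
        not_not]
      exact fun hx => subset_closure hx
    rw [h5] at h4
    exact Filter.empty_notMem _ h4
  · intro h q hq
    have h1 : U ∈ UU q := hq
    have h2 : V ∪ (closure V)ᶜ ∈ UU q :=
      UU_dense (hV.union isClosed_closure.isOpen_compl) (dense_aux V)
    refine Filter.mem_of_superset (Filter.inter_mem h1 h2) ?_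
    rintro x ⟨hxU, hxV | hxV⟩
    · exact hxV
    · exact absurd (h hxU) hxV

/-- the family -/
def EE : Set (Submodule ℂ HH) := {M | ∃ U : Set XX, IsOpen U ∧ M = sub (AA U)}

theorem EE_boolAlg : IsBoolAlg EE where
  closed := by
    rintro M ⟨U, -, rfl⟩
    exact sub_closed _
  bot_mem := ⟨∅, isOpen_empty, by rw [AA_empty, sub_empty]⟩
  top_mem := ⟨Set.univ, isOpen_univ, by rw [AA_univ, sub_univ]⟩
  inf_mem := by
    rintro M ⟨U, hU, rfl⟩ N ⟨V, hV, rfl⟩
    exact ⟨U ∩ V, hU.inter hV, by rw [sub_inf, AA_inter]⟩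
  join_mem := by
    rintro M ⟨U, hU, rfl⟩ N ⟨V, hV, rfl⟩
    exact ⟨U ∪ V, hU.union hV, by rw [sub_join, AA_union]⟩
  distrib := by
    rintro M ⟨U, hU, rfl⟩ N ⟨V, hV, rfl⟩ L ⟨W, hW, rfl⟩
    rw [sub_join, sub_inf, sub_inf, sub_inf, sub_join, Set.inter_union_distrib_left]
  compl := by
    rintro M ⟨U, hU, rfl⟩
    refine ⟨sub (AA (closure U)ᶜ), ⟨_, isClosed_closure.isOpen_compl, rfl⟩, ?_, ?_⟩
    · rw [sub_inf, ← AA_inter]
      have : U ∩ (closure U)ᶜ = ∅ := by
        ext x
        simp only [Set.mem_inter_iff, Set.mem_compl_iff, Set.mem_empty_iff_false, iff_false,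
          not_and, not_not]
        exact fun hx => subset_closure hx
      rw [this, AA_empty, sub_empty]
    · rw [sub_join, ← AA_union]
      have : AA (U ∪ (closure U)ᶜ) = Set.univ := by
        ext q
        simp only [AA, Set.mem_setOf_eq, Set.mem_univ, iff_true]
        exact UU_dense (hU.union isClosed_closure.isOpen_compl) (dense_aux U)
      rw [this, sub_univ]

theorem EE_le_iff {U V : Set XX} (hU : IsOpen U) (hV : IsOpen V) :
    sub (AA U) ≤ sub (AA V) ↔ U ⊆ closure V := by
  rw [sub_le_iff, AA_subset_iff hU hV]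

theorem EE_complete : IsCompleteBA EE := by
  intro S hS
  set W : Set XX := ⋃₀ {U | IsOpen U ∧ sub (AA U) ∈ S} with hW
  have hWo : IsOpen W := isOpen_sUnion fun U hU => hU.1
  refine ⟨sub (AA W), ⟨W, hWo, rfl⟩, ?_, ?_⟩
  · intro M hM
    obtain ⟨U, hU, rfl⟩ := hS hM
    rw [EE_le_iff hU hWo]
    exact (Set.subset_sUnion_of_mem (show U ∈ {U | IsOpen U ∧ sub (AA U) ∈ S} from ⟨hU, hM⟩)).trans
      subset_closure
  · rintro T ⟨V, hV, rfl⟩ hT
    rw [EE_le_iff hWo hV]
    refine Set.sUnion_subset fun U hU => ?_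
    rw [← EE_le_iff hU.1 hV]
    exact hT _ hU.2

end Pool.Agent.H18.BS
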