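import Mathlib
import Pool.Agent.H18.BSDefs
import Pool.Agent.H18.BSA

set_option autoImplicit false
open Filter Topology

namespace Pool.Agent.H18.BS

universe u

/-- the clopen sets `x m ≤ n` -/
def EC (m n : ℕ) : Set XX := {x | x m ≤ n}

theorem EC_clopen (m n : ℕ) : IsClopen (EC m n) := by
  have h : EC m n = (fun x : XX => x m) ⁻¹' (Set.Iic n) := rfl
  rw [h]
  exact (isClopen_discrete (Set.Iic n)).preimage (continuous_apply m)

theorem EC_iUnion (m : ℕ) (x : XX) : ∃ n, x ∈ EC m n := ⟨x m, show x m ≤ x m from le_rfl⟩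

theorem EC_nowhere {W : Set XX} (hW : IsOpen W) (f : ℕ → ℕ) (h : ∀ m, W ⊆ EC m (f m)) :
    W = ∅ := by
  by_contra hne
  obtain ⟨q, hq⟩ := Set.nonempty_iff_ne_empty.2 hne
  have ht : Tendsto (fun k : ℕ => Function.update q k (f k + 1)) atTop (𝓝 q) := by
    rw [tendsto_pi_nhds]
    intro i
    refine tendsto_const_nhds.congr' ?_
    filter_upwards [eventually_gt_atTop i] with k hk
    rw [Function.update_of_ne (by omega)]
  obtain ⟨k, hk⟩ := (ht.eventually (hW.mem_nhds hq)).exists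
  have h1 := h k hk
  have h2 : (Function.update q k (f k + 1)) k ≤ f k := h1
  rw [Function.update_self] at h2
  omega

section
variable {K : Type u} [NormedAddCommGroup K] [InnerProductSpace ℂ K]

theorem iInf_mem {F : Set (Submodule ℂ K)} (hR : IsReflexive F) (G : ℕ → Submodule ℂ K)
    (hG : ∀ n, G n ∈ F) : (⨅ n, G n) ∈ F := by
  rw [hR]
  have h : ∀ n, G n ∈ Lat (Alg F) := fun n => by
    have := hG n
    rwa [hR] at this
  refine ⟨?_, ?_⟩
  · rw [Submodule.coe_iInf]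
    exact isClosed_iInter fun n => (h n).1
  · intro A hA x hx
    rw [Submodule.mem_iInf] at hx ⊢
    exact fun n => hA (G n) (hG n) x (hx n)

theorem iSup_mem {F : Set (Submodule ℂ K)} (hR : IsReflexive F) (G : ℕ → Submodule ℂ K)
    (hG : ∀ n, G n ∈ F) : (⨆ n, G n).topologicalClosure ∈ F := by
  rw [hR]
  refine ⟨Submodule.isClosed_topologicalClosure _, ?_⟩
  intro A hA
  have h1 : (⨆ n, G n).topologicalClosure ≤
      ((⨆ n, G n).topologicalClosure).comap (A : K →ₗ[ℂ] K) := by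
    refine Submodule.topologicalClosure_minimal _ ?_ ?_
    · refine iSup_le fun n x hx => ?_
      rw [Submodule.mem_comap]
      exact Submodule.le_topologicalClosure _ (Submodule.mem_iSup_of_mem n (hA (G n) (hG n) x hx))
    · exact (Submodule.isClosed_topologicalClosure _).preimage A.continuous
  exact fun x hx => h1 hx

end

theorem no_iso {K : Type u} [NormedAddCommGroup K] [InnerProductSpace ℂ K] [CompleteSpace K]
    (F : Set (Submodule ℂ K)) (hB : IsBoolAlg F) (hR : IsReflexive F) : ¬ LatticeIso EE F := by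
  rintro ⟨φ, hbij, hinf, -⟩
  have hmem : ∀ M ∈ EE, φ M ∈ F := fun M hM => hbij.mapsTo hM
  have hle : ∀ M ∈ EE, ∀ N ∈ EE, (φ M ≤ φ N ↔ M ≤ N) := by
    intro M hM N hN
    rw [← inf_eq_left, ← inf_eq_left (a := M), ← hinf M hM N hN]
    exact ⟨fun h => hbij.injOn (EE_boolAlg.inf_mem M hM N hN) hM h, fun h => by rw [h]⟩
  have hsurj : ∀ G ∈ F, ∃ W : Set XX, IsOpen W ∧ φ (sub (AA W)) = G := by
    intro G hG
    obtain ⟨M, ⟨W, hW, rfl⟩, hM⟩ := hbij.surjOn hG
    exact ⟨W, hW, hM⟩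
  have hin : ∀ W : Set XX, IsOpen W → sub (AA W) ∈ EE := fun W hW => ⟨W, hW, rfl⟩
  have hle' : ∀ U V : Set XX, IsOpen U → IsOpen V →
      (φ (sub (AA U)) ≤ φ (sub (AA V)) ↔ U ⊆ closure V) := by
    intro U V hU hV
    rw [hle _ (hin U hU) _ (hin V hV), EE_le_iff hU hV]
  have hbot : φ (sub (AA ∅)) = ⊥ := by
    obtain ⟨W, hW, h⟩ := hsurj ⊥ hB.bot_mem
    rw [eq_bot_iff, ← h, hle' _ _ isOpen_empty hW]
    exact Set.empty_subset _
  have htop : φ (sub (AA Set.univ)) = ⊤ := by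
    obtain ⟨W, hW, h⟩ := hsurj ⊤ hB.top_mem
    rw [eq_top_iff, ← h, hle' _ _ hW isOpen_univ, closure_univ]
    exact Set.subset_univ _
  -- a nonzero vector
  obtain ⟨x, hx⟩ : ∃ x : K, x ≠ 0 := by
    by_contra hcon
    push Not at hcon
    have h1 : (⊤ : Submodule ℂ K) ≤ ⊥ := fun y _ => (Submodule.mem_bot ℂ).2 (hcon y)
    rw [← htop, ← hbot, hle' _ _ isOpen_univ isOpen_empty, closure_empty] at h1
    exact h1 (Set.mem_univ (fun _ => 0 : XX))
  have hx0 : 0 < ‖x‖ := norm_pos_iff.2 hx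
  -- the matrix
  set P : ℕ → ℕ → Submodule ℂ K := fun m n => φ (sub (AA (EC m n))) with hP
  have hPmem : ∀ m n, P m n ∈ F := fun m n => hmem _ (hin _ (EC_clopen m n).isOpen)
  have hPmono : ∀ m, Monotone (P m) := by
    intro m a b hab
    rw [hP]
    simp only
    rw [hle' _ _ (EC_clopen m a).isOpen (EC_clopen m b).isOpen]
    exact fun z hz => subset_closure (le_trans hz hab)
  have hdense : ∀ m, ∀ G ∈ F, G ≤ (⨆ n, G ⊓ P m n).topologicalClosure := by
    intro m G hG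
    have hJ : (⨆ n, G ⊓ P m n).topologicalClosure ∈ F :=
      iSup_mem hR _ fun n => hB.inf_mem G hG _ (hPmem m n)
    have hle1 : ∀ n, G ⊓ P m n ≤ (⨆ n, G ⊓ P m n).topologicalClosure := fun n =>
      (le_iSup (fun n => G ⊓ P m n) n).trans (Submodule.le_topologicalClosure _)
    obtain ⟨V, hV, hVJ⟩ := hsurj _ hJ
    obtain ⟨W, hW, rfl⟩ := hsurj _ hG
    rw [← hVJ] at hle1 ⊢
    rw [hle' _ _ hW hV]
    intro z hz
    obtain ⟨n, hn⟩ := EC_iUnion m z
    have h2 := hle1 n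
    rw [hP] at h2
    simp only at h2
    rw [← hinf _ (hin W hW) _ (hin _ (EC_clopen m n).isOpen), sub_inf, ← AA_inter,
      hle' _ _ (hW.inter (EC_clopen m n).isOpen) hV] at h2
    exact h2 ⟨hz, hn⟩
  have happrox : ∀ m, ∀ G ∈ F, ∀ y ∈ G, ∀ ε > 0, ∃ n, ∃ z ∈ G ⊓ P m n, dist y z < ε := by
    intro m G hG y hy ε hε
    have h1 := hdense m G hG hy
    have h2 : y ∈ closure ((⨆ n, G ⊓ P m n : Submodule ℂ K) : Set K) := h1
    rw [Metric.mem_closure_iff] at h2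
    obtain ⟨z, hz, hd⟩ := h2 ε hε
    have hdir : Directed (· ≤ ·) (fun n => G ⊓ P m n) :=
      Monotone.directed_le fun a b hab => inf_le_inf_left _ (hPmono m hab)
    have hz' : z ∈ (⨆ n, G ⊓ P m n : Submodule ℂ K) := hz
    rw [Submodule.mem_iSup_of_directed _ hdir] at hz'
    obtain ⟨n, hn⟩ := hz'
    exact ⟨n, z, hn, hd⟩
  -- the sequence
  let St := {p : Submodule ℂ K × K // p.1 ∈ F ∧ p.2 ∈ p.1}
  have hstep : ∀ m : ℕ, ∀ s : St, ∃ s' : St, ∃ n : ℕ, s'.1.1 = s.1.1 ⊓ P m n ∧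
      dist s.1.2 s'.1.2 ≤ (‖x‖ / 2) / 2 / 2 ^ m := by
    intro m s
    obtain ⟨n, z, hz, hd⟩ := happrox m s.1.1 s.2.1 s.1.2 s.2.2 ((‖x‖ / 2) / 2 / 2 ^ m)
      (by positivity)
    exact ⟨⟨(s.1.1 ⊓ P m n, z), hB.inf_mem _ s.2.1 _ (hPmem m n), hz⟩, n, rfl, hd.le⟩
  choose nxt nn hnxt1 hnxt2 using hstep
  let s0 : St := ⟨(⊤, x), hB.top_mem, Submodule.mem_top⟩
  let sq : ℕ → St := fun k => Nat.rec s0 (fun m s => nxt m s) k
  have hsq : ∀ m, sq (m + 1) = nxt m (sq m) := fun m => rfl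
  have hG1 : ∀ m, (sq (m + 1)).1.1 = (sq m).1.1 ⊓ P m (nn m (sq m)) := fun m => by
    rw [hsq]
    exact hnxt1 m (sq m)
  have hd1 : ∀ m, dist (sq m).1.2 (sq (m + 1)).1.2 ≤ (‖x‖ / 2) / 2 / 2 ^ m := fun m => by
    rw [hsq]
    exact hnxt2 m (sq m)
  have hanti : Antitone (fun m => (sq m).1.1) := antitone_nat_of_succ_le fun m => by
    rw [hG1]
    exact inf_le_left
  have hcau : CauchySeq (fun m => (sq m).1.2) := cauchySeq_of_le_geometric_two hd1
  obtain ⟨y, hy⟩ := cauchySeq_tendsto_of_complete hcau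
  have hdy : dist (sq 0).1.2 y ≤ ‖x‖ / 2 := dist_le_of_le_geometric_two_of_tendsto₀ hd1 hy
  have hy0 : y ≠ 0 := by
    rintro rfl
    have h1 : dist x 0 ≤ ‖x‖ / 2 := hdy
    rw [dist_zero_right] at h1
    linarith
  have hyG : ∀ m, y ∈ (sq m).1.1 := by
    intro m
    have hcl : IsClosed ((sq m).1.1 : Set K) := hB.closed _ (sq m).2.1
    refine hcl.mem_of_tendsto hy ?_
    filter_upwards [eventually_ge_atTop m] with k hk
    exact hanti hk (sq k).2.2
  have hinfF : (⨅ m, (sq m).1.1) ∈ F := iInf_mem hR _ fun m => (sq m).2.1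
  obtain ⟨W, hW, hWG⟩ := hsurj _ hinfF
  have hWE : ∀ m, W ⊆ EC m (nn m (sq m)) := by
    intro m
    have h1 : (⨅ m, (sq m).1.1) ≤ P m (nn m (sq m)) := by
      refine (iInf_le _ (m + 1)).trans ?_
      rw [hG1]
      exact inf_le_right
    rw [← hWG] at h1
    rw [hP] at h1
    simp only at h1
    rw [hle' _ _ hW (EC_clopen m _).isOpen, (EC_clopen m _).isClosed.closure_eq] at h1
    exact h1
  have hW0 := EC_nowhere hW _ hWE
  rw [hW0, hbot] at hWG
  have hyb : y ∈ (⨅ m, (sq m).1.1) := (Submodule.mem_iInf _).2 hyG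
  rw [← hWG] at hyb
  exact hy0 ((Submodule.mem_bot ℂ).1 hyb)

end Pool.Agent.H18.BS
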