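import Pool.Agent.H18.Ace6cd

set_option autoImplicit false
set_option linter.all false

namespace Pool.Agent.H18.C45c09f

open Filter Topology Set
open Pool.Agent.H18.Ace6cd
open scoped InnerProductSpace ComplexConjugate

/-- separation of the bad operator from the polynomials -/
theorem sep (x y : Fin 3 → H) (hx : x = ![X1, X2, e 0]) (hy : y = ![Y1, Y2, e 0])
    (p : Polynomial ℂ) (hp : ∀ i : Fin 3, ‖⟪(B₀ - Polynomial.aeval A p) (x i), y i⟫_ℂ‖ < 1 / 3) :
    False := by
  subst hx hy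
  have h1 := hp 0
  have h2 := hp 1
  have h3 := hp 2
  simp only [Matrix.cons_val_zero, Matrix.cons_val_one, Matrix.cons_val_two, Matrix.head_cons,
    Matrix.tail_cons, Matrix.cons_val] at h1 h2 h3
  rw [norm_inner_symm] at h1 h2 h3
  have h4 : Φ (B₀ - Polynomial.aeval A p) = 1 := by
    rw [map_sub, Φ_B₀, Φ_aeval, sub_zero]
  rw [Φ_apply] at h4
  have h5 : ‖(1 : ℂ)‖ < 1 := by
    rw [← h4]
    refine (norm_sub_le _ _).trans_lt ?_
    have := norm_add_le ⟪Y1, (B₀ - Polynomial.aeval A p) X1⟫_ℂ ⟪Y2, (B₀ - Polynomial.aeval A p) X2⟫_ℂ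
    linarith
  rw [norm_one] at h5
  exact lt_irrefl _ h5

lemma ev_f (n : ℕ) : (f n : H) 0 = 0 := by
  rw [f_apply, if_neg (by omega : ¬ 0 = n + 1), if_neg (by omega : ¬ 0 = n + 2)]
  by_cases h : 0 = n
  · subst h
    have : c (0 + 1) = 0 := by simp [c]
    rw [this]; ring
  · rw [if_neg h]; ring

lemma ev_A (x : H) : (A x : H) 0 = 0 := by
  have h1 := ((hasSum_opA R).mapL (ContinuousLinearMap.apply ℂ H x)).mapL (ev 0)
  have h2 : ∀ n, (ev 0) ((ContinuousLinearMap.apply ℂ H x) (((nu R n : ℝ) : ℂ) • R n)) = 0 := by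
    intro n
    rw [ContinuousLinearMap.apply_apply, ContinuousLinearMap.smul_apply, R_apply, map_smul, map_smul,
      ev_apply, ev_f, smul_zero, smul_zero]
  simp only [h2] at h1
  exact h1.unique hasSum_zero

lemma A_B₀ : A * B₀ = B₀ * A := by
  ext1 x
  rw [ContinuousLinearMap.mul_apply, ContinuousLinearMap.mul_apply, B₀_apply, B₀_apply, ev_A,
    zero_smul, sub_zero, map_sub, map_smul, A_e0, smul_zero, sub_zero]

theorem commuting : ¬ (∀ (H : Type) [NormedAddCommGroup H] [InnerProductSpace ℂ H] [CompleteSpace H]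
      (A B : H →L[ℂ] H),
      A * B = B * A →
      (∀ M : Submodule ℂ H, IsClosed (M : Set H) →
          (∀ x ∈ M, A x ∈ M) → ∀ x ∈ M, B x ∈ M) →
      ∀ (n : ℕ) (x y : Fin n → H) (ε : ℝ), 0 < ε →
        ∃ p : Polynomial ℂ, ∀ i : Fin n,
          ‖⟪(B - Polynomial.aeval A p) (x i), y i⟫_ℂ‖ < ε) := by
  intro hall
  obtain ⟨p, hp⟩ := hall H A B₀ A_B₀ B₀_inv 3 ![X1, X2, e 0] ![Y1, Y2, e 0] (1 / 3) (by norm_num)
  exact sep _ _ rfl rfl p hp

/-- the eigenvalues: `0` for `e 0`, `ν n` for `f n` -/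
noncomputable def ev' : ℕ → ℂ
  | 0 => 0
  | n + 1 => ((nu R n : ℝ) : ℂ)

/-- functionals -/
noncomputable def G : ℕ → (H →L[ℂ] ℂ)
  | 0 => ev 0
  | n + 1 => F n

/-- vectors -/
noncomputable def g : ℕ → H
  | 0 => e 0
  | n + 1 => f n

lemma G_A (n : ℕ) (x : H) : G n (A x) = ev' n * G n x := by
  cases n with
  | zero => rw [G, ev_apply, ev_A, ev', zero_mul]
  | succ n =>
    have h := congrArg (fun B : H →L[ℂ] H => F n (B x)) (mul_opA R R_mul n)
    simp only [ContinuousLinearMap.mul_apply, ContinuousLinearMap.smul_apply, R_apply, map_smul,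
      F_f, if_true, smul_eq_mul, mul_one] at h
    exact h

lemma A_g (n : ℕ) : A (g n) = ev' n • g n := by
  cases n with
  | zero => rw [g, A_e0, ev', zero_smul]
  | succ n =>
    have h := A_R n (f n)
    rw [R_apply, F_f, if_pos rfl, one_smul] at h
    exact h

lemma G_g (n m : ℕ) : G n (g m) = if n = m then 1 else 0 := by
  cases n with
  | zero =>
    cases m with
    | zero => rw [G, g, ev_apply, e_apply]
    | succ m => rw [G, g, ev_apply, ev_f, if_neg (by omega)]
  | succ n =>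
    cases m with
    | zero => rw [G, g, F_e0, if_neg (by omega)]
    | succ m =>
      rw [G, g, F_f]
      by_cases h : n = m
      · rw [if_pos h, if_pos (by omega)]
      · rw [if_neg h, if_neg (by omega)]

lemma total (x : H) (h : ∀ n, G n x = 0) : x = 0 := by
  have h0 : x 0 = 0 := h 0
  have := strong x x h0 (fun n => by rw [show F n x = 0 from h (n + 1), zero_mul])
  exact inner_self_eq_zero.1 this

lemma complete (y : H) (h : ∀ n, ⟪y, g n⟫_ℂ = 0) : y = 0 := by
  have h0 : y 0 = 0 := by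
    have := h 0
    rw [g, inner_e] at this
    simpa using this
  have := strong y y h0 (fun n => by rw [show ⟪y, f n⟫_ℂ = 0 from h (n + 1), mul_zero])
  exact inner_self_eq_zero.1 this

/-- small weights -/
noncomputable def w (n : ℕ) : ℝ := (1 / 2) ^ n / (1 + ‖G n‖ + ‖g n‖)

lemma w_pos (n : ℕ) : 0 < w n := by
  have := norm_nonneg (G n)
  have := norm_nonneg (g n)
  unfold w
  positivity

lemma w_G (n : ℕ) : w n * ‖G n‖ ≤ (1 / 2) ^ n := by
  have h1 := norm_nonneg (G n)
  have h2 := norm_nonneg (g n)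
  have h3 : (0 : ℝ) < (1 / 2) ^ n := by positivity
  unfold w
  rw [div_mul_eq_mul_div, div_le_iff₀ (by positivity)]
  nlinarith

lemma w_g (n : ℕ) : w n * ‖g n‖ ≤ (1 / 2) ^ n := by
  have h1 := norm_nonneg (G n)
  have h2 := norm_nonneg (g n)
  have h3 : (0 : ℝ) < (1 / 2) ^ n := by positivity
  unfold w
  rw [div_mul_eq_mul_div, div_le_iff₀ (by positivity)]
  nlinarith

/-- rank one pieces of `X` -/
noncomputable def Xn (n : ℕ) : H →L[ℂ] H := ((w n : ℝ) : ℂ) • (G n).smulRight (e n)
/-- rank one pieces of `Y` -/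
noncomputable def Yn (n : ℕ) : H →L[ℂ] H := ((w n : ℝ) : ℂ) • (ev n).smulRight (g n)
/-- rank one pieces of the normal operator -/
noncomputable def Nn (n : ℕ) : H →L[ℂ] H := (ev' n) • (ev n).smulRight (e n)

lemma norm_e (n : ℕ) : ‖(e n : H)‖ = 1 := by
  rw [e, lp.norm_single (by norm_num)]
  simp

lemma norm_ev (n : ℕ) : ‖ev n‖ ≤ 1 := by
  apply ContinuousLinearMap.opNorm_le_bound _ zero_le_one
  intro x
  rw [one_mul]
  exact lp.norm_apply_le_norm (by norm_num) x n

lemma norm_Xn (n : ℕ) : ‖Xn n‖ ≤ (1 / 2) ^ n := by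
  unfold Xn
  rw [norm_smul, Complex.norm_real, Real.norm_eq_abs, abs_of_pos (w_pos n),
    ContinuousLinearMap.norm_smulRight_apply, norm_e, mul_one]
  exact w_G n

lemma norm_Yn (n : ℕ) : ‖Yn n‖ ≤ (1 / 2) ^ n := by
  unfold Yn
  rw [norm_smul, Complex.norm_real, Real.norm_eq_abs, abs_of_pos (w_pos n),
    ContinuousLinearMap.norm_smulRight_apply]
  have h1 := w_g n
  have h2 := norm_ev n
  have h3 := norm_nonneg (g n)
  have h4 := (w_pos n).le
  have h5 : ‖ev n‖ * ‖g n‖ ≤ ‖g n‖ := by nlinarith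
  have := mul_le_mul_of_nonneg_left h5 h4
  linarith

lemma norm_ev' (n : ℕ) : ‖ev' n‖ ≤ 4 * (1 / 4) ^ n := by
  cases n with
  | zero => rw [ev', norm_zero]; positivity
  | succ n =>
    rw [ev', Complex.norm_real, Real.norm_eq_abs, abs_of_pos (nu_pos R n)]
    have h := nu_add_le R 0 n
    rw [zero_add] at h
    have h0 : nu R 0 = 1 := rfl
    rw [h0, one_mul] at h
    rw [pow_succ]
    linarith

lemma norm_Nn (n : ℕ) : ‖Nn n‖ ≤ 4 * (1 / 4) ^ n := by
  unfold Nn
  rw [norm_smul, ContinuousLinearMap.norm_smulRight_apply, norm_e, mul_one]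
  have h1 := norm_ev' n
  have h2 := norm_ev n
  have h3 := norm_nonneg (ev' n)
  have h4 := norm_nonneg (ev n)
  nlinarith

lemma summable_X : Summable Xn :=
  Summable.of_norm_bounded (summable_geometric_of_lt_one (r := (1 / 2 : ℝ)) (by norm_num) (by norm_num))
    norm_Xn
lemma summable_Y : Summable Yn :=
  Summable.of_norm_bounded (summable_geometric_of_lt_one (r := (1 / 2 : ℝ)) (by norm_num) (by norm_num))
    norm_Yn
lemma summable_N : Summable Nn :=
  Summable.of_norm_bounded ((summable_geometric_of_lt_one (r := (1 / 4 : ℝ)) (by norm_num)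
    (by norm_num)).mul_left 4) norm_Nn

noncomputable def X : H →L[ℂ] H := ∑' n, Xn n
noncomputable def Y : H →L[ℂ] H := ∑' n, Yn n
noncomputable def N : H →L[ℂ] H := ∑' n, Nn n

lemma X_coord (x : H) (k : ℕ) : (X x : H) k = w k * G k x := by
  have h1 := (summable_X.hasSum.mapL (ContinuousLinearMap.apply ℂ H x)).mapL (ev k)
  have h2 : ∀ n, (ev k) ((ContinuousLinearMap.apply ℂ H x) (Xn n)) =
      if n = k then (w k : ℂ) * G k x else 0 := by
    intro n
    rw [ContinuousLinearMap.apply_apply, Xn, ContinuousLinearMap.smul_apply,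
      ContinuousLinearMap.smulRight_apply, map_smul, map_smul, ev_apply, e_apply]
    by_cases h : n = k
    · subst h; simp
    · rw [if_neg h, if_neg (fun h' => h h'.symm)]; simp
  simp only [h2] at h1
  exact h1.unique (hasSum_ite_eq k _)

lemma N_coord (x : H) (k : ℕ) : (N x : H) k = ev' k * x k := by
  have h1 := (summable_N.hasSum.mapL (ContinuousLinearMap.apply ℂ H x)).mapL (ev k)
  have h2 : ∀ n, (ev k) ((ContinuousLinearMap.apply ℂ H x) (Nn n)) =
      if n = k then (ev' k : ℂ) * x k else 0 := by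
    intro n
    rw [ContinuousLinearMap.apply_apply, Nn, ContinuousLinearMap.smul_apply,
      ContinuousLinearMap.smulRight_apply, map_smul, map_smul, ev_apply, ev_apply, e_apply]
    by_cases h : n = k
    · subst h; simp
    · rw [if_neg h, if_neg (fun h' => h h'.symm)]; simp
  simp only [h2] at h1
  exact h1.unique (hasSum_ite_eq k _)

lemma Y_coord (x : H) (k : ℕ) : G k (Y x) = w k * x k := by
  have h1 := (summable_Y.hasSum.mapL (ContinuousLinearMap.apply ℂ H x)).mapL (G k)
  have h2 : ∀ n, (G k) ((ContinuousLinearMap.apply ℂ H x) (Yn n)) =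
      if n = k then (w k : ℂ) * x k else 0 := by
    intro n
    rw [ContinuousLinearMap.apply_apply, Yn, ContinuousLinearMap.smul_apply,
      ContinuousLinearMap.smulRight_apply, map_smul, map_smul, ev_apply, G_g]
    by_cases h : n = k
    · subst h; simp
    · rw [if_neg h, if_neg (fun h' => h h'.symm)]; simp
  simp only [h2] at h1
  exact h1.unique (hasSum_ite_eq k _)

lemma ext_coord (x y : H) (h : ∀ k, x k = y k) : x = y := lp.ext (funext h)

lemma w_ne (k : ℕ) : ((w k : ℝ) : ℂ) ≠ 0 := by exact_mod_cast (w_pos k).ne'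

lemma X_inj : Function.Injective X := by
  rw [injective_iff_map_eq_zero]
  intro x hx
  apply total
  intro n
  have h := X_coord x n
  rw [hx] at h
  have h0 : ((0 : H) : ∀ _ : ℕ, ℂ) n = 0 := rfl
  rw [h0] at h
  rcases mul_eq_zero.1 h.symm with h | h
  · exact absurd h (w_ne n)
  · exact h

lemma Y_inj : Function.Injective Y := by
  rw [injective_iff_map_eq_zero]
  intro x hx
  apply ext_coord
  intro n
  have h := Y_coord x n
  rw [hx, map_zero] at h
  rcases mul_eq_zero.1 h.symm with h | h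
  · exact absurd h (w_ne n)
  · exact h

lemma X_g (n : ℕ) : X (g n) = (w n : ℂ) • e n := by
  apply ext_coord
  intro k
  rw [X_coord, G_g]
  have : ((w n : ℂ) • e n : H) k = (w n : ℂ) * (e n : H) k := rfl
  rw [this, e_apply]
  by_cases h : k = n
  · subst h; simp
  · rw [if_neg h, mul_zero, mul_zero]

lemma Y_e (n : ℕ) : Y (e n) = (w n : ℂ) • g n := by
  rw [← sub_eq_zero]
  apply total
  intro k
  rw [map_sub, Y_coord, map_smul, G_g, e_apply]
  by_cases h : k = n
  · subst h; simp
  · rw [if_neg h]; simp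

lemma dense_of (Z : H →L[ℂ] H) (v : ℕ → H) (hv : ∀ y : H, (∀ n, ⟪y, v n⟫_ℂ = 0) → y = 0)
    (hZ : ∀ n, v n ∈ LinearMap.range (Z : H →ₗ[ℂ] H)) : DenseRange Z := by
  have h1 : (LinearMap.range (Z : H →ₗ[ℂ] H)).topologicalClosure = ⊤ := by
    rw [Submodule.topologicalClosure_eq_top_iff, Submodule.eq_bot_iff]
    intro y hy
    apply hv
    intro n
    exact (Submodule.mem_orthogonal' _ _).1 hy _ (hZ n)
  have h2 := (Submodule.dense_iff_topologicalClosure_eq_top).2 h1
  have h3 : ((LinearMap.range (Z : H →ₗ[ℂ] H) : Submodule ℂ H) : Set H) = Set.range Z := by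
    ext x; simp
  rw [h3] at h2
  exact h2

lemma X_dense : DenseRange X := by
  apply dense_of X e
  · intro y hy
    apply ext_coord
    intro n
    have := hy n
    rw [inner_e] at this
    simpa using this
  · intro n
    refine ⟨(w n : ℂ)⁻¹ • g n, ?_⟩
    change X ((w n : ℂ)⁻¹ • g n) = e n
    rw [map_smul, X_g, smul_smul, inv_mul_cancel₀ (w_ne n), one_smul]

lemma Y_dense : DenseRange Y := by
  apply dense_of Y g complete
  intro n
  refine ⟨(w n : ℂ)⁻¹ • e n, ?_⟩
  change Y ((w n : ℂ)⁻¹ • e n) = g n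
  rw [map_smul, Y_e, smul_smul, inv_mul_cancel₀ (w_ne n), one_smul]

lemma XA : X.comp A = N.comp X := by
  ext1 x
  apply ext_coord
  intro k
  rw [ContinuousLinearMap.comp_apply, ContinuousLinearMap.comp_apply, X_coord, N_coord, X_coord, G_A]
  ring

lemma AY : A.comp Y = Y.comp N := by
  ext1 x
  rw [← sub_eq_zero]
  apply total
  intro k
  rw [ContinuousLinearMap.comp_apply, ContinuousLinearMap.comp_apply, map_sub, Y_coord, N_coord,
    G_A, Y_coord]
  ring

lemma ev'_conj (k : ℕ) : conj (ev' k) = ev' k := by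
  cases k with
  | zero => rw [ev', map_zero]
  | succ n => rw [ev', Complex.conj_ofReal]

lemma N_sa : IsSelfAdjoint N := by
  rw [ContinuousLinearMap.isSelfAdjoint_iff_isSymmetric]
  intro x y
  change ⟪N x, y⟫_ℂ = ⟪x, N y⟫_ℂ
  have h1 := hasSum_inner' (N x) y
  have h2 := hasSum_inner' x (N y)
  have h3 : (fun j => conj ((N x : H) j) * y j) = fun j => conj (x j) * (N y : H) j := by
    funext j
    rw [N_coord, N_coord, map_mul, ev'_conj]
    ring
  rw [h3] at h1
  exact h1.unique h2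

theorem main : ¬ (∀ (H : Type) [NormedAddCommGroup H] [InnerProductSpace ℂ H] [CompleteSpace H]
      (K : Type) [NormedAddCommGroup K] [InnerProductSpace ℂ K] [CompleteSpace K]
      (T : H →L[ℂ] H) (N : K →L[ℂ] K),
      IsStarNormal N →
      (∃ (X : H →L[ℂ] K) (Y : K →L[ℂ] H),
          Function.Injective X ∧ DenseRange X ∧
          Function.Injective Y ∧ DenseRange Y ∧
          X.comp T = N.comp X ∧ T.comp Y = Y.comp N) →
      ∀ A : H →L[ℂ] H,
        (∀ M : Submodule ℂ H, IsClosed (M : Set H) →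
            (∀ x ∈ M, T x ∈ M) → ∀ x ∈ M, A x ∈ M) →
        ∀ (n : ℕ) (x y : Fin n → H) (ε : ℝ), 0 < ε →
          ∃ p : Polynomial ℂ, ∀ i : Fin n,
            ‖⟪y i, (A - Polynomial.aeval T p) (x i)⟫_ℂ‖ < ε) := by
  intro hall
  obtain ⟨p, hp⟩ := hall H H A N N_sa.isStarNormal
    ⟨X, Y, X_inj, X_dense, Y_inj, Y_dense, XA, AY⟩ B₀ B₀_inv 3 ![X1, X2, e 0] ![Y1, Y2, e 0]
    (1 / 3) (by norm_num)
  refine sep _ _ rfl rfl p fun i => ?_
  rw [norm_inner_symm]
  exact hp i

theorem compactA : IsCompactOperator A := by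
  have h1 : A ∈ closure {f : H →L[ℂ] H | IsCompactOperator f} := by
    have h2 := hasSum_opA R
    refine mem_closure_of_tendsto h2 (Eventually.of_forall fun s => ?_)
    have h3 : (∑ i ∈ s, ((nu R i : ℝ) : ℂ) • R i : H →L[ℂ] H) ∈
        compactOperator (RingHom.id ℂ) H H := by
      apply Submodule.sum_mem
      intro i _
      apply Submodule.smul_mem
      change IsCompactOperator (R i)
      have h4 : IsCompactOperator (F i : H → ℂ) := isCompactOperator_of_locallyCompactSpace_dom (F i)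
      have h5 := h4.clm_comp ((1 : ℂ →L[ℂ] ℂ).smulRight (f i))
      have h6 : (⇑((1 : ℂ →L[ℂ] ℂ).smulRight (f i)) ∘ ⇑(F i)) = ⇑(R i) := by
        funext x
        simp [R_apply]
      rw [h6] at h5
      exact h5
    exact h3
  rwa [isClosed_setOfPred_isCompactOperator.closure_eq] at h1

end Pool.Agent.H18.C45c09f
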