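import Mathlib

set_option autoImplicit false
open Filter

namespace Pool.Agent.H18.C8f06

theorem s3sq : Real.sqrt 3 * Real.sqrt 3 = 3 := Real.mul_self_sqrt (by norm_num)
theorem s3lo : (1.73 : ℝ) < Real.sqrt 3 := by
  apply Real.lt_sqrt_of_sq_lt; norm_num
theorem s3hi : Real.sqrt 3 < 1.74 := by
  rw [Real.sqrt_lt' (by norm_num)]; norm_num

theorem irr (m n : ℕ) (hn : 1 ≤ n) : (m : ℝ) ≠ n * Real.sqrt 3 := by
  intro h
  have h3 : Irrational (Real.sqrt 3) := Nat.Prime.irrational_sqrt (by norm_num : Nat.Prime 3)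
  apply h3
  refine ⟨(m : ℚ) / n, ?_⟩
  have hn' : (n : ℝ) ≠ 0 := by positivity
  push_cast
  rw [h]
  field_simp

section
variable (f : ℕ → ℕ)
  (hf : ∀ n : ℕ, f n = if n % 3 = 0 then n / 3 else ⌊(n : ℝ) * Real.sqrt 3⌋₊)

def Good (n : ℕ) : Prop := Tendsto (fun k : ℕ => f^[k] n) atTop atTop

theorem good_iff (n : ℕ) : Good f (f n) ↔ Good f n := by
  unfold Good
  have : (fun k : ℕ => f^[k] (f n)) = fun k : ℕ => (fun j => f^[j] n) (k + 1) := by
    funext k
    simp only [Function.iterate_succ_apply]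
  rw [this]
  exact tendsto_add_atTop_iff_nat (f := fun j => f^[j] n) 1

include hf

theorem step (n : ℕ) (hn : 2 ≤ n) (h1 : n % 3 ≠ 0) (h2 : f n % 3 ≠ 0) :
    n < f n ∧ f (f n) % 3 ≠ 0 := by
  have hfn : f n = ⌊(n : ℝ) * Real.sqrt 3⌋₊ := by rw [hf n, if_neg h1]
  set m := f n with hm
  have hn' : (2:ℝ) ≤ n := by exact_mod_cast hn
  have hlo := s3lo
  have hhi := s3hi
  have hsq := s3sq
  have hpos : (0:ℝ) ≤ (n : ℝ) * Real.sqrt 3 := by positivity
  have hm1 : (m : ℝ) ≤ n * Real.sqrt 3 := by rw [hfn]; exact Nat.floor_le hpos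
  have hm2 : (n : ℝ) * Real.sqrt 3 < m + 1 := by rw [hfn]; exact Nat.lt_floor_add_one _
  have hm3 : (m : ℝ) < n * Real.sqrt 3 := lt_of_le_of_ne hm1 (irr m n (by omega))
  have hnm : n < m := by
    have : (n : ℝ) + 1 < m + 1 := by nlinarith
    have h3 : (n : ℝ) < m := by linarith
    exact_mod_cast h3
  refine ⟨hnm, ?_⟩
  have hfm : f m = ⌊(m : ℝ) * Real.sqrt 3⌋₊ := by rw [hf m, if_neg h2]
  have h4 : f m < 3 * n := by
    rw [hfm, Nat.floor_lt (by positivity)]
    push_cast
    nlinarith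
  have h5 : 3 * n - 2 ≤ f m := by
    rw [hfm]
    apply Nat.le_floor
    rw [Nat.cast_sub (by omega)]
    push_cast
    nlinarith
  omega

theorem good_of (n : ℕ) (hn : 2 ≤ n) (h1 : n % 3 ≠ 0) (h2 : f n % 3 ≠ 0) : Good f n := by
  have key : ∀ k : ℕ, n + k ≤ f^[k] n ∧ f^[k] n % 3 ≠ 0 ∧ f (f^[k] n) % 3 ≠ 0 := by
    intro k
    induction k with
    | zero => exact ⟨le_rfl, h1, h2⟩
    | succ k ih =>
      obtain ⟨a, b, c⟩ := ih
      have := step f hf (f^[k] n) (by omega) b c
      rw [Function.iterate_succ_apply']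
      exact ⟨by omega, c, this.2⟩
  refine tendsto_atTop_mono (fun k => (show k ≤ f^[k] n by have := (key k).1; omega)) ?_
  exact tendsto_id

open Classical in
theorem count_rec (N : ℕ) :
    ((Finset.Icc 1 N).filter (fun n => ¬ Good f n)).card ≤
      1 + ((Finset.Icc 1 (N/3)).filter (fun n => ¬ Good f n)).card +
        ((Finset.Icc 1 ⌊(N : ℝ) / Real.sqrt 3⌋₊).filter (fun n => ¬ Good f n)).card := by
  have hlo := s3lo
  have hhi := s3hi
  have hsq := s3sq
  set A := (Finset.Icc 1 N).filter (fun n => ¬ Good f n) with hA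
  have hsub : A ⊆ {1} ∪ A.filter (fun n => n % 3 = 0) ∪
      A.filter (fun n => 2 ≤ n ∧ n % 3 ≠ 0) := by
    intro n hn
    simp only [Finset.mem_union, Finset.mem_singleton, Finset.mem_filter]
    have h1 : 1 ≤ n := by
      simp only [hA, Finset.mem_filter, Finset.mem_Icc] at hn
      exact hn.1.1
    by_cases h : n % 3 = 0
    · left; right; exact ⟨hn, h⟩
    · rcases Nat.lt_or_ge n 2 with h2 | h2
      · left; left; omega
      · right; exact ⟨hn, h2, h⟩
  have hc1 : (A.filter (fun n => n % 3 = 0)).card ≤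
      ((Finset.Icc 1 (N/3)).filter (fun n => ¬ Good f n)).card := by
    apply Finset.card_le_card_of_injOn (fun n => n / 3)
    · intro n hn
      simp only [hA, Finset.coe_filter, Finset.mem_filter, Finset.mem_Icc, Set.mem_setOf_eq] at hn ⊢
      obtain ⟨⟨⟨h1, h2⟩, h3⟩, h4⟩ := hn
      refine ⟨⟨by omega, by omega⟩, ?_⟩
      intro hg
      apply h3
      rw [← good_iff, hf n, if_pos h4]
      exact hg
    · intro n hn m hm hnm
      simp only [Finset.coe_filter, Set.mem_setOf_eq] at hn hm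
      simp only at hnm
      omega
  have hc2 : (A.filter (fun n => 2 ≤ n ∧ n % 3 ≠ 0)).card ≤
      ((Finset.Icc 1 ⌊(N : ℝ) / Real.sqrt 3⌋₊).filter (fun n => ¬ Good f n)).card := by
    apply Finset.card_le_card_of_injOn (fun n => f n / 3)
    · intro n hn
      simp only [hA, Finset.coe_filter, Finset.mem_filter, Finset.mem_Icc, Set.mem_setOf_eq] at hn ⊢
      obtain ⟨⟨⟨h1, h2⟩, h3⟩, h4, h5⟩ := hn
      have h6 : f n % 3 = 0 := by
        by_contra h6
        exact h3 (good_of f hf n h4 h5 h6)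
      have hfn : f n = ⌊(n : ℝ) * Real.sqrt 3⌋₊ := by rw [hf n, if_neg h5]
      have hn2 : (2:ℝ) ≤ n := by exact_mod_cast h4
      have hpos : (0:ℝ) ≤ (n : ℝ) * Real.sqrt 3 := by positivity
      have hm1 : (f n : ℝ) ≤ n * Real.sqrt 3 := by rw [hfn]; exact Nat.floor_le hpos
      have h7 : 3 ≤ f n := by
        rw [hfn]
        apply Nat.le_floor
        push_cast
        nlinarith
      refine ⟨⟨by omega, ?_⟩, ?_⟩
      · apply Nat.le_floor
        have hd : f n = 3 * (f n / 3) := by omega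
        have hd' : (f n : ℝ) = 3 * ((f n / 3 : ℕ) : ℝ) := by exact_mod_cast hd
        rw [le_div_iff₀ (by linarith)]
        have hN : (n : ℝ) ≤ N := by exact_mod_cast h2
        nlinarith
      · intro hg
        apply h3
        rw [← good_iff, ← good_iff, hf (f n), if_pos h6]
        exact hg
    · intro n hn m hm hnm
      simp only [hA, Finset.coe_filter, Finset.mem_filter, Finset.mem_Icc, Set.mem_setOf_eq] at hn hm
      simp only at hnm
      have h6 : f n % 3 = 0 := by
        by_contra h6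
        exact hn.1.2 (good_of f hf n hn.2.1 hn.2.2 h6)
      have h6' : f m % 3 = 0 := by
        by_contra h6
        exact hm.1.2 (good_of f hf m hm.2.1 hm.2.2 h6)
      have heq : f n = f m := by omega
      rw [hf n, if_neg hn.2.2, hf m, if_neg hm.2.2] at heq
      have a1 := Nat.floor_le (show (0:ℝ) ≤ (n : ℝ) * Real.sqrt 3 by positivity)
      have a2 := Nat.lt_floor_add_one ((n : ℝ) * Real.sqrt 3)
      have a3 := Nat.floor_le (show (0:ℝ) ≤ (m : ℝ) * Real.sqrt 3 by positivity)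
      have a4 := Nat.lt_floor_add_one ((m : ℝ) * Real.sqrt 3)
      rw [heq] at a1 a2
      have b1 : (n : ℝ) < m + 1 := by nlinarith
      have b2 : (m : ℝ) < n + 1 := by nlinarith
      have c1 : n < m + 1 := by exact_mod_cast b1
      have c2 : m < n + 1 := by exact_mod_cast b2
      omega
  calc A.card ≤ _ := Finset.card_le_card hsub
    _ ≤ _ := Finset.card_union_le _ _
    _ ≤ _ := by
      have := Finset.card_union_le ({1} : Finset ℕ) (A.filter (fun n => n % 3 = 0))
      rw [Finset.card_singleton] at this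
      omega

open Classical in
theorem count_bound (k : ℕ) : ∃ C : ℝ, 0 ≤ C ∧ ∀ N : ℕ,
    (((Finset.Icc 1 N).filter (fun n => ¬ Good f n)).card : ℝ) ≤ (11/12)^k * N + C := by
  induction k with
  | zero =>
    refine ⟨0, le_rfl, fun N => ?_⟩
    have h := Finset.card_filter_le (Finset.Icc 1 N) (fun n => ¬ Good f n)
    rw [Nat.card_Icc] at h
    have h' : ((Finset.Icc 1 N).filter (fun n => ¬ Good f n)).card ≤ N := by omega
    have : (((Finset.Icc 1 N).filter (fun n => ¬ Good f n)).card : ℝ) ≤ N := by exact_mod_cast h'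
    simpa using this
  | succ k ih =>
    obtain ⟨C, hC, h⟩ := ih
    refine ⟨1 + 2 * C, by positivity, fun N => ?_⟩
    have hrec := count_rec f hf N
    have hrec' : (((Finset.Icc 1 N).filter (fun n => ¬ Good f n)).card : ℝ) ≤
      1 + (((Finset.Icc 1 (N/3)).filter (fun n => ¬ Good f n)).card : ℝ) +
        (((Finset.Icc 1 ⌊(N : ℝ) / Real.sqrt 3⌋₊).filter (fun n => ¬ Good f n)).card : ℝ) := by
      exact_mod_cast hrec
    have h1 := h (N/3)
    have h2 := h ⌊(N : ℝ) / Real.sqrt 3⌋₊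
    have hlo := s3lo
    have hsq := s3sq
    have e1 : ((N/3 : ℕ) : ℝ) ≤ N / 3 := by
      have := Nat.cast_div_le (α := ℝ) (m := N) (n := 3)
      simpa using this
    have e2 : ((⌊(N : ℝ) / Real.sqrt 3⌋₊ : ℕ) : ℝ) ≤ (7/12) * N := by
      refine (Nat.floor_le (by positivity)).trans ?_
      rw [div_le_iff₀ (by linarith)]
      have : (0:ℝ) ≤ N := by positivity
      nlinarith
    have hk : (0:ℝ) < (11/12)^k := by positivity
    have f1 : (11/12:ℝ)^k * ((N/3 : ℕ) : ℝ) ≤ (11/12)^k * (N/3) :=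
      mul_le_mul_of_nonneg_left e1 hk.le
    have f2 : (11/12:ℝ)^k * ((⌊(N : ℝ) / Real.sqrt 3⌋₊ : ℕ) : ℝ) ≤ (11/12)^k * ((7/12) * N) :=
      mul_le_mul_of_nonneg_left e2 hk.le
    have e3 : (11/12:ℝ)^(k+1) * N = (11/12)^k * (N/3) + (11/12)^k * ((7/12) * N) := by
      rw [pow_succ]; ring
    rw [e3]
    linarith

theorem main : Tendsto
        (fun N : ℕ =>
          (({n : ℕ | 1 ≤ n ∧ n ≤ N ∧
              Tendsto (fun k : ℕ => f^[k] n) atTop atTop}.ncard : ℕ) : ℝ) / (N : ℝ))
        atTop (nhds 1) := by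
  classical
  rw [Metric.tendsto_atTop]
  intro ε hε
  obtain ⟨k, hk⟩ := exists_pow_lt_of_lt_one (show (0:ℝ) < ε/2 by linarith)
    (show (11/12:ℝ) < 1 by norm_num)
  obtain ⟨C, hC, h⟩ := count_bound f hf k
  obtain ⟨M, hM⟩ := exists_nat_gt (2 * C / ε)
  refine ⟨M + 1, fun N hN => ?_⟩
  have hN0 : (0:ℝ) < N := by
    have : 0 < N := by omega
    exact_mod_cast this
  have hNM : 2 * C / ε < N := by
    have : (M : ℝ) ≤ N := by exact_mod_cast (by omega : M ≤ N)
    linarith
  have hset : {n : ℕ | 1 ≤ n ∧ n ≤ N ∧ Tendsto (fun k : ℕ => f^[k] n) atTop atTop} =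
      (((Finset.Icc 1 N).filter (fun n => Good f n) : Finset ℕ) : Set ℕ) := by
    ext n
    rw [Finset.mem_coe, Finset.mem_filter, Finset.mem_Icc]
    constructor
    · rintro ⟨h1, h2, h3⟩
      exact ⟨⟨h1, h2⟩, h3⟩
    · rintro ⟨⟨h1, h2⟩, h3⟩
      exact ⟨h1, h2, h3⟩
  rw [hset, Set.ncard_coe_finset]
  have hsplit := Finset.card_filter_add_card_filter_not (s := Finset.Icc 1 N) (fun n => Good f n)
  rw [Nat.card_Icc] at hsplit
  have hsplit' : (((Finset.Icc 1 N).filter (fun n => Good f n)).card : ℝ) +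
      (((Finset.Icc 1 N).filter (fun n => ¬ Good f n)).card : ℝ) = N := by
    have : ((Finset.Icc 1 N).filter (fun n => Good f n)).card +
      ((Finset.Icc 1 N).filter (fun n => ¬ Good f n)).card = N := by omega
    exact_mod_cast this
  have hb := h N
  rw [Real.dist_eq]
  have e : (((Finset.Icc 1 N).filter (fun n => Good f n)).card : ℝ) / N - 1 =
      - ((((Finset.Icc 1 N).filter (fun n => ¬ Good f n)).card : ℝ) / N) := by
    rw [eq_sub_of_add_eq hsplit']
    field_simp
    ring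
  rw [e, abs_neg, abs_of_nonneg (by positivity), div_lt_iff₀ hN0]
  have hk' : (11/12:ℝ)^k * N < (ε/2) * N := mul_lt_mul_of_pos_right hk hN0
  have hC' : 2 * C < ε * N := by
    rw [div_lt_iff₀ hε] at hNM
    linarith
  linarith

end

end Pool.Agent.H18.C8f06
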