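import Mathlib

set_option autoImplicit false
open Polynomial

namespace Pool.Agent.H18.CH

theorem two_zero : (2 : (ZMod 2)[X]) = 0 := by
  have : (2 : ZMod 2) = 0 := by decide
  have h : (2 : (ZMod 2)[X]) = C (2 : ZMod 2) := (map_ofNat C 2).symm
  rw [h, this, C_0]

/-- first coordinate of the map -/
noncomputable def AA (a b : (ZMod 2)[X]) : (ZMod 2)[X] := a * (a - b) * (a ^ 2 + X * b ^ 2)
/-- second coordinate of the map -/
noncomputable def BB (a b : (ZMod 2)[X]) : (ZMod 2)[X] :=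
  X * b ^ 2 * (a ^ 2 + X * a * b + X * b ^ 2)

/-- the number of factors `t` to be removed -/
noncomputable def gg (p : (ZMod 2)[X] × (ZMod 2)[X]) : ℕ := if p.1.coeff 0 = 0 then 2 else 1

/-- normalised step -/
noncomputable def step (p : (ZMod 2)[X] × (ZMod 2)[X]) : (ZMod 2)[X] × (ZMod 2)[X] :=
  if p.1.coeff 0 = 0 then
    (p.1.divX * (p.1 - p.2) * (X * p.1.divX ^ 2 + p.2 ^ 2),
      p.2 ^ 2 * (X * p.1.divX ^ 2 + X * p.1.divX * p.2 + p.2 ^ 2))
  else
    (p.1 * (p.1 - p.2).divX * (p.1 ^ 2 + X * p.2 ^ 2),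
      p.2 ^ 2 * (p.1 ^ 2 + X * p.1 * p.2 + X * p.2 ^ 2))

theorem zmod2 (x : ZMod 2) : x = 0 ∨ x = 1 := by
  revert x; decide

theorem eq_X_divX {a : (ZMod 2)[X]} (h : a.coeff 0 = 0) : a = X * a.divX := by
  have := divX_mul_X_add a
  rw [h, C_0, add_zero] at this
  rw [mul_comm]; exact this.symm

theorem step_AA (p : (ZMod 2)[X] × (ZMod 2)[X]) (hb : p.2.coeff 0 = 1) :
    AA p.1 p.2 = X ^ gg p * (step p).1 := by
  unfold AA gg step
  by_cases h : p.1.coeff 0 = 0
  · rw [if_pos h, if_pos h]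
    have e := eq_X_divX h
    simp only
    set c := p.1.divX
    rw [e]
    ring
  · rw [if_neg h, if_neg h]
    have h1 : p.1.coeff 0 = 1 := (zmod2 _).resolve_left h
    have h2 : (p.1 - p.2).coeff 0 = 0 := by rw [coeff_sub, h1, hb, sub_self]
    have e := eq_X_divX h2
    simp only
    set c := (p.1 - p.2).divX
    rw [e]
    ring

theorem step_BB (p : (ZMod 2)[X] × (ZMod 2)[X]) :
    BB p.1 p.2 = X ^ gg p * (step p).2 := by
  unfold BB gg step
  by_cases h : p.1.coeff 0 = 0
  · rw [if_pos h, if_pos h]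
    have e := eq_X_divX h
    simp only
    set c := p.1.divX
    rw [e]
    ring
  · rw [if_neg h, if_neg h]
    simp only
    ring

theorem step_coeff (p : (ZMod 2)[X] × (ZMod 2)[X]) (hb : p.2.coeff 0 = 1) :
    (step p).2.coeff 0 = 1 := by
  unfold step
  by_cases h : p.1.coeff 0 = 0
  · rw [if_pos h]
    simp only [coeff_zero_eq_eval_zero] at hb ⊢
    simp [hb]
  · rw [if_neg h]
    have h1 : p.1.coeff 0 = 1 := (zmod2 _).resolve_left h
    simp only [coeff_zero_eq_eval_zero] at hb h1 ⊢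
    simp [hb, h1]

/-- the invariant -/
structure Inv (p : (ZMod 2)[X] × (ZMod 2)[X]) : Prop where
  hb : p.2.coeff 0 = 1
  hdeg : p.2.natDegree + 2 ≤ p.1.natDegree
  hcop : IsCoprime p.1 p.2

theorem gg_le (p : (ZMod 2)[X] × (ZMod 2)[X]) : gg p = 1 ∨ gg p = 2 := by
  unfold gg; split_ifs <;> simp

theorem deg_AA {p : (ZMod 2)[X] × (ZMod 2)[X]} (h : Inv p) :
    (AA p.1 p.2).natDegree = 4 * p.1.natDegree := by
  have hb0 : p.2 ≠ 0 := by
    intro h0
    have := h.hb
    rw [h0, coeff_zero] at this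
    exact absurd this (by decide)
  have ha0 : p.1 ≠ 0 := by
    intro h0
    have := h.hdeg
    rw [h0, natDegree_zero] at this
    omega
  have h1 : (p.1 - p.2).natDegree = p.1.natDegree := by
    rw [sub_eq_add_neg]
    refine natDegree_add_eq_left_of_natDegree_lt ?_
    rw [natDegree_neg]
    have := h.hdeg
    omega
  have h2 : (p.1 ^ 2 + X * p.2 ^ 2).natDegree = 2 * p.1.natDegree := by
    have e1 : (p.1 ^ 2).natDegree = 2 * p.1.natDegree := natDegree_pow _ _
    have e2 : (X * p.2 ^ 2).natDegree = 2 * p.2.natDegree + 1 := by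
      rw [natDegree_mul X_ne_zero (pow_ne_zero _ hb0), natDegree_X, natDegree_pow]; ring
    rw [natDegree_add_eq_left_of_natDegree_lt, e1]
    rw [e1, e2]
    have := h.hdeg
    omega
  have h1' : p.1 - p.2 ≠ 0 := by
    intro h0
    rw [h0, natDegree_zero] at h1
    have := h.hdeg
    omega
  have h2' : p.1 ^ 2 + X * p.2 ^ 2 ≠ 0 := by
    intro h0
    rw [h0, natDegree_zero] at h2
    have := h.hdeg
    omega
  unfold AA
  rw [natDegree_mul (mul_ne_zero ha0 h1') h2', natDegree_mul ha0 h1', h1, h2]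
  ring

theorem deg_BB {p : (ZMod 2)[X] × (ZMod 2)[X]} (h : Inv p) :
    (BB p.1 p.2).natDegree = 2 * p.1.natDegree + 2 * p.2.natDegree + 1 := by
  have hb0 : p.2 ≠ 0 := by
    intro h0
    have := h.hb
    rw [h0, coeff_zero] at this
    exact absurd this (by decide)
  have ha0 : p.1 ≠ 0 := by
    intro h0
    have := h.hdeg
    rw [h0, natDegree_zero] at this
    omega
  have h2 : (p.1 ^ 2 + X * p.1 * p.2 + X * p.2 ^ 2).natDegree = 2 * p.1.natDegree := by
    have e1 : (p.1 ^ 2).natDegree = 2 * p.1.natDegree := natDegree_pow _ _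
    have e2 : (X * p.2 ^ 2).natDegree = 2 * p.2.natDegree + 1 := by
      rw [natDegree_mul X_ne_zero (pow_ne_zero _ hb0), natDegree_X, natDegree_pow]; ring
    have e3 : (X * p.1 * p.2).natDegree = 1 + p.1.natDegree + p.2.natDegree := by
      rw [natDegree_mul (mul_ne_zero X_ne_zero ha0) hb0, natDegree_mul X_ne_zero ha0, natDegree_X]
    have e4 : (p.1 ^ 2 + X * p.1 * p.2).natDegree = 2 * p.1.natDegree := by
      rw [natDegree_add_eq_left_of_natDegree_lt, e1]
      rw [e1, e3]
      have := h.hdeg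
      omega
    rw [natDegree_add_eq_left_of_natDegree_lt, e4]
    rw [e4, e2]
    have := h.hdeg
    omega
  have h2' : p.1 ^ 2 + X * p.1 * p.2 + X * p.2 ^ 2 ≠ 0 := by
    intro h0
    rw [h0, natDegree_zero] at h2
    have := h.hdeg
    omega
  unfold BB
  rw [natDegree_mul (mul_ne_zero X_ne_zero (pow_ne_zero _ hb0)) h2',
    natDegree_mul X_ne_zero (pow_ne_zero _ hb0), natDegree_X, natDegree_pow, h2]
  ring

theorem step_deg1 {p : (ZMod 2)[X] × (ZMod 2)[X]} (h : Inv p) :
    (step p).1.natDegree + gg p = 4 * p.1.natDegree := by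
  have h1 := deg_AA h
  rw [step_AA p h.hb] at h1
  have h0 : (step p).1 ≠ 0 := by
    intro h0
    rw [h0, mul_zero, natDegree_zero] at h1
    have := h.hdeg
    omega
  rw [natDegree_mul (pow_ne_zero _ X_ne_zero) h0, natDegree_X_pow] at h1
  omega

theorem step_deg2 {p : (ZMod 2)[X] × (ZMod 2)[X]} (h : Inv p) :
    (step p).2.natDegree + gg p = 2 * p.1.natDegree + 2 * p.2.natDegree + 1 := by
  have h1 := deg_BB h
  rw [step_BB p] at h1
  have h0 : (step p).2 ≠ 0 := by
    intro h0
    rw [h0, mul_zero, natDegree_zero] at h1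
    omega
  rw [natDegree_mul (pow_ne_zero _ X_ne_zero) h0, natDegree_X_pow] at h1
  omega

theorem step_coprime {p : (ZMod 2)[X] × (ZMod 2)[X]} (h : Inv p) :
    IsCoprime (step p).1 (step p).2 := by
  have hb' := step_coeff p h.hb
  refine isCoprime_of_prime_dvd ?_ ?_
  · rintro ⟨_, h2⟩
    rw [h2, coeff_zero] at hb'
    exact absurd hb' (by decide)
  · intro z hz h1 h2
    have hzX : ¬ z ∣ X := by
      intro hd
      have hass : Associated z X := hz.irreducible.associated_of_dvd irreducible_X hd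
      have : X ∣ (step p).2 := hass.symm.dvd.trans h2
      rw [X_dvd_iff] at this
      rw [this] at hb'
      exact absurd hb' (by decide)
    have hA : z ∣ AA p.1 p.2 := by rw [step_AA p h.hb]; exact h1.mul_left _
    have hB : z ∣ BB p.1 p.2 := by rw [step_BB p]; exact h2.mul_left _
    have hfin : ¬ (z ∣ p.1 ∧ z ∣ p.2) := by
      rintro ⟨ha, hb⟩
      exact hz.not_isUnit (h.hcop.isUnit_of_dvd' ha hb)
    apply hfin
    unfold AA at hA
    unfold BB at hB
    have hb_a : z ∣ p.2 → z ∣ p.1 ∧ z ∣ p.2 := by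
      intro hb
      refine ⟨?_, hb⟩
      rcases hz.dvd_or_dvd hA with hA | hA
      · rcases hz.dvd_or_dvd hA with hA | hA
        · exact hA
        · have := dvd_add hA hb
          rwa [sub_add_cancel] at this
      · have : z ∣ p.1 ^ 2 := by
          have h3 : z ∣ X * p.2 ^ 2 := (hb.pow two_ne_zero).mul_left _
          exact (dvd_add_left h3).1 hA
        exact hz.dvd_of_dvd_pow this
    have ha_b : z ∣ p.1 ^ 2 + X * p.1 * p.2 + X * p.2 ^ 2 → z ∣ p.1 → z ∣ p.2 := by
      intro hE ha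
      have h3 : z ∣ p.1 ^ 2 + X * p.1 * p.2 := by
        refine dvd_add (dvd_pow ha two_ne_zero) ?_
        exact (ha.mul_left X).mul_right _
      have h4 : z ∣ X * p.2 ^ 2 := (dvd_add_right h3).1 hE
      exact hz.dvd_of_dvd_pow ((hz.dvd_or_dvd h4).resolve_left hzX)
    rcases hz.dvd_or_dvd hB with hB | hE
    · exact hb_a (hz.dvd_of_dvd_pow ((hz.dvd_or_dvd hB).resolve_left hzX))
    · rcases hz.dvd_or_dvd hA with hA | hA
      · rcases hz.dvd_or_dvd hA with hA | hA
        · exact hb_a (ha_b hE hA)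
        · have e : p.1 ^ 2 + X * p.1 * p.2 + X * p.2 ^ 2 =
              (p.1 - p.2) * (p.1 + p.2 + X * p.2) + p.2 ^ 2 := by
            linear_combination (X * p.2 ^ 2) * two_zero
          rw [e] at hE
          have h5 : z ∣ p.2 ^ 2 := (dvd_add_right (hA.mul_right _)).1 hE
          exact hb_a (hz.dvd_of_dvd_pow h5)
      · have e : p.1 ^ 2 + X * p.1 * p.2 + X * p.2 ^ 2 =
            (p.1 ^ 2 + X * p.2 ^ 2) + X * p.1 * p.2 := by ring
        have hE' := hE
        rw [e] at hE
        have h5 : z ∣ X * p.1 * p.2 := (dvd_add_right hA).1 hE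
        rcases hz.dvd_or_dvd h5 with h5 | h5
        · exact hb_a (ha_b hE' ((hz.dvd_or_dvd h5).resolve_left hzX))
        · exact hb_a h5

theorem step_inv {p : (ZMod 2)[X] × (ZMod 2)[X]} (h : Inv p) : Inv (step p) := by
  refine ⟨step_coeff p h.hb, ?_, step_coprime h⟩
  have h1 := step_deg1 h
  have h2 := step_deg2 h
  have h3 := h.hdeg
  rcases gg_le p with h4 | h4 <;> omega

/-- the orbit -/
noncomputable def orb (n : ℕ) : (ZMod 2)[X] × (ZMod 2)[X] := step^[n] (X ^ 2, 1)

theorem orb_succ (n : ℕ) : orb (n + 1) = step (orb n) := by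
  unfold orb; rw [Function.iterate_succ_apply']

theorem orb_inv (n : ℕ) : Inv (orb n) := by
  induction n with
  | zero =>
    refine ⟨?_, ?_, ?_⟩
    · simp [orb]
    · simp [orb]
    · simpa [orb] using isCoprime_one_right
  | succ n ih => rw [orb_succ]; exact step_inv ih

theorem orb_deg (n : ℕ) :
    (orb (n + 1)).1.natDegree + gg (orb n) = 4 * (orb n).1.natDegree := by
  rw [orb_succ]; exact step_deg1 (orb_inv n)

theorem orb_gap (n : ℕ) : (orb (n + 1)).1.natDegree + 2 * (orb n).2.natDegree + 1 =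
    (orb (n + 1)).2.natDegree + 2 * (orb n).1.natDegree := by
  have h1 := step_deg1 (orb_inv n)
  have h2 := step_deg2 (orb_inv n)
  rw [orb_succ]
  omega

/-- the difference of degrees is strictly increasing -/
theorem orb_gap_lt (n : ℕ) : (orb n).1.natDegree + (orb (n + 1)).2.natDegree <
    (orb (n + 1)).1.natDegree + (orb n).2.natDegree := by
  have h1 := orb_gap n
  have h2 := (orb_inv n).hdeg
  omega

theorem orb_gap_lt' {m n : ℕ} (h : m < n) : (orb m).1.natDegree + (orb n).2.natDegree <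
    (orb n).1.natDegree + (orb m).2.natDegree := by
  induction n, h using Nat.le_induction with
  | base => exact orb_gap_lt m
  | succ n hn ih =>
    have := orb_gap_lt n
    omega

/-- cross difference -/
noncomputable def del (p q : (ZMod 2)[X] × (ZMod 2)[X]) : (ZMod 2)[X] := p.1 * q.2 - q.1 * p.2

theorem del_step (p q : (ZMod 2)[X] × (ZMod 2)[X]) (hp : p.2.coeff 0 = 1) (hq : q.2.coeff 0 = 1)
    (hg : gg p = gg q) : ∃ U : (ZMod 2)[X], U.coeff 0 = 1 ∧
      X * del (step p) (step q) = del p q * U := by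
  by_cases h : p.1.coeff 0 = 0
  · have h' : q.1.coeff 0 = 0 := by
      by_contra hcon
      unfold gg at hg
      rw [if_pos h, if_neg hcon] at hg
      omega
    have e1 := eq_X_divX h
    have e2 := eq_X_divX h'
    obtain ⟨a, b⟩ := p
    obtain ⟨a', b'⟩ := q
    simp only at hp hq h h' e1 e2
    unfold step del
    simp only
    rw [if_pos h, if_pos h']
    simp only
    set c := a.divX
    set c' := a'.divX
    refine ⟨c^3*b'^3*X^2 + c^3*b'^2*c'*X^3 + c^3*b'*c'^2*X^3 - c^2*b'^3*b*X + c^2*b'*c'^2*b*X^3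
      - c^2*b'*c'^2*b*X^2 + c^2*c'^3*b*X^3 + c*b'^3*b^2*X + c*b'^2*c'*b^2*X^2 + c*c'^3*b^2*X^3
      - b'^3*b^3 + b'^2*c'*b^3*X - b'*c'^2*b^3*X + c'^3*b^3*X^2, ?_, ?_⟩
    · simp only [coeff_zero_eq_eval_zero] at hp hq ⊢
      simp [hp, hq]
    · rw [e1, e2]
      ring
  · have h' : ¬ q.1.coeff 0 = 0 := by
      intro hcon
      unfold gg at hg
      rw [if_neg h, if_pos hcon] at hg
      omega
    have h1 : p.1.coeff 0 = 1 := (zmod2 _).resolve_left h
    have h1' : q.1.coeff 0 = 1 := (zmod2 _).resolve_left h'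
    have h2 : (p.1 - p.2).coeff 0 = 0 := by rw [coeff_sub, h1, hp, sub_self]
    have h2' : (q.1 - q.2).coeff 0 = 0 := by rw [coeff_sub, h1', hq, sub_self]
    have e1 := eq_X_divX h2
    have e2 := eq_X_divX h2'
    obtain ⟨a, b⟩ := p
    obtain ⟨a', b'⟩ := q
    simp only at hp hq h h' e1 e2 h1 h1'
    unfold step del
    simp only
    rw [if_neg h, if_neg h']
    simp only
    set c := (a - b).divX
    set c' := (a' - b').divX
    refine ⟨a^3*b'^3*X + a^3*b'^2*a'*X + a^3*b'*a'^2 - a^2*b'^3*b*X + a^2*b'*a'^2*b*X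
      - a^2*b'*a'^2*b + a^2*a'^3*b + a*b'^3*b^2*X^2 + a*b'^2*a'*b^2*X^2 + a*a'^3*b^2*X
      - b'^3*b^3*X^2 + b'^2*a'*b^3*X^2 - b'*a'^2*b^3*X + a'^3*b^3*X, ?_, ?_⟩
    · simp only [coeff_zero_eq_eval_zero] at hp hq h1 h1' ⊢
      simp [hp, hq, h1, h1']
    · linear_combination (-(a * (a ^ 2 + X * b ^ 2)) * (b' ^ 2 * (a' ^ 2 + X * a' * b' + X * b' ^ 2)))
        * e1 + ((a' * (a' ^ 2 + X * b' ^ 2)) * (b ^ 2 * (a ^ 2 + X * a * b + X * b ^ 2))) * e2

/-- if the digits agree forever then the points agree -/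
theorem del_eq_zero (m n : ℕ) (h : ∀ i, gg (orb (m + i)) = gg (orb (n + i))) :
    del (orb m) (orb n) = 0 := by
  have key : ∀ i : ℕ, ∃ V : (ZMod 2)[X], V.coeff 0 = 1 ∧
      X ^ i * del (orb (m + i)) (orb (n + i)) = del (orb m) (orb n) * V := by
    intro i
    induction i with
    | zero => exact ⟨1, by simp, by simp⟩
    | succ i ih =>
      obtain ⟨V, hV, hVe⟩ := ih
      obtain ⟨U, hU, hUe⟩ := del_step (orb (m + i)) (orb (n + i)) (orb_inv _).hb (orb_inv _).hb
        (h i)
      refine ⟨V * U, by rw [mul_coeff_zero, hV, hU, one_mul], ?_⟩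
      rw [← add_assoc, ← add_assoc, orb_succ, orb_succ]
      calc _ = X ^ i * (X * del (step (orb (m + i))) (step (orb (n + i)))) := by ring
        _ = (X ^ i * del (orb (m + i)) (orb (n + i))) * U := by rw [hUe]; ring
        _ = _ := by rw [hVe]; ring
  by_contra hne
  obtain ⟨V, hV, hVe⟩ := key ((del (orb m) (orb n)).natDegree + 1)
  have hcop : IsCoprime ((X : (ZMod 2)[X]) ^ ((del (orb m) (orb n)).natDegree + 1)) V := by
    refine IsCoprime.pow_left ?_
    refine (irreducible_X.coprime_iff_not_dvd).2 ?_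
    rw [X_dvd_iff, hV]
    decide
  have hd : (X : (ZMod 2)[X]) ^ ((del (orb m) (orb n)).natDegree + 1) ∣ del (orb m) (orb n) :=
    hcop.dvd_of_dvd_mul_right (hVe ▸ dvd_mul_right _ _)
  have := natDegree_le_of_dvd hd hne
  rw [natDegree_X_pow] at this
  omega

/-- the digit sequence is not eventually periodic -/
theorem not_periodic {m n : ℕ} (hmn : m < n) : ¬ ∀ i, gg (orb (m + i)) = gg (orb (n + i)) := by
  intro h
  have h0 := del_eq_zero m n h
  unfold del at h0
  have h1 : (orb m).1 * (orb n).2 = (orb n).1 * (orb m).2 := sub_eq_zero.1 h0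
  have hne : ∀ k, (orb k).1 ≠ 0 ∧ (orb k).2 ≠ 0 := by
    intro k
    constructor
    · intro hk
      have := (orb_inv k).hdeg
      rw [hk, natDegree_zero] at this
      omega
    · intro hk
      have := (orb_inv k).hb
      rw [hk, coeff_zero] at this
      exact absurd this (by decide)
  have h2 := congrArg natDegree h1
  rw [natDegree_mul (hne m).1 (hne n).2, natDegree_mul (hne n).1 (hne m).2] at h2
  have := orb_gap_lt' hmn
  omega

end Pool.Agent.H18.CH
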