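import Mathlib

set_option autoImplicit false
open Filter Topology

namespace Pool.Agent.H18.CH

theorem no_rat_limit (d g : ℕ → ℕ) (hd : ∀ n, d (n + 1) + g n = 4 * d n)
    (hg : ∀ n, g n = 1 ∨ g n = 2)
    (hper : ∀ m n, m < n → ¬ ∀ i, g (m + i) = g (n + i)) (q : ℚ)
    (h : Tendsto (fun n => (d n : ℝ) / (4 : ℝ) ^ n) atTop (𝓝 (q : ℝ))) : False := by
  have hd' : ∀ n, (d (n + 1) : ℝ) = 4 * d n - g n := by
    intro n
    have := hd n
    have h2 : ((d (n + 1) + g n : ℕ) : ℝ) = ((4 * d n : ℕ) : ℝ) := by rw [this]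
    push_cast at h2
    linarith
  have hg' : ∀ n, (1 : ℝ) ≤ g n ∧ (g n : ℝ) ≤ 2 := by
    intro n
    rcases hg n with h | h <;> rw [h] <;> norm_num
  have hx : ∀ n, (d (n + 1) : ℝ) / 4 ^ (n + 1) = (d n : ℝ) / 4 ^ n - g n / 4 ^ (n + 1) := by
    intro n
    rw [hd', pow_succ]
    field_simp
  have hb : ∀ n k : ℕ, (d n : ℝ) / 4 ^ n - 2 / 3 * (1 / 4 ^ n - 1 / 4 ^ (n + k)) ≤
      (d (n + k) : ℝ) / 4 ^ (n + k) ∧ (d (n + k) : ℝ) / 4 ^ (n + k) ≤
      (d n : ℝ) / 4 ^ n - 1 / 3 * (1 / 4 ^ n - 1 / 4 ^ (n + k)) := by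
    intro n k
    induction k with
    | zero => simp
    | succ k ih =>
      rw [← add_assoc, hx]
      obtain ⟨h1, h2⟩ := hg' (n + k)
      have h4 : (0 : ℝ) < 1 / 4 ^ (n + k + 1) := by positivity
      have h5 : (1 : ℝ) / 4 ^ (n + k) = 4 * (1 / 4 ^ (n + k + 1)) := by
        rw [pow_succ]; field_simp
      have h6 : (g (n + k) : ℝ) / 4 ^ (n + k + 1) = g (n + k) * (1 / 4 ^ (n + k + 1)) := by ring
      rw [h6]
      rw [h5] at ih
      constructor <;> nlinarith [ih.1, ih.2]
  have hlim0 : ∀ n : ℕ, Tendsto (fun k : ℕ => (1 : ℝ) / 4 ^ (n + k)) atTop (𝓝 0) := by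
    intro n
    have h1 : Tendsto (fun k : ℕ => ((1 : ℝ) / 4) ^ (k + n)) atTop (𝓝 0) :=
      (tendsto_add_atTop_iff_nat n).2
        (tendsto_pow_atTop_nhds_zero_of_lt_one (by norm_num) (by norm_num))
    refine h1.congr fun k => ?_
    rw [div_pow, one_pow, add_comm]
  have hr : ∀ n : ℕ, 1 / 3 ≤ (d n : ℝ) - 4 ^ n * q ∧ (d n : ℝ) - 4 ^ n * q ≤ 2 / 3 := by
    intro n
    have h1 : Tendsto (fun k : ℕ => (d (n + k) : ℝ) / 4 ^ (n + k)) atTop (𝓝 (q : ℝ)) := by
      have := (tendsto_add_atTop_iff_nat (f := fun m => (d m : ℝ) / (4 : ℝ) ^ m) n).2 h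
      refine this.congr fun k => ?_
      rw [add_comm]
    have hp : (0 : ℝ) < 4 ^ n := by positivity
    have e : (d n : ℝ) / 4 ^ n * 4 ^ n = d n := by field_simp
    have e2 : (1 : ℝ) / 4 ^ n * 4 ^ n = 1 := by field_simp
    have l1 : (d n : ℝ) / 4 ^ n - 2 / 3 * (1 / 4 ^ n - 0) ≤ q := by
      refine le_of_tendsto_of_tendsto ?_ h1 (Eventually.of_forall fun k => (hb n k).1)
      exact tendsto_const_nhds.sub ((tendsto_const_nhds.sub (hlim0 n)).const_mul _)
    have l2 : (q : ℝ) ≤ (d n : ℝ) / 4 ^ n - 1 / 3 * (1 / 4 ^ n - 0) := by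
      refine le_of_tendsto_of_tendsto h1 ?_ (Eventually.of_forall fun k => (hb n k).2)
      exact tendsto_const_nhds.sub ((tendsto_const_nhds.sub (hlim0 n)).const_mul _)
    constructor
    · have := mul_le_mul_of_nonneg_right l2 hp.le
      nlinarith
    · have := mul_le_mul_of_nonneg_right l1 hp.le
      nlinarith
  -- integers
  have hden : (0 : ℝ) < q.den := by exact_mod_cast q.pos
  have hqd : (q : ℝ) * q.den = q.num := by
    have : (q : ℚ) * q.den = q.num := Rat.mul_den_eq_num q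
    exact_mod_cast this
  set N : ℕ → ℤ := fun n => d n * q.den - 4 ^ n * q.num with hN
  have hNr : ∀ n, (N n : ℝ) = ((d n : ℝ) - 4 ^ n * q) * q.den := by
    intro n
    rw [hN]
    push_cast
    rw [← hqd]
    ring
  have hN0 : ∀ n, 0 ≤ N n ∧ N n ≤ q.den := by
    intro n
    have h1 := hr n
    have h2 : (0 : ℝ) ≤ N n := by rw [hNr]; exact mul_nonneg (by linarith) hden.le
    have h3 : (N n : ℝ) ≤ q.den := by
      rw [hNr]
      calc _ ≤ 1 * (q.den : ℝ) := mul_le_mul_of_nonneg_right (by linarith) hden.le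
        _ = _ := one_mul _
    exact ⟨by exact_mod_cast h2, by exact_mod_cast h3⟩
  have hinj : ∃ m n, m ≠ n ∧ (N m).toNat = (N n).toNat := by
    by_contra hcon
    push Not at hcon
    have : Function.Injective (fun n : ℕ => (⟨(N n).toNat, by
        have := hN0 n; omega⟩ : Fin (q.den + 1))) := by
      intro m n hmn
      by_contra hne
      exact hcon m n hne (congrArg Fin.val hmn)
    exact not_injective_infinite_finite _ this
  obtain ⟨m, n, hmn, hNmn⟩ := hinj
  have hNeq : N m = N n := by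
    have h1 := hN0 m
    have h2 := hN0 n
    omega
  have main : ∀ m n, m < n → N m = N n → False := by
    intro m n hlt hNe
    refine hper m n hlt ?_
    have h1 : ∀ i, (d (m + i) : ℝ) - 4 ^ (m + i) * q = d (n + i) - 4 ^ (n + i) * q ∧
        g (m + i) = g (n + i) := by
      have hgr : ∀ a b : ℕ, (d a : ℝ) - 4 ^ a * q = d b - 4 ^ b * q → g a = g b := by
        intro a b hab
        have ha := hr (a + 1)
        have hb := hr (b + 1)
        rw [hd', pow_succ] at ha hb
        have h5 : (g a : ℝ) - g b < 1 := by nlinarith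
        have h6 : (g b : ℝ) - g a < 1 := by nlinarith
        have h7 : (g a : ℝ) < g b + 1 := by linarith
        have h8 : (g b : ℝ) < g a + 1 := by linarith
        have h7' : g a < g b + 1 := by exact_mod_cast h7
        have h8' : g b < g a + 1 := by exact_mod_cast h8
        omega
      intro i
      induction i with
      | zero =>
        have e : (d (m + 0) : ℝ) - 4 ^ (m + 0) * q = d (n + 0) - 4 ^ (n + 0) * q := by
          simp only [add_zero]
          have h2 : (N m : ℝ) = N n := by rw [hNe]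
          rw [hNr, hNr] at h2
          exact mul_right_cancel₀ hden.ne' h2
        exact ⟨e, hgr _ _ e⟩
      | succ i ih =>
        have e : (d (m + (i + 1)) : ℝ) - 4 ^ (m + (i + 1)) * q =
            d (n + (i + 1)) - 4 ^ (n + (i + 1)) * q := by
          rw [← add_assoc, ← add_assoc, hd', hd', pow_succ, pow_succ, ih.2]
          linarith [ih.1]
        exact ⟨e, hgr _ _ e⟩
    exact fun i => (h1 i).2
  rcases lt_or_gt_of_ne hmn with h1 | h1
  · exact main m n h1 hNeq
  · exact main n m h1 hNeq.symm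

end Pool.Agent.H18.CH
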