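import Mathlib

set_option autoImplicit false
open Polynomial WithZero

namespace Pool.Agent.H18.CH

section
variable {k : Type} [Field k]


/-- admissible valuations -/
def Adm (v : Valuation (RatFunc k) (WithZero (Multiplicative ℤ))) : Prop :=
  Function.Surjective v ∧
    ∀ c : k, c ≠ 0 → v (algebraMap (RatFunc k) (RatFunc k) (RatFunc.C c)) = 1

theorem Adm.const {v : Valuation (RatFunc k) (WithZero (Multiplicative ℤ))} (hv : Adm v) {c : k}
    (hc : c ≠ 0) : v (algebraMap k[X] (RatFunc k) (C c)) = 1 := by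
  have := hv.2 c hc
  simpa using this

theorem Adm.const_le {v : Valuation (RatFunc k) (WithZero (Multiplicative ℤ))} (hv : Adm v)
    (c : k) : v (algebraMap k[X] (RatFunc k) (C c)) ≤ 1 := by
  by_cases hc : c = 0
  · simp [hc]
  · exact (hv.const hc).le

theorem split (f : k[X]) : algebraMap k[X] (RatFunc k) f =
    RatFunc.X * algebraMap k[X] (RatFunc k) f.divX + algebraMap k[X] (RatFunc k) (C (f.coeff 0)) := by
  conv_lhs => rw [← divX_mul_X_add f]
  rw [map_add, map_mul, RatFunc.algebraMap_X, mul_comm]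

theorem Adm.poly_le {v : Valuation (RatFunc k) (WithZero (Multiplicative ℤ))} (hv : Adm v)
    (ht : v RatFunc.X ≤ 1) (f : k[X]) : v (algebraMap k[X] (RatFunc k) f) ≤ 1 := by
  induction f using Polynomial.induction_on' with
  | add p q hp hq =>
    rw [map_add]
    exact (v.map_add _ _).trans (max_le hp hq)
  | monomial n a =>
    rw [← C_mul_X_pow_eq_monomial, map_mul, map_pow, RatFunc.algebraMap_X, map_mul, map_pow]
    exact mul_le_one' (hv.const_le a) (pow_le_one' ht n)

theorem Adm.poly_one {v : Valuation (RatFunc k) (WithZero (Multiplicative ℤ))} (hv : Adm v)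
    (ht : v RatFunc.X < 1) (f : k[X]) (hf : f.coeff 0 ≠ 0) :
    v (algebraMap k[X] (RatFunc k) f) = 1 := by
  rw [split f]
  have h1 : v (algebraMap k[X] (RatFunc k) (C (f.coeff 0))) = 1 := hv.const hf
  have h2 : v (RatFunc.X * algebraMap k[X] (RatFunc k) f.divX) < 1 := by
    rw [map_mul]
    exact mul_lt_one_of_lt_of_le ht (hv.poly_le ht.le _)
  rw [Valuation.map_add_eq_of_lt_right v (by rw [h1]; exact h2), h1]

theorem Adm.poly_deg {v : Valuation (RatFunc k) (WithZero (Multiplicative ℤ))} (hv : Adm v)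
    (ht : 1 < v RatFunc.X) : ∀ (n : ℕ) (f : k[X]), f ≠ 0 → f.natDegree = n →
    v (algebraMap k[X] (RatFunc k) f) = v RatFunc.X ^ n := by
  intro n
  induction n with
  | zero =>
    intro f hf hn
    rw [eq_C_of_natDegree_eq_zero hn, pow_zero]
    refine hv.const ?_
    intro h0
    apply hf
    rw [eq_C_of_natDegree_eq_zero hn, h0, C_0]
  | succ n ih =>
    intro f hf hn
    have hd : f.divX.natDegree = n := by
      rw [natDegree_divX_eq_natDegree_tsub_one, hn]; rfl
    have hne : f.divX ≠ 0 := by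
      intro h0
      have := divX_mul_X_add f
      rw [h0, zero_mul, zero_add] at this
      rw [← this, natDegree_C] at hn
      omega
    rw [split f]
    have h1 : v (algebraMap k[X] (RatFunc k) (C (f.coeff 0))) ≤ 1 := hv.const_le _
    have h2 : v (RatFunc.X * algebraMap k[X] (RatFunc k) f.divX) = v RatFunc.X ^ (n + 1) := by
      rw [map_mul, ih _ hne hd, pow_succ']
    have h3 : 1 < v RatFunc.X ^ (n + 1) := one_lt_pow₀ ht (by omega)
    rw [Valuation.map_add_eq_of_lt_left v (by rw [h2]; exact lt_of_le_of_lt h1 h3), h2]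

/-- the value of `X` determines `v` (case of `v X < 1`) -/
theorem Adm.formula0 {v : Valuation (RatFunc k) (WithZero (Multiplicative ℤ))} (hv : Adm v)
    (ht : v RatFunc.X < 1) (f : k[X]) (hf : f ≠ 0) :
    v (algebraMap k[X] (RatFunc k) f) = v RatFunc.X ^ (f.rootMultiplicity 0) := by
  obtain ⟨g, hg, hg2⟩ := exists_eq_pow_rootMultiplicity_mul_and_not_dvd f hf 0
  rw [C_0, sub_zero] at hg hg2
  have hg3 : g.coeff 0 ≠ 0 := by rwa [Ne, ← X_dvd_iff]
  conv_lhs => rw [hg]
  rw [map_mul, map_pow, RatFunc.algebraMap_X, map_mul, map_pow, hv.poly_one ht g hg3, mul_one]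

theorem X_val {v : Valuation (RatFunc k) (WithZero (Multiplicative ℤ))} (hv : Adm v)
    (hall : ∀ x : RatFunc k, x ≠ 0 → ∃ j : ℤ, v x = v RatFunc.X ^ j) :
    v RatFunc.X = exp 1 ∨ v RatFunc.X = exp (-1) := by
  have hX : v RatFunc.X ≠ 0 := by
    rw [Ne, Valuation.zero_iff]
    exact RatFunc.X_ne_zero
  obtain ⟨e, he⟩ : ∃ e : ℤ, v RatFunc.X = exp e := ⟨log (v RatFunc.X), (exp_log hX).symm⟩
  obtain ⟨x, hx⟩ := hv.1 (exp 1)
  have hx0 : x ≠ 0 := by
    rintro rfl
    rw [map_zero] at hx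
    exact exp_ne_zero hx.symm
  obtain ⟨j, hj⟩ := hall x hx0
  rw [hx, he, ← exp_zsmul, exp_inj, smul_eq_mul] at hj
  rw [he]
  have : e = 1 ∨ e = -1 := by
    have h1 : e ∣ 1 := ⟨j, by rw [hj]; ring⟩
    exact Int.isUnit_iff.1 (isUnit_of_dvd_one h1)
  rcases this with h | h
  · left; rw [h]
  · right; rw [h]

theorem Adm.all0 {v : Valuation (RatFunc k) (WithZero (Multiplicative ℤ))} (hv : Adm v)
    (ht : v RatFunc.X < 1) (p q : k[X]) (hp : p ≠ 0) (hq : q ≠ 0) :
    v (algebraMap k[X] (RatFunc k) p / algebraMap k[X] (RatFunc k) q) =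
      v RatFunc.X ^ ((p.rootMultiplicity 0 : ℤ) - (q.rootMultiplicity 0 : ℤ)) := by
  have hX : v RatFunc.X ≠ 0 := by
    rw [Ne, Valuation.zero_iff]
    exact RatFunc.X_ne_zero
  rw [map_div₀, hv.formula0 ht p hp, hv.formula0 ht q hq, zpow_sub₀ hX, zpow_natCast, zpow_natCast]

theorem Adm.all1 {v : Valuation (RatFunc k) (WithZero (Multiplicative ℤ))} (hv : Adm v)
    (ht : 1 < v RatFunc.X) (p q : k[X]) (hp : p ≠ 0) (hq : q ≠ 0) :
    v (algebraMap k[X] (RatFunc k) p / algebraMap k[X] (RatFunc k) q) =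
      v RatFunc.X ^ ((p.natDegree : ℤ) - (q.natDegree : ℤ)) := by
  have hX : v RatFunc.X ≠ 0 := by
    rw [Ne, Valuation.zero_iff]
    exact RatFunc.X_ne_zero
  rw [map_div₀, hv.poly_deg ht _ p hp rfl, hv.poly_deg ht _ q hq rfl, zpow_sub₀ hX, zpow_natCast,
    zpow_natCast]

theorem num_div (x : RatFunc k) :
    x = algebraMap k[X] (RatFunc k) x.num / algebraMap k[X] (RatFunc k) x.denom :=
  (RatFunc.num_div_denom x).symm

theorem Adm.X0 {v : Valuation (RatFunc k) (WithZero (Multiplicative ℤ))} (hv : Adm v)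
    (ht : v RatFunc.X < 1) : v RatFunc.X = exp (-1) := by
  rcases X_val hv (fun x hx => ⟨_, by
    conv_lhs => rw [num_div x]
    exact hv.all0 ht _ _ (RatFunc.num_ne_zero hx) x.denom_ne_zero⟩) with h | h
  · rw [h] at ht
    exact absurd ht (not_lt.2 (by rw [← exp_zero, exp_le_exp]; norm_num))
  · exact h

theorem Adm.X1 {v : Valuation (RatFunc k) (WithZero (Multiplicative ℤ))} (hv : Adm v)
    (ht : 1 < v RatFunc.X) : v RatFunc.X = exp 1 := by
  rcases X_val hv (fun x hx => ⟨_, by
    conv_lhs => rw [num_div x]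
    exact hv.all1 ht _ _ (RatFunc.num_ne_zero hx) x.denom_ne_zero⟩) with h | h
  · exact h
  · rw [h] at ht
    exact absurd ht (not_lt.2 (by rw [← exp_zero, exp_le_exp]; norm_num))

theorem Adm.ext0 {v w : Valuation (RatFunc k) (WithZero (Multiplicative ℤ))} (hv : Adm v)
    (hw : Adm w) (h1 : v RatFunc.X < 1) (h2 : w RatFunc.X < 1) : v = w := by
  ext x
  by_cases hx : x = 0
  · rw [hx, map_zero, map_zero]
  · rw [num_div x, hv.all0 h1 _ _ (RatFunc.num_ne_zero hx) x.denom_ne_zero,
      hw.all0 h2 _ _ (RatFunc.num_ne_zero hx) x.denom_ne_zero, hv.X0 h1, hw.X0 h2]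

theorem Adm.ext1 {v w : Valuation (RatFunc k) (WithZero (Multiplicative ℤ))} (hv : Adm v)
    (hw : Adm w) (h1 : 1 < v RatFunc.X) (h2 : 1 < w RatFunc.X) : v = w := by
  ext x
  by_cases hx : x = 0
  · rw [hx, map_zero, map_zero]
  · rw [num_div x, hv.all1 h1 _ _ (RatFunc.num_ne_zero hx) x.denom_ne_zero,
      hw.all1 h2 _ _ (RatFunc.num_ne_zero hx) x.denom_ne_zero, hv.X1 h1, hw.X1 h2]

theorem surj_of {v : Valuation (RatFunc k) (WithZero (Multiplicative ℤ))} (e : ℤ)
    (he : e = 1 ∨ e = -1) (h : v RatFunc.X = exp e) : Function.Surjective v := by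
  intro y
  by_cases hy : y = 0
  · exact ⟨0, by rw [map_zero, hy]⟩
  · refine ⟨RatFunc.X ^ (e * log y), ?_⟩
    rw [map_zpow₀, h, ← exp_zsmul, smul_eq_mul]
    have : e * log y * e = log y := by
      rcases he with h | h <;> rw [h] <;> ring
    rw [this, exp_log hy]

theorem exists_inf : ∃ v : Valuation (RatFunc k) (WithZero (Multiplicative ℤ)),
    Adm v ∧ 1 < v RatFunc.X := by
  classical
  refine ⟨RatFunc.inftyValuation k, ⟨surj_of 1 (Or.inl rfl) (RatFunc.inftyValuation.X k), ?_⟩, ?_⟩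
  · intro c hc
    exact RatFunc.inftyValuation.C k hc
  · rw [RatFunc.inftyValuation.X, ← exp_zero, exp_lt_exp]
    norm_num

theorem exists_zero : ∃ v : Valuation (RatFunc k) (WithZero (Multiplicative ℤ)),
    Adm v ∧ v RatFunc.X < 1 := by
  have hX : (Polynomial.idealX k).valuation (RatFunc k) RatFunc.X = exp (-1) :=
    Polynomial.valuation_X_eq_neg_one k
  refine ⟨(Polynomial.idealX k).valuation (RatFunc k), ⟨surj_of (-1) (Or.inr rfl) hX, ?_⟩, ?_⟩
  · intro c hc
    have h1 : (Polynomial.idealX k).valuation (RatFunc k) (algebraMap k[X] (RatFunc k) (C c)) ≤ 1 :=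
      IsDedekindDomain.HeightOneSpectrum.valuation_le_one _ _
    have h2 : (Polynomial.idealX k).valuation (RatFunc k)
        (algebraMap k[X] (RatFunc k) (C c⁻¹)) ≤ 1 :=
      IsDedekindDomain.HeightOneSpectrum.valuation_le_one _ _
    have h3 : (Polynomial.idealX k).valuation (RatFunc k) (algebraMap k[X] (RatFunc k) (C c)) *
        (Polynomial.idealX k).valuation (RatFunc k) (algebraMap k[X] (RatFunc k) (C c⁻¹)) = 1 := by
      rw [← map_mul, ← map_mul, ← C_mul, mul_inv_cancel₀ hc, C_1, map_one, map_one]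
    have h4 : (Polynomial.idealX k).valuation (RatFunc k) (algebraMap k[X] (RatFunc k) (C c)) = 1 := by
      refine le_antisymm h1 ?_
      calc (1 : WithZero (Multiplicative ℤ)) = _ := h3.symm
        _ ≤ (Polynomial.idealX k).valuation (RatFunc k) (algebraMap k[X] (RatFunc k) (C c)) * 1 :=
            mul_le_mul_right h2 _
        _ = _ := mul_one _
    simpa using h4
  · rw [hX, ← exp_zero, exp_lt_exp]
    norm_num

theorem term_eq (v : Valuation (RatFunc k) (WithZero (Multiplicative ℤ)))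
    (z : Fin (1 + 1) → RatFunc k) (M : ℤ) (h0 : v (z 0) ≤ exp M) (h1 : v (z 1) ≤ exp M)
    (h : v (z 0) = exp M ∨ v (z 1) = exp M) :
    sInf {m : ℤ | ∀ i, v (z i) ≤ WithZero.coe (Multiplicative.ofAdd m)} = M := by
  have : {m : ℤ | ∀ i, v (z i) ≤ WithZero.coe (Multiplicative.ofAdd m)} = Set.Ici M := by
    ext m
    constructor
    · intro hm
      have h2 : exp M ≤ (exp m : WithZero (Multiplicative ℤ)) := by
        rcases h with h | h
        · rw [← h]; exact hm 0
        · rw [← h]; exact hm 1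
      exact exp_le_exp.1 h2
    · intro hm i
      have h2 : exp M ≤ (exp m : WithZero (Multiplicative ℤ)) := exp_le_exp.2 hm
      fin_cases i
      · exact h0.trans h2
      · exact h1.trans h2
  rw [this, csInf_Ici]

theorem height_sum (p q : k[X]) (s : ℕ) (hp : p ≠ 0) (hq : q.coeff 0 ≠ 0)
    (hcop : IsCoprime p q) (hdeg : q.natDegree ≤ p.natDegree)
    (z : Fin (1 + 1) → RatFunc k)
    (hz0 : z 0 = algebraMap k[X] (RatFunc k) (X ^ s * p))
    (hz1 : z 1 = algebraMap k[X] (RatFunc k) (X ^ s * q)) :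
    ∑ᶠ v : {v : Valuation (RatFunc k) (WithZero (Multiplicative ℤ)) //
        Function.Surjective v ∧
          ∀ c : k, c ≠ 0 → v (algebraMap (RatFunc k) (RatFunc k) (RatFunc.C c)) = 1},
      ((sInf {m : ℤ | ∀ i, v.1 (z i) ≤ WithZero.coe (Multiplicative.ofAdd m)} : ℤ) : ℝ) =
      (p.natDegree : ℝ) := by
  classical
  have hq0 : q ≠ 0 := by rintro rfl; simp at hq
  obtain ⟨v1, hv1, hv1t⟩ := exists_inf (k := k)
  obtain ⟨v0, hv0, hv0t⟩ := exists_zero (k := k)
  have hz0v : ∀ v : Valuation (RatFunc k) (WithZero (Multiplicative ℤ)),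
      v (z 0) = v RatFunc.X ^ s * v (algebraMap k[X] (RatFunc k) p) := by
    intro v
    rw [hz0, map_mul, map_pow, RatFunc.algebraMap_X, map_mul, map_pow]
  have hz1v : ∀ v : Valuation (RatFunc k) (WithZero (Multiplicative ℤ)),
      v (z 1) = v RatFunc.X ^ s * v (algebraMap k[X] (RatFunc k) q) := by
    intro v
    rw [hz1, map_mul, map_pow, RatFunc.algebraMap_X, map_mul, map_pow]
  have t1 : sInf {m : ℤ | ∀ i, v1 (z i) ≤ WithZero.coe (Multiplicative.ofAdd m)} =
      (s : ℤ) + p.natDegree := by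
    have e0 : v1 (z 0) = exp ((s : ℤ) + p.natDegree) := by
      rw [hz0v, hv1.poly_deg hv1t _ p hp rfl, hv1.X1 hv1t, ← exp_nsmul, ← exp_nsmul, ← exp_add]
      simp
    have e1 : v1 (z 1) = exp ((s : ℤ) + q.natDegree) := by
      rw [hz1v, hv1.poly_deg hv1t _ q hq0 rfl, hv1.X1 hv1t, ← exp_nsmul, ← exp_nsmul, ← exp_add]
      simp
    refine term_eq v1 z _ e0.le ?_ (Or.inl e0)
    rw [e1, exp_le_exp]
    have : (q.natDegree : ℤ) ≤ p.natDegree := by exact_mod_cast hdeg
    linarith
  have t0 : sInf {m : ℤ | ∀ i, v0 (z i) ≤ WithZero.coe (Multiplicative.ofAdd m)} = -(s : ℤ) := by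
    have e1 : v0 (z 1) = exp (-(s : ℤ)) := by
      rw [hz1v, hv0.poly_one hv0t q hq, mul_one, hv0.X0 hv0t, ← exp_nsmul]
      simp
    have e0 : v0 (z 0) ≤ exp (-(s : ℤ)) := by
      rw [hz0v, hv0.X0 hv0t, ← exp_nsmul]
      have h5 := hv0.poly_le hv0t.le p
      calc _ ≤ exp (s • (-1 : ℤ)) * 1 := mul_le_mul_right h5 _
        _ = exp (-(s : ℤ)) := by rw [mul_one]; simp
    exact term_eq v0 z _ e0 e1.le (Or.inr e1)
  set f : {v : Valuation (RatFunc k) (WithZero (Multiplicative ℤ)) //
        Function.Surjective v ∧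
          ∀ c : k, c ≠ 0 → v (algebraMap (RatFunc k) (RatFunc k) (RatFunc.C c)) = 1} → ℝ :=
    fun v => ((sInf {m : ℤ | ∀ i, v.1 (z i) ≤ WithZero.coe (Multiplicative.ofAdd m)} : ℤ) : ℝ)
    with hf
  have hsupp : Function.support f ⊆ (({⟨v0, hv0⟩, ⟨v1, hv1⟩} : Finset
      {v : Valuation (RatFunc k) (WithZero (Multiplicative ℤ)) //
        Function.Surjective v ∧
          ∀ c : k, c ≠ 0 → v (algebraMap (RatFunc k) (RatFunc k) (RatFunc.C c)) = 1}) :
      Set _) := by
    rintro ⟨v, hv⟩ hvs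
    have hv' : Adm v := hv
    rcases lt_trichotomy (v RatFunc.X) 1 with h | h | h
    · have : v = v0 := hv'.ext0 hv0 h hv0t
      subst this
      simp
    · exfalso
      apply hvs
      have h0 : v (z 0) = v (algebraMap k[X] (RatFunc k) p) := by rw [hz0v, h, one_pow, one_mul]
      have h1 : v (z 1) = v (algebraMap k[X] (RatFunc k) q) := by rw [hz1v, h, one_pow, one_mul]
      have hp1 := hv'.poly_le h.le p
      have hq1 := hv'.poly_le h.le q
      obtain ⟨a, b, hab⟩ := hcop
      have hor : v (algebraMap k[X] (RatFunc k) p) = 1 ∨ v (algebraMap k[X] (RatFunc k) q) = 1 := by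
        by_contra hcon
        push Not at hcon
        have hp2 := lt_of_le_of_ne hp1 hcon.1
        have hq2 := lt_of_le_of_ne hq1 hcon.2
        have h5 : v (algebraMap k[X] (RatFunc k) (a * p + b * q)) < 1 := by
          rw [map_add, map_mul, map_mul]
          refine lt_of_le_of_lt (v.map_add _ _) (max_lt ?_ ?_)
          · rw [map_mul]
            exact (mul_le_of_le_one_left' (hv'.poly_le h.le a)).trans_lt hp2
          · rw [map_mul]
            exact (mul_le_of_le_one_left' (hv'.poly_le h.le b)).trans_lt hq2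
        rw [hab, map_one, map_one] at h5
        exact lt_irrefl _ h5
      have := term_eq v z 0 (by rw [h0, exp_zero]; exact hp1) (by rw [h1, exp_zero]; exact hq1)
        (by rw [h0, h1, exp_zero]; exact hor)
      rw [hf]
      simp only
      rw [this]
      simp
    · have : v = v1 := hv'.ext1 hv1 h hv1t
      subst this
      simp
  rw [finsum_eq_sum_of_support_subset f hsupp, Finset.sum_pair]
  · rw [hf]
    simp only
    rw [t0, t1]
    push_cast
    ring
  · intro heq
    have : v0 = v1 := congrArg Subtype.val heq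
    rw [this] at hv0t
    exact absurd hv0t (not_lt.2 hv1t.le)

end

end Pool.Agent.H18.CH
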