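import Pool.Agent.H18.CH1
import Pool.Agent.H18.CH2

set_option autoImplicit false
open Filter Topology Polynomial

namespace Pool.Agent.H18.CH

/-- the field of constants -/
abbrev kk : Type := AlgebraicClosure (ZMod 2)

/-- the inclusion of polynomials -/
noncomputable def ι : (ZMod 2)[X] →+* RatFunc kk :=
  (algebraMap kk[X] (RatFunc kk)).comp (Polynomial.mapRingHom (algebraMap (ZMod 2) kk))

/-- the map -/
noncomputable def FF : Fin (1 + 1) → MvPolynomial (Fin (1 + 1)) (RatFunc kk) :=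
  ![MvPolynomial.X 0 * (MvPolynomial.X 0 - MvPolynomial.X 1) *
      (MvPolynomial.X 0 ^ 2 + MvPolynomial.C (ι X) * MvPolynomial.X 1 ^ 2),
    MvPolynomial.C (ι X) * MvPolynomial.X 1 ^ 2 *
      (MvPolynomial.X 0 ^ 2 + MvPolynomial.C (ι X) * MvPolynomial.X 0 * MvPolynomial.X 1 +
        MvPolynomial.C (ι X) * MvPolynomial.X 1 ^ 2)]

theorem ι_inj : Function.Injective ι := by
  unfold ι
  rw [RingHom.coe_comp]
  refine (RatFunc.algebraMap_injective kk).comp ?_
  exact Polynomial.map_injective _ (algebraMap (ZMod 2) kk).injective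

theorem FF_hom (i : Fin (1 + 1)) : (FF i).IsHomogeneous 4 := by
  have hX : ∀ j : Fin (1 + 1), (MvPolynomial.X j : MvPolynomial (Fin (1 + 1)) (RatFunc kk)).IsHomogeneous 1 :=
    fun j => MvPolynomial.isHomogeneous_X _ j
  have hC : ∀ c : RatFunc kk, (MvPolynomial.C c : MvPolynomial (Fin (1 + 1)) (RatFunc kk)).IsHomogeneous 0 :=
    fun c => MvPolynomial.isHomogeneous_C _ c
  have hXsq : ∀ j : Fin (1 + 1), (MvPolynomial.X j ^ 2 : MvPolynomial (Fin (1 + 1)) (RatFunc kk)).IsHomogeneous 2 := by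
    intro j
    have := (hX j).pow 2
    simpa using this
  fin_cases i
  · have h1 := ((hX 0).mul ((hX 0).sub (hX 1))).mul
      ((hXsq 0).add (by simpa using (hC (ι X)).mul (hXsq 1)))
    simpa [FF] using h1
  · have h2 : (MvPolynomial.C (ι X) * MvPolynomial.X 1 ^ 2 :
        MvPolynomial (Fin (1 + 1)) (RatFunc kk)).IsHomogeneous 2 := by
      simpa using (hC (ι X)).mul (hXsq 1)
    have h3 : (MvPolynomial.C (ι X) * MvPolynomial.X 0 * MvPolynomial.X 1 :
        MvPolynomial (Fin (1 + 1)) (RatFunc kk)).IsHomogeneous 2 := by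
      simpa using ((hC (ι X)).mul (hX 0)).mul (hX 1)
    have h1 := h2.mul (((hXsq 0).add h3).add h2)
    simpa [FF] using h1

theorem FF_eval (z : Fin (1 + 1) → RatFunc kk) :
    MvPolynomial.eval z (FF 0) = z 0 * (z 0 - z 1) * (z 0 ^ 2 + ι X * z 1 ^ 2) ∧
    MvPolynomial.eval z (FF 1) = ι X * z 1 ^ 2 * (z 0 ^ 2 + ι X * z 0 * z 1 + ι X * z 1 ^ 2) := by
  constructor <;> simp [FF]

theorem FF_nozero (y : Fin (1 + 1) → AlgebraicClosure (RatFunc kk))
    (h : ∀ i, MvPolynomial.aeval y (FF i) = 0) : y = 0 := by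
  set T : AlgebraicClosure (RatFunc kk) := algebraMap _ _ (ι X) with hT
  have hT0 : T ≠ 0 := by
    rw [hT]
    intro h0
    have h1 : ι X = 0 := (algebraMap (RatFunc kk) (AlgebraicClosure (RatFunc kk))).injective
      (by rw [h0, map_zero])
    have h2 : (X : (ZMod 2)[X]) = 0 := ι_inj (by rw [h1, map_zero])
    exact X_ne_zero h2
  have h2 : (2 : AlgebraicClosure (RatFunc kk)) = 0 := by
    have e : ((algebraMap (RatFunc kk) (AlgebraicClosure (RatFunc kk))).comp ι) 2 = 0 := by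
      rw [two_zero, map_zero]
    rwa [map_ofNat] at e
  have h0 := h 0
  have h1 := h 1
  have e0 : y 0 * (y 0 - y 1) * (y 0 ^ 2 + T * y 1 ^ 2) = 0 := by
    simpa [FF, MvPolynomial.aeval_C, -mul_eq_zero] using h0
  have e1 : T * y 1 ^ 2 * (y 0 ^ 2 + T * y 0 * y 1 + T * y 1 ^ 2) = 0 := by
    simpa [FF, MvPolynomial.aeval_C, -mul_eq_zero] using h1
  have hfin : y 0 = 0 ∧ y 1 = 0 → y = 0 := by
    rintro ⟨ha, hb⟩
    funext i
    fin_cases i
    · exact ha
    · exact hb
  apply hfin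
  have hb_a : y 1 = 0 → y 0 = 0 ∧ y 1 = 0 := by
    intro hb
    rw [hb] at e0
    have : y 0 ^ 4 = 0 := by
      rw [← e0]; ring
    exact ⟨pow_eq_zero_iff (by norm_num) |>.1 this, hb⟩
  have ha_b : y 0 ^ 2 + T * y 0 * y 1 + T * y 1 ^ 2 = 0 → y 0 = 0 → y 1 = 0 := by
    intro hE ha
    rw [ha] at hE
    have : T * y 1 ^ 2 = 0 := by rw [← hE]; ring
    exact pow_eq_zero_iff (by norm_num) |>.1 ((mul_eq_zero.1 this).resolve_left hT0)
  rcases mul_eq_zero.1 e1 with hB | hE
  · exact hb_a (pow_eq_zero_iff (by norm_num) |>.1 ((mul_eq_zero.1 hB).resolve_left hT0))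
  · rcases mul_eq_zero.1 e0 with hA | hA
    · rcases mul_eq_zero.1 hA with hA | hA
      · exact hb_a (ha_b hE hA)
      · have hA' : y 0 = y 1 := sub_eq_zero.1 hA
        rw [hA'] at hE
        have : y 1 ^ 2 = 0 := by linear_combination hE - (T * y 1 ^ 2) * h2
        exact hb_a (pow_eq_zero_iff (by norm_num) |>.1 this)
    · have h5 : T * y 0 * y 1 = 0 := by linear_combination hE - hA
      rcases mul_eq_zero.1 h5 with h5 | h5
      · exact hb_a (ha_b hE ((mul_eq_zero.1 h5).resolve_left hT0))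
      · exact hb_a h5

/-- exponents of `t` -/
noncomputable def ss : ℕ → ℕ
  | 0 => 0
  | n + 1 => 4 * ss n + gg (orb n)

theorem iter_eq (n : ℕ) :
    ((fun (z : Fin (1 + 1) → RatFunc kk) (j : Fin (1 + 1)) =>
      MvPolynomial.eval z (FF j))^[n] ![ι (X ^ 2), 1]) 0 = ι (X ^ ss n * (orb n).1) ∧
    ((fun (z : Fin (1 + 1) → RatFunc kk) (j : Fin (1 + 1)) =>
      MvPolynomial.eval z (FF j))^[n] ![ι (X ^ 2), 1]) 1 = ι (X ^ ss n * (orb n).2) := by
  induction n with
  | zero => simp [ss, orb]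
  | succ n ih =>
    rw [Function.iterate_succ_apply']
    set z := ((fun (z : Fin (1 + 1) → RatFunc kk) (j : Fin (1 + 1)) =>
      MvPolynomial.eval z (FF j))^[n] ![ι (X ^ 2), 1])
    obtain ⟨h0, h1⟩ := ih
    obtain ⟨f0, f1⟩ := FF_eval z
    rw [f0, f1, h0, h1]
    have hA := step_AA (orb n) (orb_inv n).hb
    have hB := step_BB (orb n)
    rw [← orb_succ] at hA hB
    unfold AA at hA
    unfold BB at hB
    constructor
    · have e : X ^ ss (n + 1) * (orb (n + 1)).1 = (X ^ ss n * (orb n).1) *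
          (X ^ ss n * (orb n).1 - X ^ ss n * (orb n).2) *
          ((X ^ ss n * (orb n).1) ^ 2 + X * (X ^ ss n * (orb n).2) ^ 2) := by
        rw [ss, pow_add, mul_assoc (X ^ (4 * ss n)), ← hA]
        ring
      rw [e]
      simp only [map_mul, map_sub, map_add, map_pow]
    · have e : X ^ ss (n + 1) * (orb (n + 1)).2 = X * (X ^ ss n * (orb n).2) ^ 2 *
          ((X ^ ss n * (orb n).1) ^ 2 + X * (X ^ ss n * (orb n).1) * (X ^ ss n * (orb n).2) +
            X * (X ^ ss n * (orb n).2) ^ 2) := by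
        rw [ss, pow_add, mul_assoc (X ^ (4 * ss n)), ← hB]
        ring
      rw [e]
      simp only [map_mul, map_add, map_pow]

end Pool.Agent.H18.CH
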