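import Pool.Agent.H18.CH3
import Pool.Agent.H18.CH4

set_option autoImplicit false
open Filter Topology Polynomial

namespace Pool.Agent.H18.CH

theorem x0_ne : (![ι (Polynomial.X ^ 2), 1] : Fin (1 + 1) → RatFunc kk) ≠ 0 := by
  intro h
  have h1 := congrFun h 1
  rw [Pi.zero_apply] at h1
  have h2 : (![ι (Polynomial.X ^ 2), 1] : Fin (1 + 1) → RatFunc kk) 1 = 1 := rfl
  rw [h2] at h1
  exact one_ne_zero h1

theorem hfin : FiniteDimensional (RatFunc kk) (RatFunc kk) := inferInstance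

theorem map_q (n : ℕ) : ((orb n).2.map (algebraMap (ZMod 2) kk)).coeff 0 ≠ 0 := by
  have hinv := orb_inv n
  rw [Polynomial.coeff_map, hinv.hb, map_one]
  exact one_ne_zero

theorem map_p (n : ℕ) : ((orb n).1.map (algebraMap (ZMod 2) kk)) ≠ 0 := by
  have hinv := orb_inv n
  rw [Ne, Polynomial.map_eq_zero]
  intro h
  have := hinv.hdeg
  rw [h, Polynomial.natDegree_zero] at this
  omega

theorem map_cop_aux {R S : Type} [CommRing R] [CommRing S] (f : R →+* S) (p q : R[X])
    (h : IsCoprime p q) : IsCoprime (p.map f) (q.map f) := by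
  have := h.map (Polynomial.mapRingHom f)
  rwa [Polynomial.coe_mapRingHom] at this

theorem map_cop (n : ℕ) : IsCoprime ((orb n).1.map (algebraMap (ZMod 2) kk))
    ((orb n).2.map (algebraMap (ZMod 2) kk)) := by
  have hinv := orb_inv n
  have hc := hinv.hcop
  generalize (orb n).1 = p at hc ⊢
  generalize (orb n).2 = q at hc ⊢
  exact map_cop_aux _ _ _ hc

theorem ι_mul_pow (s : ℕ) (p : (ZMod 2)[X]) : ι (X ^ s * p) =
    algebraMap kk[X] (RatFunc kk) (X ^ s * p.map (algebraMap (ZMod 2) kk)) := by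
  have h0 : ∀ f : (ZMod 2)[X], ι f = algebraMap kk[X] (RatFunc kk) (f.map (algebraMap (ZMod 2) kk)) := by
    intro f
    unfold ι
    rw [RingHom.comp_apply, Polynomial.coe_mapRingHom]
  rw [h0, Polynomial.map_mul, Polynomial.map_pow, Polynomial.map_X]

theorem sum_n (n : ℕ) (z : Fin (1 + 1) → RatFunc kk)
    (hz : z = (fun (z : Fin (1 + 1) → RatFunc kk) (j : Fin (1 + 1)) =>
      MvPolynomial.eval z (FF j))^[n] ![ι (X ^ 2), 1]) :
    ∑ᶠ v : {v : Valuation (RatFunc kk) (WithZero (Multiplicative ℤ)) //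
        Function.Surjective v ∧
          ∀ c : kk, c ≠ 0 → v (algebraMap (RatFunc kk) (RatFunc kk) (RatFunc.C c)) = 1},
      ((sInf {m : ℤ | ∀ i, v.1 (z i) ≤ WithZero.coe (Multiplicative.ofAdd m)} : ℤ) : ℝ) =
      ((orb n).1.natDegree : ℝ) := by
  obtain ⟨h0, h1⟩ := iter_eq n
  rw [← hz] at h0 h1
  have hdeg : ((orb n).2.map (algebraMap (ZMod 2) kk)).natDegree ≤
      ((orb n).1.map (algebraMap (ZMod 2) kk)).natDegree := by
    rw [Polynomial.natDegree_map, Polynomial.natDegree_map]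
    have := (orb_inv n).hdeg
    omega
  have h := height_sum ((orb n).1.map (algebraMap (ZMod 2) kk))
    ((orb n).2.map (algebraMap (ZMod 2) kk)) (ss n) (map_p n) (map_q n) (map_cop n) hdeg z
    (h0.trans (ι_mul_pow _ _)) (h1.trans (ι_mul_pow _ _))
  rw [Polynomial.natDegree_map] at h
  exact h

end Pool.Agent.H18.CH
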