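import Mathlib

set_option autoImplicit false
set_option linter.all false

namespace Pool.Agent.H18.E68b70

open Filter Topology Set

/-- truncated cube -/
noncomputable def cub (s : ℝ) : ℝ := (max s 0) ^ 3

lemma hasDerivAt_maxpow (n : ℕ) (hn : 1 ≤ n) (s : ℝ) :
    HasDerivAt (fun s : ℝ => (max s 0) ^ (n + 1)) ((n + 1 : ℕ) * (max s 0) ^ n) s := by
  rcases lt_trichotomy s 0 with h | h | h
  · have h1 : (fun s : ℝ => (max s 0) ^ (n + 1)) =ᶠ[𝓝 s] fun _ => 0 := by
      filter_upwards [Iio_mem_nhds h] with t ht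
      rw [max_eq_right (le_of_lt ht)]; simp
    rw [max_eq_right h.le, zero_pow (by omega), mul_zero]
    exact (hasDerivAt_const s (0 : ℝ)).congr_of_eventuallyEq h1
  · subst h
    have h2 : HasFDerivAt (fun s : ℝ => (max s 0) ^ (n + 1)) (0 : ℝ →L[ℝ] ℝ) 0 := by
      apply Asymptotics.IsBigO.hasFDerivAt (n := n + 1) _ (by omega)
      apply Asymptotics.IsBigO.of_bound 1
      filter_upwards with t
      rw [one_mul, norm_pow, norm_pow, norm_norm, sub_zero]
      apply pow_le_pow_left₀ (norm_nonneg _)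
      rw [Real.norm_eq_abs, Real.norm_eq_abs, abs_of_nonneg (le_max_right _ _)]
      exact max_le (le_abs_self _) (abs_nonneg _)
    rw [max_self, zero_pow (by omega), mul_zero]
    have := h2.hasDerivAt
    simpa using this
  · have h1 : (fun s : ℝ => (max s 0) ^ (n + 1)) =ᶠ[𝓝 s] fun t => t ^ (n + 1) := by
      filter_upwards [Ioi_mem_nhds h] with t ht
      rw [max_eq_left (le_of_lt ht)]
    rw [max_eq_left h.le]
    have := hasDerivAt_pow (n + 1) s
    simp only [Nat.add_sub_cancel] at this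
    exact this.congr_of_eventuallyEq h1

lemma contDiff_cub : ContDiff ℝ 2 cub := by
  have d3 : ∀ s, HasDerivAt cub (3 * (max s 0) ^ 2) s := fun s => by
    have := hasDerivAt_maxpow 2 (by norm_num) s
    change HasDerivAt (fun s : ℝ => (max s 0) ^ 3) _ s
    simpa using this
  have d2 : ∀ s : ℝ, HasDerivAt (fun s : ℝ => 3 * (max s 0) ^ 2) (3 * (2 * (max s 0))) s := fun s => by
    have := hasDerivAt_maxpow 1 (by norm_num) s
    have := this.const_mul 3
    simpa using this
  have e3 : deriv cub = fun s => 3 * (max s 0) ^ 2 := funext fun s => (d3 s).deriv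
  have e2 : deriv (fun s : ℝ => 3 * (max s 0) ^ 2) = fun s => 3 * (2 * (max s 0)) :=
    funext fun s => (d2 s).deriv
  have h1 : ContDiff ℝ 1 (fun s : ℝ => 3 * (max s 0) ^ 2) := by
    rw [contDiff_one_iff_deriv]
    refine ⟨fun s => (d2 s).differentiableAt, ?_⟩
    rw [e2]
    fun_prop
  have : ContDiff ℝ (1 + 1) cub := by
    rw [contDiff_succ_iff_deriv]
    refine ⟨fun s => (d3 s).differentiableAt, by simp, ?_⟩
    rw [e3]; exact h1
  exact_mod_cast this

lemma cub_nonneg (s : ℝ) : 0 ≤ cub s := pow_nonneg (le_max_right _ _) 3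

lemma cub_mono : Monotone cub := fun s t h =>
  pow_le_pow_left₀ (le_max_right _ _) (max_le_max_right 0 h) 3

lemma cub_of_nonpos {s : ℝ} (h : s ≤ 0) : cub s = 0 := by simp [cub, max_eq_right h]

lemma cub_of_nonneg {s : ℝ} (h : 0 ≤ s) : cub s = s ^ 3 := by simp [cub, max_eq_left h]

lemma convexOn_cub : ConvexOn ℝ univ cub := by
  have h : ConvexOn ℝ univ (fun s : ℝ => max s 0) :=
    (convexOn_id convex_univ).sup (convexOn_const 0 convex_univ)
  exact h.pow (fun x _ => le_max_right _ _) 3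

lemma convexOn_cub_comp {E : Type*} [AddCommGroup E] [Module ℝ E] {f : E → ℝ}
    (hf : ConvexOn ℝ univ f) : ConvexOn ℝ univ (fun x => cub (f x)) :=
  ⟨convex_univ, fun x _ y _ a b ha hb hab =>
    (cub_mono (hf.2 (mem_univ x) (mem_univ y) ha hb hab)).trans
      (convexOn_cub.2 (mem_univ _) (mem_univ _) ha hb hab)⟩

section implicit

variable {E : Type*} [NormedAddCommGroup E] [NormedSpace ℝ E] [CompleteSpace E]

lemma contDiffAt_of_implicit {N : E → ℝ} (hN : Continuous N) {x₀ : E} (hx : 0 < N x₀)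
    {φ : E → ℝ} (hφ : ContDiff ℝ 2 φ)
    (h1 : ∀ᶠ x in 𝓝 x₀, φ ((N x)⁻¹ • x) = 1)
    (hd : fderiv ℝ φ ((N x₀)⁻¹ • x₀) x₀ ≠ 0) : ContDiffAt ℝ 2 N x₀ := by
  let f : E × ℝ → ℝ := fun p => φ (p.2 • p.1)
  let u : E × ℝ := (x₀, (N x₀)⁻¹)
  have hf : ContDiff ℝ 2 f := hφ.comp (contDiff_snd.smul contDiff_fst)
  have cdf : ContDiffAt ℝ 2 f u := hf.contDiffAt
  have hder : ∀ s : ℝ, (fderiv ℝ f u ∘L .inr ℝ E ℝ) s = s * fderiv ℝ φ ((N x₀)⁻¹ • x₀) x₀ := by
    intro s
    have h2 : HasFDerivAt (fun r : ℝ => f (x₀, r)) (fderiv ℝ f u ∘L .inr ℝ E ℝ) (N x₀)⁻¹ := by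
      have hfu : HasFDerivAt f (fderiv ℝ f u) u :=
        (hf.differentiable (by norm_num)).differentiableAt.hasFDerivAt
      exact HasFDerivAt.comp (N x₀)⁻¹ (f := fun r : ℝ => (x₀, r)) hfu (hasFDerivAt_prodMk_right x₀ _)
    have h3 : HasDerivAt (fun r : ℝ => φ (r • x₀)) (fderiv ℝ φ ((N x₀)⁻¹ • x₀) x₀) (N x₀)⁻¹ := by
      have hφu : HasFDerivAt φ (fderiv ℝ φ ((N x₀)⁻¹ • x₀)) ((N x₀)⁻¹ • x₀) :=
        (hφ.differentiable (by norm_num)).differentiableAt.hasFDerivAt
      have h4 : HasDerivAt (fun r : ℝ => r • x₀) x₀ (N x₀)⁻¹ := by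
        simpa using (hasDerivAt_id (N x₀)⁻¹).smul_const x₀
      exact hφu.comp_hasDerivAt _ h4
    have h5 := h2.unique h3.hasFDerivAt
    rw [h5]
    simp
  have inv : (fderiv ℝ f u ∘L .inr ℝ E ℝ).IsInvertible := by
    refine ⟨ContinuousLinearEquiv.smulLeft (Units.mk0 _ hd), ?_⟩
    ext
    rw [hder]
    simp
  have hev := cdf.eventually_apply_eq_iff_implicitFunction (by norm_num) inv
  set g := cdf.implicitFunction (by norm_num) inv with hg
  have hgc : ContDiffAt ℝ 2 g x₀ := cdf.contDiffAt_implicitFunction (by norm_num) inv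
  have hg0 : g x₀ = (N x₀)⁻¹ := cdf.implicitFunction_apply_self (by norm_num) inv
  have hcont : Tendsto (fun x => (x, (N x)⁻¹)) (𝓝 x₀) (𝓝 u) :=
    (continuousAt_id.prodMk (hN.continuousAt.inv₀ hx.ne'))
  have hev2 := hcont.eventually hev
  have h1' := h1.self_of_nhds
  have hfu : f u = 1 := h1'
  have key : ∀ᶠ x in 𝓝 x₀, N x = (g x)⁻¹ := by
    filter_upwards [hev2, h1] with x hx1 hx2
    have : g x = (N x)⁻¹ := hx1.1 (by rw [hfu]; exact hx2)
    rw [this, inv_inv]
  have : ContDiffAt ℝ 2 (fun x => (g x)⁻¹) x₀ := hgc.inv (by rw [hg0]; exact (inv_pos.2 hx).ne')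
  exact this.congr_of_eventuallyEq key

/-- smoothness of the gauge of a body which is locally a smooth sublevel set -/
lemma contDiffAt_gauge {K : Set E} (hc : Convex ℝ K) (hcl : IsClosed K) (h0 : K ∈ 𝓝 (0 : E))
    {x₀ : E} (hpos : 0 < gauge K x₀) {φ : E → ℝ} (hφ : ContDiff ℝ 2 φ) (hcv : ConvexOn ℝ univ φ)
    (hφ0 : φ 0 = 0)
    (hK : ∀ᶠ y in 𝓝 ((gauge K x₀)⁻¹ • x₀), (y ∈ K ↔ φ y ≤ 1)) :
    ContDiffAt ℝ 2 (gauge K) x₀ := by
  have hN : Continuous (gauge K) := continuous_gauge hc h0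
  have habs : Absorbent ℝ K := absorbent_nhds_zero h0
  have hmem : ∀ x, x ∈ K ↔ gauge K x ≤ 1 := by
    intro x
    rw [gauge_le_one_iff_mem_closure hc h0, hcl.closure_eq]
  have hφc : Continuous φ := hφ.continuous
  have hev : ∀ᶠ x in 𝓝 x₀, φ ((gauge K x)⁻¹ • x) = 1 := by
    have hcont : Tendsto (fun x => (gauge K x)⁻¹ • x) (𝓝 x₀) (𝓝 ((gauge K x₀)⁻¹ • x₀)) :=
      (hN.continuousAt.inv₀ hpos.ne').smul continuousAt_id
    have h2 := hcont.eventually hK.eventually_nhds
    have h3 : ∀ᶠ x in 𝓝 x₀, 0 < gauge K x := hN.continuousAt.eventually_const_lt hpos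
    filter_upwards [h2, h3] with x hx hgx
    set y := (gauge K x)⁻¹ • x with hy
    have hg1 : gauge K y = 1 := by
      rw [hy, gauge_smul_of_nonneg (inv_nonneg.2 hgx.le), smul_eq_mul, inv_mul_cancel₀ hgx.ne']
    have hle : φ y ≤ 1 := (hx.self_of_nhds).1 ((hmem y).2 hg1.le)
    by_contra hne
    have hlt : φ y < 1 := lt_of_le_of_ne hle hne
    have h4 : ∀ᶠ z in 𝓝 y, φ z < 1 := hφc.continuousAt.eventually_lt_const hlt
    have h5 : Tendsto (fun t : ℝ => (1 + t) • y) (𝓝[>] 0) (𝓝 y) := by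
      have : Tendsto (fun t : ℝ => (1 + t) • y) (𝓝 0) (𝓝 ((1 + 0 : ℝ) • y)) := by
        apply Continuous.tendsto
        fun_prop
      rw [add_zero, one_smul] at this
      exact this.mono_left nhdsWithin_le_nhds
    obtain ⟨t, ht1, ht2⟩ := ((h5.eventually (hx.and h4)).and self_mem_nhdsWithin).exists
    have ht0 : (0 : ℝ) < t := ht2
    have h6 : (1 + t) • y ∈ K := ht1.1.2 ht1.2.le
    have h7 := (hmem _).1 h6
    rw [gauge_smul_of_nonneg (by linarith), hg1, smul_eq_mul] at h7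
    linarith
  refine contDiffAt_of_implicit hN hpos hφ hev ?_
  set y₀ := (gauge K x₀)⁻¹ • x₀ with hy₀
  have h1 : φ y₀ = 1 := hev.self_of_nhds
  have hline : ConvexOn ℝ univ (fun t : ℝ => φ (t • y₀)) := by
    refine ⟨convex_univ, fun s _ t _ a b ha hb hab => ?_⟩
    have := hcv.2 (mem_univ (s • y₀)) (mem_univ (t • y₀)) ha hb hab
    simp only [smul_smul, ← add_smul] at this
    simpa [smul_smul] using this
  have hder : HasDerivAt (fun t : ℝ => φ (t • y₀)) (fderiv ℝ φ y₀ y₀) 1 := by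
    have hφu : HasFDerivAt φ (fderiv ℝ φ y₀) ((1 : ℝ) • y₀) := by
      rw [one_smul]
      exact (hφ.differentiable (by norm_num)).differentiableAt.hasFDerivAt
    have h4 : HasDerivAt (fun r : ℝ => r • y₀) y₀ 1 := by
      simpa using (hasDerivAt_id (1 : ℝ)).smul_const y₀
    exact hφu.comp_hasDerivAt _ h4
  have h8 := hline.slope_le_of_hasDerivAt (mem_univ (0 : ℝ)) (mem_univ (1 : ℝ)) one_pos hder
  rw [slope_def_field] at h8
  simp only [one_smul, zero_smul, h1, hφ0] at h8
  have h9 : fderiv ℝ φ y₀ y₀ = (gauge K x₀)⁻¹ * fderiv ℝ φ y₀ x₀ := by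
    conv_lhs => rw [hy₀]
    rw [map_smul, smul_eq_mul]
  intro h10
  rw [h9, h10] at h8
  norm_num at h8

lemma le_gauge_gen {K : Set E} (h0 : K ∈ 𝓝 (0 : E)) {r : ℝ} (hr : 0 ≤ r)
    (h : K ⊆ Metric.closedBall (0 : E) r) {x : E} : ‖x‖ / r ≤ gauge K x :=
  le_gauge_of_subset_closedBall (absorbent_nhds_zero h0) hr h

/-- the gauge as a seminorm -/
noncomputable def gsem (K : Set E) (hb : ∀ a : ℝ, |a| ≤ 1 → ∀ x ∈ K, a • x ∈ K)
    (hc : Convex ℝ K) (h0 : K ∈ 𝓝 (0 : E)) : Seminorm ℝ E :=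
  gaugeSeminorm (𝕜 := ℝ) (s := K) (by
    intro a ha
    rintro _ ⟨x, hx, rfl⟩
    exact hb a (by simpa using ha) x hx) hc (absorbent_nhds_zero h0)

lemma gsem_apply (K : Set E) (hb : ∀ a : ℝ, |a| ≤ 1 → ∀ x ∈ K, a • x ∈ K)
    (hc : Convex ℝ K) (h0 : K ∈ 𝓝 (0 : E)) (x : E) : gsem K hb hc h0 x = gauge K x := rfl

end implicit

section body

abbrev C0 := ZeroAtInftyContinuousMap ℕ ℝ

lemma abs_apply_le (x : C0) (k : ℕ) : |x k| ≤ ‖x‖ := by
  rw [← ZeroAtInftyContinuousMap.norm_toBCF_eq_norm]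
  exact x.toBCF.norm_coe_le_norm k

lemma norm_le' {x : C0} {C : ℝ} (hC : 0 ≤ C) (h : ∀ k, |x k| ≤ C) : ‖x‖ ≤ C := by
  rw [← ZeroAtInftyContinuousMap.norm_toBCF_eq_norm]
  exact (BoundedContinuousFunction.norm_le hC).2 h

/-- coordinate functional -/
noncomputable def ev (k : ℕ) : C0 →L[ℝ] ℝ :=
  LinearMap.mkContinuous
    { toFun := fun x => x k
      map_add' := fun x y => rfl
      map_smul' := fun c x => rfl } 1 (fun x => by
        rw [one_mul]; exact abs_apply_le x k)

@[simp] lemma ev_apply (k : ℕ) (x : C0) : ev k x = x k := rfl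

lemma finite_ge (x : C0) {η : ℝ} (hη : 0 < η) : {k : ℕ | η ≤ |x k|}.Finite := by
  have h := x.zero_at_infty'
  rw [Filter.cocompact_eq_cofinite] at h
  have h2 := (Metric.tendsto_nhds.1 h) η hη
  rw [Filter.eventually_cofinite] at h2
  refine h2.subset fun k hk => ?_
  simp only [mem_setOf_eq, dist_zero_right, Real.norm_eq_abs, not_lt] at hk ⊢
  exact hk

/-- unit vector -/
noncomputable def e (m : ℕ) : C0 where
  toFun := Pi.single m 1
  continuous_toFun := continuous_of_discreteTopology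
  zero_at_infty' := by
    rw [Filter.cocompact_eq_cofinite]
    apply tendsto_nhds_of_eventually_eq
    rw [Filter.eventually_cofinite]
    refine (Set.finite_singleton m).subset fun k hk => ?_
    simp only [mem_setOf_eq] at hk
    by_contra hne
    exact hk (Pi.single_eq_of_ne hne 1)

lemma e_self (m : ℕ) : e m m = 1 := by
  change (Pi.single m (1 : ℝ) : ℕ → ℝ) m = 1
  exact Pi.single_eq_same m _
lemma e_ne {m k : ℕ} (h : k ≠ m) : e m k = 0 := by
  change (Pi.single m (1 : ℝ) : ℕ → ℝ) k = 0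
  exact Pi.single_eq_of_ne h _

/-- the small parameters -/
noncomputable def eps (m : ℕ) : ℝ := 1 / ((m : ℝ) + 1)

lemma eps_pos (m : ℕ) : 0 < eps m := Nat.one_div_pos_of_nat
lemma eps_le_one (m : ℕ) : eps m ≤ 1 := by
  unfold eps
  rw [div_le_one (by positivity)]
  have : (0 : ℝ) ≤ m := Nat.cast_nonneg m
  linarith

/-- basic terms -/
noncomputable def bet (s : ℝ) : ℝ := cub (s ^ 2 - 1)

/-- the terms of the defining function -/
noncomputable def term (p : ℕ × ℕ) (x : C0) : ℝ :=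
  if p.1 = p.2 then bet (x p.1) else cub ((x p.1) ^ 2 + (3 - eps p.2) * bet (x p.2) - 3)

lemma term_self (k : ℕ) (x : C0) : term (k, k) x = bet (x k) := by simp [term]
lemma term_ne {k m : ℕ} (h : k ≠ m) (x : C0) :
    term (k, m) x = cub ((x k) ^ 2 + (3 - eps m) * bet (x m) - 3) := by simp [term, h]

lemma bet_nonneg (s : ℝ) : 0 ≤ bet s := cub_nonneg _

lemma bet_zero_of {s : ℝ} (h : |s| ≤ 1) : bet s = 0 := by
  apply cub_of_nonpos
  have := sq_abs s
  nlinarith [abs_nonneg s]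

lemma bet_mono {s t : ℝ} (h : |s| ≤ |t|) : bet s ≤ bet t := by
  apply cub_mono
  have h1 := sq_abs s
  have h2 := sq_abs t
  nlinarith [abs_nonneg s]

lemma c_nonneg (m : ℕ) : 0 ≤ 3 - eps m := by linarith [eps_le_one m]

lemma term_nonneg (p : ℕ × ℕ) (x : C0) : 0 ≤ term p x := by
  unfold term
  split_ifs
  · exact cub_nonneg _
  · exact cub_nonneg _

lemma term_mono (p : ℕ × ℕ) {x y : C0} (h : ∀ k, |x k| ≤ |y k|) : term p x ≤ term p y := by
  unfold term
  split_ifs
  · exact bet_mono (h _)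
  · apply cub_mono
    have h1 := sq_abs (x p.1)
    have h2 := sq_abs (y p.1)
    have h3 := mul_le_mul_of_nonneg_left (bet_mono (h p.2)) (c_nonneg p.2)
    nlinarith [abs_nonneg (x p.1), h p.1]

lemma convexOn_sq_ev (k : ℕ) : ConvexOn ℝ univ (fun x : C0 => (x k) ^ 2) := by
  have h : ConvexOn ℝ univ (fun s : ℝ => s ^ 2) := Even.convexOn_pow (by decide)
  exact h.comp_linearMap (ev k : C0 →ₗ[ℝ] ℝ)

lemma convexOn_bet (k : ℕ) : ConvexOn ℝ univ (fun x : C0 => bet (x k)) :=
  convexOn_cub_comp ((convexOn_sq_ev k).add_const (-1))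

lemma convexOn_term (p : ℕ × ℕ) : ConvexOn ℝ univ (term p) := by
  rcases p with ⟨k, m⟩
  by_cases h : k = m
  · subst h
    have : term (k, k) = fun x : C0 => bet (x k) := funext fun x => term_self k x
    rw [this]
    exact convexOn_bet k
  · have : term (k, m) = fun x : C0 => cub ((x k) ^ 2 + (3 - eps m) * bet (x m) + -3) :=
      funext fun x => by rw [term_ne h, sub_eq_add_neg]
    rw [this]
    apply convexOn_cub_comp
    exact ((convexOn_sq_ev k).add ((convexOn_bet m).smul (c_nonneg m))).add_const _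

lemma contDiff_bet (k : ℕ) : ContDiff ℝ 2 (fun x : C0 => bet (x k)) :=
  contDiff_cub.comp (((ev k).contDiff.pow 2).sub contDiff_const)

lemma contDiff_term (p : ℕ × ℕ) : ContDiff ℝ 2 (term p) := by
  rcases p with ⟨k, m⟩
  by_cases h : k = m
  · subst h
    have : term (k, k) = fun x : C0 => bet (x k) := funext fun x => term_self k x
    rw [this]
    exact contDiff_bet k
  · have : term (k, m) = fun x : C0 => cub ((x k) ^ 2 + (3 - eps m) * bet (x m) - 3) :=
      funext fun x => by rw [term_ne h]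
    rw [this]
    exact contDiff_cub.comp ((((ev k).contDiff.pow 2).add (contDiff_const.mul (contDiff_bet m))).sub
      contDiff_const)

lemma term_zero_of {p : ℕ × ℕ} {x : C0} (h : ∀ k, |x k| ≤ 1) : term p x = 0 := by
  unfold term
  rw [bet_zero_of (h _), bet_zero_of (h _)]
  split_ifs
  · rfl
  · apply cub_of_nonpos
    have := sq_abs (x p.1)
    nlinarith [h p.1, abs_nonneg (x p.1)]

/-- the convex body -/
def K : Set C0 := {x | ∀ F : Finset (ℕ × ℕ), ∑ p ∈ F, term p x ≤ 1}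

lemma convex_K : Convex ℝ K := by
  have : K = ⋂ F : Finset (ℕ × ℕ), {x | x ∈ univ ∧ ∑ p ∈ F, term p x ≤ 1} := by
    ext x; simp [K]
  rw [this]
  apply convex_iInter
  intro F
  have hF : ConvexOn ℝ univ (fun x => ∑ p ∈ F, term p x) := by
    classical
    induction F using Finset.induction_on with
    | empty => simpa using convexOn_const (0 : ℝ) convex_univ
    | insert a s ha ih =>
      simp only [Finset.sum_insert ha]
      exact (convexOn_term a).add ih
  exact hF.convex_le 1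

lemma isClosed_K : IsClosed K := by
  have : K = ⋂ F : Finset (ℕ × ℕ), {x | ∑ p ∈ F, term p x ≤ 1} := by
    ext x; simp [K]
  rw [this]
  apply isClosed_iInter
  intro F
  exact isClosed_le (continuous_finset_sum _ fun p _ => (contDiff_term p).continuous)
    continuous_const

lemma ball_sub_K : Metric.closedBall (0 : C0) 1 ⊆ K := by
  intro x hx F
  rw [mem_closedBall_zero_iff] at hx
  rw [Finset.sum_eq_zero fun p _ => term_zero_of fun k => (abs_apply_le x k).trans hx]
  norm_num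

lemma K_nhds : K ∈ 𝓝 (0 : C0) :=
  Filter.mem_of_superset (Metric.closedBall_mem_nhds 0 one_pos) ball_sub_K

lemma K_mono {x y : C0} (h : ∀ k, |x k| ≤ |y k|) (hy : y ∈ K) : x ∈ K := fun F =>
  (Finset.sum_le_sum fun p _ => term_mono p h).trans (hy F)

lemma sq_le_two {x : C0} (hx : x ∈ K) (k : ℕ) : (x k) ^ 2 ≤ 2 := by
  have h := hx {(k, k)}
  rw [Finset.sum_singleton, term_self] at h
  by_contra hcon
  push Not at hcon
  unfold bet at h
  rw [cub_of_nonneg (by linarith)] at h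
  nlinarith [sq_nonneg (x k ^ 2 - 1), sq_nonneg (x k ^ 2 - 2)]

lemma bet_le_one {x : C0} (hx : x ∈ K) (k : ℕ) : bet (x k) ≤ 1 := by
  have h := hx {(k, k)}
  rwa [Finset.sum_singleton, term_self] at h

lemma K_sub_ball : K ⊆ Metric.closedBall (0 : C0) 2 := by
  intro x hx
  rw [mem_closedBall_zero_iff]
  apply norm_le' (by norm_num)
  intro k
  have := sq_le_two hx k
  have h2 := sq_abs (x k)
  nlinarith [abs_nonneg (x k)]

lemma local_finite {y₀ : C0} (hy₀ : y₀ ∈ K) :
    ∃ F : Finset (ℕ × ℕ), ∀ᶠ y in 𝓝 y₀, ∀ p, p ∉ F → term p y = 0 := by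
  classical
  -- coordinates of size at least 1/2
  have hA := finite_ge y₀ (η := 1 / 2) (by norm_num)
  obtain ⟨M, hM⟩ := hA.bddAbove
  set η : ℝ := eps M with hη
  have hη0 : 0 < η := eps_pos M
  have hη1 : η ≤ 1 := eps_le_one M
  have hηA : ∀ m, 1 / 2 ≤ |y₀ m| → η ≤ eps m := by
    intro m hm
    have h1 : m ≤ M := hM hm
    have h2 : (m : ℝ) ≤ M := by exact_mod_cast h1
    rw [hη]
    unfold eps
    apply one_div_le_one_div_of_le
    · positivity
    · linarith
  have hB := finite_ge y₀ (η := η / 4) (by positivity)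
  set B : Finset ℕ := hB.toFinset with hBdef
  have hBm : ∀ k, k ∉ B → |y₀ k| < η / 4 := by
    intro k hk
    rw [hBdef, Set.Finite.mem_toFinset] at hk
    simpa using hk
  refine ⟨B ×ˢ B, ?_⟩
  have h1 : ∀ᶠ y in 𝓝 y₀, ∀ m ∈ B, bet (y m) < bet (y₀ m) + η / 12 := by
    rw [Filter.eventually_all_finset]
    intro m _
    exact (contDiff_bet m).continuous.continuousAt.eventually_lt_const (by linarith)
  have h2 : ∀ᶠ y in 𝓝 y₀, ‖y - y₀‖ < η / 8 := by
    have := Metric.ball_mem_nhds y₀ (ε := η / 8) (by positivity)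
    filter_upwards [this] with y hy
    rwa [mem_ball_iff_norm] at hy
  filter_upwards [h1, h2] with y hy1 hy2
  have hd : ∀ k, |y k - y₀ k| < η / 8 := fun k =>
    lt_of_le_of_lt (abs_apply_le (y - y₀) k) hy2
  have habs : ∀ k, |y k| < |y₀ k| + η / 8 := by
    intro k
    have := hd k
    have h3 := abs_sub_abs_le_abs_sub (y k) (y₀ k)
    linarith
  have hlt3 : ∀ k, (y k) ^ 2 < 3 := by
    intro k
    have h4 := sq_le_two hy₀ k
    have h5 := habs k
    have h6 : |y₀ k| ≤ 3 / 2 := by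
      have := sq_abs (y₀ k)
      nlinarith [abs_nonneg (y₀ k)]
    have := sq_abs (y k)
    have := sq_abs (y₀ k)
    nlinarith [abs_nonneg (y k), abs_nonneg (y₀ k)]
  have hbz : ∀ m, |y₀ m| < 1 / 2 → bet (y m) = 0 := by
    intro m hm
    apply bet_zero_of
    have := habs m
    linarith
  rintro ⟨k, m⟩ hp
  rw [Finset.mem_product] at hp
  simp only at hp
  by_cases hkm : k = m
  · subst hkm
    rw [term_self]
    have hk : k ∉ B := fun h => hp ⟨h, h⟩
    apply hbz
    have := hBm k hk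
    linarith
  · rw [term_ne hkm]
    apply cub_of_nonpos
    by_cases hm2 : |y₀ m| < 1 / 2
    · rw [hbz m hm2]
      have := hlt3 k
      linarith
    · push Not at hm2
      have hmB : m ∈ B := by
        rw [hBdef, Set.Finite.mem_toFinset]
        simp only [mem_setOf_eq]
        linarith
      have hkB : k ∉ B := fun h => hp ⟨h, hmB⟩
      have h7 := hy1 m hmB
      have h8 := bet_le_one hy₀ m
      have h9 := hηA m hm2
      have h10 : |y k| < 1 / 2 * η := by
        have := habs k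
        have := hBm k hkB
        linarith
      have h11 : (y k) ^ 2 ≤ η / 4 := by
        have := sq_abs (y k)
        nlinarith [abs_nonneg (y k)]
      have h12 : (3 - eps m) * bet (y m) ≤ (3 - η) * (1 + η / 12) := by
        apply mul_le_mul
        · linarith
        · linarith
        · exact bet_nonneg _
        · linarith
      nlinarith

lemma K_local {y₀ : C0} (hy₀ : y₀ ∈ K) :
    ∃ F : Finset (ℕ × ℕ), ∀ᶠ y in 𝓝 y₀, (y ∈ K ↔ ∑ p ∈ F, term p y ≤ 1) := by
  classical
  obtain ⟨F, hF⟩ := local_finite hy₀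
  refine ⟨F, ?_⟩
  filter_upwards [hF] with y hy
  refine ⟨fun h => h F, fun h G => le_trans ?_ h⟩
  calc ∑ p ∈ G, term p y = ∑ p ∈ G.filter (· ∈ F), term p y := by
        rw [Finset.sum_filter]
        apply Finset.sum_congr rfl
        intro p _
        split_ifs with h1
        · rfl
        · exact hy p h1
    _ ≤ ∑ p ∈ F, term p y :=
        Finset.sum_le_sum_of_subset_of_nonneg (fun p hp => (Finset.mem_filter.1 hp).2)
          (fun p _ _ => term_nonneg p y)

lemma balanced_K (a : ℝ) (ha : |a| ≤ 1) (x : C0) (hx : x ∈ K) : a • x ∈ K := by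
  refine K_mono (fun k => ?_) hx
  change |a * x k| ≤ |x k|
  rw [abs_mul]
  nlinarith [abs_nonneg (x k), abs_nonneg a]

lemma mem_K_iff (x : C0) : x ∈ K ↔ gauge K x ≤ 1 := by
  rw [gauge_le_one_iff_mem_closure convex_K K_nhds, isClosed_K.closure_eq]

lemma gauge_le (x : C0) : gauge K x ≤ ‖x‖ := by
  have := mul_gauge_le_norm (s := K) (r := 1) (x := x)
    (Metric.ball_subset_closedBall.trans ball_sub_K)
  simpa using this

lemma le_gauge (x : C0) : (1 / 2) * ‖x‖ ≤ gauge K x := by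
  have := le_gauge_gen (x := x) K_nhds (by norm_num : (0 : ℝ) ≤ 2) K_sub_ball
  linarith

lemma contDiffOn_gauge : ContDiffOn ℝ 2 (gauge K) ({0}ᶜ : Set C0) := by
  intro x₀ hx₀
  apply ContDiffAt.contDiffWithinAt
  have hx0 : x₀ ≠ 0 := hx₀
  have hpos : 0 < gauge K x₀ := by
    have := le_gauge x₀
    have := norm_pos_iff.2 hx0
    linarith
  have hy : (gauge K x₀)⁻¹ • x₀ ∈ K := by
    rw [mem_K_iff, gauge_smul_of_nonneg (inv_nonneg.2 hpos.le), smul_eq_mul,
      inv_mul_cancel₀ hpos.ne']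
  obtain ⟨F, hF⟩ := K_local hy
  refine contDiffAt_gauge convex_K isClosed_K K_nhds hpos
    (φ := fun x => ∑ p ∈ F, term p x) ?_ ?_ ?_ hF
  · exact ContDiff.sum fun p _ => contDiff_term p
  · classical
    clear hF
    induction F using Finset.induction_on with
    | empty => simpa using convexOn_const (0 : ℝ) convex_univ
    | insert a s ha ih =>
      simp only [Finset.sum_insert ha]
      exact (convexOn_term a).add ih
  · apply Finset.sum_eq_zero
    intro p _
    apply term_zero_of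
    intro k
    simp

/-- slices at the unit vectors are small -/
lemma slice {ε : ℝ} (hε : 0 < ε) : ∃ (m : ℕ) (δ : ℝ), 0 < δ ∧
    ∀ y ∈ K, Real.sqrt 2 - δ < y m → dist y (Real.sqrt 2 • e m) < ε := by
  obtain ⟨m, hm⟩ : ∃ m : ℕ, eps m < ε ^ 2 / 16 := by
    obtain ⟨m, hm⟩ := exists_nat_one_div_lt (show (0 : ℝ) < ε ^ 2 / 16 by positivity)
    exact ⟨m, hm⟩
  set η : ℝ := min (ε ^ 2 / 48) ((ε ^ 2 / 8) ^ 3) with hη
  have hη0 : 0 < η := by positivity
  have hc : ContinuousAt bet (Real.sqrt 2) := by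
    have : Continuous bet := contDiff_cub.continuous.comp (by fun_prop)
    exact this.continuousAt
  have hb2 : bet (Real.sqrt 2) = 1 := by
    unfold bet
    rw [Real.sq_sqrt (by norm_num), cub_of_nonneg (by norm_num)]
    norm_num
  obtain ⟨δ, hδ, hδ2⟩ := Metric.continuousAt_iff.1 hc η hη0
  refine ⟨m, min δ (ε / 4), by positivity, fun y hy hym => ?_⟩
  have hs2 : Real.sqrt 2 ^ 2 = 2 := Real.sq_sqrt (by norm_num)
  have hs0 : 0 ≤ Real.sqrt 2 := Real.sqrt_nonneg 2
  have hyle : y m ≤ Real.sqrt 2 := by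
    apply Real.le_sqrt_of_sq_le
    exact sq_le_two hy m
  have hdm : |y m - Real.sqrt 2| < min δ (ε / 4) := by
    rw [abs_lt]; constructor
    · linarith
    · have : 0 < min δ (ε / 4) := by positivity
      linarith
  have hbm : 1 - η < bet (y m) := by
    have := hδ2 (lt_of_lt_of_le hdm (min_le_left _ _))
    rw [hb2, Real.dist_eq, abs_lt] at this
    linarith
  rw [dist_eq_norm]
  refine lt_of_le_of_lt (norm_le' (C := ε / 2) (by positivity) fun k => ?_) (by linarith)
  change |y k - Real.sqrt 2 * e m k| ≤ ε / 2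
  by_cases hkm : k = m
  · subst hkm
    rw [e_self, mul_one]
    have := lt_of_lt_of_le hdm (min_le_right _ _)
    linarith
  · rw [e_ne hkm, mul_zero, sub_zero]
    by_contra hcon
    push Not at hcon
    have h1 := hy {(m, m), (k, m)}
    rw [Finset.sum_pair (by simp; exact fun h => hkm h.symm), term_self, term_ne hkm] at h1
    have h2 : ε ^ 2 / 4 ≤ (y k) ^ 2 := by
      have := sq_abs (y k)
      nlinarith [abs_nonneg (y k)]
    have h3 : ε ^ 2 / 8 ≤ (y k) ^ 2 + (3 - eps m) * bet (y m) - 3 := by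
      have h4 : (3 - eps m) * (1 - η) ≤ (3 - eps m) * bet (y m) :=
        mul_le_mul_of_nonneg_left hbm.le (c_nonneg m)
      have h5 : η ≤ ε ^ 2 / 48 := min_le_left _ _
      have h6 := eps_pos m
      nlinarith
    have h7 : (ε ^ 2 / 8) ^ 3 ≤ cub ((y k) ^ 2 + (3 - eps m) * bet (y m) - 3) := by
      rw [← cub_of_nonneg (s := ε ^ 2 / 8) (by positivity)]
      exact cub_mono h3
    have h8 : η ≤ (ε ^ 2 / 8) ^ 3 := min_le_right _ _
    linarith

lemma top_mem (m : ℕ) : Real.sqrt 2 • e m ∈ K := by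
  intro F
  have hs2 : Real.sqrt 2 ^ 2 = 2 := Real.sq_sqrt (by norm_num)
  have hb2 : bet (Real.sqrt 2) = 1 := by
    unfold bet
    rw [Real.sq_sqrt (by norm_num), cub_of_nonneg (by norm_num)]
    norm_num
  have hm : (Real.sqrt 2 • e m) m = Real.sqrt 2 := by
    change Real.sqrt 2 * e m m = _
    rw [e_self, mul_one]
  have hk : ∀ k, k ≠ m → (Real.sqrt 2 • e m) k = 0 := by
    intro k hk
    change Real.sqrt 2 * e m k = _
    rw [e_ne hk, mul_zero]
  have hb0 : bet 0 = 0 := bet_zero_of (by simp)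
  have hz : ∀ p : ℕ × ℕ, p ≠ (m, m) → term p (Real.sqrt 2 • e m) = 0 := by
    rintro ⟨k, l⟩ hp
    by_cases hkl : k = l
    · subst hkl
      rw [term_self, hk k (fun h => hp (by rw [h])), hb0]
    · rw [term_ne hkl]
      apply cub_of_nonpos
      by_cases hl : l = m
      · subst hl
        rw [hm, hk k hkl, hb2]
        have := eps_pos l
        linarith
      · rw [hk l hl, hb0]
        by_cases hk2 : k = m
        · subst hk2
          rw [hm, hs2]; norm_num
        · rw [hk k hk2]; norm_num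
  by_cases hF : (m, m) ∈ F
  · rw [Finset.sum_eq_single_of_mem _ hF (fun p _ hp => hz p hp), term_self, hm, hb2]
  · rw [Finset.sum_eq_zero fun p hp => hz p (fun h => hF (h ▸ hp))]
    norm_num

/-- the norm -/
noncomputable def NN : Seminorm ℝ (ZeroAtInftyContinuousMap ℕ ℝ) :=
  gsem K balanced_K convex_K K_nhds

lemma NN_apply (x : C0) : NN x = gauge K x := rfl

theorem main :
    ∃ (N : Seminorm ℝ (ZeroAtInftyContinuousMap ℕ ℝ)) (a b : ℝ),
      0 < a ∧ 0 < b ∧
      (∀ x : ZeroAtInftyContinuousMap ℕ ℝ, a * ‖x‖ ≤ N x ∧ N x ≤ b * ‖x‖) ∧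
      ContDiffOn ℝ 2 (fun x : ZeroAtInftyContinuousMap ℕ ℝ => N x)
        ({0}ᶜ : Set (ZeroAtInftyContinuousMap ℕ ℝ)) ∧
      ∀ ε : ℝ, 0 < ε →
        ∃ x : ZeroAtInftyContinuousMap ℕ ℝ, N x ≤ 1 ∧
          x ∉ closure (convexHull ℝ
            ({y : ZeroAtInftyContinuousMap ℕ ℝ | N y ≤ 1} \ Metric.ball x ε)) := by
  refine ⟨NN, 1 / 2, 1, by norm_num, one_pos, ?_, ?_, ?_⟩
  · intro x
    rw [NN_apply, one_mul]
    exact ⟨le_gauge x, gauge_le x⟩
  · exact contDiffOn_gauge
  · intro ε hε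
    obtain ⟨m, δ, hδ, h⟩ := slice hε
    refine ⟨Real.sqrt 2 • e m, (mem_K_iff _).1 (top_mem m), fun hcon => ?_⟩
    have hcl : IsClosed {y : C0 | y m ≤ Real.sqrt 2 - δ} :=
      isClosed_le (ev m).continuous continuous_const
    have hcv : Convex ℝ {y : C0 | y m ≤ Real.sqrt 2 - δ} := by
      have := convex_halfSpace_le (𝕜 := ℝ) (f := fun y : C0 => ev m y)
        (ev m).toLinearMap.isLinear (Real.sqrt 2 - δ)
      exact this
    have hsub : ({y : C0 | NN y ≤ 1} \
        Metric.ball (Real.sqrt 2 • e m) ε) ⊆ {y : C0 | y m ≤ Real.sqrt 2 - δ} := by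
      rintro y ⟨hy1, hy2⟩
      by_contra hlt
      simp only [mem_setOf_eq, not_le] at hlt
      exact hy2 (h y ((mem_K_iff y).2 hy1) hlt)
    have h2 := closure_minimal (convexHull_min hsub hcv) hcl hcon
    simp only [mem_setOf_eq] at h2
    change Real.sqrt 2 * e m m ≤ _ at h2
    rw [e_self] at h2
    linarith

end body

end Pool.Agent.H18.E68b70
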