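import Mathlib

set_option autoImplicit false

namespace Pool.Agent.H18.Ee5b76

open scoped TensorProduct

universe u

variable {k : Type u} [Field k] {n : ℕ}

/-- The closed subscheme of `𝔸ⁿ` cut out by the ideal `I` is finite. -/
def IsFiniteScheme (I : Ideal (MvPolynomial (Fin n) k)) : Prop :=
  Module.Finite k (MvPolynomial (Fin n) k ⧸ I)

/-- The degree `dim_k k[x]/I` of the finite scheme cut out by `I`. -/
noncomputable def degree (I : Ideal (MvPolynomial (Fin n) k)) : ℕ :=
  Module.finrank k (MvPolynomial (Fin n) k ⧸ I)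

/-- The `R`-algebra `A` is finite and flat, with geometrically reduced generic fibre (`R` a
domain): `L ⊗[R] A` is reduced for every field `L` containing `R`. -/
def IsSmoothing (R A : Type u) [CommRing R] [CommRing A] [Algebra R A] : Prop :=
  Module.Finite R A ∧ Module.Flat R A ∧
    ∀ (L : Type u) [Field L] [Algebra R L], Function.Injective (algebraMap R L) →
      IsReduced (L ⊗[R] A)

/-- The subscheme of `𝔸ⁿ` cut out by `I` is smoothable: it is the special fibre of a finite flat
family of subschemes of `𝔸ⁿ` (cut out by an ideal `J` of `R[x₁,…,xₙ]`) over a discrete valuation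
ring `R` with residue field `k`, whose generic fibre is geometrically reduced. -/
def IsSmoothable (I : Ideal (MvPolynomial (Fin n) k)) : Prop :=
  ∃ (R : Type u) (_ : CommRing R) (_ : IsDomain R) (_ : IsDiscreteValuationRing R)
    (_ : Algebra k R) (ρ : R →ₐ[k] k) (J : Ideal (MvPolynomial (Fin n) R)),
    IsSmoothing R (MvPolynomial (Fin n) R ⧸ J) ∧ J.map (MvPolynomial.map (ρ : R →+* k)) = I

/-- The smoothability defect of the finite scheme cut out by `I` (an element of `ℕ∞`): the
infimum of `deg Γ' - deg Γ` over all finite smoothable `Γ' ⊆ 𝔸ⁿ` containing `Γ`. -/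
noncomputable def smoothabilityDefect (I : Ideal (MvPolynomial (Fin n) k)) : ℕ∞ :=
  ⨅ (I' : {I' : Ideal (MvPolynomial (Fin n) k) // I' ≤ I ∧ IsFiniteScheme I' ∧ IsSmoothable I'}),
    ((degree I'.1 - degree I : ℕ) : ℕ∞)

end Pool.Agent.H18.Ee5b76
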