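import Pool.Agent.H18.Ee5b76Defs

set_option autoImplicit false
set_option linter.all false

namespace Pool.Agent.H18.Ee5b76

open scoped TensorProduct
open MvPolynomial

universe u v w

/-- fewer variables than polynomials: algebraic dependence -/
lemma exists_F {k : Type u} [Field k] {ι σ : Type} [Fintype ι] [Fintype σ]
    (h : Fintype.card ι < Fintype.card σ) (Φ : σ → MvPolynomial ι k) :
    ∃ F : MvPolynomial σ k, F ≠ 0 ∧ aeval Φ F = 0 := by
  by_contra hcon
  push Not at hcon
  have hind : AlgebraicIndependent k Φ := by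
    rw [algebraicIndependent_iff]
    intro p hp
    by_contra hne
    exact hcon p hne hp
  have h1 := hind.lift_cardinalMk_le_trdeg
  rw [MvPolynomial.trdeg_of_isDomain] at h1
  simp only [Cardinal.mk_fintype, Cardinal.lift_natCast] at h1
  have : Fintype.card σ ≤ Fintype.card ι := by exact_mod_cast h1
  omega

section points

variable {L : Type u} [Field L] [IsAlgClosed L] {B : Type v} [CommRing B] [Algebra L B]
  [Module.Finite L B] [IsReduced B]

lemma exists_hom_ne_zero (b : B) (hb : b ≠ 0) : ∃ χ : B →ₐ[L] L, χ b ≠ 0 := by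
  have hart : IsArtinianRing B := IsArtinianRing.of_finite L B
  have hjac : (⊥ : Ideal B).jacobson = ⊥ := by
    rw [IsArtinianRing.jacobson_eq_radical]
    have : nilradical B = ⊥ := nilradical_eq_zero B
    simpa [nilradical] using this
  have hnot : b ∉ (⊥ : Ideal B).jacobson := by
    rw [hjac]; simpa using hb
  rw [Ideal.jacobson, Submodule.mem_sInf] at hnot
  push Not at hnot
  obtain ⟨M, ⟨-, hM⟩, hbM⟩ := hnot
  have : Ideal.IsMaximal M := hM
  letI : Field (B ⧸ M) := Ideal.Quotient.field M
  haveI : Module.Finite L (B ⧸ M) :=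
    Module.Finite.of_surjective (Ideal.Quotient.mkₐ L M).toLinearMap Ideal.Quotient.mk_surjective
  haveI : Algebra.IsAlgebraic L (B ⧸ M) := Algebra.IsAlgebraic.of_finite L (B ⧸ M)
  have hbij : Function.Bijective (algebraMap L (B ⧸ M)) :=
    IsAlgClosed.algebraMap_bijective_of_isIntegral
  let e : L ≃ₐ[L] (B ⧸ M) := AlgEquiv.ofBijective (Algebra.ofId L (B ⧸ M)) hbij
  refine ⟨(e.symm : (B ⧸ M) →ₐ[L] L).comp (Ideal.Quotient.mkₐ L M), ?_⟩
  intro h0
  apply hbM
  have h1 : e.symm (Ideal.Quotient.mk M b) = 0 := h0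
  have h2 : Ideal.Quotient.mk M b = 0 := by
    have := congrArg e h1
    simpa using this
  exact Ideal.Quotient.eq_zero_iff_mem.1 h2

/-- every functional on a finite reduced algebra is a combination of at most `dim` points -/
lemma functional_eq (D : ℕ) (hD : Module.finrank L B ≤ D) :
    ∃ (χ : Fin D → B → L), (∀ i a b, χ i (a * b) = χ i a * χ i b) ∧
      ∀ μ : B →ₗ[L] L, ∃ c : Fin D → L, ∀ b, μ b = ∑ i, c i * χ i b := by
  classical
  have hli := linearIndependent_toLinearMap L B L
  haveI : Finite (B →ₐ[L] L) := hli.finite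
  letI : Fintype (B →ₐ[L] L) := Fintype.ofFinite _
  have hcard : Fintype.card (B →ₐ[L] L) ≤ D := by
    have h1 := hli.fintype_card_le_finrank
    have h2 : Module.finrank L (B →ₗ[L] L) = Module.finrank L B := Subspace.dual_finrank_eq
    omega
  have hcard' : Fintype.card (B →ₐ[L] L) ≤ Fintype.card (Fin D) := by simpa using hcard
  obtain ⟨e⟩ := Function.Embedding.nonempty_of_card_le hcard'
  refine ⟨fun i b => if h : ∃ χ : B →ₐ[L] L, e χ = i then h.choose b else 0, ?_, ?_⟩
  · intro i a b
    by_cases h : ∃ χ : B →ₐ[L] L, e χ = i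
    · simp [h]
    · simp [h]
  · intro μ
    have hmem : μ ∈ Submodule.span L (Set.range (AlgHom.toLinearMap : (B →ₐ[L] L) → B →ₗ[L] L)) := by
      apply mem_span_of_iInf_ker_le_ker
      intro b hb
      rw [Submodule.mem_iInf] at hb
      have hb0 : b = 0 := by
        by_contra hne
        obtain ⟨χ, hχ⟩ := exists_hom_ne_zero (L := L) b hne
        exact hχ (hb χ)
      rw [hb0]
      exact Submodule.zero_mem _
    rw [Submodule.mem_span_range_iff_exists_fun] at hmem
    obtain ⟨c, hc⟩ := hmem
    refine ⟨fun i => if h : ∃ χ : B →ₐ[L] L, e χ = i then c h.choose else 0, ?_⟩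
    intro b
    have h1 : μ b = ∑ χ, c χ * χ b := by
      rw [← hc]; simp
    rw [h1]
    rw [← Finset.sum_subset (Finset.subset_univ (Finset.univ.map e))]
    · rw [Finset.sum_map]
      apply Finset.sum_congr rfl
      intro χ _
      have h : ∃ χ' : B →ₐ[L] L, e χ' = e χ := ⟨χ, rfl⟩
      have h2 : h.choose = χ := e.injective h.choose_spec
      beta_reduce
      rw [dif_pos h, dif_pos h, h2]
    · intro i _ hi
      have h : ¬ ∃ χ : B →ₐ[L] L, e χ = i := by
        rintro ⟨χ, rfl⟩
        exact hi (Finset.mem_map_of_mem e (Finset.mem_univ χ))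
      beta_reduce
      rw [dif_neg h, zero_mul]

end points

section family

variable {k : Type u} [Field k] {n : ℕ}
variable {R : Type u} [CommRing R] [IsDomain R] [IsDiscreteValuationRing R] [Algebra k R]
variable (ρ : R →ₐ[k] k) (J : Ideal (MvPolynomial (Fin n) R))

lemma ker_theta (r : ℕ) (b : Module.Basis (Fin r) R (MvPolynomial (Fin n) R ⧸ J))
    (f : MvPolynomial (Fin n) R)
    (hf : MvPolynomial.map (ρ : R →+* k) f ∈ J.map (MvPolynomial.map (ρ : R →+* k))) (i : Fin r) :
    ρ (b.repr (Ideal.Quotient.mk J f) i) = 0 := by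
  have hρ : Function.Surjective (ρ : R →+* k) := fun c => ⟨algebraMap k R c, by simp⟩
  have hsurj : Function.Surjective (MvPolynomial.map (σ := Fin n) (ρ : R →+* k)) :=
    MvPolynomial.map_surjective _ hρ
  obtain ⟨g, hg, hgf⟩ := (Ideal.mem_map_iff_of_surjective _ hsurj).1 hf
  have h1 : Ideal.Quotient.mk J f = Ideal.Quotient.mk J (f - g) := by
    rw [map_sub, Ideal.Quotient.eq_zero_iff_mem.2 hg, sub_zero]
  have h2 : MvPolynomial.map (ρ : R →+* k) (f - g) = 0 := by
    rw [map_sub, hgf, sub_self]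
  rw [h1]
  have h3 : Ideal.Quotient.mk J (f - g) =
      ∑ d ∈ (f - g).support, coeff d (f - g) • Ideal.Quotient.mk J (monomial d 1) := by
    conv_lhs => rw [(f - g).as_sum]
    rw [map_sum]
    apply Finset.sum_congr rfl
    intro d _
    rw [← Ideal.Quotient.mkₐ_eq_mk R, ← map_smul, smul_monomial, smul_eq_mul, mul_one]
  rw [h3, map_sum, Finsupp.finset_sum_apply, map_sum]
  apply Finset.sum_eq_zero
  intro d _
  rw [map_smul, Finsupp.smul_apply, smul_eq_mul, map_mul]
  have : ρ (coeff d (f - g)) = 0 := by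
    have := congrArg (coeff d) h2
    rw [coeff_map, coeff_zero] at this
    exact this
  rw [this, zero_mul]

lemma rank_le (r : ℕ) (b : Module.Basis (Fin r) R (MvPolynomial (Fin n) R ⧸ J))
    (hfin : Module.Finite k (MvPolynomial (Fin n) k ⧸ J.map (MvPolynomial.map (ρ : R →+* k)))) :
    r ≤ Module.finrank k (MvPolynomial (Fin n) k ⧸ J.map (MvPolynomial.map (ρ : R →+* k))) := by
  classical
  have hex : ∀ i, ∃ f : MvPolynomial (Fin n) R, Ideal.Quotient.mk J f = b i := fun i =>
    Ideal.Quotient.mk_surjective (b i)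
  choose F hF using hex
  have hli : LinearIndependent k (fun i : Fin r =>
      Ideal.Quotient.mk (J.map (MvPolynomial.map (ρ : R →+* k)))
        (MvPolynomial.map (ρ : R →+* k) (F i))) := by
    rw [Fintype.linearIndependent_iff]
    intro c hc i
    have h1 : MvPolynomial.map (ρ : R →+* k) (∑ i, C (algebraMap k R (c i)) * F i) ∈
        J.map (MvPolynomial.map (ρ : R →+* k)) := by
      rw [← Ideal.Quotient.eq_zero_iff_mem, ← hc, map_sum, map_sum]
      apply Finset.sum_congr rfl
      intro j _
      rw [map_mul, map_C, map_mul]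
      have : (ρ : R →+* k) (algebraMap k R (c j)) = c j := by simp
      rw [this, ← Ideal.Quotient.mkₐ_eq_mk k, ← map_mul, ← map_smul, MvPolynomial.smul_eq_C_mul]
    have h2 := ker_theta ρ J r b _ h1 i
    have h3 : Ideal.Quotient.mk J (∑ i, C (algebraMap k R (c i)) * F i) =
        ∑ i, (algebraMap k R (c i)) • b i := by
      rw [map_sum]
      apply Finset.sum_congr rfl
      intro j _
      rw [← hF j, ← Ideal.Quotient.mkₐ_eq_mk R, ← map_smul, MvPolynomial.smul_eq_C_mul]
    rw [h3, b.repr_sum_self] at h2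
    simpa using h2
  simpa using hli.fintype_card_le_finrank

lemma lift_functional (r : ℕ) (b : Module.Basis (Fin r) R (MvPolynomial (Fin n) R ⧸ J))
    (q : MvPolynomial (Fin n) k →ₗ[k] k)
    (hq : ∀ f ∈ J.map (MvPolynomial.map (ρ : R →+* k)), q f = 0) :
    ∃ lam : (MvPolynomial (Fin n) R ⧸ J) →ₗ[R] R, ∀ f : MvPolynomial (Fin n) R,
      ρ (lam (Ideal.Quotient.mk J f)) = q (MvPolynomial.map (ρ : R →+* k) f) := by
  classical
  have hex : ∀ i, ∃ f : MvPolynomial (Fin n) R, Ideal.Quotient.mk J f = b i := fun i =>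
    Ideal.Quotient.mk_surjective (b i)
  choose F hF using hex
  refine ⟨b.constr R (fun i => algebraMap k R (q (MvPolynomial.map (ρ : R →+* k) (F i)))), ?_⟩
  intro f
  rw [Module.Basis.constr_apply_fintype, map_sum]
  -- write f modulo J
  set a : Fin r → R := fun i => b.repr (Ideal.Quotient.mk J f) i with ha
  have h1 : f - ∑ i, C (a i) * F i ∈ J := by
    rw [← Ideal.Quotient.eq_zero_iff_mem, map_sub, map_sum]
    have : ∑ i, Ideal.Quotient.mk J (C (a i) * F i) = ∑ i, a i • b i := by
      apply Finset.sum_congr rfl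
      intro j _
      rw [← hF j, ← Ideal.Quotient.mkₐ_eq_mk R, ← map_smul, MvPolynomial.smul_eq_C_mul]
    rw [this, b.sum_repr, sub_self]
  have h2 : q (MvPolynomial.map (ρ : R →+* k) (f - ∑ i, C (a i) * F i)) = 0 :=
    hq _ (Ideal.mem_map_of_mem _ h1)
  rw [map_sub, map_sub, sub_eq_zero] at h2
  rw [h2, map_sum, map_sum]
  apply Finset.sum_congr rfl
  intro i _
  rw [map_mul (MvPolynomial.map (ρ : R →+* k)), map_C, ← MvPolynomial.smul_eq_C_mul,
    LinearMap.map_smul]
  simp [Module.Basis.equivFun_apply, ha]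

end family

/-- products over unordered pairs -/
def pr {A : Type v} [CommMonoid A] {n : ℕ} (y : Fin n → A) : Sym2 (Fin n) → A :=
  Sym2.lift ⟨fun a b => y a * y b, fun a b => mul_comm _ _⟩

@[simp] lemma pr_mk {A : Type v} [CommMonoid A] {n : ℕ} (y : Fin n → A) (a b : Fin n) :
    pr y s(a, b) = y a * y b := rfl

lemma map_pr {A : Type v} {A' : Type w} [CommMonoid A] [CommMonoid A'] {n : ℕ} (y : Fin n → A)
    (φ : A → A') (hφ : ∀ a b, φ (a * b) = φ a * φ b) (s : Sym2 (Fin n)) :
    φ (pr y s) = pr (fun a => φ (y a)) s := by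
  induction s using Sym2.ind with
  | _ a b => simp [hφ]

/-- the parametrisation of sums of `D` points -/
noncomputable def Phi (k : Type u) [Field k] (n m D : ℕ) (t : Fin m × Sym2 (Fin n)) :
    MvPolynomial (Fin D × (Fin m ⊕ Fin n)) k :=
  ∑ i : Fin D, X (i, Sum.inl t.1) * pr (fun a => X (i, Sum.inr a)) t.2

lemma main_bound {k : Type u} [Field k] {n m D : ℕ} (F : MvPolynomial (Fin m × Sym2 (Fin n)) k)
    (hF : aeval (Phi k n m D) F = 0) (I' : Ideal (MvPolynomial (Fin n) k))
    (hfin : IsFiniteScheme I') (hsm : IsSmoothable I') (hD : degree I' ≤ D)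
    (q : Fin m → MvPolynomial (Fin n) k →ₗ[k] k) (hq : ∀ j, ∀ f ∈ I', q j f = 0) :
    eval (fun t : Fin m × Sym2 (Fin n) => q t.1 (pr X t.2)) F = 0 := by
  classical
  obtain ⟨R, i1, i2, i3, i4, ρ, J, ⟨hfinR, hflat, hred'⟩, hJ⟩ := hsm
  subst hJ
  have hfree : Module.Free R (MvPolynomial (Fin n) R ⧸ J) := Module.free_of_flat_of_isLocalRing
  set r := Module.finrank R (MvPolynomial (Fin n) R ⧸ J) with hr
  let b : Module.Basis (Fin r) R (MvPolynomial (Fin n) R ⧸ J) := Module.finBasis R _
  have hrD : r ≤ D := (rank_le ρ J r b hfin).trans hD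
  have hlam := fun j => lift_functional ρ J r b (q j) (hq j)
  choose lam hlam using hlam
  have hred : IsReduced (AlgebraicClosure (FractionRing R) ⊗[R] (MvPolynomial (Fin n) R ⧸ J)) := by
    apply hred'
    rw [IsScalarTower.algebraMap_eq R (FractionRing R) (AlgebraicClosure (FractionRing R))]
    exact (algebraMap (FractionRing R) _).injective.comp (IsFractionRing.injective R (FractionRing R))
  set L := AlgebraicClosure (FractionRing R) with hL
  have hBfin : Module.finrank L (L ⊗[R] (MvPolynomial (Fin n) R ⧸ J)) ≤ D := by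
    rw [Module.finrank_baseChange]
    exact hrD
  obtain ⟨χ, hχ, hfun⟩ := functional_eq (L := L) (B := L ⊗[R] (MvPolynomial (Fin n) R ⧸ J)) D hBfin
  have hc := fun j => hfun (((Algebra.linearMap R L).comp (lam j)).liftBaseChange L)
  choose c hc using hc
  -- values
  let y : Fin D → Fin n → L := fun i a => χ i (1 ⊗ₜ[R] Ideal.Quotient.mk J (X a))
  let v : Fin D × (Fin m ⊕ Fin n) → L := fun t => Sum.elim (fun j => c j t.1) (fun a => y t.1 a) t.2
  let g : k →+* L := (algebraMap R L).comp (algebraMap k R)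
  have key : ∀ t : Fin m × Sym2 (Fin n),
      algebraMap R L (lam t.1 (Ideal.Quotient.mk J (pr X t.2))) = ∑ i, c t.1 i * pr (y i) t.2 := by
    intro t
    have h1 := hc t.1 (1 ⊗ₜ[R] Ideal.Quotient.mk J (pr X t.2))
    rw [LinearMap.liftBaseChange_tmul, one_smul] at h1
    have h2 : ∀ i, χ i (1 ⊗ₜ[R] Ideal.Quotient.mk J (pr X t.2)) = pr (y i) t.2 := by
      intro i
      rw [map_pr X (fun z => χ i (1 ⊗ₜ[R] Ideal.Quotient.mk J z))]
      intro a b
      rw [map_mul, ← hχ, Algebra.TensorProduct.tmul_mul_tmul, mul_one]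
    simp only [h2] at h1
    exact h1
  have step1 : eval₂ g (fun t : Fin m × Sym2 (Fin n) => ∑ i, c t.1 i * pr (y i) t.2) F = 0 := by
    have h1 : eval₂Hom g v (aeval (Phi k n m D) F) = 0 := by rw [hF, map_zero]
    rw [aeval_def, eval₂_comp_left] at h1
    have h2 : (eval₂Hom g v).comp (algebraMap k (MvPolynomial (Fin D × (Fin m ⊕ Fin n)) k)) = g := by
      ext z
      simp [MvPolynomial.algebraMap_eq]
    have h3 : (⇑(eval₂Hom g v) ∘ Phi k n m D) =
        (fun t : Fin m × Sym2 (Fin n) => ∑ i, c t.1 i * pr (y i) t.2) := by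
      funext t
      simp only [Function.comp, Phi, map_sum, map_mul]
      apply Finset.sum_congr rfl
      intro i _
      rw [map_pr _ (eval₂Hom g v) (fun a b => map_mul _ a b)]
      simp [v]
    rw [h2, h3] at h1
    exact h1
  have step2 : eval₂ (algebraMap k R)
      (fun t : Fin m × Sym2 (Fin n) => lam t.1 (Ideal.Quotient.mk J (pr X t.2))) F = 0 := by
    have hinj : Function.Injective (algebraMap R L) := by
      rw [IsScalarTower.algebraMap_eq R (FractionRing R) L]
      exact (algebraMap (FractionRing R) L).injective.comp (IsFractionRing.injective R (FractionRing R))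
    apply hinj
    rw [map_zero, eval₂_comp_left]
    have : (⇑(algebraMap R L) ∘ fun t : Fin m × Sym2 (Fin n) =>
        lam t.1 (Ideal.Quotient.mk J (pr X t.2))) =
        (fun t : Fin m × Sym2 (Fin n) => ∑ i, c t.1 i * pr (y i) t.2) := by
      funext t
      exact key t
    rw [this]
    exact step1
  have step3 := congrArg (ρ : R →+* k) step2
  rw [map_zero, eval₂_comp_left] at step3
  have h4 : (ρ : R →+* k).comp (algebraMap k R) = RingHom.id k := by
    ext z; simp
  have h5 : (⇑(ρ : R →+* k) ∘ fun t : Fin m × Sym2 (Fin n) =>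
      lam t.1 (Ideal.Quotient.mk J (pr X t.2))) = fun t => q t.1 (pr X t.2) := by
    funext t
    have := hlam t.1 (pr X t.2)
    have h6 : MvPolynomial.map (ρ : R →+* k) (pr X t.2) = pr X t.2 := by
      rw [map_pr _ (MvPolynomial.map (ρ : R →+* k)) (fun a b => map_mul _ a b)]
      simp
    rw [h6] at this
    exact this
  rw [h4, h5] at step3
  exact step3

/-- exponent vectors of degree two -/
noncomputable def sq {n : ℕ} : Sym2 (Fin n) → (Fin n →₀ ℕ) :=
  Sym2.lift ⟨fun a b => Finsupp.single a 1 + Finsupp.single b 1, fun a b => add_comm _ _⟩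

@[simp] lemma sq_mk {n : ℕ} (a b : Fin n) :
    sq s(a, b) = Finsupp.single a 1 + Finsupp.single b 1 := rfl

lemma sq_inj {n : ℕ} : Function.Injective (sq (n := n)) := by
  intro s s'
  induction s using Sym2.ind with
  | _ a b =>
    induction s' using Sym2.ind with
    | _ c d =>
      intro h
      rw [sq_mk, sq_mk, Finsupp.single_add_single_eq_single_add_single one_ne_zero one_ne_zero] at h
      rw [Sym2.eq_iff]
      rcases h with h | h | h
      · exact Or.inl h
      · exact Or.inr h.2
      · exact absurd h.1 (by norm_num)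

lemma pr_X {k : Type u} [Field k] {n : ℕ} (s : Sym2 (Fin n)) :
    pr (X : Fin n → MvPolynomial (Fin n) k) s = monomial (sq s) 1 := by
  induction s using Sym2.ind with
  | _ a b => simp [X, monomial_mul]

lemma degree_sq {n : ℕ} (s : Sym2 (Fin n)) : (sq s).degree = 2 := by
  induction s using Sym2.ind with
  | _ a b => simp [Finsupp.degree_single]

/-- the functionals -/
noncomputable def qf {k : Type u} [Field k] {n m : ℕ} (τ : Fin m × Sym2 (Fin n) → k) (j : Fin m) :
    MvPolynomial (Fin n) k →ₗ[k] k :=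
  ∑ s : Sym2 (Fin n), τ (j, s) • lcoeff k (sq s)

lemma qf_apply {k : Type u} [Field k] {n m : ℕ} (τ : Fin m × Sym2 (Fin n) → k) (j : Fin m)
    (f : MvPolynomial (Fin n) k) : qf τ j f = ∑ s : Sym2 (Fin n), τ (j, s) * coeff (sq s) f := by
  simp [qf]

lemma qf_pr {k : Type u} [Field k] {n m : ℕ} (τ : Fin m × Sym2 (Fin n) → k)
    (t : Fin m × Sym2 (Fin n)) : qf τ t.1 (pr X t.2) = τ t := by
  classical
  rw [qf_apply, pr_X, Finset.sum_eq_single t.2]
  · simp
  · intro s _ hs
    rw [coeff_monomial, if_neg (fun h => hs (sq_inj h).symm), mul_zero]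
  · simp

/-- the ideal -/
noncomputable def idl {k : Type u} [Field k] {n m : ℕ} (τ : Fin m × Sym2 (Fin n) → k) :
    Ideal (MvPolynomial (Fin n) k) where
  carrier := {f | (∀ d : Fin n →₀ ℕ, d.degree ≤ 1 → coeff d f = 0) ∧ ∀ j, qf τ j f = 0}
  zero_mem' := ⟨fun d _ => coeff_zero d, fun j => map_zero _⟩
  add_mem' := by
    rintro f g ⟨hf1, hf2⟩ ⟨hg1, hg2⟩
    refine ⟨fun d hd => by rw [coeff_add, hf1 d hd, hg1 d hd, add_zero],
      fun j => by rw [map_add, hf2 j, hg2 j, add_zero]⟩
  smul_mem' := by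
    classical
    rintro c f ⟨hf1, hf2⟩
    refine ⟨fun d hd => ?_, fun j => ?_⟩
    · rw [smul_eq_mul, coeff_mul]
      apply Finset.sum_eq_zero
      rintro ⟨e1, e2⟩ he
      rw [Finset.HasAntidiagonal.mem_antidiagonal] at he
      have : e2.degree ≤ 1 := by
        rw [← he, map_add] at hd
        simp only at hd
        omega
      simp [hf1 e2 this]
    · have h : ∀ s : Sym2 (Fin n), coeff (sq s) (c * f) = coeff 0 c * coeff (sq s) f := by
        intro s
        rw [coeff_mul, Finset.sum_eq_single (0, sq s)]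
        · rintro ⟨e1, e2⟩ he hne
          rw [Finset.HasAntidiagonal.mem_antidiagonal] at he
          have hd : e1.degree + e2.degree = 2 := by
            rw [← map_add, he, degree_sq]
          have h1 : e1.degree ≠ 0 := by
            intro h0
            rw [Finsupp.degree_eq_zero_iff] at h0
            apply hne
            simp only at he
            rw [h0, zero_add] at he
            rw [h0, he]
          have : e2.degree ≤ 1 := by omega
          simp [hf1 e2 this]
        · intro hnot
          exact absurd (Finset.HasAntidiagonal.mem_antidiagonal.2 (zero_add _)) hnot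
      rw [smul_eq_mul, qf_apply]
      simp only [h]
      have := hf2 j
      rw [qf_apply] at this
      calc ∑ s : Sym2 (Fin n), τ (j, s) * (coeff 0 c * coeff (sq s) f)
          = coeff 0 c * ∑ s : Sym2 (Fin n), τ (j, s) * coeff (sq s) f := by
            rw [Finset.mul_sum]; apply Finset.sum_congr rfl; intro s _; ring
        _ = 0 := by rw [this, mul_zero]

lemma degree_le_one {n : ℕ} (d : Fin n →₀ ℕ) (hd : d.degree ≤ 1) :
    d = 0 ∨ ∃ a, d = Finsupp.single a 1 := by
  by_cases h : d = 0
  · exact Or.inl h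
  · right
    obtain ⟨a, ha⟩ := Finsupp.ne_iff.1 h
    rw [Finsupp.zero_apply] at ha
    refine ⟨a, ?_⟩
    have h1 : Finsupp.single a 1 ≤ d := by
      rw [Finsupp.single_le_iff]; omega
    obtain ⟨e, he⟩ := exists_add_of_le h1
    have h2 : e.degree = 0 := by
      rw [he, map_add, Finsupp.degree_single] at hd
      omega
    rw [Finsupp.degree_eq_zero_iff] at h2
    rw [he, h2, add_zero]

/-- coordinates on the quotient -/
noncomputable def Lam {k : Type u} [Field k] {n m : ℕ} (τ : Fin m × Sym2 (Fin n) → k) :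
    MvPolynomial (Fin n) k →ₗ[k] (k × (Fin n → k)) × (Fin m → k) :=
  ((lcoeff k 0).prod (LinearMap.pi fun a => lcoeff k (Finsupp.single a 1))).prod
    (LinearMap.pi fun j => qf τ j)

lemma ker_Lam {k : Type u} [Field k] {n m : ℕ} (τ : Fin m × Sym2 (Fin n) → k) :
    LinearMap.ker (Lam τ) = (idl τ).restrictScalars k := by
  ext f
  rw [LinearMap.mem_ker, Submodule.restrictScalars_mem]
  constructor
  · intro h
    have h1 : coeff 0 f = 0 := congrArg (fun z => z.1.1) h
    have h2 : ∀ a, coeff (Finsupp.single a 1) f = 0 := fun a => congrArg (fun z => z.1.2 a) h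
    have h3 : ∀ j, qf τ j f = 0 := fun j => congrArg (fun z => z.2 j) h
    refine ⟨fun d hd => ?_, h3⟩
    rcases degree_le_one d hd with rfl | ⟨a, rfl⟩
    · exact h1
    · exact h2 a
  · rintro ⟨h1, h3⟩
    have h0 : coeff 0 f = 0 := h1 0 (by simp)
    have h2 : ∀ a, coeff (Finsupp.single a 1) f = 0 := fun a => h1 _ (by simp [Finsupp.degree_single])
    exact Prod.ext (Prod.ext h0 (funext h2)) (funext h3)

lemma fin_idl {k : Type u} [Field k] {n m : ℕ} (τ : Fin m × Sym2 (Fin n) → k) :
    IsFiniteScheme (idl τ) ∧ degree (idl τ) ≤ 1 + n + m := by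
  let e := Submodule.Quotient.restrictScalarsEquiv k (idl τ)
  let φ : (MvPolynomial (Fin n) k ⧸ (idl τ).restrictScalars k) →ₗ[k] (k × (Fin n → k)) × (Fin m → k) :=
    ((idl τ).restrictScalars k).liftQ (Lam τ) (by rw [ker_Lam])
  have hφ : Function.Injective φ := by
    rw [← LinearMap.ker_eq_bot]
    apply Submodule.ker_liftQ_eq_bot
    rw [ker_Lam]
  have hinj : Function.Injective (φ ∘ₗ (e.symm : _ →ₗ[k] _)) :=
    fun x y h => e.symm.injective (hφ h)
  refine ⟨Module.Finite.of_injective _ hinj, ?_⟩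
  have := LinearMap.finrank_le_finrank_of_injective hinj
  simpa [degree, Module.finrank_prod, Module.finrank_fintype_fun_eq_card] using this

theorem main (k : Type u) [Field k] [IsAlgClosed k] :
    ∃ (n : ℕ) (I : Ideal (MvPolynomial (Fin n) k)), IsFiniteScheme I ∧
      (degree I : ℕ∞) < smoothabilityDefect I := by
  classical
  obtain ⟨F, hF0, hF⟩ := exists_F (k := k) (ι := Fin 66 × (Fin 16 ⊕ Fin 16))
    (σ := Fin 16 × Sym2 (Fin 16)) (by
      simp only [Fintype.card_prod, Fintype.card_sum, Fintype.card_fin, Sym2.card]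
      decide) (Phi k 16 16 66)
  obtain ⟨τ, hτ⟩ : ∃ τ : Fin 16 × Sym2 (Fin 16) → k, eval τ F ≠ 0 := by
    by_contra hcon
    push Not at hcon
    apply hF0
    apply MvPolynomial.funext
    intro x
    rw [hcon x, map_zero]
  obtain ⟨hfin, hdeg⟩ := fin_idl τ
  refine ⟨16, idl τ, hfin, ?_⟩
  have hkey : ((34 : ℕ) : ℕ∞) ≤ smoothabilityDefect (idl τ) := by
    apply le_iInf
    rintro ⟨I', hle, hfin', hsm⟩
    have h67 : 67 ≤ degree I' := by
      by_contra hlt
      have hD : degree I' ≤ 66 := by omega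
      apply hτ
      have := main_bound F hF I' hfin' hsm hD (qf τ) (fun j f hf => (hle hf).2 j)
      simpa only [qf_pr] using this
    have : 34 ≤ degree I' - degree (idl τ) := by omega
    exact_mod_cast this
  refine lt_of_lt_of_le ?_ hkey
  have : degree (idl τ) < 34 := by omega
  exact_mod_cast this

end Pool.Agent.H18.Ee5b76
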