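import Mathlib

set_option linter.unusedVariables false

namespace Pool.Agent.H18.HD

open MeasureTheory Complex Filter Topology

/-- extension of `g` by zero at the two infinite points -/
noncomputable def ext0 (g : ℝ → ℂ) (x : EReal) : ℂ := if x = ⊤ ∨ x = ⊥ then 0 else g x.toReal

lemma ext0_coe (g : ℝ → ℂ) (r : ℝ) : ext0 g (r : EReal) = g r := by
  simp [ext0]

lemma ext0_continuous (g : ℝ → ℂ) (hg : Continuous g) (h0 : Tendsto g (cocompact ℝ) (𝓝 0)) :
    Continuous (ext0 g) := by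
  rw [continuous_iff_continuousAt]
  intro x
  induction x using EReal.rec with
  | bot =>
    have h1 : Tendsto g atBot (𝓝 0) := h0.mono_left (by
      rw [cocompact_eq_atBot_atTop]; exact le_sup_left)
    unfold ContinuousAt
    have e : ext0 g ⊥ = 0 := by simp [ext0]
    rw [e, Metric.tendsto_nhds]
    intro ε hε
    have h2 := Metric.tendsto_nhds.1 h1 ε hε
    rw [eventually_atBot] at h2
    obtain ⟨M, hM⟩ := h2
    rw [EReal.nhds_bot_basis.eventually_iff]
    refine ⟨M, trivial, fun y hy => ?_⟩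
    have hy' : y < (M : EReal) := hy
    induction y using EReal.rec with
    | bot => rw [e, dist_self]; exact hε
    | top => exact absurd hy' (by simp)
    | coe r =>
      rw [ext0_coe]
      exact hM r (by exact_mod_cast hy'.le)
  | top =>
    have h1 : Tendsto g atTop (𝓝 0) := h0.mono_left (by
      rw [cocompact_eq_atBot_atTop]; exact le_sup_right)
    unfold ContinuousAt
    have e : ext0 g ⊤ = 0 := by simp [ext0]
    rw [e, Metric.tendsto_nhds]
    intro ε hε
    have h2 := Metric.tendsto_nhds.1 h1 ε hε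
    rw [eventually_atTop] at h2
    obtain ⟨M, hM⟩ := h2
    rw [EReal.nhds_top_basis.eventually_iff]
    refine ⟨M, trivial, fun y hy => ?_⟩
    have hy' : (M : EReal) < y := hy
    induction y using EReal.rec with
    | top => rw [e, dist_self]; exact hε
    | bot => exact absurd hy' (by simp)
    | coe r =>
      rw [ext0_coe]
      exact hM r (by exact_mod_cast hy'.le)
  | coe r =>
    rw [← EReal.isOpenEmbedding_coe.continuousAt_iff]
    have : (ext0 g ∘ ((↑) : ℝ → EReal)) = g := by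
      funext s; exact ext0_coe g s
    rw [this]
    exact hg.continuousAt

/-- the transform of a test function -/
noncomputable def tr (φ : ℝ → ℂ) (s : ℝ) : ℂ := ∫ ξ : ℝ, φ ξ * exp (-(I * ξ * s))

lemma cexp_norm (ξ s : ℝ) : ‖exp (-(I * ξ * s))‖ = 1 := by
  have : -(I * (ξ : ℂ) * s) = ((-(ξ * s) : ℝ) : ℂ) * I := by push_cast; ring
  rw [this, Complex.norm_exp_ofReal_mul_I]

lemma tr_cont (φ : ℝ → ℂ) (hφ : Integrable φ) : Continuous (tr φ) := by
  unfold tr
  apply continuous_of_dominated (bound := fun ξ => ‖φ ξ‖)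
  · intro s
    apply hφ.1.mul
    exact (by fun_prop : Continuous fun ξ : ℝ => exp (-(I * ξ * s))).aestronglyMeasurable
  · intro s
    filter_upwards with ξ
    rw [norm_mul, cexp_norm, mul_one]
  · exact hφ.norm
  · filter_upwards with ξ
    fun_prop

lemma tr_zero (φ : ℝ → ℂ) : Tendsto (tr φ) (cocompact ℝ) (𝓝 0) := by
  have h1 := Real.tendsto_integral_exp_smul_cocompact φ
  have hpi : (2 * Real.pi) ≠ 0 := by positivity
  have h2 : Tendsto (fun s : ℝ => s / (2 * Real.pi)) (cocompact ℝ) (cocompact ℝ) := by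
    have := (Homeomorph.mulRight₀ (2 * Real.pi)⁻¹ (inv_ne_zero hpi)).isClosedEmbedding.tendsto_cocompact
    refine this.congr (fun s => ?_)
    simp [div_eq_mul_inv]
  have h3 := h1.comp h2
  refine h3.congr (fun s => ?_)
  unfold tr
  simp only [Function.comp]
  apply integral_congr_ae
  filter_upwards with ξ
  rw [Circle.smul_def, Real.fourierChar_apply, smul_eq_mul, mul_comm]
  congr 2
  push_cast
  field_simp

/-- the compact phase space -/
abbrev EE : Type := EReal × Metric.closedBall (0 : ℂ) 1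

/-- the phase as an element of the closed ball -/
noncomputable def ph (z : ℂ) : Metric.closedBall (0 : ℂ) 1 :=
  ⟨z / ‖z‖, by
    rw [mem_closedBall_zero_iff, norm_div, Complex.norm_real, norm_norm]
    exact div_self_le_one _⟩

lemma ph_meas : Measurable ph := by
  unfold ph
  apply Measurable.subtype_mk
  exact measurable_id.div (Complex.measurable_ofReal.comp measurable_norm)

/-- the measures on the phase space -/
noncomputable def mm (f : ℝ → ℂ) : Measure EE :=
  ((volume : Measure ℝ).withDensity (fun s => ((‖f s‖₊ : NNReal) : ENNReal))).map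
    (fun s : ℝ => (((s : EReal), ph (f s)) : EE))

lemma iota_meas (f : ℝ → ℂ) (hf : Measurable f) :
    Measurable (fun s : ℝ => (((s : EReal), ph (f s)) : EE)) :=
  measurable_coe_real_ereal.prodMk (ph_meas.comp hf)

lemma mm_univ (f : ℝ → ℂ) (hf : Measurable f) (hi : Integrable f) (C : ℝ)
    (hC : ∫ s, ‖f s‖ ≤ C) : mm f Set.univ ≤ ENNReal.ofReal C := by
  unfold mm
  rw [Measure.map_apply (iota_meas f hf) MeasurableSet.univ, Set.preimage_univ,
    withDensity_apply _ MeasurableSet.univ, Measure.restrict_univ]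
  have h1 : ∫⁻ s, ((‖f s‖₊ : NNReal) : ENNReal) = ENNReal.ofReal (∫ s, ‖f s‖) := by
    rw [ofReal_integral_norm_eq_lintegral_enorm hi]
    rfl
  rw [h1]
  exact ENNReal.ofReal_le_ofReal hC

lemma mm_integral (f : ℝ → ℂ) (hf : Measurable f) (g : ℝ → ℂ) (hg : Continuous g)
    (h0 : Tendsto g (cocompact ℝ) (𝓝 0)) :
    ∫ ω : EE, (ω.2 : ℂ) * ext0 g ω.1 ∂(mm f) = ∫ s, f s * g s := by
  unfold mm
  have hc : Continuous (fun ω : EE => (ω.2 : ℂ) * ext0 g ω.1) :=
    (continuous_subtype_val.comp continuous_snd).mul ((ext0_continuous g hg h0).comp continuous_fst)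
  rw [integral_map (iota_meas f hf).aemeasurable hc.aestronglyMeasurable]
  have hm : Measurable (fun s => ‖f s‖₊) := hf.nnnorm
  rw [integral_withDensity_eq_integral_smul hm]
  apply integral_congr_ae
  filter_upwards with s
  simp only [ext0_coe, ph]
  rw [NNReal.smul_def, coe_nnnorm]
  rw [Complex.real_smul]
  by_cases hz : f s = 0
  · simp [hz]
  · have : (‖f s‖ : ℂ) ≠ 0 := by exact_mod_cast norm_ne_zero_iff.2 hz
    field_simp

lemma cexp_meas : Measurable (fun p : ℝ × ℝ => exp (-(I * (p.1 : ℂ) * (p.2 : ℂ)))) :=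
  (by fun_prop : Continuous (fun p : ℝ × ℝ => exp (-(I * (p.1 : ℂ) * (p.2 : ℂ))))).measurable

/-- Fubini for the transform -/
lemma fubini1 (f : ℝ → ℂ) (hf : Measurable f) (hi : Integrable f) (φ : ℝ → ℂ) (hφ : Integrable φ) :
    ∫ ξ, φ ξ * ∫ s, f s * exp (-(I * ξ * s)) = ∫ s, f s * tr φ s := by
  unfold tr
  have h1 : ∀ ξ : ℝ, φ ξ * ∫ s, f s * exp (-(I * ξ * s))
      = ∫ s, φ ξ * (f s * exp (-(I * ξ * s))) := fun ξ => (integral_const_mul _ _).symm
  have h2 : ∀ s : ℝ, f s * ∫ ξ, φ ξ * exp (-(I * ξ * s))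
      = ∫ ξ, φ ξ * (f s * exp (-(I * ξ * s))) := by
    intro s
    rw [← integral_const_mul]
    congr 1
    funext ξ
    ring
  simp_rw [h1, h2]
  apply integral_integral_swap
  have h3 : Integrable (fun p : ℝ × ℝ => φ p.1 * f p.2) (volume.prod volume) := hφ.mul_prod hi
  refine h3.mono ?_ ?_
  · have h4 : AEStronglyMeasurable (fun p : ℝ × ℝ => (φ p.1 * f p.2) *
        exp (-(I * (p.1 : ℂ) * (p.2 : ℂ)))) (volume.prod volume) :=
      h3.1.mul cexp_meas.aestronglyMeasurable
    refine h4.congr (Eventually.of_forall (fun p => ?_))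
    simp only [Function.uncurry]
    ring
  · refine Eventually.of_forall (fun p => ?_)
    simp only [Function.uncurry]
    rw [norm_mul, norm_mul, cexp_norm, mul_one, norm_mul]

/-- the real coordinate -/
noncomputable def XX (ω : EE) : ℝ := ω.1.toReal

/-- the phase, cut off at infinity -/
noncomputable def hh (ω : EE) : ℂ := if ω.1 = ⊤ ∨ ω.1 = ⊥ then 0 else (ω.2 : ℂ)

lemma XX_meas : Measurable XX := measurable_ereal_toReal.comp measurable_fst

lemma hh_meas : Measurable hh := by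
  unfold hh
  refine Measurable.ite ?_ measurable_const (measurable_subtype_coe.comp measurable_snd)
  have : {ω : EE | ω.1 = ⊤ ∨ ω.1 = ⊥} = Prod.fst ⁻¹' {⊤, ⊥} := by
    ext ω; simp
  rw [this]
  exact measurable_fst (Set.Finite.measurableSet (by simp))

lemma hh_le (ω : EE) : ‖hh ω‖ ≤ 1 := by
  unfold hh
  split_ifs
  · simp
  · exact mem_closedBall_zero_iff.1 ω.2.2

lemma hh_ext (g : ℝ → ℂ) (ω : EE) : (ω.2 : ℂ) * ext0 g ω.1 = hh ω * g (XX ω) := by
  unfold hh ext0 XX
  split_ifs <;> simp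

/-- Fubini for the limit -/
lemma fubini2 (m : Measure EE) [IsFiniteMeasure m] (φ : ℝ → ℂ) (hφ : Integrable φ) :
    ∫ ω, hh ω * tr φ (XX ω) ∂m = ∫ ξ, φ ξ * ∫ ω, hh ω * exp (-(I * ξ * XX ω)) ∂m := by
  unfold tr
  have h1 : ∀ ξ : ℝ, φ ξ * ∫ ω, hh ω * exp (-(I * ξ * XX ω)) ∂m
      = ∫ ω, φ ξ * (hh ω * exp (-(I * ξ * XX ω))) ∂m := fun ξ => (integral_const_mul _ _).symm
  have h2 : ∀ ω : EE, hh ω * ∫ ξ : ℝ, φ ξ * exp (-(I * ξ * XX ω))
      = ∫ ξ : ℝ, φ ξ * (hh ω * exp (-(I * ξ * XX ω))) := by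
    intro s
    rw [← integral_const_mul]
    congr 1
    funext ξ
    ring
  simp_rw [h1, h2]
  apply integral_integral_swap
  have hhi : Integrable hh m := by
    refine (integrable_const (1 : ℝ)).mono' hh_meas.aestronglyMeasurable ?_
    exact Eventually.of_forall hh_le
  have h3 : Integrable (fun p : EE × ℝ => hh p.1 * φ p.2) (m.prod volume) := hhi.mul_prod hφ
  refine h3.mono ?_ ?_
  · have h5 : Measurable (fun p : EE × ℝ => exp (-(I * (p.2 : ℂ) * (XX p.1 : ℂ)))) := by
      have := cexp_meas.comp (measurable_snd.prodMk (XX_meas.comp measurable_fst) :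
        Measurable (fun p : EE × ℝ => (p.2, XX p.1)))
      exact this
    have h4 : AEStronglyMeasurable (fun p : EE × ℝ => (hh p.1 * φ p.2) *
        exp (-(I * (p.2 : ℂ) * (XX p.1 : ℂ)))) (m.prod volume) :=
      h3.1.mul h5.aestronglyMeasurable
    refine h4.congr (Eventually.of_forall (fun p => ?_))
    simp only [Function.uncurry]
    ring
  · refine Eventually.of_forall (fun p => ?_)
    simp only [Function.uncurry]
    rw [norm_mul, norm_mul, cexp_norm, mul_one, norm_mul, mul_comm]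

/-- compactness -/
lemma exists_limit (F : ℕ → ℝ → ℂ) (C : ℝ) (hFm : ∀ k, Measurable (F k))
    (hF : ∀ k, Integrable (F k)) (hC : ∀ k, ∫ s, ‖F k s‖ ≤ C) :
    ∃ m : Measure EE, IsFiniteMeasure m ∧ ∀ g : ℝ → ℂ, Continuous g →
      Tendsto g (cocompact ℝ) (𝓝 0) →
      Tendsto (fun k => ∫ s, F k s * g s) (hyperfilter ℕ : Filter ℕ)
        (𝓝 (∫ ω, hh ω * g (XX ω) ∂m)) := by
  have hfin : ∀ k, IsFiniteMeasure (mm (F k)) := fun k =>
    ⟨(mm_univ (F k) (hFm k) (hF k) C (hC k)).trans_lt ENNReal.ofReal_lt_top⟩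
  let M : ℕ → FiniteMeasure EE := fun k => ⟨mm (F k), hfin k⟩
  have hcomp := isCompact_setOfPred_finiteMeasure_le_of_compactSpace EE (Real.toNNReal C)
  have hmem : ∀ k, M k ∈ {μ : FiniteMeasure EE | μ.mass ≤ Real.toNNReal C} := by
    intro k
    show (M k).mass ≤ Real.toNNReal C
    have h1 := mm_univ (F k) (hFm k) (hF k) C (hC k)
    have h2 : ((M k).mass : ENNReal) = mm (F k) Set.univ := FiniteMeasure.ennreal_mass
    rw [← ENNReal.coe_le_coe, h2]
    exact h1
  obtain ⟨m, -, hm⟩ := isCompact_iff_ultrafilter_le_nhds'.1 hcomp ((hyperfilter ℕ).map M)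
    (by
      rw [Ultrafilter.mem_map]
      exact Filter.univ_mem' hmem)
  have hm' : Tendsto M (hyperfilter ℕ : Filter ℕ) (𝓝 m) := hm
  refine ⟨m, inferInstance, fun g hg h0 => ?_⟩
  have hc : Continuous (fun ω : EE => (ω.2 : ℂ) * ext0 g ω.1) :=
    (continuous_subtype_val.comp continuous_snd).mul ((ext0_continuous g hg h0).comp continuous_fst)
  have h1 := (FiniteMeasure.tendsto_iff_forall_integral_rclike_tendsto ℂ).1 hm'
    (BoundedContinuousFunction.mkOfCompact ⟨_, hc⟩)
  have e1 : ∀ k, ∫ ω, (BoundedContinuousFunction.mkOfCompact ⟨_, hc⟩ : BoundedContinuousFunction EE ℂ) ω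
      ∂(M k : Measure EE) = ∫ s, F k s * g s := fun k => mm_integral (F k) (hFm k) g hg h0
  have e2 : ∫ ω, (BoundedContinuousFunction.mkOfCompact ⟨_, hc⟩ : BoundedContinuousFunction EE ℂ) ω
      ∂(m : Measure EE) = ∫ ω, hh ω * g (XX ω) ∂(m : Measure EE) := by
    congr 1
    funext ω
    exact hh_ext g ω
  rw [e2] at h1
  exact h1.congr e1

/-- the version for measurable functions -/
theorem exists_rep_meas (F : ℕ → ℝ → ℂ) (C : ℝ) (hFm : ∀ k, Measurable (F k))
    (hF : ∀ k, Integrable (F k)) (hC : ∀ k, ∫ s, ‖F k s‖ ≤ C)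
    (e : ℝ → ℂ) (he : ∀ᵐ ξ : ℝ, Tendsto (fun k => ∫ s, F k s * exp (-(I * ξ * s))) atTop (𝓝 (e ξ))) :
    ∃ (Ω : Type) (_ : MeasurableSpace Ω) (m : Measure Ω) (X : Ω → ℝ) (h : Ω → ℂ),
      IsFiniteMeasure m ∧ Measurable X ∧ Measurable h ∧ (∀ ω, ‖h ω‖ ≤ 1) ∧
      (∀ᵐ ξ : ℝ, e ξ = ∫ ω, h ω * exp (-(I * ξ * X ω)) ∂m) := by
  obtain ⟨m, hmf, hm⟩ := exists_limit F C hFm hF hC
  refine ⟨EE, inferInstance, m, XX, hh, hmf, XX_meas, hh_meas, hh_le, ?_⟩
  -- measurability and bounds
  have hAm : ∀ k, StronglyMeasurable (fun ξ : ℝ => ∫ s, F k s * exp (-(I * ξ * s))) := by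
    intro k
    apply StronglyMeasurable.integral_prod_right
      (f := fun (ξ : ℝ) (s : ℝ) => F k s * exp (-(I * (ξ : ℂ) * (s : ℂ))))
    exact (((hFm k).comp measurable_snd).mul cexp_meas).stronglyMeasurable
  have hAb : ∀ k (ξ : ℝ), ‖∫ s, F k s * exp (-(I * ξ * s))‖ ≤ C := by
    intro k ξ
    refine (norm_integral_le_integral_norm _).trans (le_trans (le_of_eq ?_) (hC k))
    congr 1
    funext s
    rw [norm_mul, cexp_norm, mul_one]
  have hem : AEStronglyMeasurable e volume :=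
    aestronglyMeasurable_of_tendsto_ae atTop (fun k => (hAm k).aestronglyMeasurable) he
  have heb : ∀ᵐ ξ : ℝ, ‖e ξ‖ ≤ C := by
    filter_upwards [he] with ξ hξ
    exact le_of_tendsto hξ.norm (Eventually.of_forall (fun k => hAb k ξ))
  have hel : LocallyIntegrable e volume := by
    refine (locallyIntegrable_const C).mono hem ?_
    filter_upwards [heb] with ξ hξ
    exact hξ.trans (le_abs_self C)
  -- the right hand side
  have hGm : StronglyMeasurable (fun ξ : ℝ => ∫ ω, hh ω * exp (-(I * ξ * XX ω)) ∂m) := by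
    apply StronglyMeasurable.integral_prod_right
      (f := fun (ξ : ℝ) (ω : EE) => hh ω * exp (-(I * (ξ : ℂ) * (XX ω : ℂ))))
    have h5 : Measurable (fun p : ℝ × EE => exp (-(I * (p.1 : ℂ) * (XX p.2 : ℂ)))) := by
      have := cexp_meas.comp (measurable_fst.prodMk (XX_meas.comp measurable_snd) :
        Measurable (fun p : ℝ × EE => (p.1, XX p.2)))
      exact this
    exact ((hh_meas.comp measurable_snd).mul h5).stronglyMeasurable
  have hGb : ∀ ξ : ℝ, ‖∫ ω, hh ω * exp (-(I * ξ * XX ω)) ∂m‖ ≤ m.real Set.univ := by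
    intro ξ
    refine (norm_integral_le_integral_norm _).trans ?_
    have h1 : ∫ ω, ‖hh ω * exp (-(I * ξ * XX ω))‖ ∂m ≤ ∫ _ω, (1 : ℝ) ∂m := by
      apply integral_mono_of_nonneg
      · exact Eventually.of_forall (fun _ => norm_nonneg _)
      · exact integrable_const _
      · refine Eventually.of_forall (fun ω => ?_)
        show ‖hh ω * exp (-(I * ξ * XX ω))‖ ≤ 1
        rw [norm_mul, cexp_norm, mul_one]
        exact hh_le ω
    refine h1.trans (le_of_eq ?_)
    simp
  have hGl : LocallyIntegrable (fun ξ : ℝ => ∫ ω, hh ω * exp (-(I * ξ * XX ω)) ∂m) volume := by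
    refine (locallyIntegrable_const (m.real Set.univ)).mono hGm.aestronglyMeasurable ?_
    filter_upwards with ξ
    exact (hGb ξ).trans (le_abs_self _)
  refine ae_eq_of_integral_contDiff_smul_eq hel hGl (fun φ hφd hφs => ?_)
  -- test function
  have hφc : Continuous φ := hφd.continuous
  have hφi : Integrable φ volume := hφc.integrable_of_hasCompactSupport hφs
  set ψ : ℝ → ℂ := fun ξ => (φ ξ : ℂ) with hψ
  have hψi : Integrable ψ volume := hφi.ofReal
  have h1 : Tendsto (fun k => ∫ ξ : ℝ, ψ ξ * ∫ s, F k s * exp (-(I * ξ * s))) atTop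
      (𝓝 (∫ ξ : ℝ, ψ ξ * e ξ)) := by
    apply tendsto_integral_of_dominated_convergence (fun ξ => ‖ψ ξ‖ * C)
    · intro k
      exact hψi.1.mul (hAm k).aestronglyMeasurable
    · exact hψi.norm.mul_const C
    · intro k
      filter_upwards with ξ
      rw [norm_mul]
      exact mul_le_mul_of_nonneg_left (hAb k ξ) (norm_nonneg _)
    · filter_upwards [he] with ξ hξ
      exact hξ.const_mul _
  have h2 : Tendsto (fun k => ∫ ξ : ℝ, ψ ξ * ∫ s, F k s * exp (-(I * ξ * s)))
      (hyperfilter ℕ : Filter ℕ) (𝓝 (∫ ξ : ℝ, ψ ξ * e ξ)) :=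
    h1.mono_left (by rw [← Nat.cofinite_eq_atTop]; exact hyperfilter_le_cofinite)
  have h3 := hm (tr ψ) (tr_cont ψ hψi) (tr_zero ψ)
  have h4 : ∀ k, ∫ s, F k s * tr ψ s = ∫ ξ : ℝ, ψ ξ * ∫ s, F k s * exp (-(I * ξ * s)) :=
    fun k => (fubini1 (F k) (hFm k) (hF k) ψ hψi).symm
  simp_rw [h4] at h3
  have h5 := tendsto_nhds_unique h2 h3
  rw [fubini2 m ψ hψi] at h5
  have e1 : ∀ x : ℝ, ∀ z : ℂ, φ x • z = ψ x * z := fun x z => Complex.real_smul
  simp_rw [e1]
  exact h5

theorem exists_rep (F : ℕ → ℝ → ℂ) (C : ℝ) (hF : ∀ k, Integrable (F k)) (hC : ∀ k, ∫ s, ‖F k s‖ ≤ C)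
    (e : ℝ → ℂ) (he : ∀ᵐ ξ : ℝ, Tendsto (fun k => ∫ s, F k s * exp (-(I * ξ * s))) atTop (𝓝 (e ξ))) :
    ∃ (Ω : Type) (_ : MeasurableSpace Ω) (m : Measure Ω) (X : Ω → ℝ) (h : Ω → ℂ),
      IsFiniteMeasure m ∧ Measurable X ∧ Measurable h ∧ (∀ ω, ‖h ω‖ ≤ 1) ∧
      (∀ᵐ ξ : ℝ, e ξ = ∫ ω, h ω * exp (-(I * ξ * X ω)) ∂m) := by
  have hae : ∀ k, F k =ᵐ[volume] (hF k).1.mk (F k) := fun k => (hF k).1.ae_eq_mk
  refine exists_rep_meas (fun k => (hF k).1.mk (F k)) C
    (fun k => (hF k).1.stronglyMeasurable_mk.measurable) (fun k => (hF k).congr (hae k)) ?_ e ?_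
  · intro k
    refine le_trans (le_of_eq ?_) (hC k)
    apply integral_congr_ae
    filter_upwards [hae k] with s hs
    rw [hs]
  · filter_upwards [he] with ξ hξ
    refine hξ.congr (fun k => ?_)
    apply integral_congr_ae
    filter_upwards [hae k] with s hs
    rw [hs]

end Pool.Agent.H18.HD
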