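import Mathlib

set_option autoImplicit false
open MeasureTheory Complex

namespace Pool.Agent.H18.HD

/-- `e` is (a.e.) the Fourier-Stieltjes transform of the complex measure `X_* (h dm)`, and `f` is
the transform of its discrete part. -/
def Rep (e f : ℝ → ℂ) : Prop :=
  ∃ (Ω : Type) (_ : MeasurableSpace Ω) (m : Measure Ω) (X : Ω → ℝ) (h : Ω → ℂ),
    IsFiniteMeasure m ∧ Measurable X ∧ Measurable h ∧ (∀ ω, ‖h ω‖ ≤ 1) ∧
    (∀ᵐ ξ : ℝ, e ξ = ∫ ω, h ω * exp (-(I * ξ * X ω)) ∂m) ∧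
    (∀ τ : ℝ, f τ = ∫ ω in {ω | m (X ⁻¹' {X ω}) ≠ 0}, h ω * exp (-(I * τ * X ω)) ∂m)

end Pool.Agent.H18.HD
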