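import Mathlib

set_option autoImplicit false
open MeasureTheory Complex Filter Topology

namespace Pool.Agent.H18.HD

theorem cesaro (J : ℝ → ℂ) (hJ : Measurable J) (C : ℝ) (hC : ∀ ξ, ‖J ξ‖ ≤ C)
    (h0 : ∀ ε : ℝ, 0 < ε → ∃ R : ℝ, ∀ ξ : ℝ, R ≤ |ξ| → ‖J ξ‖ ≤ ε) :
    Tendsto (fun n : ℕ => ((1 / (2 * (n : ℝ)) : ℝ) : ℂ) * ∫ ξ in (-(n : ℝ))..n, J ξ) atTop (𝓝 0) := by
  have h1 : Tendsto (fun n : ℕ => ∫ u in (-1 : ℝ)..1, J (n * u)) atTop
      (𝓝 (∫ _ in (-1 : ℝ)..1, (0 : ℂ))) := by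
    refine intervalIntegral.tendsto_integral_filter_of_dominated_convergence (fun _ => C) ?_ ?_ ?_ ?_
    · exact Eventually.of_forall fun n => (hJ.comp (measurable_const.mul measurable_id)).aestronglyMeasurable
    · exact Eventually.of_forall fun n => Eventually.of_forall fun u _ => hC _
    · exact intervalIntegrable_const
    · have : ∀ᵐ u : ℝ, u ≠ 0 := by simp [ae_iff, measure_singleton]
      filter_upwards [this] with u hu _
      rw [tendsto_zero_iff_norm_tendsto_zero]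
      rw [Metric.tendsto_atTop]
      intro ε hε
      obtain ⟨R, hR⟩ := h0 (ε / 2) (by linarith)
      obtain ⟨n0, hn0⟩ := exists_nat_ge (R / |u|)
      refine ⟨n0, fun n hn => ?_⟩
      rw [Real.dist_eq, sub_zero, abs_of_nonneg (norm_nonneg _)]
      refine lt_of_le_of_lt (hR _ ?_) (by linarith)
      have hu' : 0 < |u| := abs_pos.2 hu
      rw [abs_mul, Nat.abs_cast]
      rw [div_le_iff₀ hu'] at hn0
      refine hn0.trans (mul_le_mul_of_nonneg_right ?_ hu'.le)
      exact_mod_cast hn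
  rw [intervalIntegral.integral_zero] at h1
  have h2 := h1.const_mul (1 / 2 : ℂ)
  rw [mul_zero] at h2
  refine h2.congr' ?_
  filter_upwards [eventually_gt_atTop 0] with n hn
  have hn' : (n : ℝ) ≠ 0 := by exact_mod_cast hn.ne'
  have := intervalIntegral.integral_comp_mul_left (a := -1) (b := 1) (fun x => J x) hn'
  rw [this, mul_one, mul_neg, mul_one, real_smul]
  push_cast
  have hn2 : (n : ℂ) ≠ 0 := by exact_mod_cast hn.ne'
  field_simp

theorem norm_E {V : Set ℝ} [DecidablePred (· ∈ V)] {Ψ : ℝ → ℂ} {L : ℝ} (hL0 : 0 ≤ L)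
    (hL : ∀ ξ ∈ V, |(Ψ ξ).im| ≤ L) (y : ℝ) (hy0 : 0 ≤ y) (hy1 : y ≤ 1) (ξ : ℝ) :
    ‖(if ξ ∈ V then exp (-(I * y * Ψ ξ)) else 0 : ℂ)‖ ≤ Real.exp L := by
  split_ifs with h
  · rw [norm_exp]
    refine Real.exp_le_exp.2 ?_
    have : (-(I * y * Ψ ξ)).re = y * (Ψ ξ).im := by simp
    rw [this]
    have h1 := hL ξ h
    have h2 := abs_le.1 h1
    nlinarith
  · rw [norm_zero]
    exact (Real.exp_pos _).le

theorem mean_zero (V : Set ℝ) [DecidablePred (· ∈ V)] (hV : MeasurableSet V) (Ψ : ℝ → ℂ)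
    (hΨ : Measurable Ψ) (L : ℝ) (hL0 : 0 ≤ L)
    (hL : ∀ ξ ∈ V, |(Ψ ξ).im| ≤ L)
    (hB : ∀ B : ℝ, ∃ R : ℝ, ∀ ξ ∈ V, R ≤ |ξ| → B ≤ (Ψ ξ).re)
    (N : ℝ → ℂ) (hN : ∀ y ∈ Set.Ioo (0 : ℝ) 1, Tendsto (fun n : ℕ => ((1 / (2 * (n : ℝ)) : ℝ) : ℂ) *
      ∫ ξ in (-(n : ℝ))..n, (if ξ ∈ V then exp (-(I * y * Ψ ξ)) else 0)) atTop (𝓝 (N y))) :
    ∀ᵐ y : ℝ, y ∈ Set.Ioo (0 : ℝ) 1 → N y = 0 := by
  set E : ℝ → ℝ → ℂ := fun y ξ => if ξ ∈ V then exp (-(I * y * Ψ ξ)) else 0 with hE
  have hEm : Measurable (Function.uncurry E) := by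
    simp only [hE, Function.uncurry_def]
    refine Measurable.ite (measurable_snd hV) ?_ measurable_const
    fun_prop
  set M : ℕ → ℝ → ℂ := fun n y => ((1 / (2 * (n : ℝ)) : ℝ) : ℂ) * ∫ ξ in (-(n : ℝ))..n, E y ξ with hM
  have hMm : ∀ n, Measurable (M n) := by
    intro n
    have h1 : ∀ y, ∫ ξ in (-(n : ℝ))..n, E y ξ = ∫ ξ in Set.Ioc (-(n : ℝ)) n, E y ξ := by
      intro y
      rw [intervalIntegral.integral_of_le (by linarith [Nat.cast_nonneg (α := ℝ) n])]
    simp only [hM, h1]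
    exact (hEm.stronglyMeasurable.integral_prod_right.measurable).const_mul _
  have hMb : ∀ n y, 0 ≤ y → y ≤ 1 → ‖M n y‖ ≤ Real.exp L := by
    intro n y h0 h1
    simp only [hM]
    rw [norm_mul, norm_real, Real.norm_eq_abs,
      abs_of_nonneg (by positivity : (0 : ℝ) ≤ 1 / (2 * (n : ℝ)))]
    have h2 : ‖∫ ξ in (-(n : ℝ))..n, E y ξ‖ ≤ Real.exp L * |(n : ℝ) - (-(n : ℝ))| :=
      intervalIntegral.norm_integral_le_of_norm_le_const fun ξ _ => norm_E hL0 hL y h0 h1 ξ
    have h3 : |(n : ℝ) - (-(n : ℝ))| = 2 * n := by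
      rw [sub_neg_eq_add, abs_of_nonneg (by positivity)]; ring
    rw [h3] at h2
    rcases Nat.eq_zero_or_pos n with hn | hn
    · subst hn
      simp
      exact (Real.exp_pos _).le
    · calc 1 / (2 * (n : ℝ)) * ‖∫ ξ in (-(n : ℝ))..n, E y ξ‖ ≤
          1 / (2 * (n : ℝ)) * (Real.exp L * (2 * n)) := mul_le_mul_of_nonneg_left h2 (by positivity)
        _ = Real.exp L := by
          have : (0 : ℝ) < n := by exact_mod_cast hn
          field_simp
  set N' : ℝ → ℂ := Set.indicator (Set.Ioo 0 1) N with hN'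
  have hlim : ∀ y ∈ Set.Ioo (0 : ℝ) 1, Tendsto (fun n => M n y) atTop (𝓝 (N' y)) := by
    intro y hy
    simp only [hN', Set.indicator_of_mem hy]
    exact hN y hy
  have hne1 : ∀ᵐ y : ℝ, y ≠ 1 := by simp [ae_iff, measure_singleton]
  have hN'm : AEStronglyMeasurable N' volume := by
    refine aestronglyMeasurable_of_tendsto_ae (atTop : Filter ℕ)
      (f := fun n => Set.indicator (Set.Ioo 0 1) (M n))
      (fun n => ((hMm n).indicator measurableSet_Ioo).aestronglyMeasurable) ?_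
    refine Eventually.of_forall fun y => ?_
    by_cases hy : y ∈ Set.Ioo (0 : ℝ) 1
    · simp only [Set.indicator_of_mem hy]
      exact hlim y hy
    · simp only [hN', Set.indicator_of_notMem hy]
      exact tendsto_const_nhds
  have hN'b : ∀ y, ‖N' y‖ ≤ Real.exp L := by
    intro y
    by_cases hy : y ∈ Set.Ioo (0 : ℝ) 1
    · exact le_of_tendsto (hlim y hy).norm (Eventually.of_forall fun n => hMb n y hy.1.le hy.2.le)
    · simp only [hN', Set.indicator_of_notMem hy, norm_zero]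
      exact (Real.exp_pos _).le
  have hint : ∀ b : ℝ, 0 ≤ b → b ≤ 1 → ∫ y in (0 : ℝ)..b, N' y = 0 := by
    intro b hb0 hb1
    have h1 : Tendsto (fun n => ∫ y in (0 : ℝ)..b, M n y) atTop (𝓝 (∫ y in (0 : ℝ)..b, N' y)) := by
      refine intervalIntegral.tendsto_integral_filter_of_dominated_convergence
        (fun _ => Real.exp L) ?_ ?_ ?_ ?_
      · exact Eventually.of_forall fun n => (hMm n).aestronglyMeasurable
      · refine Eventually.of_forall fun n => Eventually.of_forall fun y hy => ?_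
        rw [Set.uIoc_of_le hb0] at hy
        exact hMb n y hy.1.le (hy.2.trans hb1)
      · exact intervalIntegrable_const
      · filter_upwards [hne1] with y hy hyb
        rw [Set.uIoc_of_le hb0] at hyb
        exact hlim y ⟨hyb.1, lt_of_le_of_ne (hyb.2.trans hb1) hy⟩
    set J : ℝ → ℂ := fun ξ => ∫ y in (0 : ℝ)..b, E y ξ with hJ
    have hJm : Measurable J := by
      have h1 : ∀ ξ, ∫ y in (0 : ℝ)..b, E y ξ = ∫ y in Set.Ioc (0 : ℝ) b, E y ξ := by
        intro ξ
        rw [intervalIntegral.integral_of_le hb0]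
      simp only [hJ, h1]
      exact hEm.stronglyMeasurable.integral_prod_left.measurable
    have hJb : ∀ ξ, ‖J ξ‖ ≤ Real.exp L := by
      intro ξ
      have h2 : ‖J ξ‖ ≤ Real.exp L * |b - 0| := by
        refine intervalIntegral.norm_integral_le_of_norm_le_const fun y hy => ?_
        rw [Set.uIoc_of_le hb0] at hy
        exact norm_E hL0 hL y hy.1.le (hy.2.trans hb1) ξ
      rw [sub_zero, abs_of_nonneg hb0] at h2
      refine h2.trans ?_
      exact mul_le_of_le_one_right (Real.exp_pos _).le hb1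
    have hJ0 : ∀ ε : ℝ, 0 < ε → ∃ R : ℝ, ∀ ξ : ℝ, R ≤ |ξ| → ‖J ξ‖ ≤ ε := by
      intro ε hε
      obtain ⟨R, hR⟩ := hB (2 * Real.exp L / ε)
      refine ⟨R, fun ξ hξ => ?_⟩
      by_cases hξV : ξ ∈ V
      · have hre := hR ξ hξV hξ
        have hpos : 0 < 2 * Real.exp L / ε := by positivity
        have hnorm : 2 * Real.exp L / ε ≤ ‖Ψ ξ‖ := hre.trans ((le_abs_self _).trans (abs_re_le_norm _))
        have hne : Ψ ξ ≠ 0 := by
          intro h0
          rw [h0, norm_zero] at hnorm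
          linarith
        have hc : -(I * Ψ ξ) ≠ 0 := neg_ne_zero.2 (mul_ne_zero I_ne_zero hne)
        have e1 : J ξ = (exp (-(I * Ψ ξ) * b) - exp (-(I * Ψ ξ) * (0 : ℝ))) / (-(I * Ψ ξ)) := by
          have := integral_exp_mul_complex (a := 0) (b := b) hc
          rw [← this]
          refine intervalIntegral.integral_congr fun y _ => ?_
          simp only [hE, if_pos hξV]
          congr 1
          ring
        rw [e1, norm_div, norm_neg, norm_mul, norm_I, one_mul]
        rw [div_le_iff₀ (hpos.trans_le hnorm)]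
        have b1 := norm_E (V := V) (Ψ := Ψ) hL0 hL b hb0 hb1 ξ
        have b0 := norm_E (V := V) (Ψ := Ψ) hL0 hL 0 le_rfl zero_le_one ξ
        rw [if_pos hξV] at b1 b0
        have c1 : exp (-(I * Ψ ξ) * b) = exp (-(I * b * Ψ ξ)) := by congr 1; ring
        have c0 : exp (-(I * Ψ ξ) * (0 : ℝ)) = exp (-(I * (0 : ℝ) * Ψ ξ)) := by congr 1; ring
        calc ‖exp (-(I * Ψ ξ) * b) - exp (-(I * Ψ ξ) * (0 : ℝ))‖ ≤ Real.exp L + Real.exp L := by
              refine (norm_sub_le _ _).trans ?_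
              rw [c1, c0]
              exact add_le_add b1 b0
          _ = ε * (2 * Real.exp L / ε) := by field_simp; ring
          _ ≤ ε * ‖Ψ ξ‖ := mul_le_mul_of_nonneg_left hnorm hε.le
      · have : J ξ = 0 := by
          simp only [hJ, hE, if_neg hξV]
          simp
        rw [this, norm_zero]
        exact hε.le
    have h2 := cesaro J hJm (Real.exp L) hJb hJ0
    have h3 : ∀ n : ℕ, ∫ y in (0 : ℝ)..b, M n y =
        ((1 / (2 * (n : ℝ)) : ℝ) : ℂ) * ∫ ξ in (-(n : ℝ))..n, J ξ := by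
      intro n
      simp only [hM]
      rw [intervalIntegral.integral_const_mul]
      congr 1
      have hn : -(n : ℝ) ≤ n := by linarith [Nat.cast_nonneg (α := ℝ) n]
      simp only [hJ]
      rw [intervalIntegral.integral_of_le hb0, intervalIntegral.integral_of_le hn]
      simp_rw [intervalIntegral.integral_of_le hn, intervalIntegral.integral_of_le hb0]
      refine integral_integral_swap ?_
      rw [Measure.prod_restrict]
      refine IntegrableOn.of_bound ?_ hEm.aestronglyMeasurable (Real.exp L) ?_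
      · rw [Measure.prod_prod, Real.volume_Ioc, Real.volume_Ioc]
        exact ENNReal.mul_lt_top ENNReal.ofReal_lt_top ENNReal.ofReal_lt_top
      · refine (ae_restrict_iff' (measurableSet_Ioc.prod measurableSet_Ioc)).2 ?_
        refine Eventually.of_forall fun p hp => ?_
        exact norm_E hL0 hL p.1 hp.1.1.le (hp.1.2.trans hb1) p.2
    refine tendsto_nhds_unique h1 (h2.congr fun n => (h3 n).symm)
  have hii : IntervalIntegrable N' volume 0 1 := by
    refine (intervalIntegrable_const (c := Real.exp L)).mono_fun hN'm.restrict ?_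
    refine Eventually.of_forall fun y => ?_
    rw [Real.norm_eq_abs, abs_of_pos (Real.exp_pos L)]
    exact hN'b y
  filter_upwards [hii.ae_hasDerivAt_integral] with y hy hyI
  have h01 : y ∈ Set.uIcc (0 : ℝ) 1 := by
    rw [Set.uIcc_of_le zero_le_one]
    exact ⟨hyI.1.le, hyI.2.le⟩
  have hd := hy h01 0 (by rw [Set.uIcc_of_le zero_le_one]; exact ⟨le_rfl, zero_le_one⟩)
  have hd0 : HasDerivAt (fun x => ∫ t in (0 : ℝ)..x, N' t) 0 y := by
    refine (hasDerivAt_const y (0 : ℂ)).congr_of_eventuallyEq ?_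
    filter_upwards [Ioo_mem_nhds hyI.1 hyI.2] with x hx
    exact hint x hx.1.le hx.2.le
  have := hd.unique hd0
  simpa only [hN', Set.indicator_of_mem hyI] using this

/-- a.e. indicator with continuous version is everything -/
theorem conull (U : Set ℝ) [DecidablePred (· ∈ U)] (hU : IsOpen U) (hne : U.Nonempty) (G : ℝ → ℂ)
    (hG : Continuous G) (h : ∀ᵐ ξ : ℝ, (if ξ ∈ U then (1 : ℂ) else 0) = G ξ) :
    ∀ᵐ ξ : ℝ, ξ ∈ U := by
  have h1 : (fun ξ => G ξ * G ξ) = G := by
    refine ((hG.mul hG).ae_eq_iff_eq volume hG).1 ?_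
    filter_upwards [h] with ξ hξ
    simp only [Pi.mul_apply]
    rw [← hξ]
    split_ifs <;> simp
  have h2 : ∀ ξ, G ξ = 0 ∨ G ξ = 1 := by
    intro ξ
    have : G ξ * G ξ = G ξ := congrFun h1 ξ
    by_cases h0 : G ξ = 0
    · exact Or.inl h0
    · right
      exact mul_right_cancel₀ h0 (by rw [this, one_mul])
  have hposU : volume U ≠ 0 := (hU.measure_pos volume hne).ne'
  have hex : ∃ ξ, G ξ = 1 := by
    by_contra hcon
    push Not at hcon
    apply hposU
    have hall : ∀ ξ, G ξ = 0 := fun ξ => (h2 ξ).resolve_right (hcon ξ)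
    have : ∀ᵐ ξ : ℝ, ξ ∉ U := by
      filter_upwards [h] with ξ hξ hU'
      rw [hall ξ, if_pos hU'] at hξ
      exact one_ne_zero hξ
    rw [ae_iff] at this
    simpa using this
  obtain ⟨a, ha⟩ := hex
  have hall : ∀ ξ, G ξ = 1 := by
    intro ξ
    rcases h2 ξ with h0 | h0
    · exfalso
      have hc : Continuous fun ξ => (G ξ).re := continuous_re.comp hG
      have := mem_range_of_exists_le_of_exists_ge hc (c := (1 / 2 : ℝ)) ⟨ξ, by simp [h0]⟩
        ⟨a, by simp [ha]; norm_num⟩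
      obtain ⟨w, hw⟩ := this
      rcases h2 w with hw0 | hw0
      · simp only [hw0, zero_re] at hw
        norm_num at hw
      · simp only [hw0, one_re] at hw
        norm_num at hw
    · exact h0
  filter_upwards [h] with ξ hξ
  by_contra hnot
  rw [if_neg hnot, hall ξ] at hξ
  exact zero_ne_one hξ

end Pool.Agent.H18.HD
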