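import Mathlib

set_option linter.unusedVariables false

namespace Pool.Agent.H18.HD

open MeasureTheory Complex Filter Topology

/-- root lemma -/
lemma root_lemma (n : ℕ) (hn : 1 ≤ n) (g q : ℝ → ℂ) (hg : Continuous g) (hq : Continuous q)
    (hgq : ∀ τ, g τ ^ n = q τ) (hq1 : ∀ τ, ‖q τ - 1‖ ≤ 1 / 2) (τ0 : ℝ) (h0 : g τ0 = 1) (τ : ℝ) :
    ‖g τ - 1‖ ≤ 2 / n := by
  have hn0 : (n : ℂ) ≠ 0 := by exact_mod_cast (show n ≠ 0 by omega)
  have hslit : ∀ τ, q τ ∈ slitPlane := by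
    intro τ
    have h1 := Complex.mem_slitPlane_of_norm_lt_one (z := q τ - 1)
      (lt_of_le_of_lt (hq1 τ) (by norm_num))
    rwa [add_sub_cancel] at h1
  set ℓ : ℝ → ℂ := fun τ => exp (log (q τ) / n) with hℓ
  have hℓc : Continuous ℓ := by
    apply Continuous.cexp
    apply Continuous.div_const
    exact hq.clog hslit
  have hℓn : ∀ τ, ℓ τ ^ n = q τ := by
    intro τ
    simp only [hℓ]
    rw [← Complex.exp_nat_mul, mul_div_cancel₀ _ hn0]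
    exact Complex.exp_log (Complex.slitPlane_ne_zero (hslit τ))
  have hℓ0 : ∀ τ, ℓ τ ≠ 0 := fun τ => Complex.exp_ne_zero _
  have hmaps : Set.MapsTo (fun τ => g τ / ℓ τ) Set.univ {w : ℂ | w ^ n = 1} := by
    intro τ _
    show (g τ / ℓ τ) ^ n = 1
    rw [div_pow, hgq, hℓn]
    exact div_self (Complex.slitPlane_ne_zero (hslit τ))
  have hfin : ({w : ℂ | w ^ n = 1} : Set ℂ).Finite := by
    have : ({w : ℂ | w ^ n = 1} : Set ℂ) ⊆ ((Polynomial.nthRoots n (1 : ℂ)).toFinset : Set ℂ) := by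
      intro w hw
      simp only [Finset.mem_coe, Multiset.mem_toFinset]
      exact (Polynomial.mem_nthRoots (by omega)).2 hw
    exact Set.Finite.subset (Finset.finite_toSet _) this
  have hconst := isPreconnected_univ.constant_of_mapsTo hfin.isDiscrete
    ((hg.div hℓc hℓ0).continuousOn) hmaps (Set.mem_univ τ) (Set.mem_univ τ0)
  have hq0 : q τ0 = 1 := by rw [← hgq, h0, one_pow]
  have hℓτ0 : ℓ τ0 = 1 := by simp [hℓ, hq0]
  have hgl : g τ = ℓ τ := by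
    have h1 : g τ / ℓ τ = 1 := by
      have h2 : g τ / ℓ τ = g τ0 / ℓ τ0 := hconst
      rw [h2, h0, hℓτ0, div_one]
    exact (div_eq_one_iff_eq (hℓ0 τ)).1 h1
  rw [hgl]
  have hlog : ‖log (q τ)‖ ≤ 1 := by
    have h1 := Complex.norm_log_one_add_le (z := q τ - 1) (lt_of_le_of_lt (hq1 τ) (by norm_num))
    have h2 : (1 : ℂ) + (q τ - 1) = q τ := by ring
    rw [h2] at h1
    have h3 := hq1 τ
    have h4 : 0 ≤ ‖q τ - 1‖ := norm_nonneg _
    have h5 : (1 - ‖q τ - 1‖)⁻¹ ≤ 2 := by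
      rw [inv_le_comm₀ (by linarith) (by norm_num)]
      linarith
    have h6 : ‖q τ - 1‖ ^ 2 * (1 - ‖q τ - 1‖)⁻¹ ≤ (1/4) * 2 := by
      apply mul_le_mul _ h5 (inv_nonneg.2 (by linarith)) (by norm_num)
      nlinarith
    linarith
  have hnR : (1 : ℝ) ≤ n := by exact_mod_cast hn
  have hlogn : ‖log (q τ) / n‖ ≤ 1 / n := by
    rw [norm_div, Complex.norm_natCast]
    exact div_le_div_of_nonneg_right hlog (by linarith)
  have hle1 : ‖log (q τ) / n‖ ≤ 1 := hlogn.trans (by rw [div_le_one (by linarith)]; exact hnR)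
  have := Complex.norm_exp_sub_one_le hle1
  calc ‖ℓ τ - 1‖ = ‖exp (log (q τ) / n) - 1‖ := rfl
    _ ≤ 2 * ‖log (q τ) / n‖ := this
    _ ≤ 2 * (1 / n) := by linarith
    _ = 2 / n := by ring

/-- the modulus -/
noncomputable def dd (ν : ℝ → ℂ) (h : ℝ) : ℝ := ∑' x : ℝ, ‖ν x‖ * ‖exp (-(I * h * x)) - 1‖

lemma norm_exp_le (h x : ℝ) : ‖exp (-(I * h * x))‖ = 1 := by
  have : -(I * (h : ℂ) * x) = ((-(h * x) : ℝ) : ℂ) * I := by push_cast; ring
  rw [this, Complex.norm_exp_ofReal_mul_I]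

lemma norm_term_le (h x : ℝ) : ‖exp (-(I * h * x)) - 1‖ ≤ 2 := by
  calc ‖exp (-(I * h * x)) - 1‖ ≤ ‖exp (-(I * h * x))‖ + ‖(1 : ℂ)‖ := norm_sub_le _ _
    _ = 2 := by rw [norm_exp_le, norm_one]; norm_num

lemma dd_summable (ν : ℝ → ℂ) (hν : Summable fun x => ‖ν x‖) (h : ℝ) :
    Summable fun x : ℝ => ‖ν x‖ * ‖exp (-(I * h * x)) - 1‖ := by
  apply Summable.of_nonneg_of_le (fun x => by positivity) _ (hν.mul_right 2)
  intro x
  exact mul_le_mul_of_nonneg_left (norm_term_le h x) (norm_nonneg _)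

lemma f1_summable (ν : ℝ → ℂ) (hν : Summable fun x => ‖ν x‖) (τ : ℝ) :
    Summable fun x : ℝ => ν x * exp (-(I * τ * x)) := by
  apply Summable.of_norm
  apply hν.congr
  intro x
  rw [norm_mul, norm_exp_le, mul_one]

lemma diff_le (ν : ℝ → ℂ) (hν : Summable fun x => ‖ν x‖) (f1 : ℝ → ℂ)
    (hf1 : ∀ τ : ℝ, f1 τ = ∑' x : ℝ, ν x * exp (-(I * τ * x))) (τ h : ℝ) :
    ‖f1 (τ + h) - f1 τ‖ ≤ dd ν h := by
  rw [hf1, hf1, ← Summable.tsum_sub (f1_summable ν hν _) (f1_summable ν hν _)]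
  have e : ∀ x : ℝ, ν x * exp (-(I * ((τ + h : ℝ) : ℂ) * x)) - ν x * exp (-(I * τ * x))
      = ν x * exp (-(I * τ * x)) * (exp (-(I * h * x)) - 1) := by
    intro x
    have : -(I * ((τ + h : ℝ) : ℂ) * x) = -(I * τ * x) + -(I * h * x) := by push_cast; ring
    rw [this, Complex.exp_add]; ring
  have hn : ∀ x : ℝ, ‖ν x * exp (-(I * ((τ + h : ℝ) : ℂ) * x)) - ν x * exp (-(I * τ * x))‖
      = ‖ν x‖ * ‖exp (-(I * h * x)) - 1‖ := by
    intro x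
    rw [e, norm_mul, norm_mul, norm_exp_le, mul_one]
  calc _ ≤ ∑' x : ℝ, ‖ν x * exp (-(I * ((τ + h : ℝ) : ℂ) * x)) - ν x * exp (-(I * τ * x))‖ := by
        apply norm_tsum_le_tsum_norm
        exact (dd_summable ν hν h).congr (fun x => (hn x).symm)
    _ = dd ν h := by
        unfold dd
        exact tsum_congr hn

lemma dd_cont (ν : ℝ → ℂ) (hν : Summable fun x => ‖ν x‖) : Continuous (dd ν) := by
  unfold dd
  apply continuous_tsum (u := fun x => ‖ν x‖ * 2)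
  · intro x
    fun_prop
  · exact hν.mul_right 2
  · intro x h
    rw [norm_mul, norm_norm, norm_norm]
    exact mul_le_mul_of_nonneg_left (norm_term_le h x) (norm_nonneg _)

lemma dd_zero (ν : ℝ → ℂ) : dd ν 0 = 0 := by
  unfold dd
  simp

/-- relative density of the almost periods -/
lemma dense_periods (ν : ℝ → ℂ) (hν : Summable fun x => ‖ν x‖) (c : ℝ) (hc : 0 < c) :
    ∃ T : Set ℝ, T.Finite ∧ ∀ τ : ℝ, ∃ t ∈ T, dd ν (τ - t) ≤ c := by
  obtain ⟨F, hF⟩ : ∃ F : Finset ℝ, ∑' x : {x // x ∉ F}, ‖ν x‖ < c / 4 := by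
    have h1 := tendsto_tsum_compl_atTop_zero (fun x : ℝ => ‖ν x‖)
    have h2 := h1.eventually (gt_mem_nhds (show (0:ℝ) < c / 4 by linarith))
    exact h2.exists
  set S : ℝ := ∑ x ∈ F, ‖ν x‖ with hS
  have hS0 : 0 ≤ S := Finset.sum_nonneg (fun _ _ => norm_nonneg _)
  set δ : ℝ := c / (2 * (S + 1)) with hδ
  have hδ0 : 0 < δ := by positivity
  let E : ℝ → (F → ℂ) := fun τ x => exp (-(I * τ * (x : ℝ)))
  have hb : Set.range E ⊆ Metric.closedBall 0 1 := by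
    rintro _ ⟨τ, rfl⟩
    rw [mem_closedBall_zero_iff, pi_norm_le_iff_of_nonneg (by norm_num)]
    intro x
    exact (norm_exp_le τ x).le
  have htb : TotallyBounded (Set.range E) :=
    ((isCompact_closedBall (0 : F → ℂ) 1).totallyBounded).subset hb
  obtain ⟨t, hts, htf, htc⟩ := htb.exists_subset (Metric.dist_mem_uniformity hδ0)
  -- choose preimages
  have hpre : ∀ y : (F → ℂ), y ∈ t → ∃ τ : ℝ, E τ = y := fun y hy => hts hy
  choose! g hg using hpre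
  refine ⟨g '' t, htf.image g, fun τ => ?_⟩
  have h1 := htc (Set.mem_range_self τ)
  simp only [Set.mem_iUnion] at h1
  obtain ⟨y, hy, hyd⟩ := h1
  have hyd' : dist (E τ) y < δ := hyd
  refine ⟨g y, ⟨y, hy, rfl⟩, ?_⟩
  rw [← hg y hy] at hyd'
  have hterm : ∀ x ∈ F, ‖exp (-(I * ((τ - g y : ℝ) : ℂ) * x)) - 1‖ ≤ δ := by
    intro x hx
    have h2 : dist (E τ ⟨x, hx⟩) (E (g y) ⟨x, hx⟩) ≤ δ := (dist_le_pi_dist _ _ _).trans hyd'.le
    rw [dist_eq_norm] at h2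
    have e : exp (-(I * τ * (x : ℝ))) - exp (-(I * (g y) * (x : ℝ)))
        = exp (-(I * (g y) * (x : ℝ))) * (exp (-(I * ((τ - g y : ℝ) : ℂ) * x)) - 1) := by
      rw [mul_sub, ← Complex.exp_add, mul_one]
      congr 2
      push_cast
      ring
    have h3 : ‖exp (-(I * τ * (x : ℝ))) - exp (-(I * (g y) * (x : ℝ)))‖ ≤ δ := h2
    rwa [e, norm_mul, norm_exp_le, one_mul] at h3
  have hsum := (dd_summable ν hν (τ - g y))
  unfold dd
  rw [← hsum.sum_add_tsum_subtype_compl F]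
  have ha : ∑ x ∈ F, ‖ν x‖ * ‖exp (-(I * ((τ - g y : ℝ) : ℂ) * x)) - 1‖ ≤ S * δ := by
    rw [hS, Finset.sum_mul]
    exact Finset.sum_le_sum (fun x hx => mul_le_mul_of_nonneg_left (hterm x hx) (norm_nonneg _))
  have hb2 : ∑' x : {x // x ∉ F}, ‖ν x‖ * ‖exp (-(I * ((τ - g y : ℝ) : ℂ) * x)) - 1‖
      ≤ ∑' x : {x // x ∉ F}, ‖ν x‖ * 2 := by
    apply Summable.tsum_le_tsum
    · intro x
      exact mul_le_mul_of_nonneg_left (norm_term_le _ _) (norm_nonneg _)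
    · exact hsum.subtype _
    · exact (hν.subtype _).mul_right 2
  rw [tsum_mul_right] at hb2
  have hSδ : S * δ ≤ c / 2 := by
    rw [hδ]
    rw [mul_div_assoc', div_le_div_iff₀ (by positivity) (by norm_num)]
    nlinarith
  linarith

lemma mul_sub_one_le {a b : ℂ} {α β : ℝ} (ha : ‖a - 1‖ ≤ α) (hb : ‖b - 1‖ ≤ β) :
    ‖a * b - 1‖ ≤ (1 + α) * (1 + β) - 1 := by
  have e : a * b - 1 = (a - 1) * (b - 1) + (a - 1) + (b - 1) := by ring
  have h1 : ‖a * b - 1‖ ≤ ‖a - 1‖ * ‖b - 1‖ + ‖a - 1‖ + ‖b - 1‖ := by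
    rw [e]
    refine (norm_add_le _ _).trans ?_
    gcongr
    refine (norm_add_le _ _).trans ?_
    gcongr
    exact (norm_mul _ _).le
  have h2 : ‖a - 1‖ * ‖b - 1‖ ≤ α * β :=
    mul_le_mul ha hb (norm_nonneg _) ((norm_nonneg _).trans ha)
  nlinarith

/-- one period -/
lemma period_step (ν : ℝ → ℂ) (hν : Summable fun x => ‖ν x‖) (f : ℕ → ℝ → ℂ)
    (hf1 : ∀ τ : ℝ, f 1 τ = ∑' x : ℝ, ν x * exp (-(I * τ * x)))
    (hcont : ∀ n, 1 ≤ n → Continuous (f n)) (heven : ∀ n, 1 ≤ n → ∀ τ, f n (-τ) = f n τ)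
    (hpow : ∀ n, 1 ≤ n → ∀ τ, f n τ ^ n = f 1 τ) (c : ℝ) (hc : 0 < c) (hlow : ∀ τ, c ≤ ‖f 1 τ‖)
    (n : ℕ) (hn : 1 ≤ n) (P : ℝ) (hP : dd ν P ≤ c / 2) (τ : ℝ) :
    ‖f n (τ + P) / f n τ - 1‖ ≤ 2 / n := by
  have hf1ne : ∀ τ, f 1 τ ≠ 0 := by
    intro τ h0
    have := hlow τ
    rw [h0, norm_zero] at this
    linarith
  have hfne : ∀ τ, f n τ ≠ 0 := by
    intro τ h0
    apply hf1ne τ
    rw [← hpow n hn τ, h0, zero_pow (by omega)]
  have hshift : Continuous (fun τ : ℝ => τ + P) := by fun_prop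
  refine root_lemma n hn (fun τ => f n (τ + P) / f n τ) (fun τ => f 1 (τ + P) / f 1 τ)
    (((hcont n hn).comp hshift).div (hcont n hn) hfne)
    (((hcont 1 le_rfl).comp hshift).div (hcont 1 le_rfl) hf1ne) ?_ ?_ (-P / 2) ?_ τ
  · intro τ
    rw [div_pow, hpow n hn, hpow n hn]
  · intro τ
    have h1 := diff_le ν hν (f 1) hf1 τ P
    have h2 : f 1 (τ + P) / f 1 τ - 1 = (f 1 (τ + P) - f 1 τ) / f 1 τ := by
      rw [sub_div, div_self (hf1ne τ)]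
    rw [h2, norm_div]
    have h3 := hlow τ
    rw [div_le_iff₀ (by linarith)]
    linarith
  · have h1 : -P / 2 + P = P / 2 := by ring
    have h2 : -P / 2 = -(P / 2) := by ring
    rw [h1, h2, heven n hn]
    exact div_self (hfne _)

lemma chain (n : ℕ) (g : ℝ → ℂ) (hg : ∀ τ, g τ ≠ 0) (P : ℝ)
    (h : ∀ τ, ‖g (τ + P) / g τ - 1‖ ≤ 2 / n) (m : ℕ) (τ : ℝ) :
    ‖g (τ + m * P) / g τ - 1‖ ≤ (1 + 2 / (n : ℝ)) ^ m - 1 := by
  induction m with
  | zero => simp [div_self (hg τ)]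
  | succ m ih =>
    have e : g (τ + ((m + 1 : ℕ) : ℝ) * P) / g τ
        = g (τ + m * P + P) / g (τ + m * P) * (g (τ + m * P) / g τ) := by
      have : τ + ((m + 1 : ℕ) : ℝ) * P = τ + m * P + P := by push_cast; ring
      rw [this]
      field_simp [hg]
    rw [e]
    have := mul_sub_one_le (h (τ + m * P)) ih
    refine this.trans (le_of_eq ?_)
    ring

theorem phase_lemma (ν : ℝ → ℂ) (hν : Summable fun x => ‖ν x‖) (f : ℕ → ℝ → ℂ)
    (hf1 : ∀ τ : ℝ, f 1 τ = ∑' x : ℝ, ν x * exp (-(I * τ * x)))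
    (hcont : ∀ n, 1 ≤ n → Continuous (f n)) (heven : ∀ n, 1 ≤ n → ∀ τ, f n (-τ) = f n τ)
    (hpow : ∀ n, 1 ≤ n → ∀ τ, f n τ ^ n = f 1 τ) (c : ℝ) (hc : 0 < c) (hlow : ∀ τ, c ≤ ‖f 1 τ‖) :
    ∃ n, 1 ≤ n ∧ ∀ τ, ‖f n τ - f n 0‖ ≤ ‖f n 0‖ / 2 := by
  obtain ⟨T, hT, hTd⟩ := dense_periods ν hν (c / 2) (by linarith)
  -- small translations
  obtain ⟨h0, hh0, hsmall⟩ : ∃ h0 : ℝ, 0 < h0 ∧ ∀ h : ℝ, |h| < h0 → dd ν h ≤ c / 2 := by
    have h1 : Tendsto (dd ν) (𝓝 0) (𝓝 0) := by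
      have := (dd_cont ν hν).tendsto 0
      rwa [dd_zero] at this
    have h2 := h1.eventually (gt_mem_nhds (show (0:ℝ) < c / 2 by linarith))
    rw [Metric.eventually_nhds_iff] at h2
    obtain ⟨ε, hε, h3⟩ := h2
    refine ⟨ε, hε, fun h hh => ?_⟩
    have := h3 (y := h) (by rwa [Real.dist_eq, sub_zero])
    exact this.le
  -- bound for T
  obtain ⟨B, hB⟩ : ∃ B : ℝ, ∀ t ∈ T, |t| ≤ B := by
    obtain ⟨B, hB⟩ := (hT.image (fun t => |t|)).bddAbove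
    exact ⟨B, fun t ht => hB ⟨t, ht, rfl⟩⟩
  obtain ⟨N, hN⟩ := exists_nat_gt (B / h0)
  have hN1 : ∀ t ∈ T, |t / ((N : ℝ) + 1)| < h0 := by
    intro t ht
    have hpos : (0:ℝ) < (N : ℝ) + 1 := by positivity
    rw [abs_div, abs_of_pos hpos, div_lt_iff₀ hpos]
    rw [div_lt_iff₀ hh0] at hN
    have := hB t ht
    nlinarith
  -- choose n
  obtain ⟨n, hn, hnb⟩ : ∃ n : ℕ, 1 ≤ n ∧ (1 + 2 / (n : ℝ)) ^ (N + 2) - 1 ≤ 1 / 2 := by
    have h1 : Tendsto (fun n : ℕ => (1 + 2 / (n : ℝ)) ^ (N + 2) - 1) atTop (𝓝 ((1 + 0) ^ (N + 2) - 1)) := by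
      apply Tendsto.sub_const
      apply Tendsto.pow
      apply Tendsto.const_add
      exact tendsto_const_div_atTop_nhds_zero_nat 2
    rw [add_zero, one_pow, sub_self] at h1
    have h2 := h1.eventually (gt_mem_nhds (show (0:ℝ) < 1 / 2 by norm_num))
    obtain ⟨n, hn1, hn2⟩ := (h2.and (eventually_ge_atTop 1)).exists
    exact ⟨n, hn2, hn1.le⟩
  refine ⟨n, hn, fun τ => ?_⟩
  have hf1ne : ∀ τ, f 1 τ ≠ 0 := by
    intro τ h0
    have := hlow τ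
    rw [h0, norm_zero] at this
    linarith
  have hfne : ∀ τ, f n τ ≠ 0 := by
    intro τ h0
    apply hf1ne τ
    rw [← hpow n hn τ, h0, zero_pow (by omega)]
  obtain ⟨t, ht, htd⟩ := hTd τ
  have hstep := period_step ν hν f hf1 hcont heven hpow c hc hlow n hn
  have h1 : ‖f n (0 + ((N + 1 : ℕ) : ℝ) * (t / ((N : ℝ) + 1))) / f n 0 - 1‖
      ≤ (1 + 2 / (n : ℝ)) ^ (N + 1) - 1 :=
    chain n (f n) hfne _ (hstep _ (hsmall _ (hN1 t ht))) (N + 1) 0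
  have e1 : 0 + ((N + 1 : ℕ) : ℝ) * (t / ((N : ℝ) + 1)) = t := by
    push_cast
    field_simp
    ring
  rw [e1] at h1
  have h2 := hstep (τ - t) htd t
  have e2 : t + (τ - t) = τ := by ring
  rw [e2] at h2
  have h3 := mul_sub_one_le h2 h1
  have e3 : f n τ / f n t * (f n t / f n 0) = f n τ / f n 0 := by
    field_simp [hfne]
  rw [e3] at h3
  have h4 : (1 + 2 / (n : ℝ)) * (1 + ((1 + 2 / (n : ℝ)) ^ (N + 1) - 1)) - 1
      = (1 + 2 / (n : ℝ)) ^ (N + 2) - 1 := by ring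
  rw [h4] at h3
  have h5 : ‖f n τ / f n 0 - 1‖ ≤ 1 / 2 := h3.trans hnb
  have e5 : f n τ - f n 0 = f n 0 * (f n τ / f n 0 - 1) := by
    rw [mul_sub, mul_div_cancel₀ _ (hfne 0), mul_one]
  rw [e5, norm_mul]
  have := norm_nonneg (f n 0)
  nlinarith

end Pool.Agent.H18.HD
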