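import Mathlib
import Pool.Agent.H18.HDDefs

set_option autoImplicit false
open MeasureTheory Complex Filter Topology

namespace Pool.Agent.H18.HD

/-- the normalised integral of a character -/
theorem char_mean (u : ℝ) : Tendsto (fun n : ℕ => ((1 / (2 * (n : ℝ)) : ℝ) : ℂ) *
    ∫ ξ in (-(n : ℝ))..n, exp (I * ξ * u)) atTop (𝓝 (if u = 0 then 1 else 0)) := by
  by_cases hu : u = 0
  · subst hu
    rw [if_pos rfl]
    refine tendsto_const_nhds.congr' ?_
    filter_upwards [eventually_gt_atTop 0] with n hn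
    have hn' : (n : ℂ) ≠ 0 := by exact_mod_cast hn.ne'
    simp only [ofReal_zero, mul_zero, exp_zero, intervalIntegral.integral_const, sub_neg_eq_add]
    rw [real_smul]
    push_cast
    field_simp
    ring
  · rw [if_neg hu]
    have hc : (I * u : ℂ) ≠ 0 := mul_ne_zero I_ne_zero (by exact_mod_cast hu)
    have h1 : ∀ n : ℕ, ∫ ξ in (-(n : ℝ))..n, exp (I * ξ * u) =
        (exp (I * u * n) - exp (I * u * (-(n : ℝ) : ℝ))) / (I * u) := by
      intro n
      have := integral_exp_mul_complex (a := -(n : ℝ)) (b := n) hc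
      rw [← ofReal_natCast, ← this]
      refine intervalIntegral.integral_congr fun ξ _ => ?_
      show exp (I * ξ * u) = exp (I * u * ξ)
      congr 1
      ring
    simp_rw [h1]
    have hlim : Tendsto (fun n : ℕ => (2 / |u|) * (1 / (2 * (n : ℝ)))) atTop (𝓝 0) := by
      have : Tendsto (fun n : ℕ => (1 / |u|) * (1 / (n : ℝ))) atTop (𝓝 ((1 / |u|) * 0)) :=
        tendsto_one_div_atTop_nhds_zero_nat.const_mul _
      rw [mul_zero] at this
      refine this.congr fun n => ?_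
      by_cases hn : (n : ℝ) = 0
      · simp [hn]
      · have : |u| ≠ 0 := abs_ne_zero.2 hu
        field_simp
    refine squeeze_zero_norm (fun n => ?_) hlim
    rw [norm_mul, norm_div, norm_real, norm_mul, norm_I, one_mul, norm_real, Real.norm_eq_abs,
      Real.norm_eq_abs, abs_of_nonneg (by positivity : (0 : ℝ) ≤ 1 / (2 * (n : ℝ)))]
    rw [mul_comm]
    refine mul_le_mul_of_nonneg_right ?_ (by positivity)
    refine div_le_div_of_nonneg_right ?_ (abs_nonneg _)
    have e1 : ‖exp (I * u * n)‖ = 1 := by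
      have : I * u * n = ((u * n : ℝ) : ℂ) * I := by push_cast; ring
      rw [this, norm_exp_ofReal_mul_I]
    have e2 : ‖exp (I * u * (-(n : ℝ) : ℝ))‖ = 1 := by
      have : I * u * ((-(n : ℝ) : ℝ) : ℂ) = ((u * -(n : ℝ) : ℝ) : ℂ) * I := by push_cast; ring
      rw [this, norm_exp_ofReal_mul_I]
    calc ‖exp (I * u * n) - exp (I * u * (-(n : ℝ) : ℝ))‖ ≤ 1 + 1 := by
          refine (norm_sub_le _ _).trans ?_
          rw [e1, e2]
      _ = 2 := by norm_num

theorem char_mean_le (u : ℝ) (n : ℕ) : ‖((1 / (2 * (n : ℝ)) : ℝ) : ℂ) *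
    ∫ ξ in (-(n : ℝ))..n, exp (I * ξ * u)‖ ≤ 1 := by
  rw [norm_mul, norm_real, Real.norm_eq_abs, abs_of_nonneg (by positivity : (0 : ℝ) ≤ 1 / (2 * (n : ℝ)))]
  have h1 : ‖∫ ξ in (-(n : ℝ))..n, exp (I * ξ * u)‖ ≤ 1 * |(n : ℝ) - (-(n : ℝ))| := by
    refine intervalIntegral.norm_integral_le_of_norm_le_const fun ξ _ => ?_
    have : I * ξ * u = ((ξ * u : ℝ) : ℂ) * I := by push_cast; ring
    rw [this, norm_exp_ofReal_mul_I]
  have h2 : |(n : ℝ) - (-(n : ℝ))| = 2 * n := by
    rw [sub_neg_eq_add, abs_of_nonneg (by positivity)]; ring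
  rw [h2, one_mul] at h1
  rcases Nat.eq_zero_or_pos n with hn | hn
  · subst hn
    simp
  · calc 1 / (2 * (n : ℝ)) * ‖∫ ξ in (-(n : ℝ))..n, exp (I * ξ * u)‖ ≤ 1 / (2 * (n : ℝ)) * (2 * n) :=
        mul_le_mul_of_nonneg_left h1 (by positivity)
      _ = 1 := by
        have : (0 : ℝ) < n := by exact_mod_cast hn
        field_simp

section
variable {Ω : Type} [MeasurableSpace Ω] (m : Measure Ω) [IsFiniteMeasure m] {X : Ω → ℝ} {h : Ω → ℂ}

theorem meas_e (hX : Measurable X) (hh : Measurable h) (τ : ℝ) :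
    Measurable fun ω => h ω * exp (-(I * τ * X ω)) := by
  fun_prop

theorem norm_e (hb : ∀ ω, ‖h ω‖ ≤ 1) (τ : ℝ) (ω : Ω) : ‖h ω * exp (-(I * τ * X ω))‖ ≤ 1 := by
  rw [norm_mul]
  have : -(I * τ * X ω) = ((-(τ * X ω) : ℝ) : ℂ) * I := by push_cast; ring
  rw [this, norm_exp_ofReal_mul_I, mul_one]
  exact hb ω

theorem int_e (hX : Measurable X) (hh : Measurable h) (hb : ∀ ω, ‖h ω‖ ≤ 1) (τ : ℝ) :
    Integrable (fun ω => h ω * exp (-(I * τ * X ω))) m :=
  Integrable.of_bound (meas_e hX hh τ).aestronglyMeasurable 1 (Eventually.of_forall (norm_e hb τ))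

theorem mean_tendsto (hX : Measurable X) (hh : Measurable h) (hb : ∀ ω, ‖h ω‖ ≤ 1) (x : ℝ) :
    Tendsto (fun n : ℕ => ((1 / (2 * (n : ℝ)) : ℝ) : ℂ) *
      ∫ ξ in (-(n : ℝ))..n, (∫ ω, h ω * exp (-(I * ξ * X ω)) ∂m) * exp (I * ξ * x)) atTop
      (𝓝 (∫ ω in X ⁻¹' {x}, h ω ∂m)) := by
  have hswap : ∀ n : ℕ, ((1 / (2 * (n : ℝ)) : ℝ) : ℂ) *
      ∫ ξ in (-(n : ℝ))..n, (∫ ω, h ω * exp (-(I * ξ * X ω)) ∂m) * exp (I * ξ * x) =
      ∫ ω, h ω * (((1 / (2 * (n : ℝ)) : ℝ) : ℂ) * ∫ ξ in (-(n : ℝ))..n, exp (I * ξ * (x - X ω : ℝ))) ∂m := by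
    intro n
    have e1 : ∀ ξ : ℝ, (∫ ω, h ω * exp (-(I * ξ * X ω)) ∂m) * exp (I * ξ * x) =
        ∫ ω, h ω * exp (I * ξ * (x - X ω : ℝ)) ∂m := by
      intro ξ
      rw [← integral_mul_const]
      refine integral_congr_ae (Eventually.of_forall fun ω => ?_)
      show h ω * exp (-(I * ξ * X ω)) * exp (I * ξ * x) = h ω * exp (I * ξ * (x - X ω : ℝ))
      rw [mul_assoc, ← exp_add]
      congr 2
      push_cast
      ring
    simp_rw [e1]
    rw [intervalIntegral_integral_swap ?_]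
    · rw [← integral_const_mul]
      refine integral_congr_ae (Eventually.of_forall fun ω => ?_)
      show _ * (∫ ξ in (-(n : ℝ))..n, h ω * exp (I * ξ * (x - X ω : ℝ))) = _
      rw [intervalIntegral.integral_const_mul]
      ring
    · haveI : IsFiniteMeasure (volume.restrict (Set.uIoc (-(n : ℝ)) n)) :=
        ⟨by rw [Measure.restrict_apply_univ, Set.uIoc, Real.volume_Ioc]; exact ENNReal.ofReal_lt_top⟩
      refine Integrable.of_bound (C := 1) ?_ (Eventually.of_forall fun p => ?_)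
      · have : Measurable (Function.uncurry fun (ξ : ℝ) (ω : Ω) => h ω * exp (I * ξ * (x - X ω : ℝ))) := by
          simp only [Function.uncurry_def]
          fun_prop
        exact this.aestronglyMeasurable
      · simp only [Function.uncurry_def]
        rw [norm_mul]
        have : I * p.1 * ((x - X p.2 : ℝ) : ℂ) = ((p.1 * (x - X p.2) : ℝ) : ℂ) * I := by push_cast; ring
        rw [this, norm_exp_ofReal_mul_I, mul_one]
        exact hb _
  simp_rw [hswap]
  have hlim : ∫ ω in X ⁻¹' {x}, h ω ∂m = ∫ ω, h ω * (if x - X ω = 0 then 1 else 0) ∂m := by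
    rw [← integral_indicator (hX (measurableSet_singleton x))]
    refine integral_congr_ae (Eventually.of_forall fun ω => ?_)
    by_cases hw : X ω = x
    · simp [Set.indicator, hw]
    · have : ¬ (x - X ω = 0) := fun h => hw (by linarith)
      simp [Set.indicator, hw, this]
  rw [hlim]
  refine tendsto_integral_of_dominated_convergence (fun _ => 1) (fun n => ?_) (integrable_const 1)
    (fun n => Eventually.of_forall fun ω => ?_) (Eventually.of_forall fun ω => ?_)
  · refine (hh.mul (Measurable.const_mul ?_ _)).aestronglyMeasurable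
    have hc : Continuous fun u : ℝ => ∫ ξ in (-(n : ℝ))..n, exp (I * ξ * u) := by
      refine intervalIntegral.continuous_parametric_intervalIntegral_of_continuous' ?_ _ _
      simp only [Function.uncurry_def]
      fun_prop
    exact hc.measurable.comp (measurable_const.sub hX)
  · rw [norm_mul]
    exact mul_le_one₀ (hb ω) (norm_nonneg _) (char_mean_le _ n)
  · exact (char_mean (x - X ω)).const_mul (h ω)

/-- atoms -/
theorem At_countable (hX : Measurable X) : {x : ℝ | m (X ⁻¹' {x}) ≠ 0}.Countable := by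
  have := Measure.countable_meas_level_set_pos (μ := m) hX
  refine this.mono fun x hx => ?_
  exact pos_iff_ne_zero.2 hx

theorem D_eq : {ω | m (X ⁻¹' {X ω}) ≠ 0} = X ⁻¹' {x : ℝ | m (X ⁻¹' {x}) ≠ 0} := rfl

theorem D_meas (hX : Measurable X) : MeasurableSet {ω | m (X ⁻¹' {X ω}) ≠ 0} := by
  rw [D_eq]
  exact hX (At_countable m hX).measurableSet

theorem disc_eq (hX : Measurable X) (hh : Measurable h) (hb : ∀ ω, ‖h ω‖ ≤ 1) (τ : ℝ) :
    ∫ ω in {ω | m (X ⁻¹' {X ω}) ≠ 0}, h ω * exp (-(I * τ * X ω)) ∂m =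
      ∑' x : ℝ, (∫ ω in X ⁻¹' {x}, h ω ∂m) * exp (-(I * τ * x)) := by
  have hcount : Countable {x : ℝ | m (X ⁻¹' {x}) ≠ 0} := (At_countable m hX).to_subtype
  have h1 : {ω | m (X ⁻¹' {X ω}) ≠ 0} = ⋃ x : {x : ℝ | m (X ⁻¹' {x}) ≠ 0}, X ⁻¹' {x.1} := by
    ext ω
    simp
  rw [h1, integral_iUnion (s := fun x : {x : ℝ | m (X ⁻¹' {x}) ≠ 0} => X ⁻¹' {x.1})
    (fun x => hX (measurableSet_singleton x.1)) ?_ (int_e m hX hh hb τ).integrableOn]
  · rw [← tsum_subtype_eq_of_support_subset (s := {x : ℝ | m (X ⁻¹' {x}) ≠ 0}) (f := fun x : ℝ =>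
      (∫ ω in X ⁻¹' {x}, h ω ∂m) * exp (-(I * τ * x)))]
    · refine tsum_congr fun x => ?_
      rw [← integral_mul_const]
      refine setIntegral_congr_fun (hX (measurableSet_singleton x.1)) fun ω hω => ?_
      have : X ω = x.1 := hω
      simp only [this]
    · intro x hx
      by_contra hx0
      simp only [Set.mem_setOf_eq, not_not] at hx0
      apply hx
      show (∫ ω in X ⁻¹' {x}, h ω ∂m) * exp (-(I * τ * x)) = 0
      rw [setIntegral_measure_zero _ hx0, zero_mul]
  · intro x y hxy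
    refine Set.disjoint_left.2 fun ω h1 h2 => hxy (Subtype.ext ?_)
    have e1 : X ω = x.1 := h1
    have e2 : X ω = y.1 := h2
    rw [← e1, e2]

theorem summ (hX : Measurable X) (hh : Measurable h) (hb : ∀ ω, ‖h ω‖ ≤ 1) :
    Summable fun x : ℝ => ‖∫ ω in X ⁻¹' {x}, h ω ∂m‖ := by
  have h0 : ∀ x, ‖∫ ω in X ⁻¹' {x}, h ω ∂m‖ ≤ m.real (X ⁻¹' {x}) := by
    intro x
    have := norm_setIntegral_le_of_norm_le_const (μ := m) (s := X ⁻¹' {x}) (C := 1) (f := h)
      (measure_lt_top m _) (fun ω _ => hb ω)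
    rwa [one_mul] at this
  refine Summable.of_nonneg_of_le (fun _ => norm_nonneg _) h0 ?_
  refine summable_of_sum_le (c := m.real Set.univ) (fun _ => measureReal_nonneg) fun s => ?_
  rw [← measureReal_biUnion_finset ?_ (fun x _ => hX (measurableSet_singleton x))]
  · exact measureReal_mono (Set.subset_univ _)
  · intro x _ y _ hxy
    refine Set.disjoint_left.2 fun ω h1 h2 => hxy ?_
    have e1 : X ω = x := h1
    have e2 : X ω = y := h2
    rw [← e1, e2]

end

end Pool.Agent.H18.HD
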