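import Mathlib
import Pool.Agent.H18.HDR

set_option autoImplicit false
open MeasureTheory Complex Filter Topology

namespace Pool.Agent.H18.HD

theorem Rep.coef {e f : ℝ → ℂ} (H : Rep e f) : ∃ ν : ℝ → ℂ, Summable (fun x => ‖ν x‖) ∧
    (∀ τ : ℝ, f τ = ∑' x : ℝ, ν x * exp (-(I * τ * x))) ∧
    (∀ x : ℝ, Tendsto (fun n : ℕ => ((1 / (2 * (n : ℝ)) : ℝ) : ℂ) *
      ∫ ξ in (-(n : ℝ))..n, e ξ * exp (I * ξ * x)) atTop (𝓝 (ν x))) ∧
    Tendsto (fun n : ℕ => ((1 / (2 * (n : ℝ)) : ℝ) : ℂ) *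
      ∫ ξ in (-(n : ℝ))..n, f ξ) atTop (𝓝 (ν 0)) ∧
    Continuous f ∧ (∃ B : ℝ, ∀ τ, ‖f τ‖ ≤ B) := by
  obtain ⟨Ω, _, m, X, h, hm, hX, hh, hb, he, hf⟩ := H
  refine ⟨fun x => ∫ ω in X ⁻¹' {x}, h ω ∂m, summ m hX hh hb, fun τ => ?_, fun x => ?_, ?_, ?_, ?_⟩
  · rw [hf, disc_eq m hX hh hb]
  · refine (mean_tendsto m hX hh hb x).congr fun n => ?_
    congr 1
    refine intervalIntegral.integral_congr_ae ?_
    filter_upwards [he] with ξ hξ _
    rw [hξ]
  · have h1 := mean_tendsto (m.restrict {ω | m (X ⁻¹' {X ω}) ≠ 0}) hX hh hb 0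
    have h2 : ∫ ω in X ⁻¹' {0}, h ω ∂(m.restrict {ω | m (X ⁻¹' {X ω}) ≠ 0}) =
        ∫ ω in X ⁻¹' {0}, h ω ∂m := by
      rw [Measure.restrict_restrict (hX (measurableSet_singleton 0))]
      by_cases h0 : m (X ⁻¹' {0}) = 0
      · rw [setIntegral_measure_zero _ h0, setIntegral_measure_zero]
        exact measure_mono_null Set.inter_subset_left h0
      · congr 2
        refine Set.inter_eq_left.2 fun ω hω => ?_
        have : X ω = 0 := hω
        simp only [Set.mem_setOf_eq, this]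
        exact h0
    rw [h2] at h1
    refine h1.congr fun n => ?_
    congr 1
    refine intervalIntegral.integral_congr fun ξ _ => ?_
    simp only [ofReal_zero, mul_zero, exp_zero, mul_one]
    rw [hf]
  · have : f = fun τ : ℝ => ∫ ω in {ω | m (X ⁻¹' {X ω}) ≠ 0}, h ω * exp (-(I * τ * X ω)) ∂m :=
      funext hf
    rw [this]
    refine continuous_of_dominated (bound := fun _ => (1 : ℝ)) (fun τ => (meas_e hX hh τ).aestronglyMeasurable)
      (fun τ => Eventually.of_forall (norm_e hb τ)) (integrable_const _)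
      (Eventually.of_forall fun ω => ?_)
    fun_prop
  · refine ⟨m.real Set.univ, fun τ => ?_⟩
    rw [hf]
    refine (norm_integral_le_of_norm_le_const (Eventually.of_forall (norm_e hb τ))).trans ?_
    rw [one_mul]
    rw [measureReal_restrict_apply_univ]
    exact measureReal_mono (Set.subset_univ _)

theorem Rep.unique {e f e' f' : ℝ → ℂ} (H : Rep e f) (H' : Rep e' f') (he : ∀ᵐ ξ : ℝ, e ξ = e' ξ) :
    f = f' := by
  obtain ⟨ν, -, h1, h2, -⟩ := H.coef
  obtain ⟨ν', -, h1', h2', -⟩ := H'.coef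
  have : ν = ν' := by
    funext x
    refine tendsto_nhds_unique (h2 x) ((h2' x).congr fun n => ?_)
    congr 1
    refine intervalIntegral.integral_congr_ae ?_
    filter_upwards [he] with ξ hξ _
    rw [hξ]
  funext τ
  rw [h1, h1', this]

theorem Rep.one : Rep (fun _ => 1) (fun _ => 1) := by
  refine ⟨Unit, inferInstance, Measure.dirac (), fun _ => 0, fun _ => 1, inferInstance,
    measurable_const, measurable_const, fun _ => by simp, Eventually.of_forall fun ξ => ?_,
    fun τ => ?_⟩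
  · simp
  · have : {ω : Unit | (Measure.dirac ()) ((fun _ : Unit => (0 : ℝ)) ⁻¹' {(0 : ℝ)}) ≠ 0} = Set.univ := by
      ext ω
      simp
    simp only [this]
    simp

theorem Rep.reflect {e f : ℝ → ℂ} (H : Rep e f) : Rep (fun ξ => e (-ξ)) (fun τ => f (-τ)) := by
  obtain ⟨Ω, mΩ, m, X, h, hm, hX, hh, hb, he, hf⟩ := H
  refine ⟨Ω, mΩ, m, fun ω => - X ω, h, hm, hX.neg, hh, hb, ?_, fun τ => ?_⟩
  · have h1 := (Measure.measurePreserving_neg (volume : Measure ℝ)).quasiMeasurePreserving.ae he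
    filter_upwards [h1] with ξ hξ
    rw [hξ]
    refine integral_congr_ae (Eventually.of_forall fun ω => ?_)
    simp only
    congr 2
    push_cast
    ring
  · show f (-τ) = ∫ ω in {ω | m ((fun ω => -X ω) ⁻¹' {-X ω}) ≠ 0}, h ω *
      exp (-(I * τ * ((-X ω : ℝ) : ℂ))) ∂m
    rw [hf]
    have hs : {ω | m ((fun ω => -X ω) ⁻¹' {-X ω}) ≠ 0} = {ω | m (X ⁻¹' {X ω}) ≠ 0} := by
      ext ω
      have : (fun ω => -X ω) ⁻¹' {-X ω} = X ⁻¹' {X ω} := by
        ext ω'
        simp
      simp only [Set.mem_setOf_eq, this]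
    rw [hs]
    refine integral_congr_ae (Eventually.of_forall fun ω => ?_)
    simp only
    congr 2
    push_cast
    ring

theorem Rep.mul {e f e' f' : ℝ → ℂ} (H : Rep e f) (H' : Rep e' f') :
    Rep (fun ξ => e ξ * e' ξ) (fun τ => f τ * f' τ) := by
  obtain ⟨Ω, mΩ, m, X, h, hm, hX, hh, hb, he, hf⟩ := H
  obtain ⟨Ω', mΩ', m', X', h', hm', hX', hh', hb', he', hf'⟩ := H'
  have hX'' : Measurable fun p : Ω × Ω' => X p.1 + X' p.2 := by fun_prop
  refine ⟨Ω × Ω', inferInstance, m.prod m', fun p => X p.1 + X' p.2, fun p => h p.1 * h' p.2,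
    inferInstance, hX'', by fun_prop, fun p => ?_, ?_, fun τ => ?_⟩
  · rw [norm_mul]
    exact mul_le_one₀ (hb _) (norm_nonneg _) (hb' _)
  · filter_upwards [he, he'] with ξ h1 h2
    rw [h1, h2, ← integral_prod_mul]
    refine integral_congr_ae (Eventually.of_forall fun p => ?_)
    simp only
    have : -(I * ξ * ((X p.1 + X' p.2 : ℝ) : ℂ)) = -(I * ξ * X p.1) + -(I * ξ * X' p.2) := by
      push_cast; ring
    rw [this, exp_add]
    ring
  · show f τ * f' τ = ∫ p in {p : Ω × Ω' | (m.prod m') ((fun p : Ω × Ω' => X p.1 + X' p.2) ⁻¹'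
          {X p.1 + X' p.2}) ≠ 0}, h p.1 * h' p.2 *
      exp (-(I * τ * ((X p.1 + X' p.2 : ℝ) : ℂ))) ∂(m.prod m')
    rw [hf, hf', ← setIntegral_prod_mul]
    have hae : ({ω | m (X ⁻¹' {X ω}) ≠ 0} ×ˢ {ω | m' (X' ⁻¹' {X' ω}) ≠ 0} : Set (Ω × Ω'))
        =ᵐ[m.prod m'] {p : Ω × Ω' | (m.prod m') ((fun p : Ω × Ω' => X p.1 + X' p.2) ⁻¹'
          {X p.1 + X' p.2}) ≠ 0} := by
      refine (ae_le_set.2 ?_).antisymm (ae_le_set.2 ?_)
      · convert measure_empty (μ := m.prod m')
        refine Set.diff_eq_empty.2 fun p hp => ?_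
        have hp1 : m (X ⁻¹' {X p.1}) ≠ 0 := hp.1
        have hp2 : m' (X' ⁻¹' {X' p.2}) ≠ 0 := hp.2
        show (m.prod m') _ ≠ 0
        intro h0
        have : (m.prod m') ((X ⁻¹' {X p.1}) ×ˢ (X' ⁻¹' {X' p.2})) = 0 := by
          refine measure_mono_null (fun q hq => ?_) h0
          have q1 : X q.1 = X p.1 := hq.1
          have q2 : X' q.2 = X' p.2 := hq.2
          show X q.1 + X' q.2 = X p.1 + X' p.2
          rw [q1, q2]
        rw [Measure.prod_prod] at this
        exact mul_ne_zero hp1 hp2 this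
      · have hc := At_countable (m.prod m') hX''
        have hN1 : ∀ x : ℝ, (m.prod m') {p : Ω × Ω' | X p.1 + X' p.2 = x ∧
            p.2 ∉ {ω | m' (X' ⁻¹' {X' ω}) ≠ 0}} = 0 := by
          intro x
          have hms : MeasurableSet {p : Ω × Ω' | X p.1 + X' p.2 = x ∧
            p.2 ∉ {ω | m' (X' ⁻¹' {X' ω}) ≠ 0}} :=
            (measurableSet_eq_fun hX'' measurable_const).inter
              (measurable_snd (D_meas m' hX').compl)
          rw [Measure.measure_prod_null hms]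
          refine Eventually.of_forall fun ω => ?_
          by_contra hne
          have hne' : m' (Prod.mk ω ⁻¹' {p : Ω × Ω' | X p.1 + X' p.2 = x ∧
            p.2 ∉ {ω | m' (X' ⁻¹' {X' ω}) ≠ 0}}) ≠ 0 := hne
          obtain ⟨ω', hω'⟩ := nonempty_of_measure_ne_zero hne'
          have h2 : ¬ (m' (X' ⁻¹' {X' ω'}) ≠ 0) := hω'.2
          apply hne'
          refine measure_mono_null (fun w hw => ?_) (not_not.1 h2)
          have w1 : X ω + X' w = x := hw.1
          have w2 : X ω + X' ω' = x := hω'.1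
          show X' w = X' ω'
          linarith
        have hN2 : ∀ x : ℝ, (m.prod m') {p : Ω × Ω' | X p.1 + X' p.2 = x ∧
            p.1 ∉ {ω | m (X ⁻¹' {X ω}) ≠ 0}} = 0 := by
          intro x
          have hms : MeasurableSet {p : Ω × Ω' | X p.1 + X' p.2 = x ∧
            p.1 ∉ {ω | m (X ⁻¹' {X ω}) ≠ 0}} :=
            (measurableSet_eq_fun hX'' measurable_const).inter
              (measurable_fst (D_meas m hX).compl)
          rw [Measure.prod_apply_symm hms]
          rw [lintegral_eq_zero_iff' (measurable_measure_prodMk_right hms).aemeasurable]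
          refine Eventually.of_forall fun ω => ?_
          by_contra hne
          have hne' : m ((fun x => (x, ω)) ⁻¹' {p : Ω × Ω' | X p.1 + X' p.2 = x ∧
            p.1 ∉ {ω | m (X ⁻¹' {X ω}) ≠ 0}}) ≠ 0 := hne
          obtain ⟨ω', hω'⟩ := nonempty_of_measure_ne_zero hne'
          have h2 : ¬ (m (X ⁻¹' {X ω'}) ≠ 0) := hω'.2
          apply hne'
          refine measure_mono_null (fun w hw => ?_) (not_not.1 h2)
          have w1 : X w + X' ω = x := hw.1
          have w2 : X ω' + X' ω = x := hω'.1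
          show X w = X ω'
          linarith
        refine measure_mono_null (t := ⋃ x ∈ {x : ℝ | (m.prod m') ((fun p : Ω × Ω' => X p.1 + X' p.2) ⁻¹' {x}) ≠ 0},
          ({p : Ω × Ω' | X p.1 + X' p.2 = x ∧ p.2 ∉ {ω | m' (X' ⁻¹' {X' ω}) ≠ 0}} ∪
          {p : Ω × Ω' | X p.1 + X' p.2 = x ∧ p.1 ∉ {ω | m (X ⁻¹' {X ω}) ≠ 0}})) ?_ ?_
        · rintro p ⟨hp1, hp2⟩
          refine Set.mem_biUnion (x := X p.1 + X' p.2) hp1 ?_
          by_cases hq : p.1 ∈ {ω | m (X ⁻¹' {X ω}) ≠ 0}
          · left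
            exact ⟨rfl, fun h => hp2 ⟨hq, h⟩⟩
          · right
            exact ⟨rfl, hq⟩
        · rw [measure_biUnion_null_iff hc]
          intro x _
          exact measure_union_null (hN1 x) (hN2 x)
    rw [← setIntegral_congr_set hae]
    refine integral_congr_ae (Eventually.of_forall fun p => ?_)
    simp only
    have : -(I * τ * ((X p.1 + X' p.2 : ℝ) : ℂ)) = -(I * τ * X p.1) + -(I * τ * X' p.2) := by
      push_cast; ring
    rw [this, exp_add]
    ring

theorem Rep.pow {e f : ℝ → ℂ} (H : Rep e f) (n : ℕ) :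
    Rep (fun ξ => e ξ ^ n) (fun τ => f τ ^ n) := by
  induction n with
  | zero => simpa using Rep.one
  | succ n ih =>
    have := ih.mul H
    simpa [pow_succ] using this

end Pool.Agent.H18.HD
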