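import Mathlib

set_option autoImplicit false
open MeasureTheory Complex Filter Topology

namespace Pool.Agent.H18.HD

section ft

open scoped FourierTransform ContDiff Convolution

/-- Fourier transform without the factor `2π` -/
noncomputable def ftS (f : ℝ → ℂ) (ξ : ℝ) : ℂ := ∫ s, f s * exp (-(I * ξ * s))

lemma norm_chrS (ξ s : ℝ) : ‖exp (-(I * ξ * s))‖ = 1 := by
  rw [show -(I * (ξ : ℂ) * s) = ((-(ξ * s) : ℝ) : ℂ) * I by push_cast; ring]
  exact Complex.norm_exp_ofReal_mul_I _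

lemma integrable_mul_chrS {f : ℝ → ℂ} (hf : Integrable f) (ξ : ℝ) :
    Integrable (fun s => f s * exp (-(I * ξ * s))) := by
  refine hf.mono (hf.aestronglyMeasurable.mul ?_) ?_
  · exact (by fun_prop : Continuous fun s : ℝ => exp (-(I * ξ * s))).aestronglyMeasurable
  · refine ae_of_all _ fun s => ?_
    rw [norm_mul, norm_chrS, mul_one]

lemma norm_ftS_le (f : ℝ → ℂ) (ξ : ℝ) : ‖ftS f ξ‖ ≤ ∫ s, ‖f s‖ := by
  unfold ftS
  refine (norm_integral_le_integral_norm _).trans (le_of_eq ?_)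
  congr 1
  ext s
  rw [norm_mul, norm_chrS, mul_one]

lemma ftS_eq (f : ℝ → ℂ) (ξ : ℝ) : ftS f ξ = 𝓕 f (ξ / (2 * Real.pi)) := by
  rw [Real.fourier_real_eq_integral_exp_smul]
  unfold ftS
  congr 1
  ext s
  rw [smul_eq_mul, mul_comm]
  congr 2
  have : (Real.pi : ℂ) ≠ 0 := by exact_mod_cast Real.pi_ne_zero
  push_cast
  field_simp

lemma continuous_ftS {f : ℝ → ℂ} (hf : Integrable f) : Continuous (ftS f) := by
  unfold ftS
  refine continuous_of_dominated (bound := fun s => ‖f s‖) ?_ ?_ hf.norm ?_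
  · intro ξ
    exact (integrable_mul_chrS hf ξ).aestronglyMeasurable
  · intro ξ
    refine ae_of_all _ fun s => ?_
    rw [norm_mul, norm_chrS, mul_one]
  · refine ae_of_all _ fun s => ?_
    fun_prop

lemma ftS_zero_at_infty (f : ℝ → ℂ) (ε : ℝ) (hε : 0 < ε) :
    ∃ R : ℝ, ∀ ξ : ℝ, R ≤ |ξ| → ‖ftS f ξ‖ < ε := by
  have h := Real.zero_at_infty_fourier f
  have h2 : ∀ᶠ w : ℝ in cocompact ℝ, ‖𝓕 f w‖ < ε := by
    have := (tendsto_zero_iff_norm_tendsto_zero.1 h).eventually (gt_mem_nhds hε)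
    exact this
  rw [Filter.eventually_iff, Metric.cobounded_eq_cocompact.symm] at h2
  obtain ⟨r, hr⟩ := (Metric.hasBasis_cobounded_compl_closedBall (0 : ℝ)).mem_iff.1 h2
  refine ⟨2 * Real.pi * (|r| + 1), fun ξ hξ => ?_⟩
  rw [ftS_eq]
  apply hr.2
  rw [Set.mem_compl_iff, Metric.mem_closedBall, dist_zero_right, Real.norm_eq_abs, abs_div,
    abs_of_pos (by positivity : (0 : ℝ) < 2 * Real.pi), not_le, lt_div_iff₀ (by positivity)]
  have := le_abs_self r
  have hpi := Real.pi_pos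
  nlinarith

lemma ftS_injective {f : ℝ → ℂ} (hf : Integrable f) (h : ∀ ξ, ftS f ξ = 0) : f =ᵐ[volume] 0 := by
  have hF : ∀ w, 𝓕 f w = 0 := by
    intro w
    have := h (2 * Real.pi * w)
    rw [ftS_eq] at this
    rwa [show 2 * Real.pi * w / (2 * Real.pi) = w by field_simp] at this
  apply ae_eq_zero_of_integral_contDiff_smul_eq_zero hf.locallyIntegrable
  intro g g_smooth g_cpt
  have hg₁ : HasCompactSupport (Complex.ofRealCLM ∘ g) := g_cpt.comp_left rfl
  have hg₂ : ContDiff ℝ ∞ (Complex.ofRealCLM ∘ g) := by fun_prop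
  set G : SchwartzMap ℝ ℂ := hg₁.toSchwartzMap hg₂ with hG
  set φ : SchwartzMap ℝ ℂ := 𝓕⁻ G with hφ
  have hφG : 𝓕 φ = G := by rw [hφ]; simp
  have h1 := VectorFourier.integral_fourierIntegral_smul_eq_flip (e := Real.fourierChar)
    (μ := volume) (ν := volume) (L := innerₗ ℝ) (f := f) (g := (φ : ℝ → ℂ))
    Real.continuous_fourierChar (by exact continuous_inner) hf φ.integrable
  have h2 : ∀ ξ : ℝ, VectorFourier.fourierIntegral Real.fourierChar volume (innerₗ ℝ) f ξ = 0 := by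
    intro ξ
    exact hF ξ
  have h3 : ∀ x : ℝ, VectorFourier.fourierIntegral Real.fourierChar volume (innerₗ ℝ).flip
      (φ : ℝ → ℂ) x = (g x : ℂ) := by
    intro x
    have h4 : (innerₗ ℝ : ℝ →ₗ[ℝ] ℝ →ₗ[ℝ] ℝ).flip = innerₗ ℝ := by
      ext; simp
    rw [h4]
    have h5 : (𝓕 φ : SchwartzMap ℝ ℂ) x = G x := by rw [hφG]
    rw [SchwartzMap.fourier_coe] at h5
    exact h5
  simp only [h2, h3, zero_smul, integral_zero] at h1
  rw [h1]
  congr 1
  ext x
  simp [mul_comm]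

/-- the continuous linear functional -/
noncomputable def PhiS (ξ : ℝ) : Lp ℂ 1 (volume : Measure ℝ) →L[ℂ] ℂ :=
  LinearMap.mkContinuous
    { toFun := fun f => ftS f ξ
      map_add' := by
        intro f g
        unfold ftS
        rw [← integral_add (integrable_mul_chrS (L1.integrable_coeFn f) ξ)
          (integrable_mul_chrS (L1.integrable_coeFn g) ξ)]
        apply integral_congr_ae
        filter_upwards [Lp.coeFn_add f g] with x hx
        rw [hx, Pi.add_apply, add_mul]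
      map_smul' := by
        intro c f
        unfold ftS
        rw [RingHom.id_apply, smul_eq_mul, ← integral_const_mul]
        apply integral_congr_ae
        filter_upwards [Lp.coeFn_smul c f] with x hx
        rw [hx, Pi.smul_apply, smul_eq_mul, mul_assoc] } 1 (by
      intro f
      rw [one_mul, L1.norm_eq_integral_norm]
      exact norm_ftS_le f ξ)

lemma PhiS_apply (ξ : ℝ) (f : Lp ℂ 1 (volume : Measure ℝ)) : PhiS ξ f = ftS f ξ := rfl

lemma ftS_conv {f g h : ℝ → ℂ} (hf : Integrable f) (hg : Integrable g)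
    (hh : h =ᵐ[volume] fun x => ∫ y, f (x - y) * g y) (ξ : ℝ) :
    ftS h ξ = ftS f ξ * ftS g ξ := by
  have h1 := integral_convolution (L := ContinuousLinearMap.mul ℂ ℂ) (μ := volume) (ν := volume)
    (integrable_mul_chrS hg ξ) (integrable_mul_chrS hf ξ)
  have h2 : ftS h ξ = ∫ x, ((fun s => g s * exp (-(I * ξ * s))) ⋆[ContinuousLinearMap.mul ℂ ℂ, volume]
      (fun s => f s * exp (-(I * ξ * s)))) x := by
    unfold ftS
    apply integral_congr_ae
    filter_upwards [hh] with x hx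
    rw [hx, MeasureTheory.convolution_def, ← integral_mul_const]
    congr 1
    ext y
    rw [ContinuousLinearMap.mul_apply']
    have : exp (-(I * ξ * x)) = exp (-(I * ξ * y)) * exp (-(I * ξ * ((x - y : ℝ) : ℂ))) := by
      rw [← Complex.exp_add]
      congr 1
      push_cast
      ring
    rw [this]
    ring
  rw [h2, h1, ContinuousLinearMap.mul_apply', mul_comm]
  rfl

end ft

theorem exists_psi (a : ℂ → Lp ℂ 1 (volume : Measure ℝ)) (hd : DifferentiableOn ℂ a {t | 0 < t.re})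
    (hm : ∀ s t : ℂ, 0 < s.re → 0 < t.re →
      (a (s + t) : ℝ → ℂ) =ᵐ[volume] fun x => ∫ y, a s (x - y) * a t y)
    (hne : ∃ t : ℂ, 0 < t.re ∧ a t ≠ 0) (C : ℝ) (hC : ∀ t : ℂ, 0 < t.re → ‖t‖ ≤ 1 → ‖a t‖ ≤ C) :
    ∃ (U : Set ℝ) (ψ : ℝ → ℂ) (L : ℝ), IsOpen U ∧ U.Nonempty ∧ Measurable ψ ∧
      (∀ ξ ∈ U, ∀ t : ℂ, 0 < t.re → ∫ s, a t s * exp (-(I * ξ * s)) = exp (-(t * ψ ξ))) ∧
      (∀ ξ ∉ U, ∀ t : ℂ, 0 < t.re → ∫ s, a t s * exp (-(I * ξ * s)) = 0) ∧
      (∀ ξ ∈ U, |(ψ ξ).im| ≤ L) ∧ (∀ B : ℝ, ∃ R : ℝ, ∀ ξ ∈ U, R ≤ |ξ| → B ≤ (ψ ξ).re) := by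
  -- the scalar semigroups
  have hmul : ∀ ξ : ℝ, ∀ s t : ℂ, 0 < s.re → 0 < t.re →
      PhiS ξ (a (s + t)) = PhiS ξ (a s) * PhiS ξ (a t) := by
    intro ξ s t hs ht
    rw [PhiS_apply, PhiS_apply, PhiS_apply]
    exact ftS_conv (L1.integrable_coeFn _) (L1.integrable_coeFn _) (hm s t hs ht) ξ
  have hopen : IsOpen {t : ℂ | 0 < t.re} := isOpen_lt continuous_const Complex.continuous_re
  have hda : ∀ t : ℂ, 0 < t.re → HasDerivAt a (deriv a t) t := by
    intro t ht
    exact ((hd t ht).differentiableAt (hopen.mem_nhds ht)).hasDerivAt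
  have hder : ∀ ξ : ℝ, ∀ t : ℂ, 0 < t.re →
      HasDerivAt (fun t => PhiS ξ (a t)) (PhiS ξ (deriv a t)) t := by
    intro ξ t ht
    exact (PhiS ξ).hasFDerivAt.comp_hasDerivAt t (hda t ht)
  -- powers
  have hpow : ∀ ξ : ℝ, ∀ t : ℂ, 0 < t.re → ∀ n : ℕ,
      PhiS ξ (a ((n + 1 : ℕ) * t)) = PhiS ξ (a t) ^ (n + 1) := by
    intro ξ t ht n
    induction n with
    | zero => simp
    | succ n ih =>
      have h1 : ((n + 1 + 1 : ℕ) : ℂ) * t = ((n + 1 : ℕ) : ℂ) * t + t := by push_cast; ring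
      have h2 : 0 < (((n + 1 : ℕ) : ℂ) * t).re := by
        have h3 : (((n + 1 : ℕ) : ℂ) * t).re = ((n + 1 : ℕ) : ℝ) * t.re := by
          rw [Complex.mul_re, Complex.natCast_re, Complex.natCast_im]; ring
        rw [h3]
        positivity
      rw [h1, hmul ξ _ _ h2 ht, ih, ← pow_succ]
  -- vanishing
  have hvan : ∀ ξ : ℝ, ∀ t0 : ℂ, 0 < t0.re → PhiS ξ (a t0) = 0 → ∀ t : ℂ, 0 < t.re →
      PhiS ξ (a t) = 0 := by
    intro ξ t0 ht0 h0 t ht
    obtain ⟨n, hn⟩ := exists_nat_gt (t0.re / t.re)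
    set u : ℂ := t0 / ((n + 1 : ℕ) : ℂ) with hu
    have hn1 : ((n + 1 : ℕ) : ℂ) ≠ 0 := by exact_mod_cast Nat.succ_ne_zero n
    have hure : u.re = t0.re / ((n + 1 : ℕ) : ℝ) := by
      rw [hu, Complex.div_natCast_re]
    have hu0 : 0 < u.re := by rw [hure]; positivity
    have hul : u.re < t.re := by
      rw [hure, div_lt_iff₀ (by positivity)]
      rw [div_lt_iff₀ ht] at hn
      push_cast
      nlinarith
    have h1 : PhiS ξ (a u) = 0 := by
      have h2 := hpow ξ u hu0 n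
      rw [show ((n + 1 : ℕ) : ℂ) * u = t0 by rw [hu]; field_simp, h0] at h2
      exact pow_eq_zero_iff (Nat.succ_ne_zero n) |>.1 h2.symm
    have h3 := hmul ξ (t - u) u (by simp only [Complex.sub_re]; linarith) hu0
    rw [sub_add_cancel, h1, mul_zero] at h3
    exact h3
  have h1re : (0 : ℝ) < (1 : ℂ).re := by simp
  set U : Set ℝ := {ξ | PhiS ξ (a 1) ≠ 0} with hU
  set ψ : ℝ → ℂ := fun ξ => -(PhiS ξ (deriv a 1)) / PhiS ξ (a 1) with hψ
  have hc1 : Continuous fun ξ => PhiS ξ (a 1) := continuous_ftS (L1.integrable_coeFn _)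
  have hc2 : Continuous fun ξ => PhiS ξ (deriv a 1) := continuous_ftS (L1.integrable_coeFn _)
  have hUopen : IsOpen U := isOpen_ne_fun hc1 continuous_const
  have hnz : ∀ ξ ∈ U, ∀ t : ℂ, 0 < t.re → PhiS ξ (a t) ≠ 0 := by
    intro ξ hξ t ht h0
    exact hξ (hvan ξ t ht h0 1 h1re)
  have hz : ∀ ξ ∉ U, ∀ t : ℂ, 0 < t.re → PhiS ξ (a t) = 0 := by
    intro ξ hξ t ht
    have : PhiS ξ (a 1) = 0 := by
      by_contra h
      exact hξ h
    exact hvan ξ 1 h1re this t ht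
  have hUne : U.Nonempty := by
    by_contra hemp
    rw [Set.not_nonempty_iff_eq_empty] at hemp
    obtain ⟨t, ht, hat⟩ := hne
    apply hat
    rw [Lp.eq_zero_iff_ae_eq_zero]
    apply ftS_injective (L1.integrable_coeFn _)
    intro ξ
    exact hz ξ (by rw [hemp]; simp) t ht
  -- differential equation
  have hode : ∀ ξ ∈ U, ∀ t : ℂ, 0 < t.re →
      PhiS ξ (deriv a t) = -(ψ ξ) * PhiS ξ (a t) := by
    intro ξ hξ t ht
    -- derivative of s -> g (s + t) at 1 and t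
    have e1 : PhiS ξ (deriv a (1 + t)) = PhiS ξ (deriv a 1) * PhiS ξ (a t) := by
      have h1 : HasDerivAt (fun s => PhiS ξ (a (s + t))) (PhiS ξ (deriv a (1 + t))) 1 := by
        have := (hder ξ (1 + t) (by simp only [Complex.add_re]; linarith))
        exact HasDerivAt.comp_add_const 1 t this
      have h2 : HasDerivAt (fun s => PhiS ξ (a s) * PhiS ξ (a t))
          (PhiS ξ (deriv a 1) * PhiS ξ (a t)) 1 := (hder ξ 1 h1re).mul_const _
      have h3 : (fun s => PhiS ξ (a (s + t))) =ᶠ[𝓝 1] fun s => PhiS ξ (a s) * PhiS ξ (a t) := by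
        filter_upwards [hopen.mem_nhds h1re] with s hs
        exact hmul ξ s t hs ht
      exact h1.unique (h2.congr_of_eventuallyEq h3)
    have e2 : PhiS ξ (deriv a (1 + t)) = PhiS ξ (a 1) * PhiS ξ (deriv a t) := by
      have h1 : HasDerivAt (fun s => PhiS ξ (a (1 + s))) (PhiS ξ (deriv a (1 + t))) t := by
        have := (hder ξ (1 + t) (by simp only [Complex.add_re]; linarith))
        exact HasDerivAt.comp_const_add 1 t this
      have h2 : HasDerivAt (fun s => PhiS ξ (a 1) * PhiS ξ (a s))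
          (PhiS ξ (a 1) * PhiS ξ (deriv a t)) t := (hder ξ t ht).const_mul _
      have h3 : (fun s => PhiS ξ (a (1 + s))) =ᶠ[𝓝 t] fun s => PhiS ξ (a 1) * PhiS ξ (a s) := by
        filter_upwards [hopen.mem_nhds ht] with s hs
        exact hmul ξ 1 s h1re hs
      exact h1.unique (h2.congr_of_eventuallyEq h3)
    have hne1 : PhiS ξ (a 1) ≠ 0 := hξ
    rw [hψ]
    simp only
    field_simp
    rw [mul_comm, ← e2, e1]
  -- the exponential
  have hconst : ∀ ξ ∈ U, ∀ t : ℂ, 0 < t.re →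
      PhiS ξ (a t) * exp (t * ψ ξ) = PhiS ξ (a 1) * exp (1 * ψ ξ) := by
    intro ξ hξ t ht
    have hconv : Convex ℝ {t : ℂ | 0 < t.re} := convex_halfSpace_re_gt 0
    have hder0 : ∀ t ∈ {t : ℂ | 0 < t.re},
        HasDerivWithinAt (fun t => PhiS ξ (a t) * exp (t * ψ ξ)) 0 {t : ℂ | 0 < t.re} t := by
      intro t ht
      have h1 := (hder ξ t ht).mul (((hasDerivAt_id t).mul_const (ψ ξ)).cexp)
      simp only [id] at h1
      have h2 : PhiS ξ (deriv a t) * exp (t * ψ ξ) + PhiS ξ (a t) * (exp (t * ψ ξ) * (1 * ψ ξ)) = 0 := by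
        rw [hode ξ hξ t ht]; ring
      rw [h2] at h1
      exact h1.hasDerivWithinAt
    have h := hconv.norm_image_sub_le_of_norm_hasDerivWithin_le (C := 0) hder0 (by simp)
      (show (1 : ℂ) ∈ {t : ℂ | 0 < t.re} from h1re) ht
    rw [zero_mul] at h
    exact sub_eq_zero.1 (norm_le_zero_iff.1 h)
  have hexp : ∀ ξ ∈ U, ∀ t : ℂ, 0 < t.re → PhiS ξ (a t) = exp (-(t * ψ ξ)) := by
    intro ξ hξ t ht
    set c : ℂ := PhiS ξ (a 1) * exp (1 * ψ ξ) with hc
    have hform : ∀ t : ℂ, 0 < t.re → PhiS ξ (a t) = c * exp (-(t * ψ ξ)) := by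
      intro t ht
      rw [hc, ← hconst ξ hξ t ht, mul_assoc, ← Complex.exp_add]
      simp
    have hc0 : c ≠ 0 := mul_ne_zero hξ (Complex.exp_ne_zero _)
    have h2 := hmul ξ 1 1 h1re h1re
    rw [hform _ (by simp), hform 1 h1re] at h2
    have h3 : exp (-((1 + 1) * ψ ξ)) = exp (-(1 * ψ ξ)) * exp (-(1 * ψ ξ)) := by
      rw [← Complex.exp_add]; congr 1; ring
    rw [h3] at h2
    have h4 : exp (-(1 * ψ ξ)) ≠ 0 := Complex.exp_ne_zero _
    have h5 : c = 1 := by
      have h6 : c * (exp (-(1 * ψ ξ)) * exp (-(1 * ψ ξ))) =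
          (c * c) * (exp (-(1 * ψ ξ)) * exp (-(1 * ψ ξ))) := by rw [h2]; ring
      have h7 := mul_right_cancel₀ (mul_ne_zero h4 h4) h6
      have h8 : c * 1 = c * c := by rw [mul_one]; exact h7
      exact (mul_left_cancel₀ hc0 h8).symm
    rw [hform t ht, h5, one_mul]
  have hbound : ∀ ξ : ℝ, ∀ t : ℂ, 0 < t.re → ‖t‖ ≤ 1 → ‖PhiS ξ (a t)‖ ≤ C := by
    intro ξ t ht ht1
    refine le_trans ?_ (hC t ht ht1)
    rw [PhiS_apply, L1.norm_eq_integral_norm]
    exact norm_ftS_le _ ξ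
  refine ⟨U, ψ, 2 * Real.log C, hUopen, hUne, ?_, ?_, ?_, ?_, ?_⟩
  · exact (hc2.measurable.neg).div hc1.measurable
  · intro ξ hξ t ht
    exact hexp ξ hξ t ht
  · intro ξ hξ t ht
    exact hz ξ hξ t ht
  · intro ξ hξ
    -- the bound on the imaginary part
    have key : ∀ y : ℝ, |y| ≤ 1 / 2 → y * (ψ ξ).im ≤ Real.log C := by
      intro y hy
      have h1 : ∀ ε : ℝ, 0 < ε → ε ≤ 1 / 2 → -(ε * (ψ ξ).re) + y * (ψ ξ).im ≤ Real.log C := by
        intro ε hε hε2
        have h2 := hbound ξ (⟨ε, y⟩ : ℂ) hε (by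
          refine (Complex.norm_le_abs_re_add_abs_im _).trans ?_
          simp only
          rw [abs_of_pos hε]
          linarith)
        rw [hexp ξ hξ _ hε, Complex.norm_exp] at h2
        have h3 : (-((⟨ε, y⟩ : ℂ) * ψ ξ)).re = -(ε * (ψ ξ).re) + y * (ψ ξ).im := by
          simp [Complex.mul_re]
          ring
        rw [h3] at h2
        have h4 := Real.log_le_log (Real.exp_pos _) h2
        rwa [Real.log_exp] at h4
      have h5 : Tendsto (fun ε : ℝ => -(ε * (ψ ξ).re) + y * (ψ ξ).im) (𝓝[>] 0)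
          (𝓝 (-(0 * (ψ ξ).re) + y * (ψ ξ).im)) := by
        apply tendsto_nhdsWithin_of_tendsto_nhds
        apply Continuous.tendsto
        fun_prop
      have h6 := le_of_tendsto h5 (b := Real.log C) (by
        filter_upwards [Ioo_mem_nhdsGT (by norm_num : (0 : ℝ) < 1 / 2)] with ε hε
        exact h1 ε hε.1 hε.2.le)
      simpa using h6
    have k1 := key (1 / 2) (by rw [abs_of_pos] <;> norm_num)
    have k2 := key (-(1 / 2)) (by rw [abs_neg, abs_of_pos] <;> norm_num)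
    rw [abs_le]
    constructor <;> linarith
  · intro B
    obtain ⟨R, hR⟩ := ftS_zero_at_infty (a 1) (Real.exp (-B)) (Real.exp_pos _)
    refine ⟨R, fun ξ hξ hRξ => ?_⟩
    have h1 := hR ξ hRξ
    rw [← PhiS_apply, hexp ξ hξ 1 h1re, Complex.norm_exp] at h1
    have h2 := Real.exp_lt_exp.1 h1
    simp at h2
    linarith

end Pool.Agent.H18.HD
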