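import Mathlib
import Pool.Agent.H18.HDR2
import Pool.Agent.H18.HDM
import Pool.Agent.H18.HDC
import Pool.Agent.H18.HDS
import Pool.Agent.H18.HDP

set_option autoImplicit false
open MeasureTheory Complex Filter Topology

namespace Pool.Agent.H18.HD

theorem scale_ae {P : ℝ → Prop} (h : ∀ᵐ y : ℝ, P y) (a : ℝ) (ha : a ≠ 0) : ∀ᵐ y : ℝ, P (a * y) := by
  have hq : Measure.QuasiMeasurePreserving (fun y : ℝ => a * y) volume volume := by
    refine ⟨measurable_const.mul measurable_id, ?_⟩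
    rw [Real.map_volume_mul_left ha]
    exact Measure.smul_absolutelyContinuous
  exact hq.ae h

theorem core (U : Set ℝ) [DecidablePred (· ∈ U)] (ψ : ℝ → ℂ) (L : ℝ) (hU : IsOpen U)
    (hne : U.Nonempty) (hψ : Measurable ψ) (hL : ∀ ξ ∈ U, |(ψ ξ).im| ≤ L)
    (hB : ∀ B : ℝ, ∃ R : ℝ, ∀ ξ ∈ U, R ≤ |ξ| → B ≤ (ψ ξ).re)
    (hrep : ∀ y : ℝ, |y| < 1 → ∃ (Ω : Type) (_ : MeasurableSpace Ω) (m : Measure Ω) (X : Ω → ℝ)
      (h : Ω → ℂ), IsFiniteMeasure m ∧ Measurable X ∧ Measurable h ∧ (∀ ω, ‖h ω‖ ≤ 1) ∧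
      (∀ᵐ ξ : ℝ, (if ξ ∈ U then exp (-(I * y * ψ ξ)) else 0) =
        ∫ ω, h ω * exp (-(I * ξ * X ω)) ∂m)) : False := by
  classical
  have hL0 : 0 ≤ L := by
    obtain ⟨ξ, hξ⟩ := hne
    exact (abs_nonneg _).trans (hL ξ hξ)
  -- U is conull
  have hcon : ∀ᵐ ξ : ℝ, ξ ∈ U := by
    obtain ⟨Ω, _, m, X, h, hm, hX, hh, hb, he⟩ := hrep 0 (by simp)
    have hG : Continuous fun ξ : ℝ => ∫ ω, h ω * exp (-(I * ξ * X ω)) ∂m := by
      refine continuous_of_dominated (bound := fun _ => (1 : ℝ))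
        (fun τ => (meas_e hX hh τ).aestronglyMeasurable)
        (fun τ => Eventually.of_forall (norm_e hb τ)) (integrable_const _)
        (Eventually.of_forall fun ω => ?_)
      fun_prop
    refine conull U hU hne _ hG ?_
    filter_upwards [he] with ξ hξ
    rw [← hξ]
    simp
  set V : Set ℝ := {ξ | ξ ∈ U ∧ -ξ ∈ U} with hV
  have hVm : MeasurableSet V := hU.measurableSet.inter (measurable_neg hU.measurableSet)
  have hVcon : ∀ᵐ ξ : ℝ, ξ ∈ V := by
    have h1 := (Measure.measurePreserving_neg (volume : Measure ℝ)).quasiMeasurePreserving.ae hcon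
    filter_upwards [hcon, h1] with ξ a b
    exact ⟨a, b⟩
  set Ψ : ℝ → ℂ := fun ξ => ψ ξ + ψ (-ξ) with hΨ
  have hΨm : Measurable Ψ := hψ.add (hψ.comp measurable_neg)
  have hΨL : ∀ ξ ∈ V, |(Ψ ξ).im| ≤ 2 * L := by
    intro ξ hξ
    have h1 := abs_le.1 (hL ξ hξ.1)
    have h2 := abs_le.1 (hL (-ξ) hξ.2)
    simp only [hΨ, add_im]
    rw [abs_le]
    constructor <;> linarith
  have hΨB : ∀ B : ℝ, ∃ R : ℝ, ∀ ξ ∈ V, R ≤ |ξ| → B ≤ (Ψ ξ).re := by
    intro B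
    obtain ⟨R, hR⟩ := hB (B / 2)
    refine ⟨R, fun ξ hξ hR' => ?_⟩
    have h1 := hR ξ hξ.1 hR'
    have h2 := hR (-ξ) hξ.2 (by rwa [abs_neg])
    simp only [hΨ, add_re]
    linarith
  -- representations
  have hE : ∀ y : ℝ, |y| < 1 → ∃ g : ℝ → ℂ, Rep (fun ξ => if ξ ∈ V then exp (-(I * y * Ψ ξ)) else 0) g ∧
      ∀ τ, g (-τ) = g τ := by
    intro y hy
    obtain ⟨Ω, iΩ, m, X, h, hm, hX, hh, hb, he⟩ := hrep y hy
    obtain ⟨f0, h1⟩ : ∃ f0, Rep (fun ξ => if ξ ∈ U then exp (-(I * y * ψ ξ)) else 0) f0 :=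
      ⟨(fun τ => ∫ ω in {ω | m (X ⁻¹' {X ω}) ≠ 0}, h ω * exp (-(I * τ * X ω)) ∂m),
        Ω, iΩ, m, X, h, hm, hX, hh, hb, he, fun _ => rfl⟩
    refine ⟨fun τ => f0 τ * f0 (-τ), ?_, ?_⟩
    · convert h1.mul h1.reflect using 1
      funext ξ
      by_cases a : ξ ∈ U <;> by_cases b : -ξ ∈ U
      · have : ξ ∈ V := ⟨a, b⟩
        simp only [if_pos this, if_pos a, if_pos b, hΨ]
        rw [← exp_add]
        congr 1
        ring
      · have : ξ ∉ V := fun h => b h.2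
        simp only [if_neg this, if_pos a, if_neg b, mul_zero]
      · have : ξ ∉ V := fun h => a h.1
        simp only [if_neg this, if_neg a, zero_mul]
      · have : ξ ∉ V := fun h => a h.1
        simp only [if_neg this, if_neg a, zero_mul]
    · intro τ
      simp only [neg_neg]
      ring
  choose! g hg heven using hE
  -- the means vanish for almost every y
  have hcoef := fun (y : ℝ) (hy : |y| < 1) => (hg y hy).coef
  choose! ν hν1 hν2 hν3 hν4 hν5 hν6 using hcoef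
  have hz : ∀ᵐ y : ℝ, y ∈ Set.Ioo (0 : ℝ) 1 → ν y 0 = 0 := by
    refine mean_zero V hVm Ψ hΨm (2 * L) (by linarith) hΨL hΨB (fun y => ν y 0) fun y hy => ?_
    have hy' : |y| < 1 := by rw [abs_of_pos hy.1]; exact hy.2
    have := hν3 y hy' 0
    simpa using this
  have hz' : ∀ᵐ y : ℝ, ∀ n : ℕ, 1 ≤ n → (1 / (n : ℝ)) * y ∈ Set.Ioo (0 : ℝ) 1 →
      ν ((1 / (n : ℝ)) * y) 0 = 0 := by
    rw [ae_all_iff]
    intro n
    by_cases hn : 1 ≤ n
    · have hn' : (n : ℝ) ≠ 0 := by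
        have : (0 : ℝ) < n := by exact_mod_cast hn
        exact this.ne'
      filter_upwards [scale_ae hz (1 / (n : ℝ)) (one_div_ne_zero hn')] with y hy _
      exact hy
    · exact Eventually.of_forall fun y h => absurd h hn
  have hpos : volume (Set.Ioo (0 : ℝ) 1) ≠ 0 := by
    rw [Real.volume_Ioo]
    simp
  obtain ⟨y0, hy0I, hy0⟩ : ∃ y0 : ℝ, y0 ∈ Set.Ioo (0 : ℝ) 1 ∧ ∀ n : ℕ, 1 ≤ n →
      (1 / (n : ℝ)) * y0 ∈ Set.Ioo (0 : ℝ) 1 → ν ((1 / (n : ℝ)) * y0) 0 = 0 := by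
    by_contra hcon'
    push Not at hcon'
    apply hpos
    refine measure_mono_null (fun y hy => ?_) hz'
    obtain ⟨n, h1, h2, h3⟩ := hcon' y hy
    intro hall
    exact h3 (hall n h1 h2)
  have hyn : ∀ n : ℕ, 1 ≤ n → (1 / (n : ℝ)) * y0 ∈ Set.Ioo (0 : ℝ) 1 := by
    intro n hn
    have hn' : (1 : ℝ) ≤ n := by exact_mod_cast hn
    have hn0 : (0 : ℝ) < n := by linarith
    refine ⟨mul_pos (one_div_pos.2 hn0) hy0I.1, ?_⟩
    have : 1 / (n : ℝ) ≤ 1 := by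
      rw [div_le_one hn0]
      exact hn'
    calc (1 / (n : ℝ)) * y0 ≤ 1 * y0 := mul_le_mul_of_nonneg_right this hy0I.1.le
      _ = y0 := one_mul _
      _ < 1 := hy0I.2
  have habs : ∀ n : ℕ, 1 ≤ n → |(1 / (n : ℝ)) * y0| < 1 := by
    intro n hn
    rw [abs_of_pos (hyn n hn).1]
    exact (hyn n hn).2
  have hy0abs : |y0| < 1 := by
    rw [abs_of_pos hy0I.1]
    exact hy0I.2
  set f : ℕ → ℝ → ℂ := fun n => g ((1 / (n : ℝ)) * y0) with hf
  have hf1 : f 1 = g y0 := by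
    simp only [hf]
    congr 1
    push_cast
    ring
  have hpow : ∀ n, 1 ≤ n → ∀ τ, f n τ ^ n = f 1 τ := by
    intro n hn τ
    have h1 := (hg _ (habs n hn)).pow n
    have h2 := h1.unique (hg y0 hy0abs) (Eventually.of_forall fun ξ => ?_)
    · rw [hf1]
      exact congrFun h2 τ
    · by_cases hξ : ξ ∈ V
      · simp only [if_pos hξ]
        rw [← exp_nat_mul]
        congr 1
        have hn' : (n : ℂ) ≠ 0 := by
          have : 0 < n := hn
          exact_mod_cast this.ne'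
        push_cast
        field_simp
      · simp only [if_neg hξ]
        exact zero_pow (by omega)
  have hinv : ∀ τ, g y0 τ * g (-y0) τ = 1 := by
    intro τ
    have hneg : |(-y0)| < 1 := by rwa [abs_neg]
    have h1 := (hg y0 hy0abs).mul (hg (-y0) hneg)
    have h2 := h1.unique Rep.one ?_
    · exact congrFun h2 τ
    · filter_upwards [hVcon] with ξ hξ
      simp only [if_pos hξ]
      rw [← exp_add]
      have : -(I * y0 * Ψ ξ) + -(I * ((-y0 : ℝ) : ℂ) * Ψ ξ) = 0 := by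
        push_cast
        ring
      rw [this, exp_zero]
  obtain ⟨Bd, hBd⟩ := hν6 (-y0) (by rwa [abs_neg])
  have hBd0 : 0 ≤ Bd := (norm_nonneg _).trans (hBd 0)
  obtain ⟨n, hn1, hn2⟩ := phase_lemma (ν y0) (hν1 y0 hy0abs) f
    (fun τ => by rw [hf1]; exact hν2 y0 hy0abs τ)
    (fun n hn => hν5 _ (habs n hn)) (fun n hn => heven _ (habs n hn)) hpow (1 / (Bd + 1))
    (by positivity) (fun τ => by
      rw [hf1, div_le_iff₀ (by positivity)]
      have h1 := congrArg norm (hinv τ)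
      rw [norm_mul, norm_one] at h1
      rw [← h1]
      exact mul_le_mul_of_nonneg_left ((hBd τ).trans (by linarith)) (norm_nonneg _))
  have hmean := hν4 _ (habs n hn1)
  rw [hy0 n hn1 (hyn n hn1)] at hmean
  have hle : ∀ k : ℕ, 1 ≤ k → ‖((1 / (2 * (k : ℝ)) : ℝ) : ℂ) * (∫ ξ in (-(k : ℝ))..k, f n ξ) - f n 0‖ ≤
      ‖f n 0‖ / 2 := by
    intro k hk
    have hk0 : (0 : ℝ) < k := by exact_mod_cast hk
    have hc : Continuous (f n) := hν5 _ (habs n hn1)
    have e1 : f n 0 = ((1 / (2 * (k : ℝ)) : ℝ) : ℂ) * ∫ ξ in (-(k : ℝ))..k, f n 0 := by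
      rw [intervalIntegral.integral_const, sub_neg_eq_add, real_smul]
      have : (k : ℂ) ≠ 0 := by exact_mod_cast hk0.ne'
      push_cast
      field_simp
      ring
    have e2 : ((1 / (2 * (k : ℝ)) : ℝ) : ℂ) * (∫ ξ in (-(k : ℝ))..k, f n ξ) - f n 0 =
        ((1 / (2 * (k : ℝ)) : ℝ) : ℂ) * ∫ ξ in (-(k : ℝ))..k, (f n ξ - f n 0) := by
      rw [intervalIntegral.integral_sub (hc.intervalIntegrable _ _) (continuous_const.intervalIntegrable _ _),
        mul_sub, ← e1]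
    rw [e2, norm_mul, norm_real, Real.norm_eq_abs,
      abs_of_nonneg (by positivity : (0 : ℝ) ≤ 1 / (2 * (k : ℝ)))]
    have h2 : ‖∫ ξ in (-(k : ℝ))..k, (f n ξ - f n 0)‖ ≤ ‖f n 0‖ / 2 * |(k : ℝ) - (-(k : ℝ))| :=
      intervalIntegral.norm_integral_le_of_norm_le_const fun ξ _ => hn2 ξ
    have h3 : |(k : ℝ) - (-(k : ℝ))| = 2 * k := by
      rw [sub_neg_eq_add, abs_of_nonneg (by positivity)]; ring
    rw [h3] at h2
    calc 1 / (2 * (k : ℝ)) * ‖∫ ξ in (-(k : ℝ))..k, (f n ξ - f n 0)‖ ≤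
        1 / (2 * (k : ℝ)) * (‖f n 0‖ / 2 * (2 * k)) := mul_le_mul_of_nonneg_left h2 (by positivity)
      _ = ‖f n 0‖ / 2 := by field_simp
  have hlim := (hmean.sub_const (f n 0)).norm
  have hfin : ‖(0 : ℂ) - f n 0‖ ≤ ‖f n 0‖ / 2 := by
    refine le_of_tendsto hlim ?_
    filter_upwards [eventually_ge_atTop 1] with k hk
    exact hle k hk
  rw [zero_sub, norm_neg] at hfin
  have hfn0 : f n 0 = 0 := by
    have := norm_nonneg (f n 0)
    exact norm_eq_zero.1 (by linarith)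
  have h1 := hpow n hn1 0
  rw [hfn0, zero_pow (by omega), hf1] at h1
  have h2 := hinv 0
  rw [← h1, zero_mul] at h2
  exact zero_ne_one h2

end Pool.Agent.H18.HD
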