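import Mathlib

set_option autoImplicit false
open Polynomial

namespace Pool.Agent.H18.Penrose

/-- the number of classes of the equivalence relation generated by `r` -/
noncomputable def classes {α : Type} (r : α → α → Prop) : ℕ := Nat.card (Quot r)

/-- A graph with edge set `E` embedded in an oriented surface, all of whose vertices have
degree 3, given by its rotation system.  Every edge `e` has two ends, the darts `(e, false)` and
`(e, true)`, and `next d` is the next dart counterclockwise around the vertex of the dart `d`. -/
structure CubicMap (E : Type) where
  /-- the next dart counterclockwise around the same vertex -/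
  next : E × Bool → E × Bool
  next_three : ∀ d, next (next (next d)) = d
  next_ne : ∀ d, next d ≠ d

/-- the other end of the edge of a dart -/
def opp {E : Type} (d : E × Bool) : E × Bool := (d.1, !d.2)

namespace CubicMap

variable {E : Type} (G : CubicMap E)

/-- the two darts are at the same vertex -/
def SameVertex (d d' : E × Bool) : Prop := d' = d ∨ d' = G.next d ∨ d' = G.next (G.next d)

/-- the number of vertices: cycles of `next` -/
noncomputable def vertices : ℕ := classes fun d d' => d' = G.next d

/-- the number of faces: cycles of the face tracing permutation -/
noncomputable def faces : ℕ := classes fun d d' => d' = G.next (opp d)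

/-- the graph is connected -/
def Connected : Prop := classes (fun d d' => d' = G.next d ∨ d' = opp d) = 1

/-- connected plane (spherical) graph: connected, and `V - E + F = 2` -/
def IsPlane : Prop := G.Connected ∧ (G.vertices : ℤ) - Nat.card E + G.faces = 2

/-- no loops and no multiple edges -/
def IsSimple : Prop :=
  (∀ d, ¬ G.SameVertex d (opp d)) ∧
  ∀ d d', G.SameVertex d d' → G.SameVertex (opp d) (opp d') → d' = d

/-- `F_G(4)`: the number of 3-edge-colourings -/
noncomputable def colourings : ℕ :=
  Nat.card {c : E → Fin 3 // ∀ d : E × Bool, c d.1 ≠ c (G.next d).1}

/-- The half-edges of the medial graph are the pairs `(d, b)` with `d` a dart: at the medial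
vertex on the edge of `d`, the half-edge `(d, true)` points into the corner between `d` and
`next d`, and `(d, false)` into the corner between the previous dart `next (next d)` and `d`.
`medialMate` is the other half of the same medial edge. -/
def medialMate (h : (E × Bool) × Bool) : (E × Bool) × Bool :=
  if h.2 then (G.next h.1, false) else (G.next (G.next h.1), true)

/-- The half-edge paired with `h` at its medial vertex by the Penrose state `s`
(`s e = true`: crossing, `s e = false`: white).  Around the medial vertex on an edge `e` with ends
`d`, `opp d` the half-edges are, in cyclic order, `(d, true)`, `(opp d, false)`, `(opp d, true)`,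
`(d, false)`; the first two bound a white corner, and so do the last two. -/
def stateMate (s : E → Bool) (h : (E × Bool) × Bool) : (E × Bool) × Bool :=
  (opp h.1, if s h.1.1 then h.2 else !h.2)

/-- the number `c(s)` of closed curves of the Penrose state `s` -/
noncomputable def curves (s : E → Bool) : ℕ :=
  classes fun h h' => h' = G.medialMate h ∨ h' = stateMate s h

/-- the Penrose polynomial -/
noncomputable def penrose [Fintype E] [DecidableEq E] : ℤ[X] :=
  ∑ s : E → Bool, (-1) ^ (Finset.univ.filter fun e => s e = true).card * X ^ G.curves s

end CubicMap

end Pool.Agent.H18.Penrose
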