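import Pool.Agent.H18.PenroseDefs

set_option autoImplicit false
open Polynomial

namespace Pool.Agent.H18.Penrose

/-! ### Counting classes -/

section classes
variable {α : Type}

theorem classes_congr {r r' : α → α → Prop}
    (h : ∀ x y, r x y → Relation.EqvGen r' x y) (h' : ∀ x y, r' x y → Relation.EqvGen r x y) :
    classes r = classes r' := by
  refine Nat.card_congr ⟨Quot.lift (Quot.mk r') fun a b hab => Quot.eqvGen_sound (h a b hab),
    Quot.lift (Quot.mk r) fun a b hab => Quot.eqvGen_sound (h' a b hab), ?_, ?_⟩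
  · rintro ⟨x⟩; rfl
  · rintro ⟨x⟩; rfl

theorem classes_eq {r : α → α → Prop} {n : ℕ} (l : α → Fin n) (ρ : Fin n → α)
    (h1 : ∀ x y, r x y → l x = l y) (h2 : ∀ i, l (ρ i) = i)
    (h3 : ∀ x, Relation.EqvGen r x (ρ (l x))) : classes r = n := by
  have e : Quot r ≃ Fin n := ⟨Quot.lift l h1, fun i => Quot.mk r (ρ i), by
    rintro ⟨x⟩
    exact (Quot.eqvGen_sound (h3 x)).symm, fun i => h2 i⟩
  rw [classes, Nat.card_congr e, Nat.card_fin]

theorem eqvGen_iterate (f : α → α) (x : α) (k : ℕ) :
    Relation.EqvGen (fun a b => b = f a) x (f^[k] x) := by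
  induction k with
  | zero => exact Relation.EqvGen.refl _
  | succ k ih =>
    rw [Function.iterate_succ_apply']
    exact ih.trans _ _ _ (Relation.EqvGen.rel _ _ rfl)

theorem classes_add_one [Finite α] {r : α → α → Prop} {p q : α} (hpq : ¬ Relation.EqvGen r p q) :
    classes r = classes (fun x y => r x y ∨ (x = p ∧ y = q)) + 1 := by
  classical
  set r' : α → α → Prop := fun x y => r x y ∨ (x = p ∧ y = q) with hr'
  have hmono : ∀ x y, Relation.EqvGen r x y → Relation.EqvGen r' x y := by
    intro x y h
    exact Relation.EqvGen.mono (fun a b hab => Or.inl hab) _ _ h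
  have hS : ∀ x y, Quot.mk r x = Quot.mk r y ↔ Relation.EqvGen r x y := fun x y =>
    Quot.eq
  have hS' : ∀ x y, Relation.EqvGen r' x y → Quot.mk r' x = Quot.mk r' y := fun x y h =>
    Quot.eqvGen_sound h
  have hpq' : Relation.EqvGen r' p q := Relation.EqvGen.rel _ _ (Or.inr ⟨rfl, rfl⟩)
  let g : Quot r' → {c : Quot r // c ≠ Quot.mk r q} :=
    Quot.lift (fun x => if h : Relation.EqvGen r x q then ⟨Quot.mk r p, fun h' => hpq ((hS _ _).1 h')⟩
      else ⟨Quot.mk r x, fun h' => h ((hS _ _).1 h')⟩) (by
      rintro a b (hab | ⟨rfl, rfl⟩)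
      · have hab' : Relation.EqvGen r a b := Relation.EqvGen.rel _ _ hab
        have : Relation.EqvGen r a q ↔ Relation.EqvGen r b q :=
          ⟨fun h => (hab'.symm).trans _ _ _ h, fun h => hab'.trans _ _ _ h⟩
        by_cases h : Relation.EqvGen r a q
        · rw [dif_pos h, dif_pos (this.1 h)]
        · rw [dif_neg h, dif_neg (fun h' => h (this.2 h'))]
          exact Subtype.ext ((hS _ _).2 hab')
      · rw [dif_neg hpq, dif_pos (Relation.EqvGen.refl _)])
  have hg : Function.Bijective g := by
    constructor
    · rintro ⟨x⟩ ⟨y⟩ hxy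
      have hxy' : g (Quot.mk r' x) = g (Quot.mk r' y) := hxy
      simp only [g] at hxy'
      apply hS'
      by_cases hx : Relation.EqvGen r x q <;> by_cases hy : Relation.EqvGen r y q
      · exact hmono _ _ (hx.trans _ _ _ hy.symm)
      · rw [dif_pos hx, dif_neg hy] at hxy'
        have := (hS _ _).1 (Subtype.ext_iff.1 hxy')
        exact ((hmono _ _ hx).trans _ _ _ hpq'.symm).trans _ _ _ (hmono _ _ this)
      · rw [dif_neg hx, dif_pos hy] at hxy'
        have := (hS _ _).1 (Subtype.ext_iff.1 hxy')
        exact ((hmono _ _ this).trans _ _ _ hpq').trans _ _ _ (hmono _ _ hy.symm)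
      · rw [dif_neg hx, dif_neg hy] at hxy'
        exact hmono _ _ ((hS _ _).1 (Subtype.ext_iff.1 hxy'))
    · rintro ⟨⟨x⟩, hx⟩
      refine ⟨Quot.mk r' x, ?_⟩
      have : ¬ Relation.EqvGen r x q := fun h => hx ((hS _ _).2 h)
      simp only [g]
      rw [dif_neg this]
  rw [classes, classes, Nat.card_congr (Equiv.ofBijective g hg),
    ← Nat.card_congr (Equiv.optionSubtypeNe (Quot.mk r q)), Finite.card_option]

end classes

/-! ### Linking ports -/

section link
variable {H : Type} [Finite H] [DecidableEq H] (idx : H → ℕ)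

/-- the relation given by a matching `m` and a list of links between indices -/
def rel (m : H → H) (L : List (ℕ × ℕ)) (x y : H) : Prop := y = m x ∨ (idx x, idx y) ∈ L

/-- all indices occurring in a list of links -/
def ports : List (ℕ × ℕ) → List ℕ
  | [] => []
  | (p, q) :: L => p :: q :: ports L

/-- the new matching after joining `p` and `q` -/
def relink (m : H → H) (p q : H) (x : H) : H :=
  if x = p then q else if x = q then p else if x = m p then m q else if x = m q then m p else m x

theorem mem_ports {L : List (ℕ × ℕ)} {a b : ℕ} (h : (a, b) ∈ L) : a ∈ ports L ∧ b ∈ ports L := by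
  induction L with
  | nil => simp at h
  | cons c L ih =>
    obtain ⟨p, q⟩ := c
    rw [List.mem_cons] at h
    rcases h with h | h
    · simp only [Prod.mk.injEq] at h
      simp [ports, h.1, h.2]
    · have := ih h
      simp [ports, this.1, this.2]

omit [Finite H] [DecidableEq H] in
theorem eqvGen_invol {m : H → H} (hm : ∀ x, m (m x) = x) {x y : H}
    (h : Relation.EqvGen (rel idx m []) x y) : y = x ∨ y = m x := by
  induction h with
  | rel a b hab =>
    rcases hab with hab | hab
    · exact Or.inr hab
    · simp at hab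
  | refl a => exact Or.inl rfl
  | symm a b _ ih =>
    rcases ih with rfl | rfl
    · exact Or.inl rfl
    · right; rw [hm]
  | trans a b c _ _ h1 h2 =>
    rcases h1 with rfl | rfl
    · exact h2
    · rcases h2 with rfl | rfl
      · exact Or.inr rfl
      · left; rw [hm]

theorem classes_base {m : H → H} (hm : ∀ x, m (m x) = x) (hf : ∀ x, m x ≠ x) :
    Nat.card H = 2 * classes (rel idx m []) := by
  classical
  have hex : ∀ c : Quot (rel idx m []), ∃ x, Quot.mk _ x = c := by rintro ⟨x⟩; exact ⟨x, rfl⟩
  choose σ hσ using hex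
  let f : Quot (rel idx m []) × Bool → H := fun c => if c.2 then m (σ c.1) else σ c.1
  have hfm : ∀ x, Quot.mk (rel idx m []) (m x) = Quot.mk _ x := fun x =>
    (Quot.sound (show rel idx m [] x (m x) from Or.inl rfl)).symm
  have hq : ∀ c, Quot.mk (rel idx m []) (f c) = c.1 := by
    rintro ⟨c, b⟩
    cases b
    · simp only [f]; simpa using hσ c
    · simp only [f]; simp [hfm, hσ]
  have hfb : Function.Bijective f := by
    constructor
    · rintro ⟨c, b⟩ ⟨c', b'⟩ h
      have hc : c = c' := by
        have e1 := hq (c, b)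
        rw [h] at e1
        exact e1.symm.trans (hq (c', b'))
      subst hc
      cases b <;> cases b'
      · rfl
      · simp only [f] at h
        exact absurd (by simpa using h.symm) (hf (σ c))
      · simp only [f] at h
        exact absurd (by simpa using h) (hf (σ c))
      · rfl
    · intro x
      have h := eqvGen_invol idx hm (Quot.eqvGen_exact (hσ (Quot.mk _ x)))
      rcases h with h | h
      · exact ⟨(Quot.mk _ x, false), by simp [f]; exact h.symm⟩
      · exact ⟨(Quot.mk _ x, true), by simp [f]; exact h.symm⟩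
  rw [← Nat.card_congr (Equiv.ofBijective f hfb), Nat.card_prod, classes, mul_comm]
  simp

omit [Finite H] in
theorem relink_invol {m : H → H} (hm : ∀ x, m (m x) = x) (hf : ∀ x, m x ≠ x) {p q : H}
    (hpq : p ≠ q) (hmp : m p ≠ q) : ∀ x, relink m p q (relink m p q x) = x := by
  intro x
  have hmq : m q ≠ p := fun h => hmp (by rw [← h, hm])
  have hpq' : m p ≠ m q := fun h => hpq (by rw [← hm p, h, hm])
  have h1 := hf p
  have h2 := hf q
  have rp : relink m p q p = q := by simp [relink]
  have rq : relink m p q q = p := by simp [relink]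
  have rmp : relink m p q (m p) = m q := by simp [relink, h1, hmp]
  have rmq : relink m p q (m q) = m p := by simp [relink, hmq, h2, hpq'.symm]
  by_cases g1 : x = p
  · rw [g1, rp, rq]
  by_cases g2 : x = q
  · rw [g2, rq, rp]
  by_cases g3 : x = m p
  · rw [g3, rmp, rmq]
  by_cases g4 : x = m q
  · rw [g4, rmq, rmp]
  have e1 : m x ≠ p := fun h => g3 (by rw [← h, hm])
  have e2 : m x ≠ q := fun h => g4 (by rw [← h, hm])
  have e3 : m x ≠ m p := fun h => g1 (by rw [← hm x, h, hm])
  have e4 : m x ≠ m q := fun h => g2 (by rw [← hm x, h, hm])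
  simp [relink, g1, g2, g3, g4, e1, e2, e3, e4, hm]

omit [Finite H] in
theorem relink_ne {m : H → H} (hm : ∀ x, m (m x) = x) (hf : ∀ x, m x ≠ x) {p q : H}
    (hpq : p ≠ q) : ∀ x, relink m p q x ≠ x := by
  intro x
  have hpq' : m p ≠ m q := fun h => hpq (by rw [← hm p, h, hm])
  unfold relink
  split_ifs with h1 h2 h3 h4
  · rw [h1]; exact hpq.symm
  · rw [h2]; exact hpq
  · rw [h3]; exact hpq'.symm
  · rw [h4]; exact hpq'
  · exact hf x

omit [Finite H] [DecidableEq H] in
theorem classes_close {m : H → H} {p q : H} (hidx : Function.Injective idx) (hmp : m p = q) (L : List (ℕ × ℕ)) :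
    classes (rel idx m ((idx p, idx q) :: L)) = classes (rel idx m L) := by
  apply classes_congr
  · rintro x y (h | h)
    · exact Relation.EqvGen.rel _ _ (Or.inl h)
    · rw [List.mem_cons] at h
      rcases h with h | h
      · simp only [Prod.mk.injEq] at h
        rw [hidx h.1, hidx h.2, ← hmp]
        exact Relation.EqvGen.rel _ _ (Or.inl rfl)
      · exact Relation.EqvGen.rel _ _ (Or.inr h)
  · rintro x y (h | h)
    · exact Relation.EqvGen.rel _ _ (Or.inl h)
    · exact Relation.EqvGen.rel _ _ (Or.inr (List.mem_cons_of_mem _ h))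

theorem classes_merge {m : H → H} {p q : H} (hidx : Function.Injective idx)
    (hm : ∀ x, m (m x) = x) (hf : ∀ x, m x ≠ x) (hpq : p ≠ q) (hmp : m p ≠ q)
    (L : List (ℕ × ℕ)) (hp : idx p ∉ ports L) (hq : idx q ∉ ports L) :
    classes (rel idx (relink m p q) L) = classes (rel idx m ((idx p, idx q) :: L)) + 1 := by
  have hmq : m q ≠ p := fun h => hmp (by rw [← h, hm])
  have hpq' : m p ≠ m q := fun h => hpq (by rw [← hm p, h, hm])
  have h1 := hf p
  have h2 := hf q
  have rp : relink m p q p = q := by simp [relink]
  have rq : relink m p q q = p := by simp [relink]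
  have rmp : relink m p q (m p) = m q := by simp [relink, h1, hmp]
  have rmq : relink m p q (m q) = m p := by simp [relink, hmq, h2, hpq'.symm]
  have key : ¬ Relation.EqvGen (rel idx (relink m p q) L) p (m p) := by
    have : ∀ x y, Relation.EqvGen (rel idx (relink m p q) L) x y →
        ((x = p ∨ x = q) ↔ (y = p ∨ y = q)) := by
      intro x y h
      induction h with
      | rel a b hab =>
        rcases hab with hab | hab
        · rw [hab]
          unfold relink
          split_ifs with g1 g2 g3 g4
          · simp [g1]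
          · simp [g2]
          · rw [g3]; simp [h1, hmp, hmq, h2]
          · rw [g4]; simp [h1, hmp, hmq, h2]
          · have e1 : m a ≠ p := fun h => g3 (by rw [← h, hm])
            have e2 : m a ≠ q := fun h => g4 (by rw [← h, hm])
            simp [g1, g2, e1, e2]
        · have hab' := mem_ports hab
          have e1 : a ≠ p := fun h => hp (h ▸ hab'.1)
          have e2 : a ≠ q := fun h => hq (h ▸ hab'.1)
          have e3 : b ≠ p := fun h => hp (h ▸ hab'.2)
          have e4 : b ≠ q := fun h => hq (h ▸ hab'.2)
          simp [e1, e2, e3, e4]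
      | refl a => exact Iff.rfl
      | symm a b _ ih => exact ih.symm
      | trans a b c _ _ i1 i2 => exact i1.trans i2
    intro h
    have := (this _ _ h).1 (Or.inl rfl)
    rcases this with h | h
    · exact h1 h
    · exact hmp h
  rw [classes_add_one key]
  congr 1
  have E1 : ∀ x y, y = relink m p q x → Relation.EqvGen
      (fun x y => rel idx (relink m p q) L x y ∨ (x = p ∧ y = m p)) x y := fun x y h =>
    Relation.EqvGen.rel _ _ (Or.inl (Or.inl h))
  have E2 : Relation.EqvGen
      (fun x y => rel idx (relink m p q) L x y ∨ (x = p ∧ y = m p)) p (m p) :=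
    Relation.EqvGen.rel _ _ (Or.inr ⟨rfl, rfl⟩)
  have F1 : ∀ x y, y = m x → Relation.EqvGen (rel idx m ((idx p, idx q) :: L)) x y := fun x y h =>
    Relation.EqvGen.rel _ _ (Or.inl h)
  have F2 : Relation.EqvGen (rel idx m ((idx p, idx q) :: L)) p q :=
    Relation.EqvGen.rel _ _ (Or.inr List.mem_cons_self)
  have F3 : Relation.EqvGen (rel idx m ((idx p, idx q) :: L)) (m p) (m q) :=
    ((F1 p (m p) rfl).symm.trans _ _ _ F2).trans _ _ _ (F1 q (m q) rfl)
  have E3 : Relation.EqvGen
      (fun x y => rel idx (relink m p q) L x y ∨ (x = p ∧ y = m p)) q (m q) :=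
    ((E1 q p rq.symm).trans _ _ _ E2).trans _ _ _ (E1 _ _ rmp.symm)
  apply classes_congr
  · rintro x y ((h | h) | ⟨rfl, rfl⟩)
    · rw [h]
      unfold relink
      split_ifs with g1 g2 g3 g4
      · rw [g1]; exact F2
      · rw [g2]; exact F2.symm
      · rw [g3]; exact F3
      · rw [g4]; exact F3.symm
      · exact F1 _ _ rfl
    · exact Relation.EqvGen.rel _ _ (Or.inr (List.mem_cons_of_mem _ h))
    · exact F1 _ _ rfl
  · rintro x y (h | h)
    · rw [h]
      by_cases g1 : x = p
      · rw [g1]; exact E2
      by_cases g2 : x = q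
      · rw [g2]; exact E3
      by_cases g3 : x = m p
      · rw [g3, hm]; exact E2.symm
      by_cases g4 : x = m q
      · rw [g4, hm]; exact E3.symm
      · apply E1
        simp [relink, g1, g2, g3, g4]
    · rw [List.mem_cons] at h
      rcases h with h | h
      · simp only [Prod.mk.injEq] at h
        rw [hidx h.1, hidx h.2]
        exact E1 _ _ rp.symm
      · exact Relation.EqvGen.rel _ _ (Or.inl (Or.inr h))

end link

/-! ### Matchings coded as numbers in base 128 -/

/-- the partner of index `p` in the matching coded by `k` -/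
def get (k p : ℕ) : ℕ := (k >>> (7 * p)) % 128

/-- change the partner of `p` to `v` -/
def put (k p v : ℕ) : ℕ := k ^^^ ((get k p ^^^ v) <<< (7 * p))

theorem get_lt (k p : ℕ) : get k p < 128 := Nat.mod_lt _ (by norm_num)

theorem testBit_get (k p i : ℕ) : (get k p).testBit i = (decide (i < 7) && k.testBit (7 * p + i)) := by
  rw [get, show 128 = 2 ^ 7 by norm_num, Nat.testBit_mod_two_pow, Nat.testBit_shiftRight]

theorem get_put_self (k p v : ℕ) (hv : v < 128) : get (put k p v) p = v := by
  apply Nat.eq_of_testBit_eq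
  intro i
  have hlt : get k p < 2 ^ 7 := get_lt k p
  have hv' : v < 2 ^ 7 := hv
  rw [testBit_get, put, Nat.testBit_xor, Nat.testBit_shiftLeft, Nat.testBit_xor]
  by_cases hi : i < 7
  · rw [show 7 * p + i - 7 * p = i by omega, testBit_get]
    simp [hi]
  · have : v.testBit i = false := Nat.testBit_lt_two_pow
      (lt_of_lt_of_le hv' (Nat.pow_le_pow_right (by norm_num) (by omega)))
    simp [hi, this]

theorem get_put_ne (k p v j : ℕ) (hv : v < 128) (hj : j ≠ p) : get (put k p v) j = get k j := by
  apply Nat.eq_of_testBit_eq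
  intro i
  have hx : get k p ^^^ v < 2 ^ 7 := Nat.xor_lt_two_pow (get_lt k p) hv
  rw [testBit_get, testBit_get, put, Nat.testBit_xor, Nat.testBit_shiftLeft]
  by_cases hi : i < 7
  · have : (decide (7 * j + i ≥ 7 * p) && (get k p ^^^ v).testBit (7 * j + i - 7 * p)) = false := by
      by_cases hjp : j < p
      · have : ¬ (7 * j + i ≥ 7 * p) := by omega
        simp [this]
      · have : (get k p ^^^ v).testBit (7 * j + i - 7 * p) = false := Nat.testBit_lt_two_pow
          (lt_of_lt_of_le hx (Nat.pow_le_pow_right (by norm_num) (by omega)))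
        simp [this]
    rw [this]
    simp
  · simp [hi]

/-- join `p` and `q`: the new code (with the entries of `p` and `q` erased), and the sign -/
def lk (k p q : ℕ) : ℕ × ℤ :=
  if get k p = q then (put (put k p 0) q 0, 1)
  else (put (put (put (put k (get k p) (get k q)) (get k q) (get k p)) p 0) q 0, -1)

/-- product of the signs along a list of links -/
def linkSign : ℕ → List (ℕ × ℕ) → ℤ
  | _, [] => 1
  | k, (p, q) :: L => (lk k p q).2 * linkSign (lk k p q).1 L

theorem sign_path {H : Type} [Finite H] [DecidableEq H] (idx : H → ℕ)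
    (hidx : Function.Injective idx) (hlt : ∀ x, idx x < 128) (L : List (ℕ × ℕ)) :
    ∀ (m : H → H) (k : ℕ), (∀ x, m (m x) = x) → (∀ x, m x ≠ x) → (ports L).Nodup →
      (∀ p ∈ ports L, ∃ x, idx x = p) →
      (∀ x, idx x ∈ ports L → idx (m x) ∈ ports L ∧ get k (idx x) = idx (m x)) →
      (-1 : ℤ) ^ classes (rel idx m L) = (-1) ^ (Nat.card H / 2) * linkSign k L := by
  induction L with
  | nil =>
    intro m k hm hf _ _ _
    rw [classes_base idx hm hf]
    simp [linkSign]
  | cons c L ih =>
    intro m k hm hf hnd hex hinv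
    obtain ⟨p', q'⟩ := c
    obtain ⟨p, rfl⟩ := hex p' (by simp [ports])
    obtain ⟨q, rfl⟩ := hex q' (by simp [ports])
    simp only [ports, List.nodup_cons, List.mem_cons, not_or] at hnd
    obtain ⟨⟨hne, hp⟩, hq, hnd⟩ := hnd
    have hpq : p ≠ q := fun h => hne (by rw [h])
    have hgp : get k (idx p) = idx (m p) := (hinv p (by simp [ports])).2
    have hgq : get k (idx q) = idx (m q) := (hinv q (by simp [ports])).2
    have hne' : ∀ x, idx x ∈ ports L → idx x ≠ idx p ∧ idx x ≠ idx q := fun x hx =>
      ⟨fun h => hp (h ▸ hx), fun h => hq (h ▸ hx)⟩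
    have hmem : ∀ x, idx x ∈ ports L → idx (m x) ∈ ports ((idx p, idx q) :: L) ∧
        get k (idx x) = idx (m x) := fun x hx => hinv x (by simp [ports, hx])
    rw [linkSign, lk, hgp, hgq]
    by_cases hmp : m p = q
    · rw [if_pos (by rw [hmp]), classes_close idx hidx hmp, one_mul]
      refine ih m _ hm hf hnd (fun r hr => hex r (by simp [ports, hr])) fun x hx => ?_
      obtain ⟨h1, h2⟩ := hne' x hx
      obtain ⟨h3, h4⟩ := hmem x hx
      refine ⟨?_, ?_⟩
      · simp only [ports, List.mem_cons] at h3
        rcases h3 with h3 | h3 | h3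
        · exact absurd (congrArg idx (show x = q by rw [← hmp, ← hidx h3, hm])) h2
        · exact absurd (congrArg idx (show x = p by
            rw [← hm x, hidx h3, ← hmp, hm])) h1
        · exact h3
      · rw [get_put_ne _ _ _ _ (by norm_num) h2, get_put_ne _ _ _ _ (by norm_num) h1, h4]
    · rw [if_neg (fun h => hmp (hidx h))]
      have hmq : m q ≠ p := fun h => hmp (by rw [← h, hm])
      have hpq' : m p ≠ m q := fun h => hpq (by rw [← hm p, h, hm])
      have key := classes_merge idx hidx hm hf hpq hmp L hp hq
      have := ih (relink m p q) (put (put (put (put k (idx (m p)) (idx (m q))) (idx (m q))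
        (idx (m p))) (idx p) 0) (idx q) 0) (relink_invol hm hf hpq hmp) (relink_ne hm hf hpq) hnd
        (fun r hr => hex r (by simp [ports, hr])) (fun x hx => by
          obtain ⟨h1, h2⟩ := hne' x hx
          obtain ⟨h3, h4⟩ := hmem x hx
          have g1 : x ≠ p := fun h => h1 (by rw [h])
          have g2 : x ≠ q := fun h => h2 (by rw [h])
          have hmpL : idx (m p) ∈ ports L := by
            have := (hinv p (by simp [ports])).1
            simp only [ports, List.mem_cons] at this
            rcases this with h | h | h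
            · exact absurd (hidx h) (hf p)
            · exact absurd (hidx h) hmp
            · exact h
          have hmqL : idx (m q) ∈ ports L := by
            have := (hinv q (by simp [ports])).1
            simp only [ports, List.mem_cons] at this
            rcases this with h | h | h
            · exact absurd (hidx h) hmq
            · exact absurd (hidx h) (hf q)
            · exact h
          rw [get_put_ne _ _ _ _ (by norm_num) h2, get_put_ne _ _ _ _ (by norm_num) h1]
          unfold relink
          rw [if_neg g1, if_neg g2]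
          by_cases g3 : x = m p
          · rw [if_pos g3, g3, get_put_ne _ _ _ _ (hlt _) (fun h => hpq' (hidx h)),
              get_put_self _ _ _ (hlt _)]
            exact ⟨hmqL, rfl⟩
          rw [if_neg g3]
          by_cases g4 : x = m q
          · rw [if_pos g4, g4, get_put_self _ _ _ (hlt _)]
            exact ⟨hmpL, rfl⟩
          rw [if_neg g4, get_put_ne _ _ _ _ (hlt _) (fun h => g4 (hidx h)),
            get_put_ne _ _ _ _ (hlt _) (fun h => g3 (hidx h))]
          refine ⟨?_, h4⟩
          simp only [ports, List.mem_cons] at h3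
          rcases h3 with h | h | h
          · exact absurd (show x = m p by rw [← hidx h, hm]) g3
          · exact absurd (show x = m q by rw [← hidx h, hm]) g4
          · exact h)
      rw [key, pow_succ] at this
      simp only [neg_mul, one_mul, mul_neg, mul_one] at this ⊢
      linarith

/-! ### The sum over all states -/

/-- the links of the part of a state on the edges `e, e + 1, …` -/
def links : (n : ℕ) → ℕ → (Fin n → Bool) → List (ℕ × ℕ)
  | 0, _, _ => []
  | n + 1, e, s => (4 * e, 4 * e + if s 0 then 2 else 3) ::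
      (4 * e + 1, 4 * e + if s 0 then 3 else 2) :: links n (e + 1) (Fin.tail s)

/-- the new code and the sign after treating the edge `e` -/
def edgeStep (k e : ℕ) (b : Bool) : ℕ × ℤ :=
  let r := lk k (4 * e) (4 * e + if b then 2 else 3)
  let t := lk r.1 (4 * e + 1) (4 * e + if b then 3 else 2)
  (t.1, if b then - (r.2 * t.2) else r.2 * t.2)

/-- the sum over all states on `n` edges from `e` on -/
def W : ℕ → ℕ → ℕ → ℤ
  | 0, _, _ => 1
  | n + 1, e, k => (edgeStep k e false).2 * W n (e + 1) (edgeStep k e false).1 +
      (edgeStep k e true).2 * W n (e + 1) (edgeStep k e true).1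

/-- number of crossings -/
def crs (n : ℕ) (s : Fin n → Bool) : ℕ := (Finset.univ.filter fun e => s e = true).card

theorem sum_states (n : ℕ) : ∀ e k, ∑ s : Fin n → Bool, (-1) ^ crs n s * linkSign k (links n e s) =
    W n e k := by
  induction n with
  | zero => intro e k; simp [W, links, linkSign, crs]
  | succ n ih =>
    intro e k
    rw [← (Fin.consEquiv (fun _ => Bool)).sum_comp, Fintype.sum_prod_type, Fintype.sum_bool, W,
      add_comm, ← ih, ← ih, Finset.mul_sum, Finset.mul_sum]
    have hcr : ∀ (b : Bool) (s : Fin n → Bool),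
        (-1 : ℤ) ^ crs (n + 1) (Fin.cons b s : Fin (n + 1) → Bool) =
          (if b then -1 else 1) * (-1) ^ crs n s := by
      intro b s
      have : crs (n + 1) (Fin.cons b s : Fin (n + 1) → Bool) = (if b then 1 else 0) + crs n s := by
        unfold crs
        rw [Fin.card_filter_univ_succ]
        simp only [Fin.cons_zero, Fin.cons_succ]
        cases b <;> simp [add_comm]
      rw [this, pow_add]
      cases b <;> simp
    congr 1
    · refine Finset.sum_congr rfl fun s _ => ?_
      have h0 : (Fin.consEquiv (fun _ => Bool)) (false, s) = (Fin.cons false s : Fin (n + 1) → Bool) := rfl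
      rw [h0, hcr]
      simp only [links, linkSign, Fin.cons_zero, Fin.tail_cons, edgeStep]
      simp
      ring
    · refine Finset.sum_congr rfl fun s _ => ?_
      have h0 : (Fin.consEquiv (fun _ => Bool)) (true, s) = (Fin.cons true s : Fin (n + 1) → Bool) := rfl
      rw [h0, hcr]
      simp only [links, linkSign, Fin.cons_zero, Fin.tail_cons, edgeStep]
      simp
      ring

/-- add a term to a list of terms -/
def ins (k : ℕ) (c : ℤ) : List (ℕ × ℤ) → List (ℕ × ℤ)
  | [] => [(k, c)]
  | (k', c') :: t => if k = k' then (k, c + c') :: t else (k', c') :: ins k c t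

/-- the value of a list of terms -/
def ev (f : ℕ → ℤ) : List (ℕ × ℤ) → ℤ
  | [] => 0
  | (k, c) :: t => c * f k + ev f t

theorem ev_ins (f : ℕ → ℤ) (k : ℕ) (c : ℤ) (t : List (ℕ × ℤ)) :
    ev f (ins k c t) = c * f k + ev f t := by
  induction t with
  | nil => rfl
  | cons a t ih =>
    obtain ⟨k', c'⟩ := a
    rw [ins]
    split_ifs with h
    · subst h; simp only [ev]; ring
    · simp only [ev, ih]; ring

/-- treat the edge `e` in all terms -/
def stepAll (e : ℕ) : List (ℕ × ℤ) → List (ℕ × ℤ)
  | [] => []
  | (k, c) :: t =>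
    let a := edgeStep k e false
    let b := edgeStep k e true
    ins a.1 (c * a.2) (ins b.1 (c * b.2) (stepAll e t))

/-- treat `n` edges from `e` on -/
def run : ℕ → ℕ → List (ℕ × ℤ) → List (ℕ × ℤ)
  | 0, _, t => t
  | n + 1, e, t => run n (e + 1) (stepAll e t)

theorem ev_stepAll (n e : ℕ) (t : List (ℕ × ℤ)) :
    ev (W n (e + 1)) (stepAll e t) = ev (W (n + 1) e) t := by
  induction t with
  | nil => rfl
  | cons a t ih =>
    obtain ⟨k, c⟩ := a
    simp only [stepAll, ev_ins, ev, ih, W]
    ring

theorem ev_run (n : ℕ) : ∀ e t, ev (W n e) t = ev (fun _ => 1) (run n e t) := by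
  induction n with
  | zero => intro e t; rfl
  | succ n ih => intro e t; rw [← ev_stepAll, ih, run]

/-! ### The example -/

/-- the number of a dart -/
def code (d : Fin 21 × Bool) : ℕ := 2 * d.1 + if d.2 then 1 else 0

/-- the dart with a given number -/
def dart (n : ℕ) : Fin 21 × Bool := (Fin.ofNat 21 (n / 2), decide (n % 2 = 1))

/-- the number of the next dart -/
def table : List ℕ := [5, 29, 0, 11, 6, 2, 8, 21, 4, 13, 9, 19, 15, 10, 7, 16, 12, 33, 23, 3, 24, 14,
  17, 27, 38, 1, 35, 18, 31, 25, 26, 41, 36, 22, 32, 30, 34, 39, 20, 40, 37, 28]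

/-- a simple plane cubic graph with 14 vertices, 21 edges and 9 faces -/
def G₀ : CubicMap (Fin 21) where
  next d := dart (table.getD (code d) 0)
  next_three := by decide +kernel
  next_ne := by decide +kernel

theorem simple : G₀.IsSimple := by
  unfold CubicMap.IsSimple CubicMap.SameVertex
  decide +kernel

theorem orbit_count (f : Fin 21 × Bool → Fin 21 × Bool) (n K : ℕ) (t r : List ℕ)
    (h1 : ∀ x, t.getD (code x) 0 = t.getD (code (f x)) 0)
    (h2 : ∀ i : Fin n, t.getD (code (dart (r.getD i 0))) 0 = i)
    (h3 : ∀ x, ∃ k : Fin K, f^[k] x = dart (r.getD (t.getD (code x) 0) 0))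
    (h4 : ∀ x, t.getD (code x) 0 < n) : classes (fun a b => b = f a) = n := by
  refine classes_eq (fun d => ⟨t.getD (code d) 0, h4 d⟩) (fun i => dart (r.getD i 0)) ?_
    (fun i => Fin.ext (h2 i)) ?_
  · rintro x y rfl
    exact Fin.ext (h1 x)
  · intro x
    obtain ⟨k, hk⟩ := h3 x
    rw [← hk]
    exact eqvGen_iterate _ _ _

theorem vertices : G₀.vertices = 14 :=
  orbit_count G₀.next 14 3 [0, 1, 0, 2, 3, 0, 3, 4, 3, 5, 5, 2, 6, 5, 4, 6, 6, 7, 8, 2, 9,
      4, 7, 8, 9, 1, 10, 8, 11, 1, 10, 11, 12, 7, 12, 10, 12, 13, 9, 13, 13, 11]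
    [0, 1, 3, 4, 7, 9, 12, 17, 18, 20, 26, 28, 32, 37] (by decide +kernel) (by decide +kernel)
    (by decide +kernel) (by decide +kernel)

theorem faces : G₀.faces = 9 :=
  orbit_count (fun d => G₀.next (opp d)) 9 6 [0, 1, 2, 0, 2, 1, 1, 3, 3, 2, 4, 2, 4, 3, 5, 3, 5, 4,
      0, 4, 5, 1, 6, 4, 1, 7, 0, 6, 7, 0, 8, 0, 6, 5, 8, 6, 5, 8, 7, 5, 7, 8]
    [0, 1, 2, 7, 10, 14, 22, 25, 30] (by decide +kernel) (by decide +kernel)
    (by decide +kernel) (by decide +kernel)

/-- the parent of a dart in a spanning tree -/
def par (d : Fin 21 × Bool) : Fin 21 × Bool := dart ([0, 0, 0, 2, 5, 0, 4, 6, 4, 8, 11, 3, 13, 10,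
  7, 14, 12, 22, 19, 3, 24, 20, 23, 18, 25, 1, 27, 18, 29, 1, 31, 28, 33, 22, 35, 30, 37, 39, 24,
  38, 41, 28].getD (code d) 0)

theorem connected : G₀.Connected := by
  have h1 : ∀ d, par d = d ∨ par d = G₀.next d ∨ par d = opp d ∨ d = G₀.next (par d) := by
    decide +kernel
  have h2 : ∀ d, par^[8] d = (0, false) := by decide +kernel
  refine classes_eq (fun _ => 0) (fun _ => (0, false)) (fun _ _ _ => rfl)
    (fun i => (Subsingleton.elim _ _)) fun x => ?_
  rw [← h2 x]
  refine Relation.EqvGen.trans _ _ _ (Relation.EqvGen.refl x) ?_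
  generalize 8 = k
  induction k with
  | zero => exact Relation.EqvGen.refl _
  | succ k ih =>
    rw [Function.iterate_succ_apply']
    refine ih.trans _ _ _ ?_
    rcases h1 (par^[k] x) with h | h | h | h
    · rw [h]; exact Relation.EqvGen.refl _
    · exact Relation.EqvGen.rel _ _ (Or.inl h)
    · exact Relation.EqvGen.rel _ _ (Or.inr h)
    · refine Relation.EqvGen.symm _ _ (Relation.EqvGen.rel _ _ ?_)
      exact Or.inl h

theorem plane : G₀.IsPlane := by
  refine ⟨connected, ?_⟩
  rw [vertices, faces, Nat.card_fin]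
  norm_num

/-! ### Colourings -/

/-- the earlier edges adjacent to an edge -/
def nb (j : ℕ) : List ℕ := [[], [0], [0, 1], [2], [2, 3], [1, 4], [4, 5], [3, 6], [6, 7], [1, 5],
  [3, 7], [8, 9], [0, 10], [9, 11], [0, 12], [13, 14], [8, 11], [13, 15, 16], [16, 17],
  [10, 12, 18], [14, 15, 18, 19]].getD j []

/-- the edge number `j` may be coloured `a` after the earlier edges were coloured by `g` -/
def okc (g : ℕ → Fin 3) (j : ℕ) (a : Fin 3) : Bool := (nb j).all fun i => g i != a

/-- the number of colourings of `n` more edges, from `j` on -/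
def cnt : ℕ → ℕ → (ℕ → Fin 3) → ℕ
  | 0, _, _ => 1
  | n + 1, j, g => (if okc g j 0 then cnt n (j + 1) (Function.update g j 0) else 0) +
      (if okc g j 1 then cnt n (j + 1) (Function.update g j 1) else 0) +
      (if okc g j 2 then cnt n (j + 1) (Function.update g j 2) else 0)

/-- `f` is a valid continuation of `g` -/
def valid : (n : ℕ) → ℕ → (ℕ → Fin 3) → (Fin n → Fin 3) → Bool
  | 0, _, _, _ => true
  | n + 1, j, g, f => okc g j (f 0) && valid n (j + 1) (Function.update g j (f 0)) (Fin.tail f)

theorem sum_valid (n : ℕ) : ∀ j g, ∑ f : Fin n → Fin 3, (if valid n j g f then 1 else 0) =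
    cnt n j g := by
  induction n with
  | zero => intro j g; simp [valid, cnt]
  | succ n ih =>
    intro j g
    rw [← (Fin.consEquiv (fun _ => Fin 3)).sum_comp, Fintype.sum_prod_type, cnt]
    have : ∀ a : Fin 3, ∑ f : Fin n → Fin 3,
        (if valid (n + 1) j g ((Fin.consEquiv (fun _ => Fin 3)) (a, f)) then 1 else 0) =
        if okc g j a then cnt n (j + 1) (Function.update g j a) else 0 := by
      intro a
      rw [← ih]
      have h0 : ∀ f : Fin n → Fin 3, valid (n + 1) j g ((Fin.consEquiv (fun _ => Fin 3)) (a, f)) =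
          (okc g j a && valid n (j + 1) (Function.update g j a) f) := fun f => rfl
      simp only [h0]
      cases okc g j a <;> simp
    rw [Fin.sum_univ_three, this, this, this]

/-- the value of the joint colouring -/
def val (n j : ℕ) (g : ℕ → Fin 3) (f : Fin n → Fin 3) (i : ℕ) : Fin 3 :=
  if i < j then g i else if h : i - j < n then f ⟨i - j, h⟩ else 0

theorem valid_iff (n : ℕ) : ∀ j g (f : Fin n → Fin 3), (∀ t < j + n, ∀ i ∈ nb t, i < t) →
    (valid n j g f = true ↔ ∀ t : Fin n, ∀ i ∈ nb (j + t), val n j g f i ≠ f t) := by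
  induction n with
  | zero => intro j g f _; simp [valid]
  | succ n ih =>
    intro j g f hnb
    have hv : ∀ i, val n (j + 1) (Function.update g j (f 0)) (Fin.tail f) i = val (n + 1) j g f i := by
      intro i
      unfold val
      rcases lt_trichotomy i j with h | h | h
      · rw [if_pos (by omega), if_pos h, Function.update_of_ne (by omega)]
      · subst h
        rw [if_pos (by omega), if_neg (by omega), dif_pos (by omega), Function.update_self]
        congr 1
        ext; simp
      · rw [if_neg (by omega), if_neg (by omega)]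
        by_cases h' : i - j < n + 1
        · rw [dif_pos (by omega), dif_pos h']
          unfold Fin.tail
          congr 1
          ext; simp; omega
        · rw [dif_neg (by omega), dif_neg h']
    rw [valid, Bool.and_eq_true, ih _ _ _ (fun t ht => hnb t (by omega)), Fin.forall_fin_succ]
    simp only [hv]
    have hok : okc g j (f 0) = true ↔ ∀ i ∈ nb (j + (0 : Fin (n + 1)).val), val (n + 1) j g f i ≠ f 0 := by
      simp only [okc, Fin.val_zero, add_zero, List.all_eq_true, bne_iff_ne]
      refine forall₂_congr fun i hi => ?_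
      have := hnb j (by omega) i hi
      rw [val, if_pos this]
    rw [hok]
    have hs : ∀ t : Fin n, j + 1 + t.val = j + (Fin.succ t).val := fun t => by simp; omega
    simp only [hs]
    rfl

theorem colourings : G₀.colourings = 54 := by
  have hnb : ∀ t < 0 + 21, ∀ i ∈ nb t, i < t := by decide +kernel
  have h1 : ∀ d : Fin 21 × Bool, ∃ (x y : Fin 21), x.val ∈ nb y.val ∧
      ((x = d.1 ∧ y = (G₀.next d).1) ∨ (y = d.1 ∧ x = (G₀.next d).1)) := by decide +kernel
  have h2 : ∀ y : Fin 21, ∀ x ∈ nb y.val, ∃ d : Fin 21 × Bool,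
      ((x = d.1.val ∧ y = (G₀.next d).1) ∨ (y = d.1 ∧ x = (G₀.next d).1.val)) := by decide +kernel
  have key : ∀ c : Fin 21 → Fin 3, (∀ d : Fin 21 × Bool, c d.1 ≠ c (G₀.next d).1) ↔
      valid 21 0 (fun _ => 0) c = true := by
    intro c
    rw [valid_iff 21 0 _ c hnb]
    have hval : ∀ i : ℕ, ∀ hi : i < 21, val 21 0 (fun _ => 0) c i = c ⟨i, hi⟩ := by
      intro i hi
      rw [val, if_neg (by omega), dif_pos (by omega)]
      rfl
    constructor
    · intro h t i hi
      rw [zero_add] at hi
      obtain ⟨d, hd⟩ := h2 t i hi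
      rcases hd with ⟨rfl, rfl⟩ | ⟨rfl, rfl⟩
      · rw [hval _ d.1.2]; exact h d
      · rw [hval _ (G₀.next d).1.2]; exact (h d).symm
    · intro h d
      obtain ⟨x, y, hxy, ⟨rfl, rfl⟩ | ⟨rfl, rfl⟩⟩ := h1 d
      · have := h (G₀.next d).1 _ (by rw [zero_add]; exact hxy)
        rwa [hval _ d.1.2] at this
      · have := h d.1 _ (by rw [zero_add]; exact hxy)
        rw [hval _ (G₀.next d).1.2] at this
        exact this.symm
  have h3 : cnt 21 0 (fun _ => 0) = 54 := by decide +kernel
  rw [CubicMap.colourings, Nat.card_eq_fintype_card, Fintype.card_subtype, Finset.card_filter, ← h3,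
    ← sum_valid]
  refine Finset.sum_congr rfl fun c _ => ?_
  simp only [key]

/-! ### The Penrose polynomial at -1 -/

/-- the number of a half-edge of the medial graph -/
def idx (h : (Fin 21 × Bool) × Bool) : ℕ := 2 * code h.1 + if h.2 then 1 else 0

theorem mem_links (n : ℕ) : ∀ (e : ℕ) (s : Fin n → Bool) (p q : ℕ), (p, q) ∈ links n e s ↔
    ∃ i : Fin n, (p = 4 * (e + i) ∧ q = 4 * (e + i) + if s i then 2 else 3) ∨
      (p = 4 * (e + i) + 1 ∧ q = 4 * (e + i) + if s i then 3 else 2) := by
  induction n with
  | zero => intro e s p q; simp [links]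
  | succ n ih =>
    intro e s p q
    rw [links, List.mem_cons, List.mem_cons, ih, Fin.exists_fin_succ, ← or_assoc]
    have h1 : ∀ i : Fin n, e + 1 + (i : ℕ) = e + ((i : ℕ) + 1) := fun i => by omega
    simp only [Prod.mk.injEq, Fin.val_zero, add_zero, Fin.tail, Fin.val_succ, h1]
    exact Iff.rfl

theorem mem_ports_links (n : ℕ) : ∀ (e : ℕ) (s : Fin n → Bool) (p : ℕ), p ∈ ports (links n e s) ↔
    4 * e ≤ p ∧ p < 4 * (e + n) := by
  induction n with
  | zero => intro e s p; simp [links, ports]
  | succ n ih =>
    intro e s p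
    simp only [links, ports, List.mem_cons, ih]
    cases s 0 <;> simp <;> omega

theorem nodup_ports_links (n : ℕ) : ∀ (e : ℕ) (s : Fin n → Bool), (ports (links n e s)).Nodup := by
  induction n with
  | zero => intro e s; simp [links, ports]
  | succ n ih =>
    intro e s
    simp only [links, ports, List.nodup_cons, List.mem_cons, mem_ports_links]
    refine ⟨?_, ?_, ?_, ?_, ih _ _⟩ <;> cases s 0 <;> simp <;> omega

/-- the code of the matching `medialMate` -/
def start : ℕ := 447147580754199216627958241960244744431434544256382014854243874297358951961761791485606242913280237984536784328815731458927132761281673127740197452349189223727208130886555714821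

theorem curves_eq (s : Fin 21 → Bool) :
    G₀.curves s = classes (rel idx G₀.medialMate (links 21 0 s)) := by
  have hidx : ∀ x : (Fin 21 × Bool) × Bool, idx x = 4 * (x.1.1 : ℕ) + (if x.1.2 then 2 else 0) +
      if x.2 then 1 else 0 := by
    rintro ⟨⟨e, b⟩, c⟩
    cases b <;> cases c <;> simp [idx, code] <;> omega
  apply classes_congr
  · rintro x y (h | h)
    · exact Relation.EqvGen.rel _ _ (Or.inl h)
    · have : (idx x, idx y) ∈ links 21 0 s ∨ (idx y, idx x) ∈ links 21 0 s := by
        rw [mem_links, mem_links, h]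
        obtain ⟨⟨e, b⟩, c⟩ := x
        simp only [hidx, CubicMap.stateMate, opp, zero_add]
        cases b
        · left
          refine ⟨e, ?_⟩
          cases c <;> cases s e <;> simp
        · right
          refine ⟨e, ?_⟩
          cases c <;> cases s e <;> simp
      rcases this with h | h
      · exact Relation.EqvGen.rel _ _ (Or.inr h)
      · refine Relation.EqvGen.symm _ _ (Relation.EqvGen.rel _ _ (Or.inr h))
  · rintro x y (h | h)
    · exact Relation.EqvGen.rel _ _ (Or.inl h)
    · refine Relation.EqvGen.rel _ _ (Or.inr ?_)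
      rw [mem_links] at h
      obtain ⟨i, hi⟩ := h
      obtain ⟨⟨e, b⟩, c⟩ := x
      obtain ⟨⟨e', b'⟩, c'⟩ := y
      simp only [hidx, zero_add] at hi
      have he : e = i ∧ e' = i := by
        constructor <;> apply Fin.ext <;> revert hi <;>
          cases b <;> cases c <;> cases b' <;> cases c' <;> cases s i <;> simp <;> omega
      rw [he.1, he.2] at hi ⊢
      simp only [CubicMap.stateMate, opp, Prod.mk.injEq, true_and]
      revert hi
      cases b <;> cases c <;> cases b' <;> cases c' <;> cases s i <;> simp <;> omega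

theorem value : (G₀.penrose).eval (-1) = -78966 := by
  have hrun : run 21 0 [(start, 1)] = [(0, -78966)] := by decide +kernel
  have hW : W 21 0 start = -78966 := by
    have := ev_run 21 0 [(start, 1)]
    rw [hrun] at this
    simpa [ev] using this
  have hidx : Function.Injective idx := by
    have : ∀ x y, idx x = idx y → x = y := by decide +kernel
    exact fun x y h => this x y h
  have hlt : ∀ x, idx x < 84 := by decide +kernel
  have hex : ∀ p : Fin 84, ∃ x, idx x = p := by decide +kernel
  have hm : ∀ x, G₀.medialMate (G₀.medialMate x) = x := by decide +kernel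
  have hf : ∀ x, G₀.medialMate x ≠ x := by decide +kernel
  have hg : ∀ x, get start (idx x) = idx (G₀.medialMate x) := by decide +kernel
  rw [← hW, ← sum_states, CubicMap.penrose, eval_finsetSum]
  refine Finset.sum_congr rfl fun s _ => ?_
  have h := sign_path idx hidx (fun x => (hlt x).trans (by norm_num)) (links 21 0 s) G₀.medialMate
    start hm hf (nodup_ports_links _ _ _) (fun p hp => by
      rw [mem_ports_links] at hp
      exact hex ⟨p, by omega⟩) (fun x _ => ⟨by
        rw [mem_ports_links]
        exact ⟨by omega, by have := hlt (G₀.medialMate x); omega⟩, hg x⟩)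
  have hc : Nat.card ((Fin 21 × Bool) × Bool) = 84 := by simp
  rw [hc, ← curves_eq] at h
  simp only [eval_mul, eval_pow, eval_neg, eval_one, eval_X, h, crs]
  norm_num

end Pool.Agent.H18.Penrose
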