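import Mathlib

set_option autoImplicit false
open Complex

namespace Pool.Agent.H18.SSV

/-- the closed cone `{z : z = 0 or |arg z| ≤ θ}` in a form convenient for estimates -/
def Sec (θ : ℝ) (z : ℂ) : Prop := ‖z‖ * Real.cos θ ≤ z.re

theorem sector_iff {θ : ℝ} (h0 : 0 ≤ θ) (h1 : θ ≤ Real.pi / 2) (z : ℂ) :
    (z = 0 ∨ |z.arg| ≤ θ) ↔ Sec θ z := by
  unfold Sec
  by_cases hz : z = 0
  · simp [hz]
  have hpos : 0 < ‖z‖ := norm_pos_iff.2 hz
  have hcos : Real.cos |z.arg| = z.re / ‖z‖ := by rw [Real.cos_abs, Complex.cos_arg hz]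
  have hle : |z.arg| ≤ θ ↔ Real.cos θ ≤ Real.cos |z.arg| :=
    (Real.strictAntiOn_cos.le_iff_ge ⟨h0, by linarith [Real.pi_pos]⟩
      ⟨abs_nonneg _, Complex.abs_arg_le_pi z⟩).symm
  rw [hle, hcos, le_div_iff₀ hpos, mul_comm]
  simp [hz]

theorem Sec.re_nonneg {θ : ℝ} (h0 : 0 ≤ θ) (h1 : θ ≤ Real.pi / 2) {z : ℂ} (h : Sec θ z) :
    0 ≤ z.re :=
  (mul_nonneg (norm_nonneg _) (Real.cos_nonneg_of_mem_Icc ⟨by linarith, h1⟩)).trans h

theorem Sec.im_le {θ : ℝ} (h0 : 0 ≤ θ) (h1 : θ ≤ Real.pi / 2) {z : ℂ} (h : Sec θ z) :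
    |z.im| * Real.cos θ ≤ z.re * Real.sin θ := by
  have hc : 0 ≤ Real.cos θ := Real.cos_nonneg_of_mem_Icc ⟨by linarith, h1⟩
  have hs : 0 ≤ Real.sin θ := Real.sin_nonneg_of_nonneg_of_le_pi h0 (by linarith)
  have hre := h.re_nonneg h0 h1
  have hsq : (‖z‖ * Real.cos θ) ^ 2 ≤ z.re ^ 2 :=
    pow_le_pow_left₀ (mul_nonneg (norm_nonneg _) hc) h 2
  have hn : ‖z‖ ^ 2 = z.re ^ 2 + z.im ^ 2 := by
    rw [Complex.sq_norm, Complex.normSq_apply]; ring
  have hcs := Real.sin_sq_add_cos_sq θ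
  apply le_of_sq_le_sq _ (mul_nonneg hre hs)
  rw [mul_pow, mul_pow, sq_abs]
  rw [mul_pow, hn] at hsq
  nlinarith

theorem Sec.mono {θ θ' : ℝ} (h0 : 0 ≤ θ) (h : θ ≤ θ') (h1 : θ' ≤ Real.pi / 2) {z : ℂ}
    (hz : Sec θ z) : Sec θ' z := by
  have : Real.cos θ' ≤ Real.cos θ := Real.cos_le_cos_of_nonneg_of_le_pi h0 (by linarith) h
  exact (mul_le_mul_of_nonneg_left this (norm_nonneg _)).trans hz

theorem Sec.conj {θ : ℝ} {z : ℂ} (h : Sec θ z) : Sec θ ((starRingEnd ℂ) z) := by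
  unfold Sec at *
  simpa using h

/-- the real part of `(1 + β i) w` is nonpositive when `-w` is in the cone -/
theorem re_nonpos {θ β : ℝ} (h0 : 0 ≤ θ) (h1 : θ ≤ Real.pi / 2)
    (hβ : 0 < θ → |β| ≤ Real.cot θ) {w : ℂ} (hw : Sec θ (-w)) :
    ((1 + β * I) * w).re ≤ 0 := by
  have hre : w.re ≤ 0 := by have := hw.re_nonneg h0 h1; simp at this; linarith
  have him := hw.im_le h0 h1
  simp only [Complex.neg_im, abs_neg, Complex.neg_re] at him
  have e : ((1 + β * I) * w).re = w.re - β * w.im := by simp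
  rw [e]
  rcases h0.eq_or_lt with h | h
  · rw [← h] at him
    simp only [Real.cos_zero, mul_one, Real.sin_zero, mul_zero] at him
    have : w.im = 0 := abs_eq_zero.1 (le_antisymm him (abs_nonneg _))
    rw [this]; linarith
  · have hs : 0 < Real.sin θ := Real.sin_pos_of_pos_of_lt_pi h (by linarith)
    have hb := hβ h
    rw [Real.cot_eq_cos_div_sin, le_div_iff₀ hs] at hb
    have h2 : |β| * |w.im| * Real.sin θ ≤ -w.re * Real.sin θ := by
      calc |β| * |w.im| * Real.sin θ = (|β| * Real.sin θ) * |w.im| := by ring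
        _ ≤ Real.cos θ * |w.im| := mul_le_mul_of_nonneg_right hb (abs_nonneg _)
        _ = |w.im| * Real.cos θ := by ring
        _ ≤ _ := him
    have h3 : |β| * |w.im| ≤ -w.re := le_of_mul_le_mul_right h2 hs
    have h4 : -(β * w.im) ≤ |β| * |w.im| := by rw [← abs_mul]; exact neg_le_abs _
    linarith

section operator
variable {E : Type*} [NormedAddCommGroup E] [InnerProductSpace ℂ E]

open scoped InnerProductSpace

theorem inner_self_real (x : E) : ⟪x, x⟫_ℂ = ((‖x‖ ^ 2 : ℝ) : ℂ) := by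
  rw [inner_self_eq_norm_sq_to_K, Complex.ofReal_pow]
  rfl

theorem adjoint_apply_of_norm_attained [CompleteSpace E] (T : E →L[ℂ] E) {y : E}
    (hy : ‖T y‖ = ‖T‖ * ‖y‖) : ContinuousLinearMap.adjoint T (T y) = ((‖T‖ ^ 2 : ℝ) : ℂ) • y := by
  have h1 : ‖((‖T‖ ^ 2 : ℝ) : ℂ) • y - ContinuousLinearMap.adjoint T (T y)‖ ^ 2 ≤ 0 := by
    rw [@norm_sub_sq ℂ]
    have e1 : ‖((‖T‖ ^ 2 : ℝ) : ℂ) • y‖ = ‖T‖ ^ 2 * ‖y‖ := by
      rw [norm_smul, Complex.norm_real, Real.norm_of_nonneg (by positivity)]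
    have e2 : RCLike.re (⟪((‖T‖ ^ 2 : ℝ) : ℂ) • y, ContinuousLinearMap.adjoint T (T y)⟫_ℂ) =
        ‖T‖ ^ 2 * ‖T y‖ ^ 2 := by
      rw [inner_smul_left, ContinuousLinearMap.adjoint_inner_right, inner_self_real,
        Complex.conj_ofReal, ← Complex.ofReal_mul]
      exact Complex.ofReal_re _
    have e3 : ‖ContinuousLinearMap.adjoint T (T y)‖ ≤ ‖T‖ * ‖T y‖ := by
      calc _ ≤ ‖ContinuousLinearMap.adjoint T‖ * ‖T y‖ := ContinuousLinearMap.le_opNorm _ _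
        _ = ‖T‖ * ‖T y‖ := by rw [LinearIsometryEquiv.norm_map]
    have e4 : ‖ContinuousLinearMap.adjoint T (T y)‖ ^ 2 ≤ (‖T‖ * ‖T y‖) ^ 2 :=
      pow_le_pow_left₀ (norm_nonneg _) e3 2
    rw [e1, e2]
    rw [hy] at e4 ⊢
    nlinarith
  have h2 : ‖((‖T‖ ^ 2 : ℝ) : ℂ) • y - ContinuousLinearMap.adjoint T (T y)‖ = 0 := by
    have := sq_nonneg ‖((‖T‖ ^ 2 : ℝ) : ℂ) • y - ContinuousLinearMap.adjoint T (T y)‖
    exact pow_eq_zero_iff (two_ne_zero) |>.1 (le_antisymm h1 this)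
  exact (sub_eq_zero.1 (norm_eq_zero.1 h2)).symm

/-- For an operator with numerical range in the cone of half-angle `θ`, a vector `y` where the
norm is attained makes an angle of at most `θ` with its image. -/
theorem angle_of_norm_attained [CompleteSpace E] {θ : ℝ} (h0 : 0 < θ) (h1 : θ ≤ Real.pi / 2)
    (T : E →L[ℂ] E) (hT : ∀ u, Sec θ ⟪u, T u⟫_ℂ) {y : E} (hy : ‖T y‖ = ‖T‖ * ‖y‖) :
    ‖T y‖ * ‖y‖ * Real.cos θ ≤ (⟪y, T y⟫_ℂ).re := by
  have hs : 0 < Real.sin θ := Real.sin_pos_of_pos_of_lt_pi h0 (by linarith [Real.pi_pos])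
  rcases (norm_nonneg T).eq_or_lt with hK | hK
  · have : T y = 0 := by rw [← norm_eq_zero, hy, ← hK, zero_mul]
    simp [this]
  set K := ‖T‖ with hKdef
  set z := T y with hz
  set c := ⟪y, z⟫_ℂ with hc
  set d := ⟪y, T z⟫_ℂ with hd
  have hadj := adjoint_apply_of_norm_attained T hy
  have hzz : ⟪z, T z⟫_ℂ = ((K ^ 2 : ℝ) : ℂ) * c := by
    rw [← ContinuousLinearMap.adjoint_inner_left, hz, hadj, inner_smul_left, Complex.conj_ofReal]
  have hnz : ⟪z, z⟫_ℂ = ((K ^ 2 * ‖y‖ ^ 2 : ℝ) : ℂ) := by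
    rw [inner_self_real, hy, mul_pow]
  -- the quadratic form at `z - l y`
  have hform : ∀ l : ℂ, ‖l‖ = K → ⟪z - l • y, T (z - l • y)⟫_ℂ =
      2 * ((K ^ 2 : ℝ) : ℂ) * c - l * ((K ^ 2 * ‖y‖ ^ 2 : ℝ) : ℂ) - (starRingEnd ℂ) l * d := by
    intro l hl
    rw [map_sub, map_smul, ← hz, inner_sub_left, inner_sub_right, inner_sub_right, inner_smul_left,
      inner_smul_right, inner_smul_left, inner_smul_right, hzz, hnz, ← hd, ← hc]
    have : (starRingEnd ℂ) l * l = ((K ^ 2 : ℝ) : ℂ) := by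
      rw [← hl, mul_comm, Complex.mul_conj, Complex.normSq_eq_norm_sq]
    linear_combination c * this
  set ct := Real.cos θ with hct
  set st := Real.sin θ with hst
  have hcs : st ^ 2 + ct ^ 2 = 1 := Real.sin_sq_add_cos_sq θ
  have hl1 : ‖(K : ℂ) * (ct - st * I)‖ = K := by
    rw [norm_mul, Complex.norm_real, Real.norm_of_nonneg hK.le]
    have : ‖((ct : ℂ) - st * I)‖ = 1 := by
      rw [← sq_eq_sq₀ (norm_nonneg _) zero_le_one, Complex.sq_norm, Complex.normSq_apply]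
      simp
      nlinarith
    rw [this, mul_one]
  have hl2 : ‖(K : ℂ) * (ct + st * I)‖ = K := by
    rw [norm_mul, Complex.norm_real, Real.norm_of_nonneg hK.le]
    have : ‖((ct : ℂ) + st * I)‖ = 1 := by
      rw [← sq_eq_sq₀ (norm_nonneg _) zero_le_one, Complex.sq_norm, Complex.normSq_apply]
      simp
      nlinarith
    rw [this, mul_one]
  have k1 := (hT (z - ((K : ℂ) * (ct - st * I)) • y)).im_le h0.le h1
  have k2 := (hT (z - ((K : ℂ) * (ct + st * I)) • y)).im_le h0.le h1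
  rw [hform _ hl1] at k1
  rw [hform _ hl2] at k2
  have k1' := (mul_le_mul_of_nonneg_right (le_abs_self _)
    (Real.cos_nonneg_of_mem_Icc ⟨by linarith, h1⟩)).trans k1
  have k2' := (mul_le_mul_of_nonneg_right (neg_le_abs _)
    (Real.cos_nonneg_of_mem_Icc ⟨by linarith, h1⟩)).trans k2
  clear k1 k2
  rw [← hct, ← hst] at k1' k2'
  simp only [map_mul, map_sub, map_add, Complex.conj_ofReal, Complex.conj_I, Complex.sub_re,
    Complex.sub_im, Complex.mul_re, Complex.mul_im, Complex.ofReal_re, Complex.ofReal_im,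
    Complex.add_re, Complex.add_im, Complex.I_re, Complex.I_im, Complex.neg_re, Complex.neg_im,
    Complex.re_ofNat, Complex.im_ofNat] at k1' k2'
  rw [hy]
  have key : 0 ≤ 4 * K ^ 2 * st * (c.re - K * ‖y‖ ^ 2 * ct) := by
    nlinarith
  have hpos : 0 < 4 * K ^ 2 * st := by positivity
  have := nonneg_of_mul_nonneg_right key hpos
  nlinarith

theorem angle_of_norm_attained' [CompleteSpace E] {θ : ℝ} (h0 : 0 ≤ θ) (h1 : θ ≤ Real.pi / 2)
    (T : E →L[ℂ] E) (hT : ∀ u, Sec θ ⟪u, T u⟫_ℂ) {y : E} (hy : ‖T y‖ = ‖T‖ * ‖y‖) :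
    ‖T y‖ * ‖y‖ * Real.cos θ ≤ (⟪y, T y⟫_ℂ).re := by
  rcases h0.eq_or_lt with h | h
  · subst h
    have ht : Filter.Tendsto (fun t : ℝ => ‖T y‖ * ‖y‖ * Real.cos t) (nhdsWithin 0 (Set.Ioi 0))
        (nhds (‖T y‖ * ‖y‖ * Real.cos 0)) :=
      ((continuous_const.mul Real.continuous_cos).tendsto 0).mono_left nhdsWithin_le_nhds
    refine le_of_tendsto ht ?_
    have : Set.Ioo (0 : ℝ) (Real.pi / 2) ∈ nhdsWithin (0 : ℝ) (Set.Ioi 0) :=
      Ioo_mem_nhdsGT (by positivity)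
    filter_upwards [this] with t ht
    exact angle_of_norm_attained ht.1 ht.2.le T (fun u => (hT u).mono le_rfl ht.1.le ht.2.le) hy
  · exact angle_of_norm_attained h h1 T hT hy

theorem exists_reflection (y w : E) (hyw : ‖y‖ = ‖w‖) (hreal : (⟪y, w⟫_ℂ).im = 0) :
    ∃ W : E →L[ℂ] E, W y = w ∧ (∀ u, ‖W u‖ = ‖u‖) ∧ ∀ u, (⟪u, W u⟫_ℂ).im = 0 := by
  set v := y - w with hv
  let W : E →L[ℂ] E := ContinuousLinearMap.id ℂ E -
    ((2 / ‖v‖ ^ 2 : ℝ) : ℂ) • (innerSL ℂ v).smulRight v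
  have hW : ∀ u, W u = u - (((2 / ‖v‖ ^ 2 : ℝ) : ℂ) * ⟪v, u⟫_ℂ) • v := by
    intro u
    simp [W, mul_smul]
  have huW : ∀ u, ⟪u, W u⟫_ℂ = ((‖u‖ ^ 2 - 2 / ‖v‖ ^ 2 * ‖⟪v, u⟫_ℂ‖ ^ 2 : ℝ) : ℂ) := by
    intro u
    rw [hW, inner_sub_right, inner_smul_right, inner_self_real, mul_assoc,
      ← inner_conj_symm u v, Complex.mul_conj, Complex.normSq_eq_norm_sq]
    push_cast
    ring
  refine ⟨W, ?_, ?_, ?_⟩
  · rw [hW]
    by_cases hv0 : v = 0
    · rw [hv0]; simp; exact sub_eq_zero.1 hv0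
    have hn : ‖v‖ ^ 2 ≠ 0 := by simp [hv0]
    have hr : ⟪y, w⟫_ℂ = (((⟪y, w⟫_ℂ).re : ℝ) : ℂ) := by
      apply Complex.ext <;> simp [hreal]
    have hr' : ⟪w, y⟫_ℂ = (((⟪y, w⟫_ℂ).re : ℝ) : ℂ) := by
      rw [← inner_conj_symm, hr, Complex.conj_ofReal, Complex.ofReal_re]
    have e1 : ⟪v, y⟫_ℂ = ((‖y‖ ^ 2 - (⟪y, w⟫_ℂ).re : ℝ) : ℂ) := by
      rw [hv, inner_sub_left, inner_self_real, hr']
      push_cast
      rfl
    have e2 : ‖v‖ ^ 2 = 2 * (‖y‖ ^ 2 - (⟪y, w⟫_ℂ).re) := by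
      rw [hv, @norm_sub_sq ℂ, ← hyw]
      simp only [RCLike.re_to_complex]
      ring
    have e3 : ((2 / ‖v‖ ^ 2 : ℝ) : ℂ) * ⟪v, y⟫_ℂ = 1 := by
      rw [e1, ← Complex.ofReal_mul, ← Complex.ofReal_one]
      congr 1
      rw [e2] at hn ⊢
      have hn' : ‖y‖ ^ 2 - (⟪y, w⟫_ℂ).re ≠ 0 := fun h => hn (by rw [h, mul_zero])
      field_simp
    rw [e3, one_smul, hv]
    abel
  · intro u
    rw [← sq_eq_sq₀ (norm_nonneg _) (norm_nonneg _), hW, @norm_sub_sq ℂ, inner_smul_right,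
      mul_assoc, ← inner_conj_symm u v, Complex.mul_conj, Complex.normSq_eq_norm_sq, norm_smul,
      norm_mul, ← Complex.ofReal_mul, Complex.norm_real]
    by_cases hv0 : v = 0
    · simp [hv0]
    have hn : ‖v‖ ^ 2 ≠ 0 := by simp [hv0]
    rw [RCLike.re_to_complex, Complex.ofReal_re, Real.norm_of_nonneg (by positivity)]
    field_simp
    ring
  · intro u
    rw [huW]
    exact Complex.ofReal_im _

theorem exists_op {θ : ℝ} (h0 : 0 ≤ θ) (h1 : θ ≤ Real.pi / 2) {y b : E} (hy : y ≠ 0) (hb : b ≠ 0)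
    (h : ‖b‖ * ‖y‖ * Real.cos θ ≤ (⟪y, b⟫_ℂ).re) :
    ∃ T : E →L[ℂ] E, T y = b ∧ ‖T‖ ≤ ‖b‖ / ‖y‖ ∧ ∀ u, Sec θ ⟪u, T u⟫_ℂ := by
  have hyn : 0 < ‖y‖ := norm_pos_iff.2 hy
  have hbn : 0 < ‖b‖ := norm_pos_iff.2 hb
  have hc0 : 0 ≤ Real.cos θ := Real.cos_nonneg_of_mem_Icc ⟨by linarith, h1⟩
  set k := (⟪y, b⟫_ℂ).re / (‖b‖ * ‖y‖) with hk
  have hkc : Real.cos θ ≤ k := by
    rw [hk, le_div_iff₀ (by positivity)]; linarith
  have hk0 : 0 ≤ k := hc0.trans hkc
  have hk1 : k ≤ 1 := by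
    rw [hk, div_le_one (by positivity), mul_comm]
    exact (Complex.re_le_norm _).trans (norm_inner_le_norm y b)
  set s := Real.sqrt (1 - k ^ 2) with hs
  have hs2 : s ^ 2 = 1 - k ^ 2 := Real.sq_sqrt (by nlinarith)
  have hs0 : 0 ≤ s := Real.sqrt_nonneg _
  set b' : E := ((‖y‖ / ‖b‖ : ℝ) : ℂ) • b with hb'
  have hb'n : ‖b'‖ = ‖y‖ := by
    rw [hb', norm_smul, Complex.norm_real, Real.norm_of_nonneg (by positivity)]
    field_simp
  have hin : (⟪y, b'⟫_ℂ).re = k * ‖y‖ ^ 2 := by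
    rw [hb', inner_smul_right, Complex.re_ofReal_mul, hk]
    field_simp
  clear_value b'
  -- the normalized operator
  obtain ⟨T', hT'y, hT'n, hT're⟩ : ∃ T' : E →L[ℂ] E, T' y = b' ∧ (∀ u, ‖T' u‖ = ‖u‖) ∧
      ∀ u, (⟪u, T' u⟫_ℂ).re = k * ‖u‖ ^ 2 := by
    rcases hs0.eq_or_lt with hs' | hs'
    · have hk' : k = 1 := by nlinarith
      refine ⟨ContinuousLinearMap.id ℂ E, ?_, fun u => rfl, fun u => ?_⟩
      · have : ‖b' - y‖ ^ 2 = 0 := by
          rw [@norm_sub_sq ℂ, hb'n, RCLike.re_to_complex, ← inner_conj_symm, Complex.conj_re, hin,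
            hk']
          ring
        have := pow_eq_zero_iff (two_ne_zero) |>.1 this
        exact (sub_eq_zero.1 (norm_eq_zero.1 this)).symm
      · rw [ContinuousLinearMap.id_apply, inner_self_real, Complex.ofReal_re, hk', one_mul]
    · have hsI : ((s : ℂ) * I) ≠ 0 := mul_ne_zero (by exact_mod_cast hs'.ne') I_ne_zero
      set w : E := ((s : ℂ) * I)⁻¹ • (b' - (k : ℂ) • y) with hw
      have hwn : ‖y‖ = ‖w‖ := by
        rw [← sq_eq_sq₀ (norm_nonneg _) (norm_nonneg _), hw, norm_smul, mul_pow, @norm_sub_sq ℂ,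
          inner_smul_right, norm_smul, hb'n, ← inner_conj_symm b' y, norm_inv, norm_mul,
          Complex.norm_I, Complex.norm_real, Complex.norm_real, Real.norm_of_nonneg hs0,
          Real.norm_of_nonneg hk0, RCLike.re_to_complex, Complex.re_ofReal_mul, Complex.conj_re,
          hin]
        have : ‖y‖ ^ 2 - 2 * (k * (k * ‖y‖ ^ 2)) + (k * ‖y‖) ^ 2 = s ^ 2 * ‖y‖ ^ 2 := by
          rw [hs2]; ring
        rw [this]
        field_simp
      have hwr : (⟪y, w⟫_ℂ).im = 0 := by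
        rw [hw, inner_smul_right, inner_sub_right, inner_smul_right, inner_self_real]
        have e1 : ⟪y, b'⟫_ℂ - (k : ℂ) * ((‖y‖ ^ 2 : ℝ) : ℂ) = ((⟪y, b'⟫_ℂ).im : ℂ) * I := by
          apply Complex.ext
          · simp only [Complex.sub_re, Complex.re_ofReal_mul, Complex.ofReal_re, hin,
              Complex.I_re, mul_zero, sub_self]
          · rw [Complex.sub_im, Complex.im_ofReal_mul, Complex.ofReal_im, Complex.im_ofReal_mul,
              Complex.I_im]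
            ring
        rw [e1]
        have e2 : ((s : ℂ) * I)⁻¹ * (((⟪y, b'⟫_ℂ).im : ℂ) * I) =
            (((⟪y, b'⟫_ℂ).im / s : ℝ) : ℂ) := by
          push_cast
          have : (s : ℂ) ≠ 0 := by exact_mod_cast hs'.ne'
          field_simp
        rw [e2]
        exact Complex.ofReal_im _
      obtain ⟨W, hWy, hWn, hWr⟩ := exists_reflection y w hwn hwr
      refine ⟨(k : ℂ) • ContinuousLinearMap.id ℂ E + ((s : ℂ) * I) • W, ?_, fun u => ?_,
        fun u => ?_⟩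
      · simp only [ContinuousLinearMap.add_apply, ContinuousLinearMap.smul_apply,
          ContinuousLinearMap.id_apply, hWy, hw, smul_smul, mul_inv_cancel₀ hsI, one_smul]
        abel
      · simp only [ContinuousLinearMap.add_apply, ContinuousLinearMap.smul_apply,
          ContinuousLinearMap.id_apply]
        rw [← sq_eq_sq₀ (norm_nonneg _) (norm_nonneg _), @norm_add_sq ℂ, inner_smul_left,
          inner_smul_right, norm_smul, norm_smul, norm_mul, Complex.norm_I, Complex.norm_real,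
          Complex.norm_real, Real.norm_of_nonneg hs0, Real.norm_of_nonneg hk0, hWn,
          Complex.conj_ofReal, RCLike.re_to_complex, Complex.re_ofReal_mul, mul_assoc (s : ℂ) I,
          Complex.re_ofReal_mul, Complex.I_mul_re, hWr]
        have : k ^ 2 + s ^ 2 = 1 := by rw [hs2]; ring
        linear_combination ‖u‖ ^ 2 * this
      · simp only [ContinuousLinearMap.add_apply, ContinuousLinearMap.smul_apply,
          ContinuousLinearMap.id_apply]
        rw [inner_add_right, inner_smul_right, inner_smul_right, inner_self_real, Complex.add_re,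
          Complex.re_ofReal_mul, Complex.ofReal_re, mul_assoc, Complex.re_ofReal_mul,
          Complex.I_mul_re, hWr]
        ring
  refine ⟨((‖b‖ / ‖y‖ : ℝ) : ℂ) • T', ?_, ?_, fun u => ?_⟩
  · rw [ContinuousLinearMap.smul_apply, hT'y, hb', smul_smul, ← Complex.ofReal_mul]
    have : ‖b‖ / ‖y‖ * (‖y‖ / ‖b‖) = 1 := by field_simp
    rw [this, Complex.ofReal_one, one_smul]
  · refine ContinuousLinearMap.opNorm_le_bound _ (by positivity) fun u => ?_
    rw [ContinuousLinearMap.smul_apply, norm_smul, Complex.norm_real,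
      Real.norm_of_nonneg (by positivity), hT'n]
  · unfold Sec
    rw [ContinuousLinearMap.smul_apply, inner_smul_right, norm_mul, Complex.norm_real,
      Real.norm_of_nonneg (by positivity), Complex.re_ofReal_mul, hT're, mul_assoc]
    refine mul_le_mul_of_nonneg_left ?_ (by positivity)
    have e1 : ‖⟪u, T' u⟫_ℂ‖ ≤ ‖u‖ ^ 2 := by
      refine (norm_inner_le_norm _ _).trans ?_
      rw [hT'n, sq]
    calc ‖⟪u, T' u⟫_ℂ‖ * Real.cos θ ≤ ‖u‖ ^ 2 * k :=
          mul_le_mul e1 hkc hc0 (by positivity)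
      _ = k * ‖u‖ ^ 2 := mul_comm _ _

end operator

end Pool.Agent.H18.SSV
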