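import Pool.Agent.H18.SSV

set_option autoImplicit false
open Complex
open scoped InnerProductSpace

namespace Pool.Agent.H18.SSV

section forms
variable {E : Type*} [NormedAddCommGroup E] [InnerProductSpace ℂ E] (M : E →L[ℂ] E) (γ : ℝ)

/-- first quadratic form -/
def P (x : E) : ℝ := ‖M x‖ ^ 2 - γ ^ 2 * ‖x‖ ^ 2

/-- second quadratic form -/
noncomputable def Q (x : E) : ℝ := 2 * (⟪x, M x⟫_ℂ).re

theorem P_comb (a b : ℝ) (x y : E) : P M γ ((a : ℂ) • x + (b : ℂ) • y) =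
    a ^ 2 * P M γ x + b ^ 2 * P M γ y +
      2 * (a * b) * ((⟪M x, M y⟫_ℂ).re - γ ^ 2 * (⟪x, y⟫_ℂ).re) := by
  unfold P
  rw [map_add, map_smul, map_smul, @norm_add_sq ℂ, @norm_add_sq ℂ, inner_smul_left,
    inner_smul_right, inner_smul_left, inner_smul_right, Complex.conj_ofReal]
  simp only [norm_smul, Complex.norm_real, RCLike.re_to_complex, Complex.re_ofReal_mul, mul_pow,
    Real.norm_eq_abs, sq_abs]
  ring

theorem Q_comb (a b : ℝ) (x y : E) : Q M ((a : ℂ) • x + (b : ℂ) • y) =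
    a ^ 2 * Q M x + b ^ 2 * Q M y +
      2 * (a * b) * ((⟪x, M y⟫_ℂ).re + (⟪y, M x⟫_ℂ).re) := by
  unfold Q
  rw [map_add, map_smul, map_smul, inner_add_left, inner_add_right, inner_add_right]
  simp only [inner_smul_left, inner_smul_right, Complex.conj_ofReal, Complex.add_re,
    Complex.re_ofReal_mul]
  ring

theorem P_smul (a : ℝ) (x : E) : P M γ ((a : ℂ) • x) = a ^ 2 * P M γ x := by
  have := P_comb M γ a 0 x 0
  simpa using this

theorem Q_smul (a : ℝ) (x : E) : Q M ((a : ℂ) • x) = a ^ 2 * Q M x := by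
  have := Q_comb M a 0 x 0
  simpa using this

variable {M γ}

theorem two_forms (h : ∀ x : E, x ≠ 0 → 0 ≤ P M γ x → 0 < Q M x) {x₁ x₂ : E}
    (hp1 : P M γ x₁ < 0) (hp2 : 0 < P M γ x₂) :
    Q M x₂ * P M γ x₁ < Q M x₁ * P M γ x₂ := by
  by_contra hcon
  push Not at hcon
  set α := Q M x₁ / P M γ x₁ with hα
  have hF1 : Q M x₁ = α * P M γ x₁ := by rw [hα, div_mul_cancel₀ _ hp1.ne]
  have hF2 : Q M x₂ - α * P M γ x₂ ≤ 0 := by
    have : Q M x₂ ≤ α * P M γ x₂ := by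
      rw [hα, div_mul_eq_mul_div, le_div_iff_of_neg hp1]
      exact hcon
    linarith
  set C := ((⟪x₁, M x₂⟫_ℂ).re + (⟪x₂, M x₁⟫_ℂ).re) -
    α * ((⟪M x₁, M x₂⟫_ℂ).re - γ ^ 2 * (⟪x₁, x₂⟫_ℂ).re) with hC
  obtain ⟨ε, hε, hεC⟩ : ∃ ε : ℝ, ε ^ 2 = 1 ∧ ε * C ≤ 0 := by
    rcases le_total C 0 with hc | hc
    · exact ⟨1, by norm_num, by linarith⟩
    · exact ⟨-1, by norm_num, by linarith⟩
  let f : ℝ → ℝ := fun t => (1 - t) ^ 2 * P M γ x₁ + (t * ε) ^ 2 * P M γ x₂ +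
    2 * ((1 - t) * (t * ε)) * ((⟪M x₁, M x₂⟫_ℂ).re - γ ^ 2 * (⟪x₁, x₂⟫_ℂ).re)
  have hfc : ContinuousOn f (Set.Icc 0 1) := by
    apply Continuous.continuousOn
    fun_prop
  have h0 : f 0 = P M γ x₁ := by simp [f]
  have h1 : f 1 = P M γ x₂ := by simp [f, hε]
  obtain ⟨t, ht, hft⟩ : (0 : ℝ) ∈ f '' Set.Icc 0 1 := by
    apply intermediate_value_Icc (zero_le_one) hfc
    rw [h0, h1]
    exact ⟨hp1.le, hp2.le⟩
  set u : E := ((1 - t : ℝ) : ℂ) • x₁ + ((t * ε : ℝ) : ℂ) • x₂ with hu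
  have hPu : P M γ u = 0 := by
    rw [hu, P_comb]
    exact hft
  have hQu : Q M u ≤ 0 := by
    have e : Q M u - α * P M γ u = (t * ε) ^ 2 * (Q M x₂ - α * P M γ x₂) +
        2 * ((1 - t) * t) * (ε * C) := by
      rw [hu, P_comb, Q_comb, hC]
      linear_combination (1 - t) ^ 2 * hF1
    rw [hPu, mul_zero, sub_zero] at e
    rw [e]
    have a1 : (t * ε) ^ 2 * (Q M x₂ - α * P M γ x₂) ≤ 0 :=
      mul_nonpos_of_nonneg_of_nonpos (sq_nonneg _) hF2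
    have a2 : 2 * ((1 - t) * t) * (ε * C) ≤ 0 :=
      mul_nonpos_of_nonneg_of_nonpos (by nlinarith [ht.1, ht.2]) hεC
    linarith
  have hu0 : u ≠ 0 := by
    intro hu0
    have h3 : ((1 - t : ℝ) : ℂ) • x₁ = ((-(t * ε) : ℝ) : ℂ) • x₂ := by
      rw [hu] at hu0
      rw [Complex.ofReal_neg, neg_smul]
      exact eq_neg_of_add_eq_zero_left hu0
    have h4 := congrArg (P M γ) h3
    rw [P_smul, P_smul, neg_sq, mul_pow, hε, mul_one] at h4
    have h5 : (1 - t) ^ 2 * P M γ x₁ ≤ 0 := mul_nonpos_of_nonneg_of_nonpos (sq_nonneg _) hp1.le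
    have h6 : 0 ≤ t ^ 2 * P M γ x₂ := mul_nonneg (sq_nonneg _) hp2.le
    have h7 : t ^ 2 * P M γ x₂ = 0 := by linarith
    have h8 : t = 0 := by
      rcases mul_eq_zero.1 h7 with h | h
      · exact pow_eq_zero_iff (two_ne_zero) |>.1 h
      · exact absurd h hp2.ne'
    rw [h8] at h4
    simp at h4
    exact hp1.ne h4
  exact absurd (h u hu0 hPu.ge) (not_lt.2 hQu)

theorem continuous_P : Continuous (P M γ) := by
  unfold P; fun_prop

theorem continuous_Q : Continuous (Q M) := by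
  unfold Q; fun_prop

/-- the homogeneous strict S-lemma -/
theorem s_lemma [FiniteDimensional ℂ E] (h : ∀ x : E, x ≠ 0 → 0 ≤ P M γ x → 0 < Q M x) :
    ∃ r > 0, ∀ x : E, ‖x‖ = 1 → r * P M γ x < Q M x := by
  have : ProperSpace E := FiniteDimensional.proper ℂ E
  have hne : ∀ x : E, ‖x‖ = 1 → x ≠ 0 := fun x hx h => by simp [h] at hx
  have hS : IsCompact (Metric.sphere (0 : E) 1) := isCompact_sphere _ _
  have hK1 : IsCompact (Metric.sphere (0 : E) 1 ∩ {x | Q M x ≤ 0}) :=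
    hS.inter_right (isClosed_le continuous_Q continuous_const)
  have hK2 : IsCompact (Metric.sphere (0 : E) 1 ∩ {x | 0 ≤ P M γ x}) :=
    hS.inter_right (isClosed_le continuous_const continuous_P)
  have hP1 : ∀ x ∈ Metric.sphere (0 : E) 1 ∩ {x | Q M x ≤ 0}, P M γ x < 0 := by
    intro x hx
    by_contra hc
    exact absurd (h x (hne x (by simpa using hx.1)) (not_lt.1 hc)) (not_lt.2 hx.2)
  have hQ2 : ∀ x ∈ Metric.sphere (0 : E) 1 ∩ {x | 0 ≤ P M γ x}, 0 < Q M x := fun x hx =>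
    h x (hne x (by simpa using hx.1)) hx.2
  obtain ⟨a, ha0, ha, ha'⟩ : ∃ a : ℝ, 0 ≤ a ∧
      (∀ x ∈ Metric.sphere (0 : E) 1 ∩ {x | Q M x ≤ 0}, Q M x / P M γ x ≤ a) ∧
      (0 < a → ∃ x ∈ Metric.sphere (0 : E) 1 ∩ {x | Q M x ≤ 0}, Q M x / P M γ x = a) := by
    rcases Set.eq_empty_or_nonempty (Metric.sphere (0 : E) 1 ∩ {x | Q M x ≤ 0}) with he | hn
    · exact ⟨0, le_rfl, by rw [he]; simp, fun h => absurd h (lt_irrefl _)⟩
    · obtain ⟨x, hx, hmax⟩ := hK1.exists_isMaxOn hn (f := fun x => Q M x / P M γ x)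
        (continuous_Q.continuousOn.div continuous_P.continuousOn fun x hx => (hP1 x hx).ne)
      exact ⟨Q M x / P M γ x, div_nonneg_of_nonpos hx.2 (hP1 x hx).le,
        fun y hy => hmax hy, fun _ => ⟨x, hx, rfl⟩⟩
  obtain ⟨b, hb0, hb, hb'⟩ : ∃ b : ℝ, 0 ≤ b ∧
      (∀ x ∈ Metric.sphere (0 : E) 1 ∩ {x | 0 ≤ P M γ x}, P M γ x / Q M x ≤ b) ∧
      (0 < b → ∃ x ∈ Metric.sphere (0 : E) 1 ∩ {x | 0 ≤ P M γ x}, P M γ x / Q M x = b) := by
    rcases Set.eq_empty_or_nonempty (Metric.sphere (0 : E) 1 ∩ {x | 0 ≤ P M γ x}) with he | hn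
    · exact ⟨0, le_rfl, by rw [he]; simp, fun h => absurd h (lt_irrefl _)⟩
    · obtain ⟨x, hx, hmax⟩ := hK2.exists_isMaxOn hn (f := fun x => P M γ x / Q M x)
        (continuous_P.continuousOn.div continuous_Q.continuousOn fun x hx => (hQ2 x hx).ne')
      exact ⟨P M γ x / Q M x, div_nonneg hx.2 (hQ2 x hx).le,
        fun y hy => hmax hy, fun _ => ⟨x, hx, rfl⟩⟩
  have hab : a * b < 1 := by
    rcases ha0.eq_or_lt with h' | h'
    · rw [← h']; norm_num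
    rcases hb0.eq_or_lt with h'' | h''
    · rw [← h'']; norm_num
    obtain ⟨x₁, hx1, e1⟩ := ha' h'
    obtain ⟨x₂, hx2, e2⟩ := hb' h''
    have hp1 := hP1 x₁ hx1
    have hq2 := hQ2 x₂ hx2
    have hp2 : 0 < P M γ x₂ := by
      have hx22 : 0 ≤ P M γ x₂ := hx2.2
      rcases hx22.eq_or_lt with h3 | h3
      · rw [← h3, zero_div] at e2; exact absurd e2 h''.ne
      · exact h3
    have key := two_forms h hp1 hp2
    rw [← e1, ← e2, div_mul_div_comm, div_lt_one_of_neg (mul_neg_of_neg_of_pos hp1 hq2)]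
    linarith
  obtain ⟨r, hr0, hra, hrb⟩ : ∃ r : ℝ, 0 < r ∧ a < r ∧ r * b < 1 := by
    rcases hb0.eq_or_lt with h' | h'
    · exact ⟨a + 1, by linarith, by linarith, by rw [← h']; norm_num⟩
    · refine ⟨(a + 1 / b) / 2, ?_, ?_, ?_⟩
      · positivity
      · have : a < 1 / b := by rw [lt_div_iff₀ h']; exact hab
        linarith
      · have : (a + 1 / b) / 2 * b = (a * b + 1) / 2 := by field_simp
        rw [this]; linarith
  refine ⟨r, hr0, fun x hx => ?_⟩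
  have hxs : x ∈ Metric.sphere (0 : E) 1 := by simpa using hx
  by_cases hq : Q M x ≤ 0
  · have hp := hP1 x ⟨hxs, hq⟩
    have := (ha x ⟨hxs, hq⟩).trans_lt hra
    rw [div_lt_iff_of_neg hp] at this
    exact this
  · push Not at hq
    by_cases hp : 0 ≤ P M γ x
    · have := hb x ⟨hxs, hp⟩
      rw [div_le_iff₀ hq] at this
      calc r * P M γ x ≤ r * (b * Q M x) := mul_le_mul_of_nonneg_left this hr0.le
        _ = (r * b) * Q M x := by ring
        _ < 1 * Q M x := mul_lt_mul_of_pos_right hrb hq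
        _ = Q M x := one_mul _
    · push Not at hp
      exact (mul_neg_of_pos_of_neg hr0 hp).trans hq

end forms

section main
variable {E : Type*} [NormedAddCommGroup E] [InnerProductSpace ℂ E]

/-- feasibility of `γ` in the linear matrix inequality -/
def Feas (θ : ℝ) (M : E →L[ℂ] E) (γ : ℝ) : Prop :=
  ∃ r : ℝ, 0 < r ∧ ∃ β : ℝ, (0 < θ → |β| ≤ Real.cot θ) ∧
    ∀ x : E, x ≠ 0 → r * P M γ x < 2 * ((1 + β * I) * ⟪x, M x⟫_ℂ).re

/-- the destabilizing operators in the class -/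
def SS (θ : ℝ) (M : E →L[ℂ] E) : Set (E →L[ℂ] E) :=
  {T | (∀ u, Sec θ ⟪u, T u⟫_ℂ) ∧ ∃ x ≠ 0, T (M x) = -x}

open Classical in
/-- operator form of the phase-sensitive structured singular value -/
noncomputable def muOp (θ : ℝ) (M : E →L[ℂ] E) : ℝ :=
  if (SS θ M).Nonempty then 1 / sInf (norm '' SS θ M) else 0

/-- operator form of the bound -/
noncomputable def muHatOp (θ : ℝ) (M : E →L[ℂ] E) : ℝ := sInf {γ | 0 < γ ∧ Feas θ M γ}

theorem Feas.mono {θ : ℝ} {M : E →L[ℂ] E} {γ γ' : ℝ} (h : Feas θ M γ) (h0 : 0 < γ) (hγ : γ ≤ γ') :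
    Feas θ M γ' := by
  obtain ⟨r, hr, β, hβ, hx⟩ := h
  refine ⟨r, hr, β, hβ, fun x hx0 => lt_of_le_of_lt ?_ (hx x hx0)⟩
  refine mul_le_mul_of_nonneg_left ?_ hr.le
  unfold P
  have : γ ^ 2 ≤ γ' ^ 2 := pow_le_pow_left₀ h0.le hγ 2
  nlinarith [sq_nonneg ‖x‖]

theorem exists_feas {θ : ℝ} (h1 : θ ≤ Real.pi / 2) (M : E →L[ℂ] E) :
    ∃ γ, 0 < γ ∧ Feas θ M γ := by
  refine ⟨‖M‖ + 2, by positivity, 1, one_pos, 0, fun h => ?_, fun x hx => ?_⟩
  · rw [abs_zero, Real.cot_eq_cos_div_sin]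
    exact div_nonneg (Real.cos_nonneg_of_mem_Icc ⟨by linarith, h1⟩)
      (Real.sin_nonneg_of_nonneg_of_le_pi h.le (by linarith [Real.pi_pos]))
  · have hx0 : 0 < ‖x‖ := norm_pos_iff.2 hx
    have e1 : ‖M x‖ ≤ ‖M‖ * ‖x‖ := M.le_opNorm x
    have e2 : -(‖x‖ * ‖M x‖) ≤ (⟪x, M x⟫_ℂ).re := by
      have := (Complex.abs_re_le_norm _).trans (norm_inner_le_norm (𝕜 := ℂ) x (M x))
      exact (abs_le.1 this).1
    have e3 : ‖M x‖ ^ 2 ≤ (‖M‖ * ‖x‖) ^ 2 := pow_le_pow_left₀ (norm_nonneg _) e1 2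
    have e4 : ‖x‖ * ‖M x‖ ≤ ‖M‖ * ‖x‖ ^ 2 := by nlinarith
    have e5 : (((1 : ℂ) + ((0 : ℝ) : ℂ) * I) * ⟪x, M x⟫_ℂ).re = (⟪x, M x⟫_ℂ).re := by simp
    rw [e5]
    unfold P
    nlinarith [mul_pos hx0 hx0, norm_nonneg M, mul_nonneg (norm_nonneg M) (sq_nonneg ‖x‖)]

/-- a feasible `γ` forces `‖M x‖ < γ ‖x‖` on vectors with `-⟪x, M x⟫` in the cone -/
theorem Feas.norm_lt {θ : ℝ} (h0 : 0 ≤ θ) (h1 : θ ≤ Real.pi / 2) {M : E →L[ℂ] E} {γ : ℝ}
    (hγ : 0 < γ) (h : Feas θ M γ) {x : E} (hx : x ≠ 0) (hs : Sec θ (-⟪x, M x⟫_ℂ)) :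
    ‖M x‖ < γ * ‖x‖ := by
  obtain ⟨r, hr, β, hβ, hf⟩ := h
  have h2 := hf x hx
  have h3 := re_nonpos h0 h1 hβ hs
  have h4 : r * P M γ x < 0 := by linarith
  have h5 : P M γ x < 0 := by
    by_contra hc
    exact absurd (mul_nonneg hr.le (not_lt.1 hc)) (not_le.2 h4)
  unfold P at h5
  have : ‖M x‖ ^ 2 < (γ * ‖x‖) ^ 2 := by rw [mul_pow]; linarith
  exact lt_of_pow_lt_pow_left₀ 2 (by positivity) this

theorem muHatOp_nonneg (θ : ℝ) (M : E →L[ℂ] E) : 0 ≤ muHatOp θ M :=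
  Real.sInf_nonneg fun _ h => h.1.le

theorem feas_of_gt {θ : ℝ} (h1 : θ ≤ Real.pi / 2) {M : E →L[ℂ] E} {γ : ℝ}
    (h : muHatOp θ M < γ) : 0 < γ ∧ Feas θ M γ := by
  obtain ⟨γ', ⟨h2, h3⟩, h4⟩ := exists_lt_of_csInf_lt (exists_feas h1 M) h
  exact ⟨h2.trans h4, h3.mono h2 h4.le⟩

theorem norm_le_muHat {θ : ℝ} (h0 : 0 ≤ θ) (h1 : θ ≤ Real.pi / 2) {M : E →L[ℂ] E} {x : E}
    (hx : x ≠ 0) (hs : Sec θ (-⟪x, M x⟫_ℂ)) : ‖M x‖ ≤ muHatOp θ M * ‖x‖ := by
  have hx0 : 0 < ‖x‖ := norm_pos_iff.2 hx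
  rw [← div_le_iff₀ hx0]
  refine le_of_forall_gt_imp_ge_of_dense fun γ hγ => ?_
  obtain ⟨h2, h3⟩ := feas_of_gt h1 hγ
  rw [div_le_iff₀ hx0]
  exact (h3.norm_lt h0 h1 h2 hx hs).le

/-- for a member `T` of the class and `T (M x) = -x`, the vector `x` lies in the cone -/
theorem sec_of_mem {θ : ℝ} {M T : E →L[ℂ] E} (hT : ∀ u, Sec θ ⟪u, T u⟫_ℂ) {x : E}
    (hx : T (M x) = -x) : Sec θ (-⟪x, M x⟫_ℂ) := by
  have := (hT (M x)).conj
  rw [hx, inner_neg_right, map_neg, inner_conj_symm] at this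
  exact this

/-- `1 ≤ muHat ‖T‖` for every destabilizing operator of the class -/
theorem one_le {θ : ℝ} (h0 : 0 ≤ θ) (h1 : θ ≤ Real.pi / 2) {M T : E →L[ℂ] E}
    (hT : T ∈ SS θ M) : 1 ≤ muHatOp θ M * ‖T‖ := by
  obtain ⟨hT1, x, hx, hTx⟩ := hT
  have hx0 : 0 < ‖x‖ := norm_pos_iff.2 hx
  have h2 := norm_le_muHat h0 h1 hx (sec_of_mem hT1 hTx)
  have h3 : ‖x‖ ≤ ‖T‖ * ‖M x‖ := by
    have := T.le_opNorm (M x)
    rwa [hTx, norm_neg] at this
  have h4 : ‖x‖ ≤ (muHatOp θ M * ‖T‖) * ‖x‖ := by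
    calc ‖x‖ ≤ ‖T‖ * ‖M x‖ := h3
      _ ≤ ‖T‖ * (muHatOp θ M * ‖x‖) := mul_le_mul_of_nonneg_left h2 (norm_nonneg _)
      _ = _ := by ring
  by_contra hc
  push Not at hc
  nlinarith

theorem muOp_le {θ : ℝ} (h0 : 0 ≤ θ) (h1 : θ ≤ Real.pi / 2) (M : E →L[ℂ] E) :
    muOp θ M ≤ muHatOp θ M := by
  unfold muOp
  split_ifs with h
  · obtain ⟨T, hT⟩ := h
    have hpos : 0 < muHatOp θ M := by
      rcases (muHatOp_nonneg θ M).eq_or_lt with h | h
      · have := one_le h0 h1 hT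
        rw [← h, zero_mul] at this
        exact absurd this (by norm_num)
      · exact h
    have h2 : 1 / muHatOp θ M ≤ sInf (norm '' SS θ M) := by
      refine le_csInf ⟨_, T, hT, rfl⟩ ?_
      rintro _ ⟨T', hT', rfl⟩
      rw [div_le_iff₀ hpos, mul_comm]
      exact one_le h0 h1 hT'
    have h3 : 0 < 1 / muHatOp θ M := by positivity
    calc 1 / sInf (norm '' SS θ M) ≤ 1 / (1 / muHatOp θ M) := one_div_le_one_div_of_le h3 h2
      _ = muHatOp θ M := by rw [one_div_one_div]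
  · exact muHatOp_nonneg θ M

/-- the criterion for equality -/
def Crit (θ : ℝ) (M : E →L[ℂ] E) : Prop :=
  ∃ x : E, x ≠ 0 ∧ ‖M x‖ = muHatOp θ M * ‖x‖ ∧ ‖M x‖ * ‖x‖ * Real.cos θ ≤ (-⟪x, M x⟫_ℂ).re

theorem eq_of_crit {θ : ℝ} (h0 : 0 ≤ θ) (h1 : θ ≤ Real.pi / 2) {M : E →L[ℂ] E}
    (hpos : 0 < muHatOp θ M) (h : Crit θ M) : muOp θ M = muHatOp θ M := by
  obtain ⟨x, hx, hMx, hc⟩ := h
  have hx0 : 0 < ‖x‖ := norm_pos_iff.2 hx
  have hMx0 : 0 < ‖M x‖ := by rw [hMx]; positivity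
  have hy : M x ≠ 0 := norm_pos_iff.1 hMx0
  obtain ⟨T, hT1, hT2, hT3⟩ := exists_op h0 h1 hy (neg_ne_zero.2 hx) (by
    rw [norm_neg, inner_neg_right, ← inner_conj_symm, Complex.neg_re, Complex.conj_re]
    rw [Complex.neg_re] at hc
    linarith [mul_comm ‖x‖ ‖M x‖])
  have hTS : T ∈ SS θ M := ⟨hT3, x, hx, hT1⟩
  have hne : (SS θ M).Nonempty := ⟨T, hTS⟩
  refine le_antisymm (muOp_le h0 h1 M) ?_
  unfold muOp
  rw [if_pos hne]
  have h2 : ‖T‖ ≤ 1 / muHatOp θ M := by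
    refine hT2.trans (le_of_eq ?_)
    rw [norm_neg, hMx]
    field_simp
  have hbdd : BddBelow (norm '' SS θ M) := ⟨0, by rintro _ ⟨_, _, rfl⟩; exact norm_nonneg _⟩
  have h3 : sInf (norm '' SS θ M) ≤ 1 / muHatOp θ M :=
    (csInf_le hbdd (Set.mem_image_of_mem _ hTS)).trans h2
  have h4 : 0 < sInf (norm '' SS θ M) := by
    have : 1 / muHatOp θ M ≤ sInf (norm '' SS θ M) := by
      refine le_csInf ⟨_, T, hTS, rfl⟩ ?_
      rintro _ ⟨T', hT', rfl⟩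
      rw [div_le_iff₀ hpos, mul_comm]
      exact one_le h0 h1 hT'
    exact lt_of_lt_of_le (by positivity) this
  rw [le_div_iff₀ h4]
  calc muHatOp θ M * sInf (norm '' SS θ M) ≤ muHatOp θ M * (1 / muHatOp θ M) :=
        mul_le_mul_of_nonneg_left h3 hpos.le
    _ = 1 := by field_simp

theorem crit_of_eq [FiniteDimensional ℂ E] {θ : ℝ} (h0 : 0 ≤ θ) (h1 : θ ≤ Real.pi / 2)
    {M : E →L[ℂ] E} (hpos : 0 < muHatOp θ M) (h : muOp θ M = muHatOp θ M) : Crit θ M := by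
  have : CompleteSpace E := FiniteDimensional.complete ℂ E
  have : ProperSpace E := FiniteDimensional.proper ℂ E
  have : ProperSpace (E →L[ℂ] E) := FiniteDimensional.proper ℂ _
  have hne : (SS θ M).Nonempty := by
    by_contra hc
    rw [muOp, if_neg hc] at h
    exact hpos.ne h
  obtain ⟨T₀, hT₀⟩ := hne
  -- a minimizer
  set C : Set ((E →L[ℂ] E) × E) := {c | (∀ u, Sec θ ⟪u, c.1 u⟫_ℂ) ∧ ‖c.2‖ = 1 ∧
    c.1 (M c.2) = -c.2} with hC
  have hCclosed : IsClosed C := by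
    rw [hC]
    simp only [Set.setOf_and]
    refine IsClosed.inter ?_ (IsClosed.inter ?_ ?_)
    · rw [Set.setOf_forall]
      refine isClosed_iInter fun u => ?_
      unfold Sec
      have hcont : Continuous fun c : (E →L[ℂ] E) × E => ⟪u, c.1 u⟫_ℂ :=
        continuous_const.inner ((ContinuousLinearMap.apply ℂ E u).continuous.comp continuous_fst)
      exact isClosed_le (hcont.norm.mul continuous_const) (Complex.continuous_re.comp hcont)
    · exact isClosed_eq continuous_snd.norm continuous_const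
    · refine isClosed_eq ?_ continuous_snd.neg
      exact continuous_fst.clm_apply (M.continuous.comp continuous_snd)
  have hscale : ∀ T ∈ SS θ M, ∃ x, (T, x) ∈ C := by
    rintro T ⟨hT, x, hx, hTx⟩
    have hx0 : (‖x‖ : ℂ) ≠ 0 := by simpa using hx
    refine ⟨((‖x‖ : ℂ)⁻¹) • x, hT, ?_, ?_⟩
    · rw [norm_smul, norm_inv, Complex.norm_real, norm_norm, inv_mul_cancel₀ (by simpa using hx)]
    · simp only [map_smul, hTx, smul_neg]
  have hcomp : IsCompact (C ∩ Metric.closedBall (0 : (E →L[ℂ] E) × E) (‖T₀‖ + 1)) :=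
    (isCompact_closedBall _ _).inter_left hCclosed
  obtain ⟨x₀, hx₀⟩ := hscale T₀ hT₀
  have hmemball : ∀ T x, (T, x) ∈ C → ‖T‖ ≤ ‖T₀‖ →
      (T, x) ∈ Metric.closedBall (0 : (E →L[ℂ] E) × E) (‖T₀‖ + 1) := by
    intro T x hTx hle
    rw [mem_closedBall_zero_iff, Prod.norm_def]
    refine max_le (by simpa using by linarith) ?_
    have : ‖x‖ = 1 := hTx.2.1
    simp only [this]
    linarith [norm_nonneg T₀]
  obtain ⟨⟨T, x⟩, ⟨hTC, _⟩, hmin⟩ := hcomp.exists_isMinOn ⟨(T₀, x₀), hx₀, hmemball _ _ hx₀ le_rfl⟩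
    (f := fun c => ‖c.1‖) (continuous_fst.norm.continuousOn)
  have hx1 : ‖x‖ = 1 := hTC.2.1
  have hx : x ≠ 0 := fun h => by simp [h] at hx1
  have hTS : T ∈ SS θ M := ⟨hTC.1, x, hx, hTC.2.2⟩
  have hle : ∀ T' ∈ SS θ M, ‖T‖ ≤ ‖T'‖ := by
    intro T' hT'
    have hT₀le : ‖T‖ ≤ ‖T₀‖ := hmin ⟨hx₀, hmemball _ _ hx₀ le_rfl⟩
    rcases le_total ‖T'‖ ‖T₀‖ with h' | h'
    · obtain ⟨x', hx'⟩ := hscale T' hT'
      exact hmin ⟨hx', hmemball _ _ hx' h'⟩
    · exact hT₀le.trans h'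
  have hbdd : BddBelow (norm '' SS θ M) := ⟨0, by rintro _ ⟨_, _, rfl⟩; exact norm_nonneg _⟩
  have hinf : sInf (norm '' SS θ M) = ‖T‖ :=
    le_antisymm (csInf_le hbdd (Set.mem_image_of_mem _ hTS))
      (le_csInf ⟨_, T, hTS, rfl⟩ (by rintro _ ⟨T', hT', rfl⟩; exact hle T' hT'))
  have hTn : muHatOp θ M * ‖T‖ = 1 := by
    rw [muOp, if_pos ⟨T, hTS⟩, hinf] at h
    have : ‖T‖ ≠ 0 := fun h' => by rw [h', div_zero] at h; exact hpos.ne h
    rw [← h]; field_simp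
  have hTpos : 0 < ‖T‖ := by
    rcases (norm_nonneg T).eq_or_lt with h' | h'
    · rw [← h', mul_zero] at hTn; exact absurd hTn (by norm_num)
    · exact h'
  -- the vector
  have hs := sec_of_mem hTC.1 hTC.2.2
  have h2 := norm_le_muHat h0 h1 hx hs
  have h3 : ‖x‖ ≤ ‖T‖ * ‖M x‖ := by
    have := T.le_opNorm (M x)
    rwa [hTC.2.2, norm_neg] at this
  have h4 : ‖M x‖ = muHatOp θ M * ‖x‖ := by
    refine le_antisymm h2 ?_
    calc muHatOp θ M * ‖x‖ ≤ muHatOp θ M * (‖T‖ * ‖M x‖) := mul_le_mul_of_nonneg_left h3 hpos.le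
      _ = ‖M x‖ := by rw [← mul_assoc, hTn, one_mul]
  have h5 : ‖T (M x)‖ = ‖T‖ * ‖M x‖ := by
    rw [hTC.2.2, norm_neg, h4, ← mul_assoc, mul_comm ‖T‖, hTn, one_mul]
  have h6 := angle_of_norm_attained' h0 h1 T hTC.1 h5
  refine ⟨x, hx, h4, ?_⟩
  rw [hTC.2.2, norm_neg, inner_neg_right, ← inner_conj_symm, Complex.neg_re,
    Complex.conj_re] at h6
  rw [Complex.neg_re]
  linarith [mul_comm ‖x‖ ‖M x‖]

/-- at `θ = π / 2` the criterion always holds -/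
theorem crit_pi_div_two [FiniteDimensional ℂ E] {M : E →L[ℂ] E}
    (hpos : 0 < muHatOp (Real.pi / 2) M) : Crit (Real.pi / 2) M := by
  set γ := muHatOp (Real.pi / 2) M with hγ
  have : ProperSpace E := FiniteDimensional.proper ℂ E
  have key : ∃ x : E, x ≠ 0 ∧ 0 ≤ P M γ x ∧ Q M x ≤ 0 := by
    by_contra hcon
    push Not at hcon
    obtain ⟨r, hr, hrx⟩ := s_lemma hcon
    -- a margin
    obtain ⟨δ, hδ, hδx⟩ : ∃ δ > 0, ∀ x : E, ‖x‖ = 1 → r * P M γ x + δ ≤ Q M x := by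
      rcases Set.eq_empty_or_nonempty (Metric.sphere (0 : E) 1) with he | hn
      · refine ⟨1, one_pos, fun x hx => ?_⟩
        have : x ∈ Metric.sphere (0 : E) 1 := by simpa using hx
        rw [he] at this
        exact absurd this (Set.notMem_empty _)
      · obtain ⟨x, hx, hmin⟩ := (isCompact_sphere (0 : E) 1).exists_isMinOn hn
          (f := fun x => Q M x - r * P M γ x)
          ((continuous_Q.sub (continuous_const.mul continuous_P)).continuousOn)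
        refine ⟨Q M x - r * P M γ x, sub_pos.2 (hrx x (by simpa using hx)), fun y hy => ?_⟩
        have : Q M x - r * P M γ x ≤ Q M y - r * P M γ y := hmin (by simpa using hy)
        linarith
    -- a smaller feasible number
    obtain ⟨γ', h1, h2, h3⟩ : ∃ γ', 0 < γ' ∧ γ' < γ ∧ r * (γ ^ 2 - γ' ^ 2) < δ := by
      have hc : Filter.Tendsto (fun t : ℝ => r * (γ ^ 2 - t ^ 2)) (nhdsWithin γ (Set.Iio γ))
          (nhds (r * (γ ^ 2 - γ ^ 2))) := by
        have : Continuous fun t : ℝ => r * (γ ^ 2 - t ^ 2) := by fun_prop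
        exact (this.tendsto γ).mono_left nhdsWithin_le_nhds
      rw [sub_self, mul_zero] at hc
      have h4 := hc.eventually_lt_const hδ
      have h5 : ∀ᶠ t in nhdsWithin γ (Set.Iio γ), t < γ := self_mem_nhdsWithin
      have h6 : ∀ᶠ t in nhdsWithin γ (Set.Iio γ), 0 < t :=
        nhdsWithin_le_nhds (lt_mem_nhds hpos)
      obtain ⟨t, ht⟩ := (h4.and (h5.and h6)).exists
      exact ⟨t, ht.2.2, ht.2.1, ht.1⟩
    have hf : Feas (Real.pi / 2) M γ' := by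
      refine ⟨r, hr, 0, fun _ => by simp [Real.cot_eq_cos_div_sin], fun x hx => ?_⟩
      have hx0 : (‖x‖ : ℂ) ≠ 0 := by simpa using hx
      have hx0' : ‖x‖ ≠ 0 := by simpa using hx
      set y : E := ((‖x‖⁻¹ : ℝ) : ℂ) • x with hy
      have hyn : ‖y‖ = 1 := by
        rw [hy, norm_smul, Complex.norm_real, norm_inv, norm_norm, inv_mul_cancel₀ hx0']
      have hxy : x = ((‖x‖ : ℝ) : ℂ) • y := by
        rw [hy, smul_smul, ← Complex.ofReal_mul, mul_inv_cancel₀ hx0', Complex.ofReal_one,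
          one_smul]
      have e1 : r * P M γ' y < Q M y := by
        have h4 := hδx y hyn
        unfold P at h4 ⊢
        rw [hyn] at h4 ⊢
        linarith
      have e2 : r * P M γ' x < Q M x := by
        have hpos' : 0 < ‖x‖ ^ 2 := by positivity
        rw [hxy, P_smul, Q_smul]
        nlinarith
      have e3 : 2 * (((1 : ℂ) + ((0 : ℝ) : ℂ) * I) * ⟪x, M x⟫_ℂ).re = Q M x := by
        unfold Q; simp
      rw [e3]
      exact e2
    have : γ ≤ γ' := csInf_le ⟨0, fun _ h => h.1.le⟩ ⟨h1, hf⟩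
    linarith
  obtain ⟨x, hx, hp, hq⟩ := key
  have hx0 : 0 < ‖x‖ := norm_pos_iff.2 hx
  have hre : (⟪x, M x⟫_ℂ).re ≤ 0 := by unfold Q at hq; linarith
  have hs : Sec (Real.pi / 2) (-⟪x, M x⟫_ℂ) := by
    unfold Sec
    rw [Real.cos_pi_div_two, mul_zero, Complex.neg_re]
    linarith
  refine ⟨x, hx, le_antisymm (norm_le_muHat (by positivity) le_rfl hx hs) ?_, ?_⟩
  · unfold P at hp
    have : (γ * ‖x‖) ^ 2 ≤ ‖M x‖ ^ 2 := by rw [mul_pow]; linarith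
    exact le_of_sq_le_sq this (norm_nonneg _)
  · rw [Real.cos_pi_div_two, mul_zero, Complex.neg_re]
    linarith

/-- **Characterization** of equality (operator form) -/
theorem eq_iff [FiniteDimensional ℂ E] {θ : ℝ} (h0 : 0 ≤ θ) (h1 : θ ≤ Real.pi / 2)
    (M : E →L[ℂ] E) : muOp θ M = muHatOp θ M ↔ muHatOp θ M = 0 ∨ Crit θ M := by
  rcases (muHatOp_nonneg θ M).eq_or_lt with h | h
  · constructor
    · intro _; exact Or.inl h.symm
    · intro _
      refine le_antisymm (muOp_le h0 h1 M) ?_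
      rw [← h]
      unfold muOp
      split_ifs
      · exact one_div_nonneg.2 (Real.sInf_nonneg (by rintro _ ⟨_, _, rfl⟩; exact norm_nonneg _))
      · exact le_rfl
  · constructor
    · intro he; exact Or.inr (crit_of_eq h0 h1 h he)
    · rintro (he | he)
      · exact absurd he h.ne'
      · exact eq_of_crit h0 h1 h he

end main

end Pool.Agent.H18.SSV
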