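import Mathlib

set_option autoImplicit false
open Complex Matrix
open scoped ComplexOrder

namespace Pool.Agent.H18.SSVDefs

variable {n : ℕ}

/-- the closed cone `{z : z = 0 or |arg z| ≤ θ}` -/
def cone (θ : ℝ) : Set ℂ := {z | z = 0 ∨ |z.arg| ≤ θ}

/-- the class of matrices whose numerical range `{x* Γ x : ‖x‖ = 1}` lies in `cone θ` -/
def Gam (θ : ℝ) : Set (Matrix (Fin n) (Fin n) ℂ) :=
  {Γ | ∀ x : Fin n → ℂ, star x ⬝ᵥ x = 1 → star x ⬝ᵥ (Γ *ᵥ x) ∈ cone θ}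

/-- the Euclidean norm -/
noncomputable def euclNorm (x : Fin n → ℂ) : ℝ := Real.sqrt (∑ i, ‖x i‖ ^ 2)

/-- the largest singular value: the operator norm with respect to the Euclidean norm -/
noncomputable def sigmaMax (A : Matrix (Fin n) (Fin n) ℂ) : ℝ :=
  sInf {c : ℝ | 0 ≤ c ∧ ∀ x : Fin n → ℂ, euclNorm (A *ᵥ x) ≤ c * euclNorm x}

/-- the matrices `Γ` in the class with `I + Γ M` singular -/
def S (θ : ℝ) (M : Matrix (Fin n) (Fin n) ℂ) : Set (Matrix (Fin n) (Fin n) ℂ) :=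
  {Γ | Γ ∈ Gam θ ∧ (1 + Γ * M).det = 0}

open Classical in
/-- the phase-sensitive structured singular value -/
noncomputable def mu (θ : ℝ) (M : Matrix (Fin n) (Fin n) ℂ) : ℝ :=
  if (S θ M).Nonempty then 1 / sInf (sigmaMax '' S θ M) else 0

/-- the linear matrix inequality bound; `β` ranges over `[-cot θ, cot θ]` when `θ > 0` and over
all reals when `θ = 0` -/
noncomputable def muHat (θ : ℝ) (M : Matrix (Fin n) (Fin n) ℂ) : ℝ :=
  sInf {γ : ℝ | 0 < γ ∧ ∃ r : ℝ, 0 < r ∧ ∃ β : ℝ, (0 < θ → |β| ≤ Real.cot θ) ∧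
    (-((r : ℂ) • (Mᴴ * M - ((γ : ℂ) ^ 2) • (1 : Matrix (Fin n) (Fin n) ℂ)) -
      ((1 + β * I) • M + ((1 + β * I) • M)ᴴ))).PosDef}

end Pool.Agent.H18.SSVDefs
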