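import Pool.Agent.H18.SSV2
import Pool.Agent.H18.SSVDefs

set_option autoImplicit false
open Complex Matrix
open scoped ComplexOrder
open scoped InnerProductSpace

namespace Pool.Agent.H18.SSV
open Pool.Agent.H18.SSVDefs

variable {n : ℕ}

/-- a matrix as an operator -/
noncomputable abbrev toOp (A : Matrix (Fin n) (Fin n) ℂ) :
    EuclideanSpace ℂ (Fin n) →L[ℂ] EuclideanSpace ℂ (Fin n) :=
  Matrix.toEuclideanCLM (n := Fin n) (𝕜 := ℂ) A

theorem inner_toLp (x y : Fin n → ℂ) :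
    ⟪(WithLp.toLp 2 x : EuclideanSpace ℂ (Fin n)), WithLp.toLp 2 y⟫_ℂ = star x ⬝ᵥ y := by
  rw [EuclideanSpace.inner_eq_star_dotProduct, dotProduct_comm]

theorem toOp_toLp (A : Matrix (Fin n) (Fin n) ℂ) (x : Fin n → ℂ) :
    toOp A (WithLp.toLp 2 x) = WithLp.toLp 2 (A *ᵥ x) := rfl

theorem norm_toLp (x : Fin n → ℂ) :
    ‖(WithLp.toLp 2 x : EuclideanSpace ℂ (Fin n))‖ = euclNorm x := by
  rw [EuclideanSpace.norm_eq, euclNorm]

theorem sigmaMax_eq (A : Matrix (Fin n) (Fin n) ℂ) : sigmaMax A = ‖toOp A‖ := by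
  rw [ContinuousLinearMap.norm_def, sigmaMax]
  congr 1
  ext c
  constructor
  · rintro ⟨h0, h⟩
    refine ⟨h0, fun u => ?_⟩
    have := h u.ofLp
    rw [← norm_toLp, ← norm_toLp, ← toOp_toLp] at this
    exact this
  · rintro ⟨h0, h⟩
    refine ⟨h0, fun x => ?_⟩
    have := h (WithLp.toLp 2 x)
    rw [toOp_toLp, norm_toLp, norm_toLp] at this
    exact this

theorem mem_Gam {θ : ℝ} (h0 : 0 ≤ θ) (h1 : θ ≤ Real.pi / 2) (A : Matrix (Fin n) (Fin n) ℂ) :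
    A ∈ Gam θ ↔ ∀ u, Sec θ ⟪u, toOp A u⟫_ℂ := by
  constructor
  · intro h u
    by_cases hu : u = 0
    · rw [hu]; simp [Sec]
    have hu0 : ‖u‖ ≠ 0 := by simpa using hu
    set x : Fin n → ℂ := (((‖u‖⁻¹ : ℝ) : ℂ)) • u.ofLp with hx
    have hxu : (WithLp.toLp 2 x : EuclideanSpace ℂ (Fin n)) = ((‖u‖⁻¹ : ℝ) : ℂ) • u := by
      rw [hx]; rfl
    have h2 := h x (by
      rw [← inner_toLp, hxu, inner_smul_left, inner_smul_right, inner_self_real,
        Complex.conj_ofReal, ← Complex.ofReal_mul, ← Complex.ofReal_mul, ← Complex.ofReal_one]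
      congr 1
      field_simp)
    have h3 := (sector_iff h0 h1 _).1 h2
    rw [← inner_toLp, ← toOp_toLp, hxu, map_smul, inner_smul_left, inner_smul_right,
      Complex.conj_ofReal, ← mul_assoc, ← Complex.ofReal_mul] at h3
    unfold Sec at h3 ⊢
    rw [norm_mul, Complex.norm_real, Complex.re_ofReal_mul, Real.norm_of_nonneg (by positivity),
      mul_assoc] at h3
    exact le_of_mul_le_mul_left h3 (by positivity)
  · intro h x _
    have := h (WithLp.toLp 2 x)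
    rw [toOp_toLp, inner_toLp] at this
    exact (sector_iff h0 h1 _).2 this

theorem mem_S {θ : ℝ} (h0 : 0 ≤ θ) (h1 : θ ≤ Real.pi / 2) (M A : Matrix (Fin n) (Fin n) ℂ) :
    A ∈ S θ M ↔ toOp A ∈ SS θ (toOp M) := by
  unfold S SS
  rw [Set.mem_setOf_eq, Set.mem_setOf_eq, mem_Gam h0 h1]
  refine and_congr_right fun _ => ?_
  rw [← Matrix.exists_mulVec_eq_zero_iff]
  constructor
  · rintro ⟨v, hv, h⟩
    refine ⟨WithLp.toLp 2 v, fun h' => hv ?_, ?_⟩
    · have := congrArg WithLp.ofLp h'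
      simpa using this
    · rw [toOp_toLp, toOp_toLp, Matrix.mulVec_mulVec]
      rw [Matrix.add_mulVec, Matrix.one_mulVec] at h
      rw [eq_neg_of_add_eq_zero_right h]
      rfl
  · rintro ⟨u, hu, h⟩
    refine ⟨u.ofLp, fun h' => hu ?_, ?_⟩
    · have := congrArg (WithLp.toLp 2) h'
      simpa using this
    · rw [Matrix.add_mulVec, Matrix.one_mulVec, ← Matrix.mulVec_mulVec]
      have := congrArg WithLp.ofLp h
      simp only [Matrix.ofLp_toEuclideanCLM, WithLp.ofLp_neg] at this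
      rw [this]
      simp

theorem toOp_surj (T : EuclideanSpace ℂ (Fin n) →L[ℂ] EuclideanSpace ℂ (Fin n)) :
    ∃ A, toOp A = T := (Matrix.toEuclideanCLM (n := Fin n) (𝕜 := ℂ)).surjective T

theorem mu_eq {θ : ℝ} (h0 : 0 ≤ θ) (h1 : θ ≤ Real.pi / 2) (M : Matrix (Fin n) (Fin n) ℂ) :
    mu θ M = muOp θ (toOp M) := by
  have himg : sigmaMax '' S θ M = norm '' SS θ (toOp M) := by
    ext t
    constructor
    · rintro ⟨A, hA, rfl⟩
      exact ⟨toOp A, (mem_S h0 h1 M A).1 hA, (sigmaMax_eq A).symm⟩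
    · rintro ⟨T, hT, rfl⟩
      obtain ⟨A, rfl⟩ := toOp_surj T
      exact ⟨A, (mem_S h0 h1 M A).2 hT, sigmaMax_eq A⟩
  have hne : (S θ M).Nonempty ↔ (SS θ (toOp M)).Nonempty := by
    rw [← Set.image_nonempty (f := sigmaMax), himg, Set.image_nonempty]
  unfold mu muOp
  rw [himg]
  by_cases h : (S θ M).Nonempty
  · rw [if_pos h, if_pos (hne.1 h)]
  · rw [if_neg h, if_neg (fun h' => h (hne.2 h'))]

theorem posDef_iff (M : Matrix (Fin n) (Fin n) ℂ) (r γ β : ℝ) :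
    (-((r : ℂ) • (Mᴴ * M - ((γ : ℂ) ^ 2) • (1 : Matrix (Fin n) (Fin n) ℂ)) -
      ((1 + β * I) • M + ((1 + β * I) • M)ᴴ))).PosDef ↔
    ∀ x : EuclideanSpace ℂ (Fin n), x ≠ 0 →
      r * P (toOp M) γ x < 2 * ((1 + β * I) * ⟪x, toOp M x⟫_ℂ).re := by
  have hform : ∀ x : Fin n → ℂ, star x ⬝ᵥ ((-((r : ℂ) • (Mᴴ * M -
      ((γ : ℂ) ^ 2) • (1 : Matrix (Fin n) (Fin n) ℂ)) -
      ((1 + β * I) • M + ((1 + β * I) • M)ᴴ))) *ᵥ x) =
      ((2 * ((1 + β * I) * ⟪(WithLp.toLp 2 x : EuclideanSpace ℂ (Fin n)),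
        toOp M (WithLp.toLp 2 x)⟫_ℂ).re - r * P (toOp M) γ (WithLp.toLp 2 x) : ℝ) : ℂ) := by
    intro x
    have e1 : star x ⬝ᵥ ((Mᴴ * M) *ᵥ x) = ((‖toOp M (WithLp.toLp 2 x)‖ ^ 2 : ℝ) : ℂ) := by
      rw [← inner_self_real, toOp_toLp, inner_toLp, ← Matrix.mulVec_mulVec,
        Matrix.dotProduct_mulVec, Matrix.star_mulVec]
    have e2 : star x ⬝ᵥ x = ((‖(WithLp.toLp 2 x : EuclideanSpace ℂ (Fin n))‖ ^ 2 : ℝ) : ℂ) := by
      rw [← inner_self_real, inner_toLp]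
    have e3 : star x ⬝ᵥ (((1 + β * I) • M)ᴴ *ᵥ x) =
        (starRingEnd ℂ) (star x ⬝ᵥ (((1 + β * I) • M) *ᵥ x)) := by
      rw [Matrix.dotProduct_mulVec, ← Matrix.star_mulVec, starRingEnd_apply,
        Matrix.star_dotProduct]
    have e4 : star x ⬝ᵥ (((1 + β * I) • M) *ᵥ x) =
        (1 + β * I) * ⟪(WithLp.toLp 2 x : EuclideanSpace ℂ (Fin n)),
          toOp M (WithLp.toLp 2 x)⟫_ℂ := by
      rw [Matrix.smul_mulVec, dotProduct_smul, toOp_toLp, inner_toLp, smul_eq_mul]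
    rw [Matrix.neg_mulVec, Matrix.sub_mulVec, Matrix.smul_mulVec, Matrix.sub_mulVec,
      Matrix.smul_mulVec, Matrix.one_mulVec, Matrix.add_mulVec, dotProduct_neg, dotProduct_sub,
      dotProduct_smul, dotProduct_sub, dotProduct_smul, dotProduct_add, e1, e2, e3, e4,
      Complex.add_conj, P]
    simp only [smul_eq_mul]
    push_cast
    ring
  rw [Matrix.posDef_iff_dotProduct_mulVec]
  constructor
  · rintro ⟨_, h⟩ x hx
    have := h (x := x.ofLp) (fun h' => hx (by simpa using congrArg (WithLp.toLp 2) h'))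
    rw [hform] at this
    have := Complex.zero_lt_real.1 this
    exact sub_pos.1 this
  · intro h
    refine ⟨?_, fun x hx => ?_⟩
    · have hr : star (r : ℂ) = r := Complex.conj_ofReal r
      have hg : star ((γ : ℂ) ^ 2) = (γ : ℂ) ^ 2 := by
        rw [star_pow]; congr 1; exact Complex.conj_ofReal γ
      rw [Matrix.IsHermitian, Matrix.conjTranspose_neg, Matrix.conjTranspose_sub,
        Matrix.conjTranspose_smul, Matrix.conjTranspose_sub, Matrix.conjTranspose_mul,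
        Matrix.conjTranspose_conjTranspose, Matrix.conjTranspose_smul, Matrix.conjTranspose_one,
        Matrix.conjTranspose_add, Matrix.conjTranspose_conjTranspose, hr, hg, add_comm ((_ : Matrix _ _ ℂ)ᴴ)]
    · rw [hform]
      refine Complex.zero_lt_real.2 (sub_pos.2 (h _ fun h' => hx ?_))
      simpa using congrArg WithLp.ofLp h'

theorem muHat_eq (θ : ℝ) (M : Matrix (Fin n) (Fin n) ℂ) : muHat θ M = muHatOp θ (toOp M) := by
  unfold muHat muHatOp Feas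
  simp only [posDef_iff]

/-- the vector condition of the criterion -/
theorem crit_iff (θ : ℝ) (M : Matrix (Fin n) (Fin n) ℂ) : Crit θ (toOp M) ↔
    ∃ x : Fin n → ℂ, x ≠ 0 ∧ euclNorm (M *ᵥ x) = muHat θ M * euclNorm x ∧
      euclNorm (M *ᵥ x) * euclNorm x * Real.cos θ ≤ (-(star x ⬝ᵥ (M *ᵥ x))).re := by
  rw [muHat_eq]
  constructor
  · rintro ⟨x, hx, h1, h2⟩
    refine ⟨x.ofLp, fun h' => hx (by simpa using congrArg (WithLp.toLp 2) h'), ?_, ?_⟩
    · rw [← norm_toLp, ← norm_toLp]; exact h1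
    · rw [← norm_toLp, ← norm_toLp, ← inner_toLp]; exact h2
  · rintro ⟨x, hx, h1, h2⟩
    refine ⟨WithLp.toLp 2 x, fun h' => hx (by simpa using congrArg WithLp.ofLp h'), ?_, ?_⟩
    · rw [toOp_toLp, norm_toLp, norm_toLp]; exact h1
    · rw [toOp_toLp, norm_toLp, norm_toLp, inner_toLp]; exact h2

theorem main_iff {θ : ℝ} (h0 : 0 ≤ θ) (h1 : θ ≤ Real.pi / 2) (M : Matrix (Fin n) (Fin n) ℂ) :
    mu θ M = muHat θ M ↔ muHat θ M = 0 ∨
      ∃ x : Fin n → ℂ, x ≠ 0 ∧ euclNorm (M *ᵥ x) = muHat θ M * euclNorm x ∧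
        euclNorm (M *ᵥ x) * euclNorm x * Real.cos θ ≤ (-(star x ⬝ᵥ (M *ᵥ x))).re := by
  rw [← crit_iff, mu_eq h0 h1, muHat_eq]
  exact eq_iff h0 h1 (toOp M)

theorem main_pi_div_two (M : Matrix (Fin n) (Fin n) ℂ) :
    mu (Real.pi / 2) M = muHat (Real.pi / 2) M := by
  rw [mu_eq (by positivity) le_rfl, muHat_eq, eq_iff (by positivity) le_rfl]
  rcases (muHatOp_nonneg (Real.pi / 2) (toOp M)).eq_or_lt with h | h
  · exact Or.inl h.symm
  · exact Or.inr (crit_pi_div_two h)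

/-- the example -/
def exM (n : ℕ) : Matrix (Fin n) (Fin n) ℂ := Matrix.diagonal fun i => if i.val = 0 then -1 else 4

theorem example_strict {m : ℕ} {θ : ℝ} (h0 : 0 ≤ θ) (h1 : θ < Real.pi / 2) :
    muHat θ (exM (m + 2)) = 2 ∧ mu θ (exM (m + 2)) < 2 := by
  -- the two quadratic forms of the example
  have hM : ∀ x : EuclideanSpace ℂ (Fin (m + 2)), ∀ i, (toOp (exM (m + 2)) x).ofLp i =
      (if i.val = 0 then -1 else 4) * x.ofLp i := by
    intro x i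
    rw [Matrix.ofLp_toEuclideanCLM, exM, Matrix.mulVec_diagonal]
  have hx2 : ∀ x : EuclideanSpace ℂ (Fin (m + 2)), ‖x‖ ^ 2 = ‖x.ofLp 0‖ ^ 2 +
      ∑ i : Fin (m + 1), ‖x.ofLp i.succ‖ ^ 2 := by
    intro x
    rw [EuclideanSpace.norm_sq_eq, Fin.sum_univ_succ]
  have hMx2 : ∀ x : EuclideanSpace ℂ (Fin (m + 2)), ‖toOp (exM (m + 2)) x‖ ^ 2 = ‖x.ofLp 0‖ ^ 2 +
      16 * ∑ i : Fin (m + 1), ‖x.ofLp i.succ‖ ^ 2 := by
    intro x
    rw [EuclideanSpace.norm_sq_eq, Fin.sum_univ_succ, Finset.mul_sum]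
    congr 1
    · rw [hM]; simp
    · refine Finset.sum_congr rfl fun i _ => ?_
      rw [hM]
      simp [mul_pow]
      norm_num
  have hself : ∀ (c : ℂ) (z : ℂ), ⟪z, c * z⟫_ℂ = c * ((‖z‖ ^ 2 : ℝ) : ℂ) := by
    intro c z
    rw [← smul_eq_mul c z, inner_smul_right, inner_self_real]
  have hin : ∀ x : EuclideanSpace ℂ (Fin (m + 2)), ⟪x, toOp (exM (m + 2)) x⟫_ℂ =
      ((-‖x.ofLp 0‖ ^ 2 + 4 * ∑ i : Fin (m + 1), ‖x.ofLp i.succ‖ ^ 2 : ℝ) : ℂ) := by
    intro x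
    rw [PiLp.inner_apply, Fin.sum_univ_succ]
    push_cast
    rw [Finset.mul_sum]
    congr 1
    · rw [hM, hself]
      simp
    · refine Finset.sum_congr rfl fun i _ => ?_
      rw [hM, hself]
      simp
  have hb0 : ∀ x : EuclideanSpace ℂ (Fin (m + 2)), 0 ≤ ∑ i : Fin (m + 1), ‖x.ofLp i.succ‖ ^ 2 :=
    fun x => Finset.sum_nonneg fun _ _ => sq_nonneg _
  have hfeas : ∀ γ : ℝ, 0 < γ → (Feas θ (toOp (exM (m + 2))) γ ↔ 2 < γ) := by
    intro γ hγ
    constructor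
    · rintro ⟨r, hr, β, _, hf⟩
      set x : EuclideanSpace ℂ (Fin (m + 2)) :=
        WithLp.toLp 2 (fun i => if i.val = 0 then 2 else if i.val = 1 then 1 else 0) with hx
      have e0 : ‖x.ofLp 0‖ ^ 2 = 4 := by rw [hx]; simp; norm_num
      have e1 : ∑ i : Fin (m + 1), ‖x.ofLp i.succ‖ ^ 2 = 1 := by
        rw [hx, Fin.sum_univ_succ]
        simp
      have hx0 : x ≠ 0 := by
        intro h
        rw [h] at e0
        norm_num at e0
      have h2 := hf x hx0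
      rw [hin, e0, e1] at h2
      unfold P at h2
      rw [hMx2, hx2, e0, e1] at h2
      norm_num at h2
      have h3 : 20 - γ ^ 2 * 5 < 0 := by
        by_contra hc
        exact absurd (mul_nonneg hr.le (not_lt.1 hc)) (not_le.2 h2)
      nlinarith
    · intro h
      refine ⟨2 / 3, by norm_num, 0, fun hθ => ?_, fun x hx => ?_⟩
      · rw [abs_zero, Real.cot_eq_cos_div_sin]
        exact div_nonneg (Real.cos_nonneg_of_mem_Icc ⟨by linarith, h1.le⟩)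
          (Real.sin_nonneg_of_nonneg_of_le_pi hθ.le (by linarith [Real.pi_pos]))
      · have hpos : 0 < ‖x‖ ^ 2 := by
          have : 0 < ‖x‖ := norm_pos_iff.2 hx
          positivity
        rw [hin]
        unfold P
        rw [hMx2]
        have e : (((1 : ℂ) + ((0 : ℝ) : ℂ) * I) * ((-‖x.ofLp 0‖ ^ 2 +
            4 * ∑ i : Fin (m + 1), ‖x.ofLp i.succ‖ ^ 2 : ℝ) : ℂ)).re = -‖x.ofLp 0‖ ^ 2 +
            4 * ∑ i : Fin (m + 1), ‖x.ofLp i.succ‖ ^ 2 := by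
          rw [Complex.ofReal_zero, zero_mul, add_zero, one_mul, Complex.ofReal_re]
        rw [e]
        have h3 := hx2 x
        have h4 : 4 < γ ^ 2 := by nlinarith
        nlinarith
  have hhat : muHatOp θ (toOp (exM (m + 2))) = 2 := by
    unfold muHatOp
    have : {γ : ℝ | 0 < γ ∧ Feas θ (toOp (exM (m + 2))) γ} = Set.Ioi 2 := by
      ext γ
      constructor
      · rintro ⟨h2, h3⟩; exact (hfeas γ h2).1 h3
      · intro h2
        have h3 : (0 : ℝ) < γ := lt_trans (by norm_num) h2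
        exact ⟨h3, (hfeas γ h3).2 h2⟩
    rw [this, csInf_Ioi]
  refine ⟨by rw [muHat_eq, hhat], ?_⟩
  rw [mu_eq h0 h1.le]
  have hle := muOp_le h0 h1.le (toOp (exM (m + 2)))
  rw [hhat] at hle
  refine lt_of_le_of_ne hle fun heq => ?_
  rw [← hhat] at heq
  rcases (eq_iff h0 h1.le _).1 heq with h | ⟨x, hx, h2, h3⟩
  · rw [hhat] at h; norm_num at h
  · have hx0 : 0 < ‖x‖ := norm_pos_iff.2 hx
    rw [hhat] at h2
    have h4 : ‖toOp (exM (m + 2)) x‖ ^ 2 = 4 * ‖x‖ ^ 2 := by rw [h2]; ring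
    rw [hMx2, hx2] at h4
    rw [hin, h2, Complex.neg_re, Complex.ofReal_re] at h3
    have hc : 0 < Real.cos θ := Real.cos_pos_of_mem_Ioo ⟨by linarith, h1⟩
    have h5 : 0 < 2 * ‖x‖ * ‖x‖ * Real.cos θ := by positivity
    linarith

section scalar
variable {E : Type*} [NormedAddCommGroup E] [InnerProductSpace ℂ E]

theorem exists_beta {θ : ℝ} (h0 : 0 ≤ θ) (h1 : θ ≤ Real.pi / 2) {m : ℂ} (hs : ¬ Sec θ (-m)) :
    ∃ β : ℝ, (0 < θ → |β| ≤ Real.cot θ) ∧ 0 < ((1 + β * I) * m).re := by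
  have hre : ∀ β : ℝ, ((1 + β * I) * m).re = m.re - β * m.im := fun β => by simp
  have hc0 : 0 ≤ Real.cos θ := Real.cos_nonneg_of_mem_Icc ⟨by linarith, h1⟩
  have hs0 : 0 ≤ Real.sin θ := Real.sin_nonneg_of_nonneg_of_le_pi h0 (by linarith)
  have hcot : 0 < θ → 0 ≤ Real.cot θ := fun _ => by
    rw [Real.cot_eq_cos_div_sin]; exact div_nonneg hc0 hs0
  rcases lt_or_ge 0 m.re with hm | hm
  · exact ⟨0, fun h => by rw [abs_zero]; exact hcot h, by rw [hre]; simpa using hm⟩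
  have h2 : -m.re < ‖m‖ * Real.cos θ := by
    unfold Sec at hs
    rw [norm_neg, Complex.neg_re] at hs
    exact not_le.1 hs
  have hn : ‖m‖ ^ 2 = m.re ^ 2 + m.im ^ 2 := by
    rw [Complex.sq_norm, Complex.normSq_apply]; ring
  have h3 : (-m.re) ^ 2 < (‖m‖ * Real.cos θ) ^ 2 := pow_lt_pow_left₀ h2 (by linarith) two_ne_zero
  have hcs := Real.sin_sq_add_cos_sq θ
  have h4 : (-m.re * Real.sin θ) ^ 2 < (|m.im| * Real.cos θ) ^ 2 := by
    rw [mul_pow, mul_pow, sq_abs]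
    rw [mul_pow, hn] at h3
    nlinarith
  have h5 : -m.re * Real.sin θ < |m.im| * Real.cos θ :=
    lt_of_pow_lt_pow_left₀ 2 (by positivity) h4
  have hsg : ∀ t : ℝ, 0 ≤ t → ∃ β : ℝ, |β| = t ∧ -(β * m.im) = t * |m.im| := by
    intro t ht
    rcases le_total 0 m.im with h | h
    · exact ⟨-t, by rw [abs_neg, abs_of_nonneg ht], by rw [abs_of_nonneg h]; ring⟩
    · exact ⟨t, abs_of_nonneg ht, by rw [abs_of_nonpos h]; ring⟩
  rcases h0.eq_or_lt with h | h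
  · subst h
    simp only [Real.sin_zero, mul_zero, Real.cos_zero, mul_one] at h5
    obtain ⟨β, _, hβ⟩ := hsg ((-m.re + 1) / |m.im|) (div_nonneg (by linarith) (abs_nonneg _))
    refine ⟨β, fun h => absurd h (lt_irrefl _), ?_⟩
    rw [hre]
    rw [div_mul_cancel₀ _ h5.ne'] at hβ
    linarith
  · obtain ⟨β, hβ1, hβ⟩ := hsg (Real.cot θ) (hcot h)
    refine ⟨β, fun _ => hβ1.le, ?_⟩
    rw [hre]
    have hsp : 0 < Real.sin θ := Real.sin_pos_of_pos_of_lt_pi h (by linarith [Real.pi_pos])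
    have h6 : -m.re < Real.cot θ * |m.im| := by
      rw [Real.cot_eq_cos_div_sin, div_mul_eq_mul_div, lt_div_iff₀ hsp]
      linarith [mul_comm (Real.cos θ) |m.im|]
    linarith

theorem scalar_case {θ : ℝ} (h0 : 0 ≤ θ) (h1 : θ ≤ Real.pi / 2) {M : E →L[ℂ] E} {m : ℂ}
    (hM : ∀ x, M x = m • x) (hE : ∃ x : E, x ≠ 0) : muHatOp θ M = 0 ∨ Crit θ M := by
  have hin : ∀ x : E, ⟪x, M x⟫_ℂ = m * ((‖x‖ ^ 2 : ℝ) : ℂ) := fun x => by
    rw [hM, inner_smul_right, inner_self_real]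
  have hP : ∀ γ x, P M γ x = (‖m‖ ^ 2 - γ ^ 2) * ‖x‖ ^ 2 := fun γ x => by
    unfold P; rw [hM, norm_smul]; ring
  have hform : ∀ (β : ℝ) (x : E), ((1 + β * I) * ⟪x, M x⟫_ℂ).re =
      ((1 + β * I) * m).re * ‖x‖ ^ 2 := fun β x => by
    rw [hin, ← mul_assoc, mul_comm, Complex.re_ofReal_mul, mul_comm]
  by_cases hs : Sec θ (-m)
  · rcases (muHatOp_nonneg θ M).eq_or_lt with h | hpos
    · exact Or.inl h.symm
    obtain ⟨x, hx⟩ := hE
    have hx0 : 0 < ‖x‖ := norm_pos_iff.2 hx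
    have hc : ‖M x‖ * ‖x‖ * Real.cos θ ≤ (-⟪x, M x⟫_ℂ).re := by
      unfold Sec at hs
      rw [hin, hM, norm_smul, Complex.neg_re, mul_comm m, Complex.re_ofReal_mul]
      rw [norm_neg, Complex.neg_re] at hs
      nlinarith [mul_le_mul_of_nonneg_left hs (sq_nonneg ‖x‖)]
    have hsx : Sec θ (-⟪x, M x⟫_ℂ) := by
      unfold Sec
      refine le_trans (mul_le_mul_of_nonneg_right ?_
        (Real.cos_nonneg_of_mem_Icc ⟨by linarith [Real.pi_pos], h1⟩)) hc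
      rw [norm_neg, mul_comm]
      exact norm_inner_le_norm _ _
    have h2 := norm_le_muHat h0 h1 hx hsx
    rw [hM, norm_smul] at h2
    have h3 : ‖m‖ ≤ muHatOp θ M := le_of_mul_le_mul_right h2 hx0
    have h4 : muHatOp θ M ≤ ‖m‖ := by
      refine le_of_forall_gt_imp_ge_of_dense fun γ hγ => ?_
      have hγ0 : 0 < γ := lt_of_le_of_lt (norm_nonneg _) hγ
      have hd : 0 < γ ^ 2 - ‖m‖ ^ 2 := by
        have := pow_lt_pow_left₀ hγ (norm_nonneg _) two_ne_zero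
        linarith
      refine csInf_le ⟨0, fun _ h => h.1.le⟩ ⟨hγ0, (2 * ‖m‖ + 1) / (γ ^ 2 - ‖m‖ ^ 2),
        by positivity, 0, fun h => ?_, fun y hy => ?_⟩
      · rw [abs_zero, Real.cot_eq_cos_div_sin]
        exact div_nonneg (Real.cos_nonneg_of_mem_Icc ⟨by linarith [Real.pi_pos], h1⟩)
          (Real.sin_nonneg_of_nonneg_of_le_pi h.le (by linarith [Real.pi_pos]))
      · have hy0 : 0 < ‖y‖ ^ 2 := by have := norm_pos_iff.2 hy; positivity
        rw [hform, hP]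
        have e : (2 * ‖m‖ + 1) / (γ ^ 2 - ‖m‖ ^ 2) * ((‖m‖ ^ 2 - γ ^ 2) * ‖y‖ ^ 2) =
            -(2 * ‖m‖ + 1) * ‖y‖ ^ 2 := by
          field_simp
          ring
        rw [e]
        have e2 : (((1 : ℂ) + ((0 : ℝ) : ℂ) * I) * m).re = m.re := by simp
        rw [e2]
        have e3 : -‖m‖ ≤ m.re := (abs_le.1 (Complex.abs_re_le_norm m)).1
        nlinarith
    refine Or.inr ⟨x, hx, ?_, hc⟩
    rw [hM, norm_smul, le_antisymm h3 h4]
  · left
    obtain ⟨β, hβ, hpos⟩ := exists_beta h0 h1 hs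
    refine le_antisymm ?_ (muHatOp_nonneg θ M)
    refine le_of_forall_gt_imp_ge_of_dense fun γ hγ => ?_
    refine csInf_le ⟨0, fun _ h => h.1.le⟩ ⟨hγ, ((1 + β * I) * m).re / (‖m‖ ^ 2 + 1),
      by positivity, β, hβ, fun y hy => ?_⟩
    have hy0 : 0 < ‖y‖ ^ 2 := by have := norm_pos_iff.2 hy; positivity
    rw [hform, hP]
    set c := ((1 + β * I) * m).re
    have e1 : c / (‖m‖ ^ 2 + 1) * (‖m‖ ^ 2 - γ ^ 2) ≤ c := by
      rw [div_mul_eq_mul_div, div_le_iff₀ (by positivity)]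
      have : ‖m‖ ^ 2 - γ ^ 2 ≤ ‖m‖ ^ 2 + 1 := by nlinarith [sq_nonneg γ]
      exact mul_le_mul_of_nonneg_left this hpos.le
    calc c / (‖m‖ ^ 2 + 1) * ((‖m‖ ^ 2 - γ ^ 2) * ‖y‖ ^ 2) =
        (c / (‖m‖ ^ 2 + 1) * (‖m‖ ^ 2 - γ ^ 2)) * ‖y‖ ^ 2 := by ring
      _ ≤ c * ‖y‖ ^ 2 := mul_le_mul_of_nonneg_right e1 hy0.le
      _ < 2 * (c * ‖y‖ ^ 2) := by linarith [mul_pos hpos hy0]

end scalar

theorem mu_eq_one {θ : ℝ} (h0 : 0 ≤ θ) (h1 : θ ≤ Real.pi / 2) (M : Matrix (Fin 1) (Fin 1) ℂ) :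
    mu θ M = muHat θ M := by
  rw [mu_eq h0 h1, muHat_eq, eq_iff h0 h1]
  refine scalar_case h0 h1 (m := M 0 0) (fun x => ?_) ⟨WithLp.toLp 2 (fun _ => 1), fun h => ?_⟩
  · ext i
    rw [Matrix.ofLp_toEuclideanCLM]
    simp [Matrix.mulVec, dotProduct, Subsingleton.elim i 0]
  · have := congrFun (congrArg WithLp.ofLp h) 0
    simp at this

theorem mu_eq_zero {θ : ℝ} (h0 : 0 ≤ θ) (h1 : θ ≤ Real.pi / 2) (M : Matrix (Fin 0) (Fin 0) ℂ) :
    mu θ M = muHat θ M := by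
  rw [mu_eq h0 h1, muHat_eq, eq_iff h0 h1]
  left
  refine le_antisymm ?_ (muHatOp_nonneg _ _)
  refine le_of_forall_gt_imp_ge_of_dense fun γ hγ => ?_
  refine csInf_le ⟨0, fun _ h => h.1.le⟩ ⟨hγ, 1, one_pos, 0, fun h => ?_, fun y hy => ?_⟩
  · rw [abs_zero, Real.cot_eq_cos_div_sin]
    exact div_nonneg (Real.cos_nonneg_of_mem_Icc ⟨by linarith [Real.pi_pos], h1⟩)
      (Real.sin_nonneg_of_nonneg_of_le_pi h.le (by linarith [Real.pi_pos]))
  · exact absurd (Subsingleton.elim y 0) hy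

end Pool.Agent.H18.SSV
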