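import Pool.Agent.H18.TauDefs

set_option autoImplicit false
open Complex MeasureTheory Filter Topology Set

namespace Pool.Agent.H18.Tau

/-- summation by parts identity -/
theorem abel_id (c : ℕ → ℂ) (q : ℂ) (L : ℕ) :
    ∑ l ∈ Finset.range (L + 1), c l * q ^ l =
      (∑ l ∈ Finset.range (L + 1), c l) * q ^ L +
        (1 - q) * ∑ l ∈ Finset.range L, (∑ k ∈ Finset.range (l + 1), c k) * q ^ l := by
  induction L with
  | zero => simp
  | succ L ih =>
    rw [Finset.sum_range_succ, ih, Finset.sum_range_succ (fun l => c l) (L + 1),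
      Finset.sum_range_succ (fun l => (∑ k ∈ Finset.range (l + 1), c k) * q ^ l) L]
    ring

theorem abel_bound (c : ℕ → ℂ) (B : ℝ) (L : ℕ)
    (hc : ∀ L' ≤ L, ‖∑ l ∈ Finset.range L', c l‖ ≤ B) (q : ℂ) (hq : ‖q‖ < 1) :
    ‖∑ l ∈ Finset.range L, c l * q ^ l‖ ≤ B * (1 + ‖1 - q‖ / (1 - ‖q‖)) := by
  have hB : 0 ≤ B := le_trans (norm_nonneg _) (hc 0 (Nat.zero_le _))
  have hq1 : 0 < 1 - ‖q‖ := by linarith
  cases L with
  | zero => simp; positivity
  | succ L =>
    rw [abel_id]
    have h1 : ‖(∑ l ∈ Finset.range (L + 1), c l) * q ^ L‖ ≤ B := by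
      rw [norm_mul, norm_pow]
      calc _ ≤ B * 1 := mul_le_mul (hc _ le_rfl) (pow_le_one₀ (norm_nonneg _) hq.le)
            (by positivity) hB
        _ = B := mul_one B
    have h2 : ‖∑ l ∈ Finset.range L, (∑ k ∈ Finset.range (l + 1), c k) * q ^ l‖ ≤
        B / (1 - ‖q‖) := by
      calc _ ≤ ∑ l ∈ Finset.range L, ‖(∑ k ∈ Finset.range (l + 1), c k) * q ^ l‖ :=
            norm_sum_le _ _
        _ ≤ ∑ l ∈ Finset.range L, B * ‖q‖ ^ l := by
            refine Finset.sum_le_sum fun l hl => ?_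
            rw [norm_mul, norm_pow]
            exact mul_le_mul_of_nonneg_right (hc _ (by have := Finset.mem_range.1 hl; omega))
              (by positivity)
        _ = B * ∑ l ∈ Finset.range L, ‖q‖ ^ l := by rw [Finset.mul_sum]
        _ ≤ B * (1 / (1 - ‖q‖)) := by
            refine mul_le_mul_of_nonneg_left ?_ hB
            rw [one_div, ← tsum_geometric_of_lt_one (norm_nonneg q) hq]
            exact (summable_geometric_of_lt_one (norm_nonneg q) hq).sum_le_tsum _
              (fun _ _ => by positivity)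
        _ = B / (1 - ‖q‖) := by ring
    calc _ ≤ B + ‖1 - q‖ * (B / (1 - ‖q‖)) := by
          refine (norm_add_le _ _).trans (add_le_add h1 ?_)
          rw [norm_mul]
          exact mul_le_mul_of_nonneg_left h2 (norm_nonneg _)
      _ = B * (1 + ‖1 - q‖ / (1 - ‖q‖)) := by ring

theorem norm_one_sub_exp_le (w : ℂ) (hw : 0 ≤ w.im) : ‖1 - exp (I * w)‖ ≤ ‖w‖ := by
  -- use the mean value inequality on the segment
  have hconv : Convex ℝ {z : ℂ | 0 ≤ z.im} := convex_halfSpace_im_ge 0
  have h := hconv.norm_image_sub_le_of_norm_hasDerivWithin_le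
    (f := fun z => exp (I * z)) (f' := fun z => exp (I * z) * I) (C := 1)
    (fun z _ => by
      have : HasDerivAt (fun z : ℂ => exp (I * z)) (exp (I * z) * I) z := by
        simpa using ((hasDerivAt_id z).const_mul I).cexp
      exact this.hasDerivWithinAt)
    (fun z hz => by
      rw [norm_mul, norm_I, mul_one, Complex.norm_exp]
      simp only [mul_re, I_re, zero_mul, I_im, one_mul, zero_sub]
      exact Real.exp_le_one_iff.2 (by simpa using hz))
    (x := w) (y := 0) hw (by simp)
  simpa using h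

theorem one_sub_exp_neg_ge {y : ℝ} (hy : 0 < y) : y / (1 + y) ≤ 1 - Real.exp (-y) := by
  have h1 : 1 + y ≤ Real.exp y := by linarith [Real.add_one_le_exp y]
  have h2 : Real.exp (-y) ≤ 1 / (1 + y) := by
    rw [Real.exp_neg, ← one_div]
    exact one_div_le_one_div_of_le (by linarith) h1
  have h3 : y / (1 + y) = 1 - 1 / (1 + y) := by field_simp; ring
  linarith

/-- the Abel bound at a point `t + w` -/
theorem abel_at (c : ℕ → ℂ) (B : ℝ) (L : ℕ) (t : ℝ)
    (hc : ∀ L' ≤ L, ‖∑ l ∈ Finset.range L', c l * exp (I * (l * t))‖ ≤ B)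
    (w : ℂ) (hw : 0 < w.im) :
    ‖∑ l ∈ Finset.range L, c l * exp (I * (l * (t + w)))‖ ≤
      B * (1 + ‖w‖ * (1 + w.im) / w.im) := by
  have hB : 0 ≤ B := le_trans (norm_nonneg _) (hc 0 (Nat.zero_le _))
  have hq : ‖exp (I * w)‖ = Real.exp (-w.im) := by
    rw [Complex.norm_exp]; simp
  have hq1 : ‖exp (I * w)‖ < 1 := by
    rw [hq]; exact Real.exp_lt_one_iff.2 (by linarith)
  have h := abel_bound (fun l => c l * exp (I * (l * t))) B L hc (exp (I * w)) hq1
  have hs : ∑ l ∈ Finset.range L, c l * exp (I * (l * (t + w))) =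
      ∑ l ∈ Finset.range L, (fun l : ℕ => c l * exp (I * (l * t))) l * exp (I * w) ^ l := by
    refine Finset.sum_congr rfl fun l _ => ?_
    rw [← Complex.exp_nat_mul, mul_assoc, ← Complex.exp_add]
    congr 2
    ring
  rw [hs]
  refine h.trans (mul_le_mul_of_nonneg_left ?_ hB)
  have h1 := norm_one_sub_exp_le w hw.le
  have h2 := one_sub_exp_neg_ge hw
  rw [← hq] at h2
  have h3 : 0 < w.im / (1 + w.im) := by positivity
  have h4 : ‖1 - exp (I * w)‖ / (1 - ‖exp (I * w)‖) ≤ ‖w‖ / (w.im / (1 + w.im)) :=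
    div_le_div₀ (norm_nonneg _) h1 h3 h2
  have h5 : ‖w‖ / (w.im / (1 + w.im)) = ‖w‖ * (1 + w.im) / w.im := by
    field_simp
  linarith

/-- Lemma T -/
theorem lemT (c : ℕ → ℂ) (B : ℝ) (L m : ℕ) (t l : ℝ) (hl : 0 < l) (hl7 : l ≤ 7)
    (hc : ∀ L' ≤ L, ‖∑ k ∈ Finset.range L', c k * exp (I * (k * t))‖ ≤ B) :
    ‖∫ x in t..(t + l), (((t + l - x) / l : ℝ) : ℂ) * (exp (I * (m * x)) *
      ∑ k ∈ Finset.range L, c k * exp (I * (k * x)))‖ ≤ 69 * B * l := by
  have hB : 0 ≤ B := le_trans (norm_nonneg _) (hc 0 (Nat.zero_le _))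
  set f : ℂ → ℂ := fun z => ((t + l - z) / l) * (exp (I * (m * z)) *
      ∑ k ∈ Finset.range L, c k * exp (I * (k * z))) with hf
  have hdiff : Differentiable ℂ f := by
    rw [hf]; fun_prop
  have hrect := Complex.integral_boundary_rect_eq_zero_of_differentiableOn f (t : ℂ)
    ((t + l : ℝ) + (l : ℝ) * I) hdiff.differentiableOn
  simp only [ofReal_re, ofReal_im, add_re, mul_re, I_re, mul_zero, I_im, mul_one, sub_self,
    add_zero, add_im, mul_im, zero_add, ofReal_zero, zero_mul, ofReal_add] at hrect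
  -- bounds on the factors
  have hnorm : ∀ (z w : ℂ), z = t + w → 0 < w.im →
      ‖exp (I * (m * z)) * ∑ k ∈ Finset.range L, c k * exp (I * (k * z))‖ ≤
        B * (1 + ‖w‖ * (1 + w.im) / w.im) := by
    intro z w hz hw
    rw [norm_mul]
    have h1 : ‖exp (I * (m * z))‖ ≤ 1 := by
      rw [Complex.norm_exp, hz]
      refine Real.exp_le_one_iff.2 ?_
      simp
      positivity
    have h2 := abel_at c B L t hc w hw
    rw [← hz] at h2
    calc _ ≤ 1 * (B * (1 + ‖w‖ * (1 + w.im) / w.im)) :=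
          mul_le_mul h1 h2 (norm_nonneg _) zero_le_one
      _ = _ := one_mul _
  have htop : ‖∫ x in t..(t + l), f (x + l * I)‖ ≤ (2 * B * 17) * |t + l - t| := by
    refine intervalIntegral.norm_integral_le_of_norm_le_const fun x hx => ?_
    rw [Set.uIoc_of_le (by linarith)] at hx
    rw [hf]
    simp only
    rw [norm_mul]
    have h1 : ‖(↑t + ↑l - (↑x + ↑l * I)) / (l : ℂ)‖ ≤ 2 := by
      rw [norm_div, Complex.norm_real, Real.norm_of_nonneg hl.le, div_le_iff₀ hl]
      have : (t : ℂ) + l - (x + l * I) = ((t + l - x : ℝ) : ℂ) + ((-l : ℝ) : ℂ) * I := by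
        push_cast; ring
      rw [this]
      refine (norm_add_le _ _).trans ?_
      rw [norm_mul, norm_I, Complex.norm_real, Complex.norm_real, Real.norm_eq_abs,
        Real.norm_eq_abs, abs_neg, abs_of_pos hl, abs_of_nonneg (by linarith [hx.2])]
      linarith [hx.1]
    have h2 := hnorm (x + l * I) (((x - t : ℝ) : ℂ) + (l : ℂ) * I) (by push_cast; ring)
      (by simpa using hl)
    have h3 : ‖((x - t : ℝ) : ℂ) + (l : ℂ) * I‖ ≤ 2 * l := by
      refine (norm_add_le _ _).trans ?_
      rw [norm_mul, norm_I, Complex.norm_real, Complex.norm_real, Real.norm_eq_abs,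
        Real.norm_eq_abs, abs_of_pos hl, abs_of_nonneg (by linarith [hx.1])]
      linarith [hx.2]
    have him : (((x - t : ℝ) : ℂ) + (l : ℂ) * I).im = l := by simp
    rw [him] at h2
    have h4 : ‖((x - t : ℝ) : ℂ) + (l : ℂ) * I‖ * (1 + l) / l ≤ 16 := by
      rw [div_le_iff₀ hl]
      nlinarith [norm_nonneg (((x - t : ℝ) : ℂ) + (l : ℂ) * I)]
    calc _ ≤ 2 * (B * (1 + 16)) := by
          refine mul_le_mul h1 (h2.trans (mul_le_mul_of_nonneg_left (by linarith) hB))
            (norm_nonneg _) (by norm_num)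
      _ = 2 * B * 17 := by ring
  have hright : ‖∫ y in (0:ℝ)..l, f (t + l + y * I)‖ ≤ (B * 17) * |l - 0| := by
    refine intervalIntegral.norm_integral_le_of_norm_le_const fun y hy => ?_
    rw [Set.uIoc_of_le hl.le] at hy
    rw [hf]
    simp only
    rw [norm_mul]
    have h1 : ‖(↑t + ↑l - (↑t + ↑l + ↑y * I)) / (l : ℂ)‖ = y / l := by
      rw [norm_div, Complex.norm_real, Real.norm_of_nonneg hl.le]
      have : (t : ℂ) + l - (t + l + y * I) = ((-y : ℝ) : ℂ) * I := by
        push_cast; ring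
      rw [this, norm_mul, norm_I, Complex.norm_real, Real.norm_eq_abs, abs_neg,
        abs_of_pos hy.1, mul_one]
    have h2 := hnorm (t + l + y * I) ((l : ℂ) + (y : ℂ) * I) (by ring) (by simpa using hy.1)
    have h3 : ‖(l : ℂ) + (y : ℂ) * I‖ ≤ 2 * l := by
      refine (norm_add_le _ _).trans ?_
      rw [norm_mul, norm_I, Complex.norm_real, Complex.norm_real, Real.norm_eq_abs,
        Real.norm_eq_abs, abs_of_pos hl, abs_of_pos hy.1]
      linarith [hy.2]
    have him : ((l : ℂ) + (y : ℂ) * I).im = y := by simp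
    rw [him] at h2
    have hy0 := hy.1
    rw [h1]
    calc y / l * _ ≤ y / l * (B * (1 + ‖(l : ℂ) + (y : ℂ) * I‖ * (1 + y) / y)) :=
          mul_le_mul_of_nonneg_left h2 (by positivity)
      _ = B * (y / l + (‖(l : ℂ) + (y : ℂ) * I‖ / l) * (1 + y)) := by
          field_simp
      _ ≤ B * (1 + 2 * 8) := by
          refine mul_le_mul_of_nonneg_left ?_ hB
          have e1 : y / l ≤ 1 := by rw [div_le_one hl]; exact hy.2
          have e2 : ‖(l : ℂ) + (y : ℂ) * I‖ / l ≤ 2 := by rw [div_le_iff₀ hl]; exact h3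
          have e3 : 1 + y ≤ 8 := by linarith [hy.2]
          exact add_le_add e1 (mul_le_mul e2 e3 (by linarith) (by norm_num))
      _ = B * 17 := by ring
  have hleft : ‖∫ y in (0:ℝ)..l, f (t + y * I)‖ ≤ (2 * B * 9) * |l - 0| := by
    refine intervalIntegral.norm_integral_le_of_norm_le_const fun y hy => ?_
    rw [Set.uIoc_of_le hl.le] at hy
    rw [hf]
    simp only
    rw [norm_mul]
    have h1 : ‖(↑t + ↑l - (↑t + ↑y * I)) / (l : ℂ)‖ ≤ 2 := by
      rw [norm_div, Complex.norm_real, Real.norm_of_nonneg hl.le, div_le_iff₀ hl]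
      have : (t : ℂ) + l - (t + y * I) = (l : ℂ) + ((-y : ℝ) : ℂ) * I := by
        push_cast; ring
      rw [this]
      refine (norm_add_le _ _).trans ?_
      rw [norm_mul, norm_I, Complex.norm_real, Complex.norm_real, Real.norm_eq_abs,
        Real.norm_eq_abs, abs_neg, abs_of_pos hl, abs_of_pos hy.1]
      linarith [hy.2]
    have h2 := hnorm (t + y * I) ((y : ℂ) * I) (by ring) (by simpa using hy.1)
    have h3 : ‖(y : ℂ) * I‖ = y := by
      rw [norm_mul, norm_I, Complex.norm_real, Real.norm_eq_abs, abs_of_pos hy.1, mul_one]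
    have him : ((y : ℂ) * I).im = y := by simp
    rw [him, h3] at h2
    have hy0 := hy.1
    have h4 : y * (1 + y) / y = 1 + y := by field_simp
    rw [h4] at h2
    calc _ ≤ 2 * (B * 9) := by
          refine mul_le_mul h1 (h2.trans (mul_le_mul_of_nonneg_left (by linarith [hy.2]) hB))
            (norm_nonneg _) (by norm_num)
      _ = 2 * B * 9 := by ring
  have hmain : (∫ x in t..(t + l), (((t + l - x) / l : ℝ) : ℂ) * (exp (I * (m * x)) *
      ∑ k ∈ Finset.range L, c k * exp (I * (k * x)))) =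
      (∫ x in t..(t + l), f (x + l * I)) - I * (∫ y in (0:ℝ)..l, f (t + l + y * I)) +
        I * (∫ y in (0:ℝ)..l, f (t + y * I)) := by
    have e : (∫ x in t..(t + l), (((t + l - x) / l : ℝ) : ℂ) * (exp (I * (m * x)) *
      ∑ k ∈ Finset.range L, c k * exp (I * (k * x)))) = ∫ x in t..(t + l), f x := by
      refine intervalIntegral.integral_congr fun x _ => ?_
      rw [hf]; push_cast; rfl
    rw [e]
    simp only [smul_eq_mul] at hrect
    linear_combination hrect
  rw [hmain]
  have e1 : |t + l - t| = l := by rw [add_sub_cancel_left, abs_of_pos hl]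
  have e2 : |l - 0| = l := by rw [sub_zero, abs_of_pos hl]
  rw [e1] at htop
  rw [e2] at hright hleft
  calc _ ≤ ‖∫ x in t..(t + l), f (x + l * I)‖ + ‖I * (∫ y in (0:ℝ)..l, f (t + l + y * I))‖ +
        ‖I * (∫ y in (0:ℝ)..l, f (t + y * I))‖ :=
        (norm_add_le _ _).trans (add_le_add_left (norm_sub_le _ _) _)
    _ ≤ 2 * B * 17 * l + B * 17 * l + 2 * B * 9 * l := by
        rw [norm_mul, norm_mul, norm_I, one_mul, one_mul]
        linarith
    _ = 69 * B * l := by ring

/-- monotone weights -/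
theorem abel_real (c : ℕ → ℂ) (B : ℝ) (hc : ∀ L, ‖∑ l ∈ Finset.range L, c l‖ ≤ B)
    (r : ℝ) (hr0 : 0 ≤ r) (hr1 : r ≤ 1) (L : ℕ) :
    ‖∑ l ∈ Finset.range L, c l * (r : ℂ) ^ l‖ ≤ B := by
  have hB : 0 ≤ B := le_trans (norm_nonneg _) (hc 0)
  cases L with
  | zero => simpa using hB
  | succ L =>
    rw [abel_id]
    have h1 : ‖(∑ l ∈ Finset.range (L + 1), c l) * (r : ℂ) ^ L‖ ≤ B * r ^ L := by
      rw [norm_mul, norm_pow, Complex.norm_real, Real.norm_of_nonneg hr0]
      exact mul_le_mul_of_nonneg_right (hc _) (by positivity)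
    have h2 : ‖∑ l ∈ Finset.range L, (∑ k ∈ Finset.range (l + 1), c k) * (r : ℂ) ^ l‖ ≤
        B * ∑ l ∈ Finset.range L, r ^ l := by
      rw [Finset.mul_sum]
      refine (norm_sum_le _ _).trans (Finset.sum_le_sum fun l _ => ?_)
      rw [norm_mul, norm_pow, Complex.norm_real, Real.norm_of_nonneg hr0]
      exact mul_le_mul_of_nonneg_right (hc _) (by positivity)
    have h3 : ‖(1 : ℂ) - r‖ = 1 - r := by
      have : (1 : ℂ) - r = ((1 - r : ℝ) : ℂ) := by push_cast; rfl
      rw [this, Complex.norm_real, Real.norm_of_nonneg (by linarith)]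
    have h4 : (1 - r) * ∑ l ∈ Finset.range L, r ^ l = 1 - r ^ L := by
      have := geom_sum_mul_neg r L
      linarith
    calc _ ≤ B * r ^ L + (1 - r) * (B * ∑ l ∈ Finset.range L, r ^ l) := by
          refine (norm_add_le _ _).trans (add_le_add h1 ?_)
          rw [norm_mul, h3]
          exact mul_le_mul_of_nonneg_left h2 (by linarith)
      _ = B * (r ^ L + (1 - r) * ∑ l ∈ Finset.range L, r ^ l) := by ring
      _ = B := by rw [h4]; ring

/-- bounded partial sums at the point `t` -/
def Bd (a : ℕ → ℂ) (M t : ℝ) : Prop :=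
  ∀ L : ℕ, ‖∑ j ∈ Finset.range L, a j * exp (I * (j * t))‖ ≤ M

theorem norm_exp_I_mul_real (y : ℝ) : ‖exp (I * y)‖ = 1 := by
  rw [mul_comm, Complex.norm_exp_ofReal_mul_I]

theorem Bd.nonneg {a : ℕ → ℂ} {M t : ℝ} (h : Bd a M t) : 0 ≤ M :=
  le_trans (norm_nonneg _) (h 0)

theorem Bd.scale {a : ℕ → ℂ} {M t : ℝ} (h : Bd a M t) {r : ℝ} (hr0 : 0 ≤ r) (hr1 : r ≤ 1) :
    Bd (fun j => a j * (r : ℂ) ^ j) M t := by
  intro L
  have := abel_real (fun j => a j * exp (I * (j * t))) M h r hr0 hr1 L
  convert this using 3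
  ring

theorem eh1 {c A B C : ℂ} (h : A + B = C) : exp A * (c * exp B) = c * exp C := by
  rw [← h, Complex.exp_add]; ring

theorem eh2 {c A B C D : ℂ} (h : A + B = C + D) :
    exp A * (c * exp B) = exp C * (c * exp D) := by
  rw [eh1 h, Complex.exp_add]; ring

/-- Lemma L -/
theorem lemL (a : ℕ → ℂ) (B : ℝ) (t l : ℝ) (h : Bd a B t) (hl : 0 < l) (hl7 : l ≤ 7) (n N : ℕ)
    (hn : n ≤ N) :
    ‖∫ x in t..(t + l), (((t + l - x) / l : ℝ) : ℂ) * (exp (-(I * (n * x))) *
      ∑ j ∈ Finset.range N, a j * exp (I * (j * x)))‖ ≤ 276 * B * l := by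
  have hB := h.nonneg
  -- the part with nonnegative frequencies
  have hT := lemT (fun k => a (n + k)) (2 * B) (N - n) 0 t l hl hl7 (by
    intro L' _
    have e : ∑ k ∈ Finset.range L', a (n + k) * exp (I * (k * t)) =
        exp (-(I * (n * t))) * (∑ j ∈ Finset.range (n + L'), a j * exp (I * (j * t)) -
          ∑ j ∈ Finset.range n, a j * exp (I * (j * t))) := by
      rw [Finset.sum_range_add, add_sub_cancel_left, Finset.mul_sum]
      refine Finset.sum_congr rfl fun k _ => ?_
      refine (eh1 ?_).symm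
      push_cast; ring
    rw [e, norm_mul]
    have e2 : ‖exp (-(I * (n * t)))‖ = 1 := by
      have : -(I * (n * t)) = I * ((-(n * t) : ℝ) : ℂ) := by push_cast; ring
      rw [this, norm_exp_I_mul_real]
    rw [e2, one_mul]
    refine (norm_sub_le _ _).trans ?_
    linarith [h (n + L'), h n])
  have hU := lemT (fun k => if k < n then (starRingEnd ℂ) (a (n - 1 - k)) else 0) (2 * B) n 1 t l
    hl hl7 (by
    intro L' hL'
    have e : ∑ k ∈ Finset.range L', (if k < n then (starRingEnd ℂ) (a (n - 1 - k)) else 0) *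
        exp (I * (k * t)) =
        (starRingEnd ℂ) (exp (-(I * ((n - 1 : ℝ) * t : ℝ))) *
          (∑ j ∈ Finset.range n, a j * exp (I * (j * t)) -
          ∑ j ∈ Finset.range (n - L'), a j * exp (I * (j * t)))) := by
      have e3 : ∑ j ∈ Finset.range n, a j * exp (I * (j * t)) -
          ∑ j ∈ Finset.range (n - L'), a j * exp (I * (j * t)) =
          ∑ k ∈ Finset.range L', a (n - 1 - k) * exp (I * ((n - 1 - k : ℕ) * t)) := by
        have e4 := Finset.sum_range_add (fun j => a j * exp (I * (j * t))) (n - L') L'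
        rw [Nat.sub_add_cancel hL'] at e4
        rw [e4, add_sub_cancel_left, ← Finset.sum_range_reflect]
        refine Finset.sum_congr rfl fun k hk => ?_
        have hk' := Finset.mem_range.1 hk
        have : n - L' + (L' - 1 - k) = n - 1 - k := by omega
        rw [this]
      rw [e3, map_mul, map_sum, Finset.mul_sum]
      refine Finset.sum_congr rfl fun k hk => ?_
      have hk' := Finset.mem_range.1 hk
      rw [if_pos (by omega), map_mul, ← Complex.exp_conj, ← Complex.exp_conj]
      refine (eh1 ?_).symm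
      have h5 : ((n - 1 - k : ℕ) : ℂ) = (n : ℂ) - 1 - k := by
        rw [Nat.sub_sub, Nat.cast_sub (by omega)]; push_cast; ring
      simp only [map_neg, map_mul, Complex.conj_I, Complex.conj_ofReal, map_natCast]
      rw [h5]
      push_cast
      ring
    rw [e, RCLike.norm_conj, norm_mul]
    have e2 : ‖exp (-(I * ((n - 1 : ℝ) * t : ℝ)))‖ = 1 := by
      have : -(I * ((n - 1 : ℝ) * t : ℝ)) = I * ((-((n - 1) * t) : ℝ) : ℂ) := by push_cast; ring
      rw [this, norm_exp_I_mul_real]
    rw [e2, one_mul]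
    refine (norm_sub_le _ _).trans ?_
    linarith [h (n - L'), h n])
  -- splitting
  have hsplit : ∀ x : ℝ, (((t + l - x) / l : ℝ) : ℂ) * (exp (-(I * (n * x))) *
      ∑ j ∈ Finset.range N, a j * exp (I * (j * x))) =
      (((t + l - x) / l : ℝ) : ℂ) * (exp (I * ((0:ℕ) * x)) *
        ∑ k ∈ Finset.range (N - n), a (n + k) * exp (I * (k * x))) +
      (starRingEnd ℂ) ((((t + l - x) / l : ℝ) : ℂ) * (exp (I * ((1:ℕ) * x)) *
        ∑ k ∈ Finset.range n, (if k < n then (starRingEnd ℂ) (a (n - 1 - k)) else 0) *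
          exp (I * (k * x)))) := by
    intro x
    have e4 := Finset.sum_range_add (fun j => a j * exp (I * (j * x))) n (N - n)
    rw [Nat.add_sub_cancel' hn] at e4
    rw [e4, map_mul, map_mul, Complex.conj_ofReal, map_sum, ← mul_add]
    congr 1
    rw [mul_add, add_comm]
    congr 1
    · rw [Finset.mul_sum, Finset.mul_sum]
      refine Finset.sum_congr rfl fun k _ => ?_
      refine eh2 ?_
      push_cast; ring
    · rw [← Finset.sum_range_reflect, Finset.mul_sum, Finset.mul_sum]
      refine Finset.sum_congr rfl fun k hk => ?_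
      have hk' := Finset.mem_range.1 hk
      rw [if_pos hk', map_mul, Complex.conj_conj,
        ← Complex.exp_conj, ← Complex.exp_conj]
      refine eh2 ?_
      have h5 : ((n - 1 - k : ℕ) : ℂ) = (n : ℂ) - 1 - k := by
        rw [Nat.sub_sub, Nat.cast_sub (by omega)]; push_cast; ring
      simp only [map_mul, Complex.conj_I, Complex.conj_ofReal, map_natCast, map_one]
      rw [h5]
      push_cast
      ring
  simp_rw [hsplit]
  rw [intervalIntegral.integral_add]
  · have hconj : (∫ x in t..(t + l), (starRingEnd ℂ) ((((t + l - x) / l : ℝ) : ℂ) *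
        (exp (I * ((1:ℕ) * x)) *
        ∑ k ∈ Finset.range n, (if k < n then (starRingEnd ℂ) (a (n - 1 - k)) else 0) *
          exp (I * (k * x))))) = (starRingEnd ℂ) (∫ x in t..(t + l), ((((t + l - x) / l : ℝ) : ℂ) *
        (exp (I * ((1:ℕ) * x)) *
        ∑ k ∈ Finset.range n, (if k < n then (starRingEnd ℂ) (a (n - 1 - k)) else 0) *
          exp (I * (k * x))))) := by
      rw [intervalIntegral.integral_of_le (by linarith), intervalIntegral.integral_of_le
        (by linarith), ← integral_conj]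
    rw [hconj]
    refine (norm_add_le _ _).trans ?_
    rw [RCLike.norm_conj]
    linarith
  · exact (Continuous.intervalIntegrable (by fun_prop) _ _)
  · refine Continuous.intervalIntegrable ?_ _ _
    refine Complex.continuous_conj.comp ?_
    fun_prop

end Pool.Agent.H18.Tau
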