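import Pool.Agent.H18.Tau1

set_option autoImplicit false
open Complex MeasureTheory Filter Topology Set

namespace Pool.Agent.H18.Tau

theorem Bd.coeff {a : ℕ → ℂ} {M t : ℝ} (h : Bd a M t) (j : ℕ) : ‖a j‖ ≤ 2 * M := by
  have h1 := h (j + 1)
  have h2 := h j
  have e : ‖a j‖ = ‖a j * exp (I * (j * t))‖ := by
    rw [norm_mul]
    have : I * (j * t) = I * ((j * t : ℝ) : ℂ) := by push_cast; ring
    rw [this, norm_exp_I_mul_real, mul_one]
  have e2 : a j * exp (I * (j * t)) = ∑ j ∈ Finset.range (j + 1), a j * exp (I * (j * t)) -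
      ∑ j ∈ Finset.range j, a j * exp (I * (j * t)) := by
    rw [Finset.sum_range_succ]; ring
  rw [e, e2]
  refine (norm_sub_le _ _).trans ?_
  linarith

theorem Fr_eq (a : ℕ → ℂ) (r x : ℝ) :
    Fr a r x = ∑' j : ℕ, (a j * (r : ℂ) ^ j) * exp (I * (j * x)) := by
  unfold Fr FF
  refine tsum_congr fun j => ?_
  rw [mul_pow, ← Complex.exp_nat_mul, mul_assoc]
  congr 3
  ring

theorem summable_Fr {a : ℕ → ℂ} {C : ℝ} (ha : ∀ j, ‖a j‖ ≤ C) {r : ℝ} (hr0 : 0 ≤ r)
    (hr1 : r < 1) (x : ℝ) :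
    Summable fun j : ℕ => (a j * (r : ℂ) ^ j) * exp (I * (j * x)) := by
  refine Summable.of_norm_bounded (g := fun j => C * r ^ j)
    ((summable_geometric_of_lt_one hr0 hr1).mul_left C) fun j => ?_
  rw [norm_mul, norm_mul, norm_pow, Complex.norm_real, Real.norm_of_nonneg hr0]
  have : I * (j * x) = I * ((j * x : ℝ) : ℂ) := by push_cast; ring
  rw [this, norm_exp_I_mul_real, mul_one]
  exact mul_le_mul_of_nonneg_right (ha j) (by positivity)

theorem partial_bound {a : ℕ → ℂ} {C : ℝ} (ha : ∀ j, ‖a j‖ ≤ C) {r : ℝ} (hr0 : 0 ≤ r)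
    (hr1 : r < 1) (x : ℝ) (N : ℕ) :
    ‖∑ j ∈ Finset.range N, (a j * (r : ℂ) ^ j) * exp (I * (j * x))‖ ≤ C / (1 - r) := by
  have hC : 0 ≤ C := le_trans (norm_nonneg _) (ha 0)
  calc _ ≤ ∑ j ∈ Finset.range N, C * r ^ j := by
        refine (norm_sum_le _ _).trans (Finset.sum_le_sum fun j _ => ?_)
        rw [norm_mul, norm_mul, norm_pow, Complex.norm_real, Real.norm_of_nonneg hr0]
        have : I * (j * x) = I * ((j * x : ℝ) : ℂ) := by push_cast; ring
        rw [this, norm_exp_I_mul_real, mul_one]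
        exact mul_le_mul_of_nonneg_right (ha j) (by positivity)
    _ = C * ∑ j ∈ Finset.range N, r ^ j := by rw [Finset.mul_sum]
    _ ≤ C * (1 / (1 - r)) := by
        refine mul_le_mul_of_nonneg_left ?_ hC
        rw [one_div, ← tsum_geometric_of_lt_one hr0 hr1]
        exact (summable_geometric_of_lt_one hr0 hr1).sum_le_tsum _
          (fun _ _ => by positivity)
    _ = C / (1 - r) := by ring

theorem continuous_Fr {a : ℕ → ℂ} {C : ℝ} (ha : ∀ j, ‖a j‖ ≤ C) {r : ℝ} (hr0 : 0 ≤ r)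
    (hr1 : r < 1) : Continuous (Fr a r) := by
  have : Fr a r = fun x : ℝ => ∑' j : ℕ, (a j * (r : ℂ) ^ j) * exp (I * (j * x)) := by
    funext x; exact Fr_eq a r x
  rw [this]
  refine continuous_tsum (u := fun j => C * r ^ j) (fun j => by fun_prop)
    ((summable_geometric_of_lt_one hr0 hr1).mul_left C) fun j x => ?_
  rw [norm_mul, norm_mul, norm_pow, Complex.norm_real, Real.norm_of_nonneg hr0]
  have : I * (j * x) = I * ((j * x : ℝ) : ℂ) := by push_cast; ring
  rw [this, norm_exp_I_mul_real, mul_one]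
  exact mul_le_mul_of_nonneg_right (ha j) (by positivity)

theorem lemL' (a : ℕ → ℂ) (B : ℝ) (t l : ℝ) (h : Bd a B t) (hl : 0 < l) (hl7 : l ≤ 7) (n : ℕ)
    (r : ℝ) (hr0 : 0 < r) (hr1 : r < 1) :
    ‖∫ x in t..(t + l), (((t + l - x) / l : ℝ) : ℂ) * (exp (-(I * (n * x))) * Fr a r x)‖ ≤
      276 * B * l := by
  have ha := h.coeff
  have hlim : Tendsto (fun N : ℕ => ∫ x in t..(t + l), (((t + l - x) / l : ℝ) : ℂ) *
      (exp (-(I * (n * x))) * ∑ j ∈ Finset.range N, (a j * (r : ℂ) ^ j) * exp (I * (j * x))))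
      atTop (𝓝 (∫ x in t..(t + l), (((t + l - x) / l : ℝ) : ℂ) *
        (exp (-(I * (n * x))) * Fr a r x))) := by
    refine intervalIntegral.tendsto_integral_filter_of_dominated_convergence
      (fun _ => 2 * B / (1 - r)) ?_ ?_ ?_ ?_
    · refine Eventually.of_forall fun N => ?_
      exact (Continuous.aestronglyMeasurable (by fun_prop))
    · refine Eventually.of_forall fun N => Eventually.of_forall fun x hx => ?_
      rw [Set.uIoc_of_le (by linarith)] at hx
      rw [norm_mul, norm_mul, Complex.norm_real]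
      have e2 : ‖exp (-(I * (n * x)))‖ = 1 := by
        have : -(I * (n * x)) = I * ((-(n * x) : ℝ) : ℂ) := by push_cast; ring
        rw [this, norm_exp_I_mul_real]
      have e3 : ‖(t + l - x) / l‖ ≤ 1 := by
        rw [Real.norm_of_nonneg (div_nonneg (by linarith [hx.2]) hl.le), div_le_one hl]
        linarith [hx.1]
      rw [e2, one_mul]
      have := partial_bound ha hr0.le hr1 x N
      calc _ ≤ 1 * (2 * B / (1 - r)) := mul_le_mul e3 this (norm_nonneg _) zero_le_one
        _ = _ := one_mul _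
    · exact intervalIntegrable_const
    · refine Eventually.of_forall fun x _ => ?_
      refine Tendsto.const_mul _ (Tendsto.const_mul _ ?_)
      rw [Fr_eq]
      exact (summable_Fr ha hr0.le hr1 x).hasSum.tendsto_sum_nat
  refine le_of_tendsto hlim.norm ?_
  filter_upwards [eventually_ge_atTop n] with N hN
  exact lemL (fun j => a j * (r : ℂ) ^ j) B t l (h.scale hr0.le hr1.le) hl hl7 n N hN

theorem Bd.conj {a : ℕ → ℂ} {M t : ℝ} (h : Bd a M t) :
    Bd (fun j => (starRingEnd ℂ) (a j)) M (-t) := by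
  intro L
  have e : ∑ j ∈ Finset.range L, (starRingEnd ℂ) (a j) * exp (I * (j * ((-t : ℝ) : ℂ))) =
      (starRingEnd ℂ) (∑ j ∈ Finset.range L, a j * exp (I * (j * t))) := by
    rw [map_sum]
    refine Finset.sum_congr rfl fun j _ => ?_
    rw [map_mul, ← Complex.exp_conj]
    congr 2
    simp
  rw [e, RCLike.norm_conj]
  exact h L

theorem Fr_conj (a : ℕ → ℂ) (r x : ℝ) :
    (starRingEnd ℂ) (Fr (fun j => (starRingEnd ℂ) (a j)) r x) = Fr a r (-x) := by
  rw [Fr_eq, Fr_eq, Complex.conj_tsum]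
  refine tsum_congr fun j => ?_
  rw [map_mul, map_mul, Complex.conj_conj, ← Complex.exp_conj, map_pow, Complex.conj_ofReal]
  congr 2
  simp

theorem lemR' (a : ℕ → ℂ) (B : ℝ) (t l : ℝ) (h : Bd a B t) (hl : 0 < l) (hl7 : l ≤ 7) (n : ℕ)
    (r : ℝ) (hr0 : 0 < r) (hr1 : r < 1) :
    ‖∫ x in (t - l)..t, (((x - (t - l)) / l : ℝ) : ℂ) * (exp (-(I * (n * x))) * Fr a r x)‖ ≤
      276 * B * l := by
  have hL := lemL' (fun j => (starRingEnd ℂ) (a j)) B (-t) l h.conj hl hl7 n r hr0 hr1
  have e : (∫ x in (t - l)..t, (((x - (t - l)) / l : ℝ) : ℂ) *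
      (exp (-(I * (n * x))) * Fr a r x)) = (starRingEnd ℂ)
      (∫ x in (-t)..(-t + l), (((-t + l - x) / l : ℝ) : ℂ) * (exp (-(I * (n * x))) *
        Fr (fun j => (starRingEnd ℂ) (a j)) r x)) := by
    have h1 := intervalIntegral.integral_comp_neg (a := -t) (b := -t + l)
      (fun x : ℝ => (((x - (t - l)) / l : ℝ) : ℂ) * (exp (-(I * (n * x))) * Fr a r x))
    have h2 : -(-t + l) = t - l := by ring
    rw [neg_neg, h2] at h1
    rw [← h1, intervalIntegral.integral_of_le (by linarith), intervalIntegral.integral_of_le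
        (by linarith), ← integral_conj]
    refine setIntegral_congr_fun measurableSet_Ioc fun x _ => ?_
    rw [map_mul, map_mul, Complex.conj_ofReal, Fr_conj, ← Complex.exp_conj]
    congr 1
    · congr 1; ring
    · congr 2; simp
  rw [e, RCLike.norm_conj]
  exact hL

theorem norm_en (n : ℕ) (x : ℝ) : ‖exp (-(I * (n * x)))‖ = 1 := by
  have : -(I * (n * x)) = I * ((-(n * x) : ℝ) : ℂ) := by push_cast; ring
  rw [this, norm_exp_I_mul_real]

/-- (G) gap bound -/
theorem gap_bound (a : ℕ → ℂ) (M p q : ℝ) (hp : Bd a M p) (hq : Bd a M q) (hpq : p < q)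
    (hpq7 : q ≤ p + 7) (n : ℕ) (r : ℝ) (hr0 : 0 < r) (hr1 : r < 1) :
    ‖∫ x in p..q, exp (-(I * (n * x))) * Fr a r x‖ ≤ 960 * M * (q - p) := by
  have h1 := lemL' a M p (q - p) hp (by linarith) (by linarith) n r hr0 hr1
  have h2 := lemR' a M q (q - p) hq (by linarith) (by linarith) n r hr0 hr1
  have e1 : p + (q - p) = q := by ring
  have e2 : q - (q - p) = p := by ring
  rw [e1] at h1
  rw [e2] at h2
  have hc := continuous_Fr hp.coeff hr0.le hr1
  have e : (∫ x in p..q, exp (-(I * (n * x))) * Fr a r x) =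
      (∫ x in p..q, (((q - x) / (q - p) : ℝ) : ℂ) * (exp (-(I * (n * x))) * Fr a r x)) +
      ∫ x in p..q, (((x - p) / (q - p) : ℝ) : ℂ) * (exp (-(I * (n * x))) * Fr a r x) := by
    rw [← intervalIntegral.integral_add]
    · refine intervalIntegral.integral_congr fun x _ => ?_
      rw [← add_mul, ← Complex.ofReal_add]
      have : (q - x) / (q - p) + (x - p) / (q - p) = 1 := by
        have : q - p ≠ 0 := by linarith
        field_simp
        ring
      rw [this]; simp
    · exact Continuous.intervalIntegrable (by fun_prop) _ _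
    · exact Continuous.intervalIntegrable (by fun_prop) _ _
  rw [e]
  have hM := hp.nonneg
  refine (norm_add_le _ _).trans ?_
  nlinarith

/-- trapezoid at the left endpoint -/
theorem trap_left (a : ℕ → ℂ) (M p ε : ℝ) (hp : Bd a M p) (hε : 0 < ε) (hε1 : ε ≤ 1) (n : ℕ)
    (r : ℝ) (hr0 : 0 < r) (hr1 : r < 1) :
    ‖(∫ x in p..(p + ε), exp (-(I * (n * x))) * Fr a r x) +
      ∫ x in (p + ε)..(p + 2 * ε), (((p + 2 * ε - x) / ε : ℝ) : ℂ) *
        (exp (-(I * (n * x))) * Fr a r x)‖ ≤ 1380 * M * ε := by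
  have h1 := lemL' a M p (2 * ε) hp (by linarith) (by linarith) n r hr0 hr1
  have h2 := lemL' a M p ε hp (by linarith) (by linarith) n r hr0 hr1
  have hc := continuous_Fr hp.coeff hr0.le hr1
  have e : (∫ x in p..(p + ε), exp (-(I * (n * x))) * Fr a r x) +
      ∫ x in (p + ε)..(p + 2 * ε), (((p + 2 * ε - x) / ε : ℝ) : ℂ) *
        (exp (-(I * (n * x))) * Fr a r x) =
      2 * (∫ x in p..(p + 2 * ε), (((p + 2 * ε - x) / (2 * ε) : ℝ) : ℂ) *
        (exp (-(I * (n * x))) * Fr a r x)) -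
      ∫ x in p..(p + ε), (((p + ε - x) / ε : ℝ) : ℂ) * (exp (-(I * (n * x))) * Fr a r x) := by
    rw [← intervalIntegral.integral_const_mul]
    rw [← intervalIntegral.integral_add_adjacent_intervals (a := p) (b := p + ε) (c := p + 2 * ε)
      (f := fun x : ℝ => (2 : ℂ) * ((((p + 2 * ε - x) / (2 * ε) : ℝ) : ℂ) *
        (exp (-(I * (n * x))) * Fr a r x)))
      (Continuous.intervalIntegrable (by fun_prop) _ _)
      (Continuous.intervalIntegrable (by fun_prop) _ _)]
    rw [add_sub_right_comm, ← intervalIntegral.integral_sub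
      (Continuous.intervalIntegrable (by fun_prop) _ _)
      (Continuous.intervalIntegrable (by fun_prop) _ _)]
    congr 1
    · refine intervalIntegral.integral_congr fun x _ => ?_
      have hε' : (ε : ℂ) ≠ 0 := by exact_mod_cast hε.ne'
      push_cast
      field_simp
      ring
    · refine intervalIntegral.integral_congr fun x _ => ?_
      have hε' : (ε : ℂ) ≠ 0 := by exact_mod_cast hε.ne'
      push_cast
      field_simp
  rw [e]
  refine (norm_sub_le _ _).trans ?_
  rw [norm_mul]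
  have : ‖(2 : ℂ)‖ = 2 := by simp
  rw [this]
  nlinarith

/-- trapezoid at the right endpoint -/
theorem trap_right (a : ℕ → ℂ) (M q ε : ℝ) (hq : Bd a M q) (hε : 0 < ε) (hε1 : ε ≤ 1) (n : ℕ)
    (r : ℝ) (hr0 : 0 < r) (hr1 : r < 1) :
    ‖(∫ x in (q - 2 * ε)..(q - ε), (((x - (q - 2 * ε)) / ε : ℝ) : ℂ) *
        (exp (-(I * (n * x))) * Fr a r x)) +
      ∫ x in (q - ε)..q, exp (-(I * (n * x))) * Fr a r x‖ ≤ 1380 * M * ε := by
  have h1 := lemR' a M q (2 * ε) hq (by linarith) (by linarith) n r hr0 hr1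
  have h2 := lemR' a M q ε hq (by linarith) (by linarith) n r hr0 hr1
  have hc := continuous_Fr hq.coeff hr0.le hr1
  have e : (∫ x in (q - 2 * ε)..(q - ε), (((x - (q - 2 * ε)) / ε : ℝ) : ℂ) *
        (exp (-(I * (n * x))) * Fr a r x)) +
      (∫ x in (q - ε)..q, exp (-(I * (n * x))) * Fr a r x) =
      2 * (∫ x in (q - 2 * ε)..q, (((x - (q - 2 * ε)) / (2 * ε) : ℝ) : ℂ) *
        (exp (-(I * (n * x))) * Fr a r x)) -
      ∫ x in (q - ε)..q, (((x - (q - ε)) / ε : ℝ) : ℂ) * (exp (-(I * (n * x))) * Fr a r x) := by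
    rw [← intervalIntegral.integral_const_mul]
    rw [← intervalIntegral.integral_add_adjacent_intervals (a := q - 2 * ε) (b := q - ε) (c := q)
      (f := fun x : ℝ => (2 : ℂ) * ((((x - (q - 2 * ε)) / (2 * ε) : ℝ) : ℂ) *
        (exp (-(I * (n * x))) * Fr a r x)))
      (Continuous.intervalIntegrable (by fun_prop) _ _)
      (Continuous.intervalIntegrable (by fun_prop) _ _)]
    rw [add_sub_assoc, ← intervalIntegral.integral_sub
      (Continuous.intervalIntegrable (by fun_prop) _ _)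
      (Continuous.intervalIntegrable (by fun_prop) _ _)]
    congr 1
    · refine intervalIntegral.integral_congr fun x _ => ?_
      have hε' : (ε : ℂ) ≠ 0 := by exact_mod_cast hε.ne'
      push_cast
      field_simp
    · refine intervalIntegral.integral_congr fun x _ => ?_
      have hε' : (ε : ℂ) ≠ 0 := by exact_mod_cast hε.ne'
      push_cast
      field_simp
      ring
  rw [e]
  refine (norm_sub_le _ _).trans ?_
  rw [norm_mul]
  have : ‖(2 : ℂ)‖ = 2 := by simp
  rw [this]
  nlinarith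

end Pool.Agent.H18.Tau
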