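import Pool.Agent.H18.Tau2

set_option autoImplicit false
open Complex MeasureTheory Filter Topology Set

namespace Pool.Agent.H18.Tau

/-- regular point -/
def Reg (a : ℕ → ℂ) (ξ : ℂ) : Prop :=
  ∃ r : ℝ, 0 < r ∧ ∃ g : ℂ → ℂ, DifferentiableOn ℂ g (Metric.ball ξ r) ∧
    ∀ w ∈ Metric.ball ξ r, ‖w‖ < 1 → g w = ∑' n, a n * w ^ n

theorem continuousOn_FF {a : ℕ → ℂ} {C : ℝ} (ha : ∀ j, ‖a j‖ ≤ C) :
    ContinuousOn (FF a) (Metric.ball 0 1) := by
  intro w hw
  obtain ⟨r, hr1, hr2⟩ := exists_between (mem_ball_zero_iff.1 hw)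
  have hr0 : 0 ≤ r := (norm_nonneg _).trans hr1.le
  have hd : DifferentiableOn ℂ (fun w => ∑' n, a n * w ^ n) (Metric.ball 0 r) := by
    refine Complex.differentiableOn_tsum_of_summable_norm (u := fun n => C * r ^ n)
      ((summable_geometric_of_lt_one hr0 hr2).mul_left C) (fun n => by fun_prop)
      Metric.isOpen_ball fun n z hz => ?_
    rw [norm_mul, norm_pow]
    have hz' := mem_ball_zero_iff.1 hz
    have hC : 0 ≤ C := le_trans (norm_nonneg _) (ha 0)
    exact mul_le_mul (ha n) (pow_le_pow_left₀ (norm_nonneg _) hz'.le _) (by positivity) hC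
  have h1 : Metric.ball (0 : ℂ) r ∈ 𝓝 w :=
    Metric.isOpen_ball.mem_nhds (mem_ball_zero_iff.2 hr1)
  exact (hd.differentiableAt h1).continuousAt.continuousWithinAt

theorem continuousOn_ext {a : ℕ → ℂ} {C : ℝ} (ha : ∀ j, ‖a j‖ ≤ C) (S : Set ℂ)
    (hS1 : ∀ ξ ∈ S, ‖ξ‖ = 1) (hS : ∀ ξ ∈ S, Reg a ξ) :
    ContinuousOn (extendFrom (Metric.ball 0 1) (FF a)) (Metric.ball 0 1 ∪ S) := by
  refine continuousOn_extendFrom ?_ ?_
  · rw [closure_ball (0 : ℂ) one_ne_zero]
    rintro x (hx | hx)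
    · exact Metric.ball_subset_closedBall hx
    · exact mem_closedBall_zero_iff.2 (hS1 x hx).le
  · rintro x (hx | hx)
    · exact ⟨FF a x, (continuousOn_FF ha) x hx⟩
    · obtain ⟨r, hr, g, hg, hgF⟩ := hS x hx
      refine ⟨g x, ?_⟩
      have h1 : Tendsto g (𝓝[Metric.ball 0 1] x) (𝓝 (g x)) :=
        ((hg.differentiableAt (Metric.ball_mem_nhds x hr)).continuousAt).tendsto.mono_left
          nhdsWithin_le_nhds
      refine h1.congr' ?_
      have h2 : Metric.ball x r ∈ 𝓝[Metric.ball 0 1] x :=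
        nhdsWithin_le_nhds (Metric.ball_mem_nhds x hr)
      filter_upwards [h2, self_mem_nhdsWithin] with w hw hw1
      exact hgF w hw (mem_ball_zero_iff.1 hw1)

theorem norm_exp_I (x : ℝ) : ‖exp (I * x)‖ = 1 := norm_exp_I_mul_real x

/-- Riemann–Lebesgue on an interval -/
theorem rl (u v : ℝ) (huv : u ≤ v) (φ : ℝ → ℂ) :
    Tendsto (fun n : ℕ => ∫ x in u..v, exp (-(I * (n * x))) * φ x) atTop (𝓝 0) := by
  have h := Real.tendsto_integral_exp_smul_cocompact (Set.indicator (Set.Ioc u v) φ)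
  have hn : Tendsto (fun n : ℕ => (n : ℝ) / (2 * Real.pi)) atTop (cocompact ℝ) :=
    (tendsto_natCast_atTop_atTop.atTop_div_const (by positivity)).mono_right
      atTop_le_cocompact
  have h2 := h.comp hn
  refine h2.congr fun n => ?_
  simp only [Function.comp]
  rw [intervalIntegral.integral_of_le huv, ← integral_indicator measurableSet_Ioc]
  refine integral_congr_ae (Eventually.of_forall fun x => ?_)
  by_cases hx : x ∈ Set.Ioc u v
  · simp only [Set.indicator_of_mem hx]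
    rw [Circle.smul_def, Real.fourierChar_apply, smul_eq_mul]
    congr 2
    have : (Real.pi : ℂ) ≠ 0 := by exact_mod_cast Real.pi_ne_zero
    push_cast
    field_simp
  · simp only [Set.indicator_of_notMem hx, smul_zero]

theorem middle {a : ℕ → ℂ} {C : ℝ} (ha : ∀ j, ‖a j‖ ≤ C) (u v : ℝ) (huv : u ≤ v)
    (hreg : ∀ x ∈ Set.Icc u v, Reg a (exp (I * x))) (w : ℝ → ℝ) (hw : Continuous w)
    (hw1 : ∀ x ∈ Set.Icc u v, |w x| ≤ 1) (η : ℝ) (hη : 0 < η) :
    ∃ n0 : ℕ, ∀ n ≥ n0, ∃ r0 : ℝ, r0 < 1 ∧ ∀ r, 0 < r → r0 < r → r < 1 →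
      ‖∫ x in u..v, (w x : ℂ) * (exp (-(I * (n * x))) * Fr a r x)‖ ≤ η := by
  set G := extendFrom (Metric.ball 0 1) (FF a) with hG
  have hGc : ContinuousOn G (Metric.ball 0 1 ∪ (fun x : ℝ => exp (I * x)) '' Set.Icc u v) := by
    refine continuousOn_ext ha _ ?_ ?_
    · rintro _ ⟨x, _, rfl⟩; exact norm_exp_I x
    · rintro _ ⟨x, hx, rfl⟩; exact hreg x hx
  have hφ : ContinuousOn (fun p : ℝ × ℝ => G (p.1 * exp (I * p.2)))
      (Set.Icc 0 1 ×ˢ Set.Icc u v) := by
    refine hGc.comp (Continuous.continuousOn (by fun_prop)) ?_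
    rintro ⟨r, x⟩ ⟨hr, hx⟩
    simp only at hr hx ⊢
    rcases lt_or_eq_of_le hr.2 with h | h
    · left
      rw [mem_ball_zero_iff, norm_mul, norm_exp_I, mul_one, Complex.norm_real,
        Real.norm_of_nonneg hr.1]
      exact h
    · right
      rw [h]
      exact ⟨x, hx, by simp⟩
  have hGx : ContinuousOn (fun x : ℝ => G (exp (I * x))) (Set.Icc u v) := by
    refine hGc.comp (Continuous.continuousOn (by fun_prop)) ?_
    intro x hx
    right
    exact ⟨x, hx, rfl⟩
  have huc := (isCompact_Icc.prod isCompact_Icc).uniformContinuousOn_of_continuous hφ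
  rw [Metric.uniformContinuousOn_iff] at huc
  have hη2 : 0 < η / (2 * (v - u + 1)) := by
    have : 0 < v - u + 1 := by linarith
    positivity
  obtain ⟨δ, hδ, huc⟩ := huc _ hη2
  have hlim := rl u v huv (fun x => (w x : ℂ) * G (exp (I * x)))
  rw [Metric.tendsto_atTop] at hlim
  obtain ⟨n0, hn0⟩ := hlim (η / 2) (by linarith)
  refine ⟨n0, fun n hn => ⟨1 - δ, by linarith, fun r hr0 hrδ hr1 => ?_⟩⟩
  have h1 := hn0 n hn
  rw [dist_zero_right] at h1
  have hFc := continuous_Fr ha hr0.le hr1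
  have hclose : ∀ x ∈ Set.Icc u v, ‖Fr a r x - G (exp (I * x))‖ ≤ η / (2 * (v - u + 1)) := by
    intro x hx
    have h2 := huc (r, x) ⟨⟨hr0.le, hr1.le⟩, hx⟩ (1, x) ⟨⟨zero_le_one, le_rfl⟩, hx⟩ (by
      rw [Prod.dist_eq, dist_self, Real.dist_eq, max_eq_left (abs_nonneg _), abs_lt]
      constructor <;> linarith)
    simp only [ofReal_one, one_mul] at h2
    rw [dist_eq_norm] at h2
    have h3 : G (r * exp (I * x)) = Fr a r x := by
      rw [hG, extendFrom_extends (continuousOn_FF ha)]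
      · rfl
      · rw [mem_ball_zero_iff, norm_mul, norm_exp_I, mul_one, Complex.norm_real,
          Real.norm_of_nonneg hr0.le]
        exact hr1
    rw [h3] at h2
    exact h2.le
  have hi1 : IntervalIntegrable (fun x : ℝ => (w x : ℂ) * (exp (-(I * (n * x))) * Fr a r x))
      volume u v := Continuous.intervalIntegrable (by fun_prop) _ _
  have hi2 : IntervalIntegrable (fun x : ℝ => exp (-(I * (n * x))) *
      ((w x : ℂ) * G (exp (I * x)))) volume u v := by
    refine ContinuousOn.intervalIntegrable ?_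
    rw [Set.uIcc_of_le huv]
    refine ContinuousOn.mul (Continuous.continuousOn (by fun_prop)) (ContinuousOn.mul
      (Continuous.continuousOn (by fun_prop)) hGx)
  have h4 : ‖(∫ x in u..v, (w x : ℂ) * (exp (-(I * (n * x))) * Fr a r x)) -
      ∫ x in u..v, exp (-(I * (n * x))) * ((w x : ℂ) * G (exp (I * x)))‖ ≤
      η / (2 * (v - u + 1)) * |v - u| := by
    rw [← intervalIntegral.integral_sub hi1 hi2]
    refine intervalIntegral.norm_integral_le_of_norm_le_const fun x hx => ?_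
    rw [Set.uIoc_of_le huv] at hx
    have hx' : x ∈ Set.Icc u v := ⟨hx.1.le, hx.2⟩
    have e : (w x : ℂ) * (exp (-(I * (n * x))) * Fr a r x) -
        exp (-(I * (n * x))) * ((w x : ℂ) * G (exp (I * x))) =
        (w x : ℂ) * (exp (-(I * (n * x))) * (Fr a r x - G (exp (I * x)))) := by ring
    rw [e, norm_mul, norm_mul, norm_en, one_mul, Complex.norm_real, Real.norm_eq_abs]
    calc _ ≤ 1 * (η / (2 * (v - u + 1))) :=
          mul_le_mul (hw1 x hx') (hclose x hx') (norm_nonneg _) zero_le_one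
      _ = _ := one_mul _
  have h5 : η / (2 * (v - u + 1)) * |v - u| ≤ η / 2 := by
    rw [abs_of_nonneg (by linarith), div_mul_eq_mul_div, div_le_div_iff₀ (by linarith)
      (by norm_num)]
    nlinarith
  calc _ = ‖((∫ x in u..v, (w x : ℂ) * (exp (-(I * (n * x))) * Fr a r x)) -
      ∫ x in u..v, exp (-(I * (n * x))) * ((w x : ℂ) * G (exp (I * x)))) +
      ∫ x in u..v, exp (-(I * (n * x))) * ((w x : ℂ) * G (exp (I * x)))‖ := by
        rw [sub_add_cancel]
    _ ≤ η / 2 + η / 2 := (norm_add_le _ _).trans (add_le_add (h4.trans h5) h1.le)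
    _ = η := by ring

theorem fixed_gap (a : ℕ → ℂ) (M p q : ℝ) (hp : Bd a M p) (hq : Bd a M q) (hpq : p < q)
    (hreg : ∀ x ∈ Set.Ioo p q, Reg a (exp (I * x))) (η : ℝ) (hη : 0 < η) :
    ∃ n0 : ℕ, ∀ n ≥ n0, ∃ r0 : ℝ, r0 < 1 ∧ ∀ r, 0 < r → r0 < r → r < 1 →
      ‖∫ x in p..q, exp (-(I * (n * x))) * Fr a r x‖ ≤ η := by
  have hM := hp.nonneg
  have ha := hp.coeff
  obtain ⟨ε, hε, hε1, hε2, hε3⟩ : ∃ ε : ℝ, 0 < ε ∧ ε ≤ 1 ∧ 4 * ε ≤ q - p ∧
      1380 * M * ε ≤ η / 4 := by
    refine ⟨min (min 1 ((q - p) / 4)) (η / (4 * (1380 * M + 1))), ?_, ?_, ?_, ?_⟩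
    · refine lt_min (lt_min one_pos (by linarith)) (by positivity)
    · exact (min_le_left _ _).trans (min_le_left _ _)
    · have := (min_le_left (min 1 ((q - p) / 4)) (η / (4 * (1380 * M + 1)))).trans
        (min_le_right _ _)
      linarith
    · have := min_le_right (min 1 ((q - p) / 4)) (η / (4 * (1380 * M + 1)))
      calc _ ≤ (1380 * M + 1) * (η / (4 * (1380 * M + 1))) := by
            refine mul_le_mul (by linarith) this ?_ (by positivity)
            exact (lt_min (lt_min one_pos (by linarith)) (by positivity)).le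
        _ = η / 4 := by field_simp
  obtain ⟨n1, h1⟩ := middle ha (p + ε) (p + 2 * ε) (by linarith)
    (fun x hx => hreg x ⟨by linarith [hx.1], by linarith [hx.2]⟩)
    (fun x => 1 - (p + 2 * ε - x) / ε) (by fun_prop) (fun x hx => by
      have e1 : 0 ≤ (p + 2 * ε - x) / ε := div_nonneg (by linarith [hx.2]) hε.le
      have e2 : (p + 2 * ε - x) / ε ≤ 1 := by rw [div_le_one hε]; linarith [hx.1]
      rw [abs_of_nonneg (by linarith)]; linarith) (η / 6) (by linarith)
  obtain ⟨n2, h2⟩ := middle ha (p + 2 * ε) (q - 2 * ε) (by linarith)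
    (fun x hx => hreg x ⟨by linarith [hx.1], by linarith [hx.2]⟩)
    (fun x => 1) (by fun_prop) (fun x hx => by simp) (η / 6) (by linarith)
  obtain ⟨n3, h3⟩ := middle ha (q - 2 * ε) (q - ε) (by linarith)
    (fun x hx => hreg x ⟨by linarith [hx.1], by linarith [hx.2]⟩)
    (fun x => 1 - (x - (q - 2 * ε)) / ε) (by fun_prop) (fun x hx => by
      have e1 : 0 ≤ (x - (q - 2 * ε)) / ε := div_nonneg (by linarith [hx.1]) hε.le
      have e2 : (x - (q - 2 * ε)) / ε ≤ 1 := by rw [div_le_one hε]; linarith [hx.2]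
      rw [abs_of_nonneg (by linarith)]; linarith) (η / 6) (by linarith)
  refine ⟨max n1 (max n2 n3), fun n hn => ?_⟩
  obtain ⟨r1, hr1, h1⟩ := h1 n ((le_max_left _ _).trans hn)
  obtain ⟨r2, hr2, h2⟩ := h2 n (((le_max_left _ _).trans (le_max_right _ _)).trans hn)
  obtain ⟨r3, hr3, h3⟩ := h3 n (((le_max_right _ _).trans (le_max_right _ _)).trans hn)
  refine ⟨max r1 (max r2 r3), max_lt hr1 (max_lt hr2 hr3), fun r hr0 hr hrlt => ?_⟩
  have h1 := h1 r hr0 (lt_of_le_of_lt (le_max_left _ _) hr) hrlt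
  have h2 := h2 r hr0 (lt_of_le_of_lt ((le_max_left _ _).trans (le_max_right _ _)) hr) hrlt
  have h3 := h3 r hr0 (lt_of_le_of_lt ((le_max_right _ _).trans (le_max_right _ _)) hr) hrlt
  have h4 := trap_left a M p ε hp hε hε1 n r hr0 hrlt
  have h5 := trap_right a M q ε hq hε hε1 n r hr0 hrlt
  have hc := continuous_Fr ha hr0.le hrlt
  have hA : Continuous fun x : ℝ => exp (-(I * (n * x))) * Fr a r x := by fun_prop
  have hi : ∀ u v : ℝ, IntervalIntegrable (fun x : ℝ => exp (-(I * (n * x))) * Fr a r x)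
      volume u v := fun u v => hA.intervalIntegrable u v
  have s1 := intervalIntegral.integral_add_adjacent_intervals (hi p (p + ε)) (hi (p + ε) q)
  have s2 := intervalIntegral.integral_add_adjacent_intervals (hi (p + ε) (p + 2 * ε))
    (hi (p + 2 * ε) q)
  have s3 := intervalIntegral.integral_add_adjacent_intervals (hi (p + 2 * ε) (q - 2 * ε))
    (hi (q - 2 * ε) q)
  have s4 := intervalIntegral.integral_add_adjacent_intervals (hi (q - 2 * ε) (q - ε))
    (hi (q - ε) q)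
  have t1 : (∫ x in (p + ε)..(p + 2 * ε), exp (-(I * (n * x))) * Fr a r x) =
      (∫ x in (p + ε)..(p + 2 * ε), (((p + 2 * ε - x) / ε : ℝ) : ℂ) *
        (exp (-(I * (n * x))) * Fr a r x)) +
      ∫ x in (p + ε)..(p + 2 * ε), ((1 - (p + 2 * ε - x) / ε : ℝ) : ℂ) *
        (exp (-(I * (n * x))) * Fr a r x) := by
    rw [← intervalIntegral.integral_add (Continuous.intervalIntegrable (by fun_prop) _ _)
      (Continuous.intervalIntegrable (by fun_prop) _ _)]
    refine intervalIntegral.integral_congr fun x _ => ?_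
    push_cast
    ring
  have t2 : (∫ x in (q - 2 * ε)..(q - ε), exp (-(I * (n * x))) * Fr a r x) =
      (∫ x in (q - 2 * ε)..(q - ε), (((x - (q - 2 * ε)) / ε : ℝ) : ℂ) *
        (exp (-(I * (n * x))) * Fr a r x)) +
      ∫ x in (q - 2 * ε)..(q - ε), ((1 - (x - (q - 2 * ε)) / ε : ℝ) : ℂ) *
        (exp (-(I * (n * x))) * Fr a r x) := by
    rw [← intervalIntegral.integral_add (Continuous.intervalIntegrable (by fun_prop) _ _)
      (Continuous.intervalIntegrable (by fun_prop) _ _)]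
    refine intervalIntegral.integral_congr fun x _ => ?_
    push_cast
    ring
  have t3 : (∫ x in (p + 2 * ε)..(q - 2 * ε), ((1 : ℝ) : ℂ) *
        (exp (-(I * (n * x))) * Fr a r x)) =
      ∫ x in (p + 2 * ε)..(q - 2 * ε), exp (-(I * (n * x))) * Fr a r x := by simp
  rw [t3] at h2
  set A1 := ∫ x in p..(p + ε), exp (-(I * (n * x))) * Fr a r x
  set A2 := ∫ x in (p + ε)..(p + 2 * ε), (((p + 2 * ε - x) / ε : ℝ) : ℂ) *
        (exp (-(I * (n * x))) * Fr a r x)
  set A3 := ∫ x in (p + ε)..(p + 2 * ε), ((1 - (p + 2 * ε - x) / ε : ℝ) : ℂ) *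
        (exp (-(I * (n * x))) * Fr a r x)
  set A4 := ∫ x in (p + 2 * ε)..(q - 2 * ε), exp (-(I * (n * x))) * Fr a r x
  set A5 := ∫ x in (q - 2 * ε)..(q - ε), ((1 - (x - (q - 2 * ε)) / ε : ℝ) : ℂ) *
        (exp (-(I * (n * x))) * Fr a r x)
  set A6 := ∫ x in (q - 2 * ε)..(q - ε), (((x - (q - 2 * ε)) / ε : ℝ) : ℂ) *
        (exp (-(I * (n * x))) * Fr a r x)
  set A7 := ∫ x in (q - ε)..q, exp (-(I * (n * x))) * Fr a r x
  have e : (∫ x in p..q, exp (-(I * (n * x))) * Fr a r x) =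
      (A1 + A2) + (A6 + A7) + (A3 + A4 + A5) := by
    rw [← s1, ← s2, ← s3, ← s4, t1, t2]
    ring
  rw [e]
  calc _ ≤ ‖A1 + A2‖ + ‖A6 + A7‖ + (‖A3‖ + ‖A4‖ + ‖A5‖) := by
        refine (norm_add_le _ _).trans (add_le_add (norm_add_le _ _) ?_)
        exact (norm_add_le _ _).trans (add_le_add_left (norm_add_le _ _) _)
    _ ≤ η / 4 + η / 4 + (η / 6 + η / 6 + η / 6) := by linarith
    _ = η := by ring

end Pool.Agent.H18.Tau
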