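import Pool.Agent.H18.Tau3

set_option autoImplicit false
open Complex MeasureTheory Filter Topology Set

namespace Pool.Agent.H18.Tau

/-- index set of gaps -/
def Gap (E' : Set ℝ) (x0 x1 : ℝ) : Type :=
  {pq : ℝ × ℝ // pq.1 ∈ E' ∧ pq.2 ∈ E' ∧ x0 ≤ pq.1 ∧ pq.2 ≤ x1 ∧ pq.1 < pq.2 ∧
    Disjoint (Set.Ioo pq.1 pq.2) E'}

theorem gap_disj (E' : Set ℝ) (x0 x1 : ℝ) :
    Pairwise (Function.onFun Disjoint (fun i : Gap E' x0 x1 => Set.Ioo i.1.1 i.1.2)) := by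
  intro i j hij
  rw [Function.onFun, Set.disjoint_left]
  intro x hx hy
  apply hij
  obtain ⟨⟨p, q⟩, hp, hq, h0, h1, hlt, hd⟩ := i
  obtain ⟨⟨p', q'⟩, hp', hq', h0', h1', hlt', hd'⟩ := j
  simp only at hx hy hp hq h0 h1 hlt hd hp' hq' h0' h1' hlt' hd'
  rw [Set.disjoint_left] at hd hd'
  have e1 : p = p' := by
    rcases lt_trichotomy p p' with h | h | h
    · exact absurd hp' (hd ⟨h, hy.1.trans hx.2⟩)
    · exact h
    · exact absurd hp (hd' ⟨h, hx.1.trans hy.2⟩)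
  have e2 : q = q' := by
    rcases lt_trichotomy q q' with h | h | h
    · exact absurd hq (hd' ⟨hy.1.trans hx.2, h⟩)
    · exact h
    · exact absurd hq' (hd ⟨hx.1.trans hy.2, h⟩)
  subst e1 e2
  rfl

theorem gap_countable (E' : Set ℝ) (x0 x1 : ℝ) : Countable (Gap E' x0 x1) :=
  Pairwise.countable_of_isOpen_disjoint (gap_disj E' x0 x1) (fun _ => isOpen_Ioo)
    (fun i => Set.nonempty_Ioo.2 i.2.2.2.2.2.1)

theorem gap_cover (E' : Set ℝ) (hE' : IsClosed E') (x0 x1 : ℝ) (hx0 : x0 ∈ E') (hx1 : x1 ∈ E') :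
    ⋃ i : Gap E' x0 x1, Set.Ioo i.1.1 i.1.2 = Set.Ioo x0 x1 \ E' := by
  ext x
  rw [Set.mem_iUnion]
  constructor
  · rintro ⟨i, hi⟩
    refine ⟨⟨lt_of_le_of_lt i.2.2.2.1 hi.1, lt_of_lt_of_le hi.2 i.2.2.2.2.1⟩, ?_⟩
    exact Set.disjoint_left.1 i.2.2.2.2.2.2 hi
  · rintro ⟨hx, hxE⟩
    have hc1 : IsClosed (E' ∩ Set.Iic x) := hE'.inter isClosed_Iic
    have hc2 : IsClosed (E' ∩ Set.Ici x) := hE'.inter isClosed_Ici
    have hb1 : BddAbove (E' ∩ Set.Iic x) := ⟨x, fun y hy => hy.2⟩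
    have hb2 : BddBelow (E' ∩ Set.Ici x) := ⟨x, fun y hy => hy.2⟩
    have hm1 := hc1.csSup_mem ⟨x0, hx0, hx.1.le⟩ hb1
    have hm2 := hc2.csInf_mem ⟨x1, hx1, hx.2.le⟩ hb2
    set p := sSup (E' ∩ Set.Iic x)
    set q := sInf (E' ∩ Set.Ici x)
    have hpx : p < x := lt_of_le_of_ne hm1.2 (fun h => hxE (h ▸ hm1.1))
    have hqx : x < q := lt_of_le_of_ne hm2.2 (fun h => hxE (h.symm ▸ hm2.1))
    refine ⟨⟨(p, q), hm1.1, hm2.1, le_csSup hb1 ⟨hx0, hx.1.le⟩, csInf_le hb2 ⟨hx1, hx.2.le⟩,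
      hpx.trans hqx, ?_⟩, hpx, hqx⟩
    rw [Set.disjoint_left]
    rintro y ⟨hy1, hy2⟩ hyE
    simp only at hy1 hy2
    rcases le_total y x with h | h
    · exact absurd (le_csSup hb1 ⟨hyE, h⟩) (not_le.2 hy1)
    · exact absurd (csInf_le hb2 ⟨hyE, h⟩) (not_le.2 hy2)

theorem gaps_small (a : ℕ → ℂ) (M : ℝ) (hM0 : 0 ≤ M) (ha : ∀ j, ‖a j‖ ≤ 2 * M) (E' : Set ℝ)
    (hE' : IsClosed E') (x0 : ℝ)
    (hx0 : x0 ∈ E') (hx1 : x0 + 2 * Real.pi ∈ E')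
    (hgap : ∀ p q : ℝ, p ∈ E' → q ∈ E' → p < q → q ≤ p + 7 → ∀ (n : ℕ) (r : ℝ), 0 < r → r < 1 →
      ‖∫ x in p..q, exp (-(I * (n * x))) * Fr a r x‖ ≤ 960 * M * (q - p))
    (hfix : ∀ p q : ℝ, p ∈ E' → q ∈ E' → p < q → q ≤ p + 7 → Disjoint (Set.Ioo p q) E' →
      ∀ η > (0:ℝ), ∀ᶠ n : ℕ in atTop, ∀ᶠ r in 𝓝[<] (1:ℝ),
      ‖∫ x in p..q, exp (-(I * (n * x))) * Fr a r x‖ ≤ η) (η : ℝ) (hη : 0 < η) :
    ∀ᶠ n : ℕ in atTop, ∀ᶠ r in 𝓝[<] (1:ℝ),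
      ‖∫ x in Set.Ioo x0 (x0 + 2 * Real.pi) \ E', exp (-(I * (n * x))) * Fr a r x‖ ≤ η := by
  set x1 := x0 + 2 * Real.pi with hx1def
  have hpi := Real.pi_lt_d2
  have hpi0 := Real.pi_pos
  have := gap_countable E' x0 x1
  have hcov := gap_cover E' hE' x0 x1 hx0 hx1
  have hdisj := gap_disj E' x0 x1
  have hlen : HasSum (fun i : Gap E' x0 x1 => i.1.2 - i.1.1)
      (∫ x in ⋃ i : Gap E' x0 x1, Set.Ioo i.1.1 i.1.2, (1:ℝ)) := by
    have h := hasSum_integral_iUnion (μ := volume) (f := fun _ : ℝ => (1:ℝ))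
      (s := fun i : Gap E' x0 x1 => Set.Ioo i.1.1 i.1.2) (fun i => measurableSet_Ioo) hdisj (by
        rw [hcov]
        refine IntegrableOn.mono_set (t := Set.Ioo x0 x1) ?_ Set.sdiff_subset
        exact (integrableOn_const (by simp)))
    have e : (fun i : Gap E' x0 x1 => i.1.2 - i.1.1) =
        fun i : Gap E' x0 x1 => ∫ x in Set.Ioo i.1.1 i.1.2, (1:ℝ) := by
      funext i
      rw [setIntegral_const, Real.volume_real_Ioo_of_le i.2.2.2.2.2.1.le]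
      simp
    rw [e]
    exact h
  have htail := tendsto_tsum_compl_atTop_zero (fun i : Gap E' x0 x1 => i.1.2 - i.1.1)
  have hη1 : 0 < η / (2 * (960 * M + 1)) := by positivity
  obtain ⟨T, hT⟩ := (htail.eventually (gt_mem_nhds hη1)).exists
  have hη2 : 0 < η / (2 * (T.card + 1)) := by positivity
  have hi7 : ∀ i : Gap E' x0 x1, i.1.2 ≤ i.1.1 + 7 := by
    intro i
    have h1 := i.2.2.2.1
    have h2 := i.2.2.2.2.1
    have : x1 = x0 + 2 * Real.pi := hx1def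
    linarith
  have h1 : ∀ᶠ n : ℕ in atTop, ∀ i ∈ T, ∀ᶠ r in 𝓝[<] (1:ℝ),
      ‖∫ x in i.1.1..i.1.2, exp (-(I * (n * x))) * Fr a r x‖ ≤ η / (2 * (T.card + 1)) :=
    (eventually_all_finset T).2 fun i _ =>
      hfix i.1.1 i.1.2 i.2.1 i.2.2.1 i.2.2.2.2.2.1 (hi7 i) i.2.2.2.2.2.2 _ hη2
  filter_upwards [h1] with n hn
  have h2 := (eventually_all_finset T).2 hn
  have h3 : Set.Ioo (0:ℝ) 1 ∈ 𝓝[<] (1:ℝ) := Ioo_mem_nhdsLT one_pos
  filter_upwards [h2, h3] with r hr hr01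
  have hc := continuous_Fr ha hr01.1.le hr01.2
  have hA : Continuous fun x : ℝ => exp (-(I * (n * x))) * Fr a r x := by fun_prop
  have hs := hasSum_integral_iUnion (μ := volume)
      (f := fun x : ℝ => exp (-(I * (n * x))) * Fr a r x)
      (s := fun i : Gap E' x0 x1 => Set.Ioo i.1.1 i.1.2) (fun i => measurableSet_Ioo) hdisj (by
        rw [hcov]
        refine IntegrableOn.mono_set (t := Set.Icc x0 x1) ?_
          (Set.sdiff_subset.trans Set.Ioo_subset_Icc_self)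
        exact hA.continuousOn.integrableOn_compact isCompact_Icc)
  rw [hcov] at hs
  have hconv : ∀ i : Gap E' x0 x1, (∫ x in Set.Ioo i.1.1 i.1.2, exp (-(I * (n * x))) * Fr a r x) =
      ∫ x in i.1.1..i.1.2, exp (-(I * (n * x))) * Fr a r x := by
    intro i
    rw [intervalIntegral.integral_of_le i.2.2.2.2.2.1.le, integral_Ioc_eq_integral_Ioo]
  simp_rw [hconv] at hs
  rw [← hs.tsum_eq, ← hs.summable.sum_add_tsum_compl (s := T)]
  have hb1 : ‖∑ i ∈ T, ∫ x in i.1.1..i.1.2, exp (-(I * (n * x))) * Fr a r x‖ ≤ η / 2 := by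
    refine (norm_sum_le _ _).trans ?_
    calc _ ≤ ∑ i ∈ T, η / (2 * (T.card + 1)) := Finset.sum_le_sum hr
      _ = T.card * (η / (2 * (T.card + 1))) := by rw [Finset.sum_const, nsmul_eq_mul]
      _ ≤ (T.card + 1) * (η / (2 * (T.card + 1))) :=
          mul_le_mul_of_nonneg_right (by linarith) hη2.le
      _ = η / 2 := by field_simp
  have hb2 : ‖∑' i : ↑((T : Set (Gap E' x0 x1))ᶜ), ∫ x in i.1.1.1..i.1.1.2,
      exp (-(I * (n * x))) * Fr a r x‖ ≤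
      960 * M * ∑' i : ↑((T : Set (Gap E' x0 x1))ᶜ), (i.1.1.2 - i.1.1.1) := by
    have hsub : Summable fun i : ↑((T : Set (Gap E' x0 x1))ᶜ) => (i.1.1.2 - i.1.1.1) :=
      hlen.summable.subtype _
    refine tsum_of_norm_bounded (hsub.hasSum.mul_left (960 * M)) fun i => ?_
    exact hgap _ _ i.1.2.1 i.1.2.2.1 i.1.2.2.2.2.2.1 (hi7 i.1) n r hr01.1 hr01.2
  have hT' : ∑' i : ↑((T : Set (Gap E' x0 x1))ᶜ), (i.1.1.2 - i.1.1.1) <
      η / (2 * (960 * M + 1)) := hT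
  have hT0 : 0 ≤ ∑' i : ↑((T : Set (Gap E' x0 x1))ᶜ), (i.1.1.2 - i.1.1.1) :=
    tsum_nonneg fun i => by linarith [i.1.2.2.2.2.2.1]
  have hb3 : 960 * M * ∑' i : ↑((T : Set (Gap E' x0 x1))ᶜ), (i.1.1.2 - i.1.1.1) ≤ η / 2 := by
    calc _ ≤ (960 * M + 1) * (η / (2 * (960 * M + 1))) :=
          mul_le_mul (by linarith) hT'.le hT0 (by positivity)
      _ = η / 2 := by field_simp
  calc _ ≤ η / 2 + η / 2 := (norm_add_le _ _).trans (add_le_add hb1 (hb2.trans hb3))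
    _ = η := by ring

end Pool.Agent.H18.Tau
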