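import Pool.Agent.H18.Tau4

set_option autoImplicit false
open Complex MeasureTheory Filter Topology Set

namespace Pool.Agent.H18.Tau

theorem int_exp (x0 : ℝ) (k : ℤ) : ∫ x in x0..(x0 + 2 * Real.pi), exp (I * (k * x)) =
    if k = 0 then (2 * Real.pi : ℂ) else 0 := by
  split_ifs with hk
  · subst hk
    simp
  · have hc : (I * k : ℂ) ≠ 0 := by simp [hk]
    have h1 : ∀ x : ℝ, exp (I * (k * x)) = exp ((I * k) * x) := by intro x; congr 1; ring
    simp_rw [h1]
    rw [integral_exp_mul_complex hc]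
    have h2 : exp ((I * k) * ((x0 + 2 * Real.pi : ℝ) : ℂ)) = exp ((I * k) * x0) := by
      have : (I * k) * ((x0 + 2 * Real.pi : ℝ) : ℂ) = (I * k) * x0 + k * (2 * Real.pi * I) := by
        push_cast; ring
      rw [this, Complex.exp_add, Complex.exp_int_mul_two_pi_mul_I, mul_one]
    rw [h2, sub_self, zero_div]

theorem coeff_int {a : ℕ → ℂ} {C : ℝ} (ha : ∀ j, ‖a j‖ ≤ C) {r : ℝ} (hr0 : 0 ≤ r)
    (hr1 : r < 1) (x0 : ℝ) (n : ℕ) :
    ∫ x in x0..(x0 + 2 * Real.pi), exp (-(I * (n * x))) * Fr a r x =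
      2 * Real.pi * (a n * (r : ℂ) ^ n) := by
  have hC : 0 ≤ C := le_trans (norm_nonneg _) (ha 0)
  have hsum := (summable_geometric_of_lt_one hr0 hr1).mul_left C
  have h := intervalIntegral.hasSum_integral_of_dominated_convergence (μ := volume)
    (a := x0) (b := x0 + 2 * Real.pi) (ι := ℕ)
    (F := fun (j : ℕ) (x : ℝ) => exp (-(I * (n * x))) * ((a j * (r : ℂ) ^ j) * exp (I * (j * x))))
    (f := fun x : ℝ => exp (-(I * (n * x))) * Fr a r x) (fun j _ => C * r ^ j)
    (fun j => Continuous.aestronglyMeasurable (by fun_prop))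
    (fun j => Eventually.of_forall fun x _ => by
      rw [norm_mul, norm_en, one_mul, norm_mul, norm_mul, norm_pow, Complex.norm_real,
        Real.norm_of_nonneg hr0]
      have : I * (j * x) = I * ((j * x : ℝ) : ℂ) := by push_cast; ring
      rw [this, norm_exp_I_mul_real, mul_one]
      exact mul_le_mul_of_nonneg_right (ha j) (by positivity))
    (Eventually.of_forall fun x _ => hsum)
    intervalIntegrable_const
    (Eventually.of_forall fun x _ => by
      rw [Fr_eq]
      exact (summable_Fr ha hr0 hr1 x).hasSum.mul_left _)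
  have h2 : ∀ j : ℕ, ∫ x in x0..(x0 + 2 * Real.pi), exp (-(I * (n * x))) *
      ((a j * (r : ℂ) ^ j) * exp (I * (j * x))) =
      if j = n then 2 * Real.pi * (a n * (r : ℂ) ^ n) else 0 := by
    intro j
    have h3 : ∀ x : ℝ, exp (-(I * (n * x))) * ((a j * (r : ℂ) ^ j) * exp (I * (j * x))) =
        (a j * (r : ℂ) ^ j) * exp (I * ((j - n : ℤ) * x)) := by
      intro x
      refine eh1 ?_
      push_cast; ring
    simp_rw [h3]
    rw [intervalIntegral.integral_const_mul, int_exp]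
    by_cases hj : j = n
    · subst hj; simp; ring
    · rw [if_neg, if_neg hj, mul_zero]
      omega
  simp_rw [h2] at h
  exact (h.unique (hasSum_ite_eq n _))

theorem normsq_int (x0 : ℝ) (s : Finset ℕ) (e : ℕ → ℂ) (he : ∀ n ∈ s, ‖e n‖ = 1) :
    ∫ x in x0..(x0 + 2 * Real.pi), ‖∑ n ∈ s, e n * exp (-(I * (n * x)))‖ ^ 2 =
      2 * Real.pi * s.card := by
  have h1 : ∀ x : ℝ, ((‖∑ n ∈ s, e n * exp (-(I * (n * x)))‖ ^ 2 : ℝ) : ℂ) =
      ∑ n ∈ s, ∑ m ∈ s, (e n * (starRingEnd ℂ) (e m)) * exp (I * ((m - n : ℤ) * x)) := by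
    intro x
    rw [← Complex.normSq_eq_norm_sq, ← Complex.mul_conj, map_sum, Finset.sum_mul]
    refine Finset.sum_congr rfl fun n _ => ?_
    rw [Finset.mul_sum]
    refine Finset.sum_congr rfl fun m _ => ?_
    rw [map_mul, ← Complex.exp_conj]
    have : (I * ((m - n : ℤ) * x) : ℂ) = -(I * (n * x)) + (starRingEnd ℂ) (-(I * (m * x))) := by
      simp
      ring
    rw [this, Complex.exp_add]
    ring
  have h2 : ((∫ x in x0..(x0 + 2 * Real.pi), ‖∑ n ∈ s, e n * exp (-(I * (n * x)))‖ ^ 2 : ℝ) : ℂ)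
      = ((2 * Real.pi * s.card : ℝ) : ℂ) := by
    rw [← intervalIntegral.integral_ofReal]
    simp_rw [h1]
    rw [intervalIntegral.integral_finsetSum]
    · have h3 : ∀ n ∈ s, ∫ x in x0..(x0 + 2 * Real.pi), ∑ m ∈ s, (e n * (starRingEnd ℂ) (e m)) *
          exp (I * ((m - n : ℤ) * x)) = 2 * Real.pi := by
        intro n hn
        rw [intervalIntegral.integral_finsetSum]
        · have h4 : ∀ m ∈ s, ∫ x in x0..(x0 + 2 * Real.pi), (e n * (starRingEnd ℂ) (e m)) *
              exp (I * ((m - n : ℤ) * x)) = if m = n then ((2 * Real.pi : ℝ) : ℂ) else 0 := by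
            intro m _
            rw [intervalIntegral.integral_const_mul, int_exp]
            by_cases hm : m = n
            · subst hm
              simp only [sub_self, if_true]
              rw [Complex.mul_conj, Complex.normSq_eq_norm_sq, he m hn]
              simp
            · rw [if_neg, if_neg hm, mul_zero]
              omega
          rw [Finset.sum_congr rfl h4, Finset.sum_ite_eq' s n, if_pos hn]
          push_cast; rfl
        · intro m _
          exact Continuous.intervalIntegrable (by fun_prop) _ _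
      rw [Finset.sum_congr rfl h3, Finset.sum_const, nsmul_eq_mul]
      push_cast
      ring
    · intro n _
      exact Continuous.intervalIntegrable (by fun_prop) _ _
  exact_mod_cast h2

/-- Abel: `F_r` is bounded by `M` at good points -/
theorem Fr_bound {a : ℕ → ℂ} {M t : ℝ} (h : Bd a M t) {r : ℝ} (hr0 : 0 ≤ r) (hr1 : r < 1) :
    ‖Fr a r t‖ ≤ M := by
  rw [Fr_eq]
  refine le_of_tendsto (summable_Fr h.coeff hr0 hr1 t).hasSum.tendsto_sum_nat.norm ?_
  exact Eventually.of_forall fun N => h.scale hr0 hr1.le N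

theorem energy (a : ℕ → ℂ) (M : ℝ) (E' : Set ℝ) (hE' : IsClosed E') (x0 : ℝ)
    (hx0 : x0 ∈ E') (hM : ∀ t ∈ E', Bd a M t) (δ : ℝ) (hδ : 0 < δ) (s : Finset ℕ)
    (hs : ∀ n ∈ s, δ ≤ ‖a n‖)
    (hV : ∀ n ∈ s, ∀ᶠ r in 𝓝[<] (1:ℝ),
      ‖∫ x in Set.Ioo x0 (x0 + 2 * Real.pi) \ E', exp (-(I * (n * x))) * Fr a r x‖ ≤ δ / 4) :
    (s.card : ℝ) * δ ^ 2 ≤ 8 * M ^ 2 := by
  have hpi := Real.pi_gt_three
  have hM0 := (hM x0 hx0).nonneg
  have ha := (hM x0 hx0).coeff
  have h1 := (eventually_all_finset s).2 hV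
  have h2 : ∀ᶠ r in 𝓝[<] (1:ℝ), ∀ n ∈ s, 1 / 2 ≤ r ^ n := by
    refine (eventually_all_finset s).2 fun n _ => ?_
    have hc : Tendsto (fun r : ℝ => r ^ n) (𝓝[<] (1:ℝ)) (𝓝 ((1:ℝ) ^ n)) :=
      ((continuous_pow n).tendsto 1).mono_left nhdsWithin_le_nhds
    rw [one_pow] at hc
    exact (hc.eventually (lt_mem_nhds (by norm_num : (1/2 : ℝ) < 1))).mono fun r hr => hr.le
  have h3 : Set.Ioo (0:ℝ) 1 ∈ 𝓝[<] (1:ℝ) := Ioo_mem_nhdsLT one_pos
  obtain ⟨r, hr1, hr2, hr01⟩ := (h1.and (h2.and h3)).exists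
  have hc := continuous_Fr ha hr01.1.le hr01.2
  -- phases
  set e : ℕ → ℂ := fun n => (starRingEnd ℂ) (a n) / ‖a n‖ with he
  have hane : ∀ n ∈ s, ‖a n‖ ≠ 0 := fun n hn => by
    have := hs n hn
    intro h0
    rw [h0] at this
    linarith
  have hen : ∀ n ∈ s, ‖e n‖ = 1 := by
    intro n hn
    rw [he]
    simp only
    rw [norm_div, RCLike.norm_conj, Complex.norm_real, norm_norm, div_self (hane n hn)]
  have hea : ∀ n ∈ s, e n * a n = ‖a n‖ := by
    intro n hn
    rw [he]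
    simp only
    rw [div_mul_eq_mul_div, mul_comm, Complex.mul_conj, Complex.normSq_eq_norm_sq]
    have : (‖a n‖ : ℂ) ≠ 0 := by exact_mod_cast hane n hn
    push_cast
    field_simp
  set G : ℝ → ℂ := fun x => ∑ n ∈ s, e n * exp (-(I * (n * x))) with hG
  have hGc : Continuous G := by rw [hG]; fun_prop
  set x1 := x0 + 2 * Real.pi with hx1
  have hx01 : x0 ≤ x1 := by rw [hx1]; linarith
  -- splitting
  have hint : ∀ n : ℕ, IntegrableOn (fun x : ℝ => exp (-(I * (n * x))) * Fr a r x)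
      (Set.Ioo x0 x1) := by
    intro n
    refine IntegrableOn.mono_set (t := Set.Icc x0 x1) ?_ Set.Ioo_subset_Icc_self
    exact Continuous.continuousOn (by fun_prop) |>.integrableOn_compact isCompact_Icc
  have hsplit : ∀ n : ℕ, (∫ x in Set.Ioo x0 x1 ∩ E', exp (-(I * (n * x))) * Fr a r x) +
      (∫ x in Set.Ioo x0 x1 \ E', exp (-(I * (n * x))) * Fr a r x) =
      2 * Real.pi * (a n * (r : ℂ) ^ n) := by
    intro n
    rw [integral_inter_add_sdiff hE'.measurableSet (hint n), ← integral_Ioc_eq_integral_Ioo,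
      ← intervalIntegral.integral_of_le hx01]
    exact coeff_int ha hr01.1.le hr01.2 x0 n
  have hA : ∑ n ∈ s, e n * (∫ x in Set.Ioo x0 x1 ∩ E', exp (-(I * (n * x))) * Fr a r x) =
      ∫ x in Set.Ioo x0 x1 ∩ E', G x * Fr a r x := by
    have : ∀ n ∈ s, e n * (∫ x in Set.Ioo x0 x1 ∩ E', exp (-(I * (n * x))) * Fr a r x) =
        ∫ x in Set.Ioo x0 x1 ∩ E', e n * (exp (-(I * (n * x))) * Fr a r x) :=
      fun n _ => (integral_const_mul _ _).symm
    rw [Finset.sum_congr rfl this, ← integral_finsetSum]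
    · refine integral_congr_ae (Eventually.of_forall fun x => ?_)
      simp only [hG]
      rw [Finset.sum_mul]
      refine Finset.sum_congr rfl fun n _ => ?_
      ring
    · intro n _
      exact ((hint n).mono_set Set.inter_subset_left).const_mul (e n)
  set τ := δ / 4 with hτ
  have hτ0 : 0 < τ := by positivity
  have hAb : ‖∫ x in Set.Ioo x0 x1 ∩ E', G x * Fr a r x‖ ≤
      Real.pi * τ * s.card + Real.pi * M ^ 2 / τ := by
    have hci : IntegrableOn (fun x : ℝ => (τ * ‖G x‖ ^ 2 + M ^ 2 / τ) / 2) (Set.Ioo x0 x1) := by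
      refine IntegrableOn.mono_set (t := Set.Icc x0 x1) ?_ Set.Ioo_subset_Icc_self
      exact Continuous.continuousOn (by fun_prop) |>.integrableOn_compact isCompact_Icc
    calc _ ≤ ∫ x in Set.Ioo x0 x1 ∩ E', (τ * ‖G x‖ ^ 2 + M ^ 2 / τ) / 2 := by
          refine norm_integral_le_of_norm_le (hci.mono_set Set.inter_subset_left) ?_
          refine (ae_restrict_iff' (measurableSet_Ioo.inter hE'.measurableSet)).2
            (Eventually.of_forall fun x hx => ?_)
          rw [norm_mul]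
          have hb := Fr_bound (hM x hx.2) hr01.1.le hr01.2
          have hG0 := norm_nonneg (G x)
          have : ‖G x‖ * M ≤ (τ * ‖G x‖ ^ 2 + M ^ 2 / τ) / 2 := by
            have h5 : 0 ≤ (τ * ‖G x‖ - M) ^ 2 / τ := by positivity
            have h6 : (τ * ‖G x‖ - M) ^ 2 / τ = τ * ‖G x‖ ^ 2 - 2 * (‖G x‖ * M) + M ^ 2 / τ := by
              field_simp
              ring
            linarith
          exact (mul_le_mul_of_nonneg_left hb hG0).trans this
      _ ≤ ∫ x in Set.Ioo x0 x1, (τ * ‖G x‖ ^ 2 + M ^ 2 / τ) / 2 := by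
          refine setIntegral_mono_set hci ?_ (Eventually.of_forall Set.inter_subset_left)
          exact Eventually.of_forall fun x => by
            simp only [Pi.zero_apply]; positivity
      _ = ∫ x in x0..x1, (τ * ‖G x‖ ^ 2 + M ^ 2 / τ) / 2 := by
          rw [intervalIntegral.integral_of_le hx01, integral_Ioc_eq_integral_Ioo]
      _ = Real.pi * τ * s.card + Real.pi * M ^ 2 / τ := by
          rw [intervalIntegral.integral_div, intervalIntegral.integral_add
            (Continuous.intervalIntegrable (by fun_prop) _ _)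
            (Continuous.intervalIntegrable (by fun_prop) _ _),
            intervalIntegral.integral_const_mul, normsq_int x0 s e hen,
            intervalIntegral.integral_const, smul_eq_mul]
          have : x1 - x0 = 2 * Real.pi := by rw [hx1]; ring
          rw [this]
          ring
  have hB : ‖∑ n ∈ s, e n * (∫ x in Set.Ioo x0 x1 \ E', exp (-(I * (n * x))) * Fr a r x)‖ ≤
      s.card * (δ / 4) := by
    refine (norm_sum_le _ _).trans ?_
    rw [← nsmul_eq_mul, ← Finset.sum_const]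
    refine Finset.sum_le_sum fun n hn => ?_
    rw [norm_mul, hen n hn, one_mul]
    exact hr1 n hn
  have hsum : ∑ n ∈ s, e n * (∫ x in Set.Ioo x0 x1 ∩ E', exp (-(I * (n * x))) * Fr a r x) +
      ∑ n ∈ s, e n * (∫ x in Set.Ioo x0 x1 \ E', exp (-(I * (n * x))) * Fr a r x) =
      ((∑ n ∈ s, 2 * Real.pi * (‖a n‖ * r ^ n) : ℝ) : ℂ) := by
    rw [← Finset.sum_add_distrib]
    push_cast
    refine Finset.sum_congr rfl fun n hn => ?_
    rw [← mul_add, hsplit n, ← hea n hn]
    ring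
  have hlow : (s.card : ℝ) * (Real.pi * δ) ≤ ∑ n ∈ s, 2 * Real.pi * (‖a n‖ * r ^ n) := by
    rw [← nsmul_eq_mul, ← Finset.sum_const]
    refine Finset.sum_le_sum fun n hn => ?_
    have h6 := hs n hn
    have h7 := hr2 n hn
    have h8 : δ * (1 / 2) ≤ ‖a n‖ * r ^ n := mul_le_mul h6 h7 (by norm_num) (norm_nonneg _)
    nlinarith
  have hup : ∑ n ∈ s, 2 * Real.pi * (‖a n‖ * r ^ n) ≤
      Real.pi * τ * s.card + Real.pi * M ^ 2 / τ + s.card * (δ / 4) := by
    calc _ ≤ |∑ n ∈ s, 2 * Real.pi * (‖a n‖ * r ^ n)| := le_abs_self _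
      _ = ‖((∑ n ∈ s, 2 * Real.pi * (‖a n‖ * r ^ n) : ℝ) : ℂ)‖ := by
          rw [Complex.norm_real, Real.norm_eq_abs]
      _ ≤ _ := by
          rw [← hsum]
          refine (norm_add_le _ _).trans (add_le_add ?_ hB)
          rw [hA]
          exact hAb
  have hK : (0:ℝ) ≤ s.card := by positivity
  have h9 : Real.pi * M ^ 2 / τ = 4 * Real.pi * M ^ 2 / δ := by
    rw [hτ]; field_simp
  rw [h9] at hup
  have h10 : (s.card : ℝ) * (Real.pi * δ) ≤
      Real.pi * (δ / 4) * s.card + 4 * Real.pi * M ^ 2 / δ + s.card * (δ / 4) := hlow.trans hup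
  have h11 : s.card * (δ / 4) ≤ Real.pi * (δ / 4) * s.card := by
    have : (s.card : ℝ) * (δ / 4) * 1 ≤ s.card * (δ / 4) * Real.pi :=
      mul_le_mul_of_nonneg_left (by linarith) (by positivity)
    linarith
  have h12 : (s.card : ℝ) * (Real.pi * δ) / 2 ≤ 4 * Real.pi * M ^ 2 / δ := by linarith
  rw [le_div_iff₀ hδ] at h12
  have h13 : Real.pi * ((s.card : ℝ) * δ ^ 2) ≤ Real.pi * (8 * M ^ 2) := by nlinarith
  exact le_of_mul_le_mul_left h13 Real.pi_pos

theorem coeff_tendsto_zero (a : ℕ → ℂ) (M : ℝ) (E' : Set ℝ) (hE' : IsClosed E') (x0 : ℝ)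
    (hx0 : x0 ∈ E') (hx1 : x0 + 2 * Real.pi ∈ E') (hM : ∀ t ∈ E', Bd a M t)
    (hreg : ∀ x ∉ E', Reg a (exp (I * x))) :
    Tendsto a atTop (𝓝 0) := by
  have hM0 := (hM x0 hx0).nonneg
  have ha := (hM x0 hx0).coeff
  rw [Metric.tendsto_atTop]
  intro δ hδ
  have hsm := gaps_small a M hM0 ha E' hE' x0 hx0 hx1
    (fun p q hp hq hpq hpq7 n r hr0 hr1 =>
      gap_bound a M p q (hM p hp) (hM q hq) hpq hpq7 n r hr0 hr1)
    (fun p q hp hq hpq hpq7 hd η hη => by
      obtain ⟨n0, hn0⟩ := fixed_gap a M p q (hM p hp) (hM q hq) hpq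
        (fun x hx => hreg x (Set.disjoint_left.1 hd hx)) η hη
      filter_upwards [eventually_ge_atTop n0] with n hn
      obtain ⟨r0, hr0, h⟩ := hn0 n hn
      have h3 : Set.Ioo (max 0 r0) 1 ∈ 𝓝[<] (1:ℝ) := Ioo_mem_nhdsLT (max_lt one_pos hr0)
      filter_upwards [h3] with r hr
      exact h r ((le_max_left _ _).trans_lt hr.1) ((le_max_right _ _).trans_lt hr.1) hr.2)
    (δ / 4) (by linarith)
  obtain ⟨n0, hn0⟩ := eventually_atTop.1 hsm
  have hfin : {n : ℕ | n0 ≤ n ∧ δ ≤ ‖a n‖}.Finite := by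
    by_contra hinf
    obtain ⟨K, hK⟩ := exists_nat_gt (8 * M ^ 2 / δ ^ 2)
    obtain ⟨s, hs, hcard⟩ := Set.Infinite.exists_subset_card_eq hinf K
    have h := energy a M E' hE' x0 hx0 hM δ hδ s (fun n hn => (hs hn).2)
      (fun n hn => hn0 n (hs hn).1)
    rw [hcard] at h
    rw [div_lt_iff₀ (by positivity)] at hK
    linarith
  obtain ⟨N, hN⟩ := hfin.bddAbove
  refine ⟨max n0 (N + 1), fun n hn => ?_⟩
  rw [dist_zero_right]
  by_contra hcon
  have := hN ⟨(le_max_left _ _).trans hn, not_lt.1 hcon⟩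
  have h2 := (le_max_right n0 (N + 1)).trans hn
  omega

end Pool.Agent.H18.Tau
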