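import Pool.Agent.H18.Tau5

set_option autoImplicit false
open Complex MeasureTheory Filter Topology Set

namespace Pool.Agent.H18.Tau

theorem isOpen_reg (a : ℕ → ℂ) : IsOpen {ξ : ℂ | Reg a ξ} := by
  rw [Metric.isOpen_iff]
  rintro ξ ⟨r, hr, g, hg, hgF⟩
  refine ⟨r / 2, by positivity, fun ξ' hξ' => ?_⟩
  have hsub : Metric.ball ξ' (r / 2) ⊆ Metric.ball ξ r := by
    refine Metric.ball_subset_ball' ?_
    have := Metric.mem_ball.1 hξ'
    linarith
  exact ⟨r / 2, by positivity, g, hg.mono hsub, fun w hw => hgF w (hsub hw)⟩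

theorem coeff_zero_of (a : ℕ → ℂ) (E : Set ℂ)
    (hE : E = {ξ : ℂ | ‖ξ‖ = 1 ∧ ¬ Reg a ξ}) (M : ℝ)
    (hM : ∀ ξ ∈ E, ∀ N : ℕ, ‖∑ n ∈ Finset.range (N + 1), a n * ξ ^ n‖ ≤ M)
    (θ : ℝ) (hθ : exp (θ * I) ∈ E) : Tendsto a atTop (𝓝 0) := by
  have hcl : IsClosed {x : ℝ | ¬ Reg a (exp (I * x))} := by
    have : IsOpen {x : ℝ | Reg a (exp (I * x))} :=
      (isOpen_reg a).preimage (f := fun x : ℝ => exp (I * x)) (by fun_prop)
    exact this.isClosed_compl
  have hmem : ∀ x : ℝ, ¬ Reg a (exp (I * x)) → exp (I * x) ∈ E := by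
    intro x hx
    rw [hE]
    exact ⟨norm_exp_I x, hx⟩
  have hθ' : ¬ Reg a (exp (I * θ)) := by
    rw [hE] at hθ
    rw [mul_comm]
    exact hθ.2
  refine coeff_tendsto_zero a M {x : ℝ | ¬ Reg a (exp (I * x))} hcl θ hθ' ?_ ?_ ?_
  · have : exp (I * ((θ + 2 * Real.pi : ℝ) : ℂ)) = exp (I * θ) := by
      have h : I * ((θ + 2 * Real.pi : ℝ) : ℂ) = I * θ + 2 * Real.pi * I := by push_cast; ring
      rw [h, Complex.exp_add, Complex.exp_two_pi_mul_I, mul_one]
    rw [Set.mem_ofPred_eq, this]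
    exact hθ'
  · intro t ht L
    have hmt := hM _ (hmem t ht)
    cases L with
    | zero =>
      rw [Finset.range_zero, Finset.sum_empty, norm_zero]
      exact (norm_nonneg _).trans (hmt 0)
    | succ L =>
      refine le_trans (le_of_eq ?_) (hmt L)
      congr 1
      refine Finset.sum_congr rfl fun j _ => ?_
      rw [← Complex.exp_nat_mul]
      congr 2
      ring
  · intro x hx
    exact not_not.1 hx

end Pool.Agent.H18.Tau
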