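import Mathlib

set_option autoImplicit false
open Complex MeasureTheory Filter Topology Set

namespace Pool.Agent.H18.Tau

/-- the power series -/
noncomputable def FF (a : ℕ → ℂ) (w : ℂ) : ℂ := ∑' n, a n * w ^ n

/-- the power series on the circle of radius `r` -/
noncomputable def Fr (a : ℕ → ℂ) (r x : ℝ) : ℂ := FF a ((r : ℂ) * exp (I * x))

end Pool.Agent.H18.Tau
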