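import Mathlib
import Pool.Agent.H11P.Fin

set_option autoImplicit false

namespace Pool.Agent.H18.Twin

open Polynomial Pool.Agent.H11P

/-- The class `𝒫⁺`: real-rooted polynomials `∑_{k ≤ n} a_k x^k` with all of `a_0, …, a_n` strictly
positive (`n` the degree). -/
def PPos (p : ℝ[X]) : Prop :=
  (∀ j, j ≤ p.natDegree → 0 < p.coeff j) ∧ ∀ z : ℂ, aeval z p = 0 → z.im = 0

/-- Real-rooted: all complex zeros are real, or the zero polynomial. -/
def RealRooted (p : ℝ[X]) : Prop := p = 0 ∨ ∀ z : ℂ, aeval z p = 0 → z.im = 0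

/-- The entrywise image `F[p] = ∑_{k ≤ n} F(a_k) x^k`, `n` the degree of `p`. -/
noncomputable def image (F : ℝ → ℝ) (p : ℝ[X]) : ℝ[X] :=
  ∑ j ∈ Finset.range (p.natDegree + 1), monomial j (F (p.coeff j))

theorem image_coeff {F : ℝ → ℝ} (hF0 : F 0 = 0) (p : ℝ[X]) (k : ℕ) :
    (image F p).coeff k = F (p.coeff k) :=
  app_coeff (F := F) hF0 (d := p.natDegree) (f := p) le_rfl k

theorem prod_pos_coeff (s : Multiset ℝ) : (∀ ρ ∈ s, 0 < ρ) →
    ((s.map (fun ρ => (X + C ρ : ℝ[X]))).prod.natDegree ≤ Multiset.card s) ∧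
    ∀ k, 0 ≤ (s.map (fun ρ => (X + C ρ : ℝ[X]))).prod.coeff k ∧
      (k ≤ Multiset.card s → 0 < (s.map (fun ρ => (X + C ρ : ℝ[X]))).prod.coeff k) := by
  induction s using Multiset.induction_on with
  | empty =>
    intro _
    refine ⟨by simp, fun k => ?_⟩
    simp only [Multiset.map_zero, Multiset.prod_zero, Multiset.card_zero, coeff_one]
    refine ⟨by split_ifs <;> norm_num, fun hk => ?_⟩
    have : k = 0 := by omega
    simp [this]
  | cons ρ s ih =>
    intro hs
    obtain ⟨h1, h2⟩ := ih fun x hx => hs x (Multiset.mem_cons_of_mem hx)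
    have hρ : 0 < ρ := hs ρ (Multiset.mem_cons_self _ _)
    set p := (s.map (fun ρ => (X + C ρ : ℝ[X]))).prod with hp
    rw [Multiset.map_cons, Multiset.prod_cons, Multiset.card_cons, ← hp]
    have hc0 : ((X + C ρ) * p).coeff 0 = ρ * p.coeff 0 := by
      rw [add_mul, coeff_add, coeff_C_mul, mul_coeff_zero, coeff_X_zero, zero_mul, zero_add]
    have hc1 : ∀ k, ((X + C ρ) * p).coeff (k + 1) = p.coeff k + ρ * p.coeff (k + 1) := by
      intro k
      rw [add_mul, coeff_add, coeff_C_mul, coeff_X_mul]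
    refine ⟨?_, fun k => ?_⟩
    · refine natDegree_mul_le.trans ?_
      have : (X + C ρ : ℝ[X]).natDegree = 1 := natDegree_X_add_C ρ
      omega
    · cases k with
      | zero =>
        rw [hc0]
        exact ⟨mul_nonneg hρ.le (h2 0).1, fun _ => mul_pos hρ ((h2 0).2 (Nat.zero_le _))⟩
      | succ k =>
        rw [hc1]
        refine ⟨add_nonneg (h2 k).1 (mul_nonneg hρ.le (h2 (k + 1)).1), fun hk => ?_⟩
        exact add_pos_of_pos_of_nonneg ((h2 k).2 (by omega))
          (mul_nonneg hρ.le (h2 (k + 1)).1)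

theorem factor {f : ℝ[X]} (hf : RR f) : ∃ (j : ℕ) (g : ℝ[X]), f = X ^ j * g ∧ PPos g := by
  have hf0 : f ≠ 0 := RR_ne hf
  obtain ⟨g, hg⟩ : X ^ f.natTrailingDegree ∣ f :=
    X_pow_dvd_iff.2 fun d hd => coeff_eq_zero_of_lt_natTrailingDegree hd
  set j := f.natTrailingDegree with hj
  have hco : ∀ k, g.coeff k = f.coeff (k + j) := fun k => by
    conv_rhs => rw [hg]
    rw [coeff_X_pow_mul]
  have hg0 : g.coeff 0 ≠ 0 := by
    rw [hco, zero_add]
    have : f.coeff f.natTrailingDegree ≠ 0 := by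
      have := trailingCoeff_nonzero_iff_nonzero.2 hf0
      exact this
    exact this
  have hRR : RR g := by
    refine ⟨fun k => by rw [hco]; exact hf.1 _, fun z hz => hf.2 z ?_⟩
    rw [hg, map_mul, hz, mul_zero]
  refine ⟨j, g, hg, ?_, hRR.2⟩
  obtain ⟨c, hc, s, hs, hgs⟩ := RR_factor hRR
  have hs' : ∀ ρ ∈ s, 0 < ρ := by
    intro ρ hρ
    refine lt_of_le_of_ne (hs ρ hρ) fun h => hg0 ?_
    rw [hgs, coeff_C_mul, coeff_zero_eq_eval_zero, eval_multiset_prod, Multiset.map_map]
    rw [mul_eq_zero]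
    right
    refine Multiset.prod_eq_zero ?_
    rw [Multiset.mem_map]
    exact ⟨ρ, hρ, by simp [← h]⟩
  obtain ⟨h1, h2⟩ := prod_pos_coeff s hs'
  intro k hk
  have hdeg : g.natDegree ≤ Multiset.card s := by
    rw [hgs]
    exact (natDegree_C_mul_le _ _).trans h1
  rw [hgs, coeff_C_mul]
  exact mul_pos hc ((h2 k).2 (hk.trans hdeg))

/-- `F[f]` is `X ^ j * F[g]` for `f = X ^ j * g`. -/
theorem app_factor {F : ℝ → ℝ} (hF0 : F 0 = 0) {d j : ℕ} {f g : ℝ[X]} (hfd : f.natDegree ≤ d)
    (hfg : f = X ^ j * g) : app F d f = X ^ j * image F g := by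
  ext k
  rw [app_coeff hF0 hfd, hfg, coeff_X_pow_mul', coeff_X_pow_mul']
  split_ifs with h
  · rw [image_coeff hF0]
  · exact hF0

theorem main (F : ℝ → ℝ) (hFn : ∀ x, 0 ≤ x → 0 ≤ F x) (hF0 : F 0 = 0)
    (hF : ∀ p, PPos p → RealRooted (image F p)) :
    (∃ t, 0 < t ∧ ∀ x, 0 ≤ x → x ≤ t → F x = 0) ∨
      ∃ c α : ℝ, 0 < c ∧ (α = 1 ∨ 11 / 10 < α) ∧ ∀ x, 0 ≤ x → F x = c * x ^ α := by
  -- images of general elements
  have himg : ∀ {d : ℕ} {f : ℝ[X]}, P d f → app F d f ≠ 0 → P d (app F d f) := by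
    intro d f hf hne
    refine ⟨?_, ?_, ?_⟩
    · refine natDegree_le_iff_coeff_eq_zero.2 fun N hN => ?_
      rw [app_coeff hF0 hf.1, coeff_eq_zero_of_natDegree_lt (lt_of_le_of_lt hf.1 hN), hF0]
    · intro k
      rw [app_coeff hF0 hf.1]
      exact hFn _ (hf.2.1 k)
    · intro z hz
      obtain ⟨j, g, hfg, hg⟩ := factor hf.rr
      have e := app_factor hF0 hf.1 hfg
      rw [e] at hz hne
      rcases hF g hg with h | h
      · exact absurd (by rw [h, mul_zero]) hne
      · rw [map_mul, map_pow, aeval_X] at hz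
        rcases mul_eq_zero.1 hz with h1 | h1
        · have : z = 0 := by
            by_contra hz0
            exact pow_ne_zero j hz0 h1
          rw [this, Complex.zero_im]
        · exact h z h1
  by_cases hpos : ∀ x, 0 < x → 0 < F x
  · right
    refine result_main.1 F hFn hF0 fun d f hf => himg hf ?_
    intro h0
    have hne := RR_ne hf.rr
    have h1 : (app F d f).coeff f.natDegree = 0 := by rw [h0, coeff_zero]
    rw [app_coeff hF0 hf.1] at h1
    have h2 : 0 < f.coeff f.natDegree :=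
      lt_of_le_of_ne (hf.2.1 _) (Ne.symm (leadingCoeff_ne_zero.2 hne))
    exact (hpos _ h2).ne' h1
  · left
    push Not at hpos
    obtain ⟨t, ht, htF⟩ := hpos
    have htF0 : F t = 0 := le_antisymm htF (hFn t ht.le)
    refine ⟨t, ht, fun x hx hxt => ?_⟩
    rcases hx.lt_or_eq with hx0 | hx0
    · rcases hxt.lt_or_eq with h | h
      · obtain ⟨f, k, hf, h0, h1, h2⟩ := exist_abc hx0 ht hx0 (by nlinarith)
        by_contra hne
        have hFx : 0 < F x := lt_of_le_of_ne (hFn x hx) (Ne.symm hne)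
        have hP : P f.natDegree f := ⟨le_rfl, hf.1, hf.2⟩
        have hane : app F f.natDegree f ≠ 0 := by
          intro h3
          have h4 : (app F f.natDegree f).coeff k = 0 := by rw [h3, coeff_zero]
          rw [app_coeff hF0 le_rfl, h0] at h4
          exact hne h4
        have hB := himg hP hane
        have hl := logconc hB.rr k
        rw [app_coeff hF0 le_rfl, app_coeff hF0 le_rfl, app_coeff hF0 le_rfl, h0, h1, h2,
          htF0] at hl
        have := mul_pos hFx hFx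
        norm_num at hl
        linarith
      · rw [h, htF0]
    · rw [← hx0, hF0]

end Pool.Agent.H18.Twin
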