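import Mathlib
import Pool.Agent.H11P.D1
import Pool.Agent.H11P.D2
import Pool.Agent.H11P.V1

namespace Pool.Agent.H11P.D

open Finset

/-- lower estimate -/
lemma lower0 {b : ℕ → ℝ} {N m j : ℕ} (hb : ∀ k, k ≤ N → 0 ≤ b k) (hbm : 0 < b m) {q : ℝ} (hq : 1 < q) {K : ℝ}
    (hK : 0 < K) (hjm : j ≤ m) (hmN : m + j ≤ N)
    (hmax : ∀ k, k ≤ N → b k ≤ b m) (h1 : b m ≤ K * b (m - j)) (h2 : b m ≤ K * b (m + j)) :
    q^(2*j) / (K^2 * ((N:ℝ)+1)^2) ≤
      ((∑ k ∈ range (N+1), b k * q^k) * (∑ k ∈ range (N+1), b k * q⁻¹^k)) /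
        (∑ k ∈ range (N+1), b k * 1^k)^2 := by
  have hq0 : 0 < q := by linarith
  have p1 : b (m+j) * q^(m+j) ≤ ∑ k ∈ range (N+1), b k * q^k :=
    Finset.single_le_sum (f := fun k => b k * q^k)
      (fun k hk => mul_nonneg (hb k (by simp at hk; omega)) (by positivity)) (by simp; omega)
  have p2 : b (m-j) * q⁻¹^(m-j) ≤ ∑ k ∈ range (N+1), b k * q⁻¹^k :=
    Finset.single_le_sum (f := fun k => b k * q⁻¹^k)
      (fun k hk => mul_nonneg (hb k (by simp at hk; omega)) (by positivity)) (by simp; omega)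
  have p3 : (∑ k ∈ range (N+1), b k * 1^k) ≤ ((N:ℝ)+1) * b m := by
    have := Finset.sum_le_card_nsmul (range (N+1)) (fun k => b k * 1^k) (b m) (by
      intro k hk
      have := hmax k (by simp at hk; omega)
      simpa using this)
    simpa using this
  have p30 : 0 < (∑ k ∈ range (N+1), b k * 1^k) := by
    refine Finset.sum_pos' (fun k hk => mul_nonneg (hb k (by simp at hk; omega)) (by positivity))
      ⟨m, by simp; omega, mul_pos hbm (by positivity)⟩
  have hb1 := hb (m+j) hmN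
  have hb2 := hb (m-j) (by omega)
  have hpow : q^(m+j) * q⁻¹^(m-j) = q^(2*j) := by
    rw [inv_pow]
    have : m + j = (m - j) + 2*j := by omega
    rw [this, pow_add]
    field_simp
  have hnum : b (m+j) * b (m-j) * q^(2*j) ≤ (∑ k ∈ range (N+1), b k * q^k) * (∑ k ∈ range (N+1), b k * q⁻¹^k) := by
    calc b (m+j) * b (m-j) * q^(2*j) = (b (m+j) * q^(m+j)) * (b (m-j) * q⁻¹^(m-j)) := by
          rw [← hpow]; ring
      _ ≤ _ := by
        apply mul_le_mul p1 p2 (by positivity)
        exact Finset.sum_nonneg (fun k hk => mul_nonneg (hb k (by simp at hk; omega)) (by positivity))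
  rw [div_le_div_iff₀ (by positivity) (by positivity)]
  have hsq : (∑ k ∈ range (N+1), b k * 1^k)^2 ≤ (((N:ℝ)+1) * b m)^2 := by
    gcongr
  have hbmm : b m * b m ≤ (K * b (m+j)) * (K * b (m-j)) := by
    apply mul_le_mul h2 h1 hbm.le (by positivity)
  calc q^(2*j) * (∑ k ∈ range (N+1), b k * 1^k)^2 ≤ q^(2*j) * (((N:ℝ)+1) * b m)^2 := by gcongr
    _ = q^(2*j) * ((N:ℝ)+1)^2 * (b m * b m) := by ring
    _ ≤ q^(2*j) * ((N:ℝ)+1)^2 * ((K * b (m+j)) * (K * b (m-j))) := by gcongr
    _ = (b (m+j) * b (m-j) * q^(2*j)) * (K^2 * ((N:ℝ)+1)^2) := by ring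
    _ ≤ _ := by gcongr


end Pool.Agent.H11P.D

namespace Pool.Agent.H11P

open Finset D

theorem vanish {F:ℝ→ℝ} {x0:ℝ} (hx0:0<x0) (hmono:∀ x y, 0≤x→x≤y→F x≤F y) (hz:∀ x, 0≤x→x<x0→F x=0)
    (hp:∀ x, x0<x→0<F x) (hG:∀ a b c:ℝ, x0<a→x0<c→a*c<b^2→0<b→F a*F c≤(F b)^2)
    (hR:∀ (N:ℕ) (A:ℝ), 0<A → x0 < A*Nat.choose N (N/2) → ∀ q y:ℝ, 1<q→0<y→y≤1→
      (((∑ k∈Finset.range (N+1), F (A*Nat.choose N k)*q^k)*(∑ k∈Finset.range (N+1), F (A*Nat.choose N k)*q⁻¹^k))/(∑ k∈Finset.range (N+1), F (A*Nat.choose N k)*1^k)^2)^y ≤ ((∑ k∈Finset.range (N+1), F (A*Nat.choose N k)*(y*q)^k)*(∑ k∈Finset.range (N+1), F (A*Nat.choose N k)*(y/q)^k))/(∑ k∈Finset.range (N+1), F (A*Nat.choose N k)*y^k)^2) : False := by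
  set G : ℝ → ℝ := fun t => Real.log (F (Real.exp t)) with hGdef
  set p0 := Real.log x0 with hp0
  have hex : ∀ t, p0 < t → x0 < Real.exp t := by
    intro t ht
    exact (Real.log_lt_iff_lt_exp hx0).1 ht
  have hconc : ∀ x y s, p0 < x → p0 < y → (x+y)/2 < s → (G x + G y)/2 ≤ G s := by
    intro x y s hx hy hs
    have hs0 : p0 < s := by linarith
    have h1 := hG (Real.exp x) (Real.exp s) (Real.exp y) (hex x hx) (hex y hy)
      (by rw [← Real.exp_add, ← Real.exp_nat_mul]; apply Real.exp_lt_exp.mpr; push_cast; linarith)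
      (Real.exp_pos _)
    have hfx := hp _ (hex x hx)
    have hfy := hp _ (hex y hy)
    have hfs := hp _ (hex s hs0)
    have h2 := Real.log_le_log (mul_pos hfx hfy) h1
    rw [Real.log_mul hfx.ne' hfy.ne', Real.log_pow] at h2
    push_cast at h2
    simp only [hGdef]
    linarith
  have hGmono : ∀ x y, p0 < x → x ≤ y → G x ≤ G y := by
    intro x y hx hxy
    simp only [hGdef]
    exact Real.log_le_log (hp _ (hex x hx)) (hmono _ _ (Real.exp_pos _).le (Real.exp_le_exp.mpr hxy))
  set q0 := p0 + 1 with hq0d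
  set r := p0 + 2 with hrd
  set α := (G r - G q0)/(r - q0) with hα
  have hα0 : 0 ≤ α := div_nonneg (by linarith [hGmono q0 r (by linarith) (by linarith)]) (by linarith)
  have hright : ∀ t t', r ≤ t → t ≤ t' → G t' ≤ G t + α * (t' - t) := by
    intro t t' h1 h2
    rcases h2.lt_or_eq with h | h
    · have hs : (G t' - G t)/(t' - t) ≤ α := by
        rcases h1.lt_or_eq with h3 | h3
        · have e1 := conc_slope_on hconc q0 r t (by linarith) (by linarith) h3
          have e2 := conc_slope_on hconc r t t' (by linarith) h3 h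
          exact (e2.trans e1)
        · subst h3
          exact conc_slope_on hconc q0 r t' (by linarith) (by linarith) h
      rw [div_le_iff₀ (by linarith)] at hs
      linarith
    · subst h; simp
  -- parameters
  set β := α + 2 with hβ
  set q : ℝ := (3:ℝ) ^ ((β - α)/2) with hq
  set y : ℝ := (3:ℝ) ^ (-((α + β)/2)) with hy
  have hβpos : 0 < β := by linarith
  have hq1 : 1 < q := Real.one_lt_rpow (by norm_num) (by linarith)
  have hy0 : 0 < y := by positivity
  have hy1 : y ≤ 1 := Real.rpow_le_one_of_one_le_of_nonpos (by norm_num) (by linarith)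
  have hyq : y * q = (3:ℝ)^(-α) := by
    rw [hy, hq, ← Real.rpow_add (by norm_num)]; congr 1; ring
  obtain ⟨M, hM⟩ := exists_nat_ge ((r - p0)/Real.log 2)
  have hlog2 : 0 < Real.log 2 := Real.log_pos (by norm_num)
  have hlog3 : 0 < Real.log 3 := Real.log_pos (by norm_num)
  rw [div_le_iff₀ hlog2] at hM
  obtain ⟨n, hn0, hn1, hgr⟩ := growth (q := q) (y := y) (M := (M:ℝ)) (K := Real.exp α) hq1 hy0
    (Real.exp_pos _) (by positivity) (M + 2)
  set j : ℕ := n^2 with hj
  have hj1 : 1 ≤ j := Nat.one_le_pow _ _ hn1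
  have hjM : M + 2 ≤ j := by rw [hj]; nlinarith
  set N : ℕ := 8 * j^2 with hN
  set k0 : ℕ := 2 * j^2 with hk0
  have hN4 : N = 4 * k0 := by rw [hN, hk0]; ring
  set A : ℝ := 2 * x0 / Nat.choose N k0 with hA
  have hchk0 : (0:ℝ) < Nat.choose N k0 := by
    exact_mod_cast Nat.choose_pos (by omega)
  have hA0 : 0 < A := by positivity
  have hAk0 : A * Nat.choose N k0 = 2 * x0 := by rw [hA]; field_simp
  set c : ℕ → ℝ := fun k => Real.log (A * Nat.choose N k) with hcdef
  set b : ℕ → ℝ := fun k => F (A * Nat.choose N k) with hbdef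
  have hb : ∀ k, 0 ≤ b k := fun k => by
    have h0 : F 0 = 0 := hz 0 le_rfl hx0
    have := hmono 0 (A * Nat.choose N k) le_rfl (by positivity)
    simp only [hbdef]; linarith
  have hchpos : ∀ k, k ≤ N → (0:ℝ) < Nat.choose N k := fun k hk => by
    exact_mod_cast Nat.choose_pos hk
  have hbc : ∀ k, k ≤ N → p0 < c k → b k = Real.exp (G (c k)) := by
    intro k hk h
    have h1 : Real.exp (c k) = A * Nat.choose N k := by
      simp only [hcdef]; exact Real.exp_log (mul_pos hA0 (hchpos k hk))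
    have h2 := hp _ (hex _ h)
    simp only [hGdef, hbdef]
    rw [Real.exp_log h2, h1]
  have hbpos : ∀ k, k ≤ N → p0 < c k → 0 < b k := by
    intro k hk h; rw [hbc k hk h]; exact Real.exp_pos _
  have hck0 : p0 < c k0 := by
    simp only [hcdef]
    rw [hAk0, hp0]
    exact Real.log_lt_log hx0 (by linarith)
  have hcdiff : ∀ k l, k ≤ N → l ≤ N → c l - c k = Real.log (Nat.choose N l / Nat.choose N k) := by
    intro k l hk hl
    have h1 := hchpos k hk
    have h2 := hchpos l hl
    simp only [hcdef]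
    rw [Real.log_mul hA0.ne' h2.ne', Real.log_mul hA0.ne' h1.ne', Real.log_div h2.ne' h1.ne']
    ring
  have hjj : 1 ≤ j^2 := Nat.one_le_pow _ _ hj1
  have hj2 : M + 2 ≤ j^2 := hjM.trans (Nat.le_self_pow (by norm_num) j)
  have hj3 : (M+2) * j ≤ j^2 := by rw [sq]; exact Nat.mul_le_mul_right _ hjM
  have hj4 : M + 2 * j ≤ j^2 := by nlinarith
  -- k1
  have hck1 : r ≤ c (k0 + M) := by
    have h1 := manyC (N := N) (k0 := k0) M (by omega)
    have h2 := hcdiff k0 (k0+M) (by omega) (by omega)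
    have h3 : (M:ℝ) * Real.log 2 ≤ c (k0+M) - c k0 := by
      rw [h2, ← Real.log_pow]
      apply Real.log_le_log (by positivity)
      rw [le_div_iff₀ hchk0]; exact h1
    linarith
  have hyqp : 0 < y / q := by positivity
  have H2 : ∀ k, k ≤ k0 → b k * (y/q)^k ≤ b k0 * (y/q)^k0 := by
    intro k hk
    rcases hk.eq_or_lt with h | h
    · subst h; exact le_rfl
    · have h1 := stepA hN4 h
      have h2 := choose_mono_half (N := N) (k := k+1) (l := k0) (by omega) (by omega)
      have h2' : (Nat.choose N (k+1) : ℝ) ≤ Nat.choose N k0 := by exact_mod_cast h2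
      have h3 : A * Nat.choose N k < x0 := by
        have h4 : A * (3 * Nat.choose N k) ≤ A * Nat.choose N k0 :=
          mul_le_mul_of_nonneg_left (h1.trans h2') hA0.le
        rw [hAk0] at h4
        nlinarith
      have h5 : b k = 0 := hz _ (by positivity) h3
      rw [h5, zero_mul]
      exact mul_nonneg (hb _) (by positivity)
  have hbmono : ∀ k l, k ≤ N → l ≤ N → c k ≤ c l → b k ≤ b l := by
    intro k l hk hl h
    simp only [hbdef]
    apply hmono _ _ (by positivity)
    simp only [hcdef] at h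
    exact (Real.log_le_log_iff (mul_pos hA0 (hchpos k hk)) (mul_pos hA0 (hchpos l hl))).1 h
  have H1 : ∀ k, k0 + M ≤ k → k ≤ N → b k * (y*q)^k ≤ b (k0+M) * (y*q)^(k0+M) := by
    intro k hk hkN
    obtain ⟨d, hd⟩ := Nat.exists_eq_add_of_le hk
    have h1 := manyB hN4 (by omega : k0 ≤ k0 + M) d
    rw [← hd] at h1
    have h2 := hcdiff (k0+M) k (by omega) hkN
    have hkp := hchpos (k0+M) (by omega)
    have hkp2 := hchpos k hkN
    have h3 : c k - c (k0+M) ≤ (d:ℝ) * Real.log 3 := by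
      rw [h2, ← Real.log_pow]
      apply Real.log_le_log (by positivity)
      rw [div_le_iff₀ hkp]; exact h1
    have hyqd : (y*q)^d = Real.exp (-(α * (d * Real.log 3))) := by
      rw [hyq, Real.rpow_def_of_pos (by norm_num), ← Real.exp_nat_mul]
      congr 1; ring
    have h6 : b k * (y*q)^d ≤ b (k0+M) := by
      rcases le_total (c (k0+M)) (c k) with h | h
      · have h4 := hright _ _ hck1 h
        have := mul_le_mul_of_nonneg_left h3 hα0
        rw [hyqd, hbc k hkN (by linarith), hbc (k0+M) (by omega) (by linarith), ← Real.exp_add]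
        apply Real.exp_le_exp.mpr
        linarith
      · have h4 := hbmono _ _ hkN (by omega) h
        have h7 : (y*q)^d ≤ 1 := by
          rw [hyqd]; apply Real.exp_le_one_iff.mpr
          have : 0 ≤ α * (d * Real.log 3) := by positivity
          linarith
        have h8 : 0 ≤ (y*q)^d := by positivity
        calc b k * (y*q)^d ≤ b k * 1 := mul_le_mul_of_nonneg_left h7 (hb k)
          _ ≤ b (k0+M) := by rw [mul_one]; exact h4
    have hyq0 : 0 < y*q := by positivity
    calc b k * (y*q)^k = (b k * (y*q)^d) * (y*q)^(k0+M) := by rw [hd, pow_add]; ring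
      _ ≤ b (k0+M) * (y*q)^(k0+M) := by gcongr
  have hup := upper (b := b) (N := N) (k0 := k0) (M := M) hb hy0 hq1 (by omega) H1 H2
  -- lower
  have hcm : ∀ k, k ≤ N → c k ≤ c (4*j^2) := by
    intro k hk
    simp only [hcdef]
    apply Real.log_le_log (mul_pos hA0 (hchpos k hk))
    have : Nat.choose N k ≤ Nat.choose N (4*j^2) := by
      have h := Nat.choose_le_middle k N
      have h2 : N / 2 = 4*j^2 := by omega
      rwa [h2] at h
    have h' : (Nat.choose N k : ℝ) ≤ Nat.choose N (4*j^2) := by exact_mod_cast this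
    gcongr
  have hmax : ∀ k, k ≤ N → b k ≤ b (4*j^2) := by
    intro k hk
    exact hbmono k _ hk (by omega) (hcm k hk)
  have hjm : j ≤ 4*j^2 := by nlinarith
  have hmid := midD hj1
  have h4j : r ≤ c (4*j^2 - j) := by
      refine hck1.trans ?_
      have hle := choose_mono_half (N := N) (k := k0 + M) (l := 4*j^2 - j) (by omega) (by omega)
      have hle' : (Nat.choose N (k0+M) : ℝ) ≤ Nat.choose N (4*j^2 - j) := by exact_mod_cast hle
      simp only [hcdef]
      apply Real.log_le_log (mul_pos hA0 (hchpos (k0+M) (by omega)))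
      gcongr
  have hlow1 : b (4*j^2) ≤ Real.exp α * b (4*j^2 - j) := by
    have hkp := hchpos (4*j^2 - j) (by omega)
    have hkp2 := hchpos (4*j^2) (by omega)
    have h2 := hcdiff (4*j^2 - j) (4*j^2) (by omega) (by omega)
    have h3 : c (4*j^2) - c (4*j^2 - j) ≤ 1 := by
      rw [h2, Real.log_le_iff_le_exp (by positivity), div_le_iff₀ hkp]
      exact hmid
    have h5 : c (4*j^2 - j) ≤ c (4*j^2) := hcm _ (by omega)
    have h6 := hright _ _ h4j h5
    rw [hbc _ (by omega) (by linarith), hbc _ (by omega) (by linarith), ← Real.exp_add]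
    apply Real.exp_le_exp.mpr
    have := mul_le_mul_of_nonneg_left h3 hα0
    linarith
  have hsym : b (4*j^2 + j) = b (4*j^2 - j) := by
    simp only [hbdef]
    have : Nat.choose N (4*j^2+j) = Nat.choose N (4*j^2 - j) := by
      rw [← Nat.choose_symm (by omega : 4*j^2 - j ≤ N)]
      congr 1; omega
    rw [this]
  have hmpos : 0 < b (4*j^2) := hbpos _ (by omega) (by linarith [hcm (4*j^2 - j) (by omega)])
  have hlow := lower0 (b := b) (N := N) (m := 4*j^2) (j := j) (fun k _ => hb k) hmpos hq1 (Real.exp_pos α)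
    hjm (by omega) hmax hlow1 (by rw [hsym]; exact hlow1)
  have hAm : x0 < A * Nat.choose N (N/2) := by
    have h := Nat.choose_le_middle k0 N
    have h' : (Nat.choose N k0 : ℝ) ≤ Nat.choose N (N/2) := by exact_mod_cast h
    have h2 : A * Nat.choose N k0 ≤ A * Nat.choose N (N/2) := mul_le_mul_of_nonneg_left h' hA0.le
    rw [hAk0] at h2
    linarith
  have hRR := hR N A hA0 hAm q y hq1 hy0 hy1
  have hS0 : 0 < ∑ k ∈ range (N+1), b k * y^k :=
    Finset.sum_pos' (fun k _ => mul_nonneg (hb k) (by positivity))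
      ⟨4*j^2, by simp; omega, mul_pos hmpos (by positivity)⟩
  have e1 : (q^(2*j) / ((Real.exp α)^2 * ((N:ℝ)+1)^2))^y ≤ ((N:ℝ)+1)^2 * q^M := by
    calc _ ≤ _ := Real.rpow_le_rpow (by positivity) hlow hy0.le
      _ ≤ _ := hRR
      _ ≤ _ := by
        rw [div_le_iff₀ (by positivity)]
        calc _ ≤ _ := hup
          _ = _ := by ring
  have hNr : (N:ℝ) = 8 * ((n:ℝ)^2)^2 := by rw [hN, hj]; push_cast; ring
  rw [hNr] at e1
  have e2 : q^(2*(n:ℝ)^2) = q^(2*j) := by
    have h0 : (2*(n:ℝ)^2) = ((2*j : ℕ) : ℝ) := by rw [hj]; push_cast; ring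
    rw [h0, Real.rpow_natCast]
  have e3 : q^(M:ℝ) = q^M := Real.rpow_natCast _ _
  rw [e2, e3] at hgr
  exact absurd hgr (not_lt.mpr e1)

end Pool.Agent.H11P
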