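import Mathlib
import Pool.Agent.H18.Twin
import Pool.Agent.H18.V13

set_option autoImplicit false

namespace Pool.Agent.H18.Twin

open Polynomial Pool.Agent.H11P

theorem Rineq_gen {B : ℝ[X]} (hB : RR B) {q y : ℝ} (hq : 1 < q) (hy : 0 < y) (hy1 : y ≤ 1) :
    ((B.eval q * B.eval q⁻¹) / (B.eval 1) ^ 2) ^ y ≤
      (B.eval (y * q) * B.eval (y / q)) / (B.eval y) ^ 2 := by
  obtain ⟨j, g, hfg, hg⟩ := factor hB
  have hq0 : 0 < q := by linarith
  have hg0 : 0 < g.coeff 0 := hg.1 0 (Nat.zero_le _)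
  have hgR : RR g := by
    refine ⟨fun k => ?_, hg.2⟩
    rcases le_or_gt k g.natDegree with h | h
    · exact (hg.1 k h).le
    · rw [coeff_eq_zero_of_natDegree_lt h]
  have h := Rineq hgR hg0 hq hy hy1
  have ev : ∀ x : ℝ, B.eval x = x ^ j * g.eval x := fun x => by
    rw [hfg, eval_mul, eval_pow, eval_X]
  rw [ev, ev, ev, ev, ev, ev]
  have e1 : q ^ j * g.eval q * (q⁻¹ ^ j * g.eval q⁻¹) / ((1 : ℝ) ^ j * g.eval 1) ^ 2 =
      (g.eval q * g.eval q⁻¹) / (g.eval 1) ^ 2 := by
    have : q ^ j * q⁻¹ ^ j = 1 := by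
      rw [← mul_pow, mul_inv_cancel₀ hq0.ne', one_pow]
    rw [one_pow, one_mul]
    congr 1
    calc q ^ j * g.eval q * (q⁻¹ ^ j * g.eval q⁻¹) =
        (q ^ j * q⁻¹ ^ j) * (g.eval q * g.eval q⁻¹) := by ring
      _ = _ := by rw [this, one_mul]
  have e2 : (y * q) ^ j * g.eval (y * q) * ((y / q) ^ j * g.eval (y / q)) / (y ^ j * g.eval y) ^ 2 =
      (g.eval (y * q) * g.eval (y / q)) / (g.eval y) ^ 2 := by
    have h1 : (y * q) ^ j * (y / q) ^ j = (y ^ j) ^ 2 := by
      rw [← mul_pow, ← pow_mul, mul_comm j 2, pow_mul]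
      congr 1
      field_simp
    have h2 : (y * q) ^ j * g.eval (y * q) * ((y / q) ^ j * g.eval (y / q)) =
        (y ^ j) ^ 2 * (g.eval (y * q) * g.eval (y / q)) := by
      rw [← h1]; ring
    rw [h2, mul_pow (y ^ j) (g.eval y) 2, mul_div_mul_left _ _ (by positivity)]
  rw [e1, e2]
  exact h

theorem full (F : ℝ → ℝ) (hFn : ∀ x, 0 ≤ x → 0 ≤ F x) (hF0 : F 0 = 0)
    (hF : ∀ p, PPos p → RealRooted (image F p)) :
    (∀ x, 0 ≤ x → F x = 0) ∨
      ∃ c α : ℝ, 0 < c ∧ (α = 1 ∨ 11 / 10 < α) ∧ ∀ x, 0 ≤ x → F x = c * x ^ α := by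
  rcases main F hFn hF0 hF with hv | hv
  swap
  · exact Or.inr hv
  left
  obtain ⟨t, ht, htz⟩ := hv
  -- images of general elements
  have himg : ∀ {d : ℕ} {f : ℝ[X]}, P d f → app F d f ≠ 0 → P d (app F d f) := by
    intro d f hf hne
    refine ⟨?_, ?_, ?_⟩
    · refine natDegree_le_iff_coeff_eq_zero.2 fun N hN => ?_
      rw [app_coeff hF0 hf.1, coeff_eq_zero_of_natDegree_lt (lt_of_le_of_lt hf.1 hN), hF0]
    · intro k
      rw [app_coeff hF0 hf.1]
      exact hFn _ (hf.2.1 k)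
    · intro z hz
      obtain ⟨j, g, hfg, hg⟩ := factor hf.rr
      have e := app_factor hF0 hf.1 hfg
      rw [e] at hz hne
      rcases hF g hg with h | h
      · exact absurd (by rw [h, mul_zero]) hne
      · rw [map_mul, map_pow, aeval_X] at hz
        rcases mul_eq_zero.1 hz with h1 | h1
        · have : z = 0 := by
            by_contra hz0
            exact pow_ne_zero j hz0 h1
          rw [this, Complex.zero_im]
        · exact h z h1
  have hlog : ∀ a b c : ℝ, 0 < a → 0 < b → 0 < c → a * c < b ^ 2 → F a * F c ≤ (F b) ^ 2 := by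
    intro a b c ha hb hc h
    obtain ⟨f, k, hf, h0, h1, h2⟩ := exist_abc ha hb hc h
    have hP : P f.natDegree f := ⟨le_rfl, hf.1, hf.2⟩
    by_cases hne : app F f.natDegree f = 0
    · have e0 := congrArg (fun p => coeff p k) hne
      simp only [app_coeff hF0 le_rfl, h0, coeff_zero] at e0
      rw [e0, zero_mul]
      positivity
    · have hl := logconc (himg hP hne).rr k
      rw [app_coeff hF0 le_rfl, app_coeff hF0 le_rfl, app_coeff hF0 le_rfl, h0, h1, h2] at hl
      exact hl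
  have hmono : ∀ x y, 0 ≤ x → x ≤ y → F x ≤ F y := by
    intro x y hx hxy
    rcases hx.lt_or_eq with h | h
    · rcases hxy.lt_or_eq with h1 | h1
      · have := hlog x y x h (h.trans h1) h (by nlinarith)
        have hx1 := hFn x hx
        have hy1 := hFn y (hx.trans hxy)
        by_contra hc
        push Not at hc
        nlinarith
      · rw [h1]
    · rw [← h, hF0]
      exact hFn y (hx.trans hxy)
  by_contra hcon
  push Not at hcon
  obtain ⟨u, hu, huF⟩ := hcon
  have huF' : 0 < F u := lt_of_le_of_ne (hFn u hu) (Ne.symm huF)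
  set S : Set ℝ := {x | 0 ≤ x ∧ F x = 0} with hS
  have hbdd : BddAbove S := by
    refine ⟨u, fun x hx => ?_⟩
    by_contra hc
    push Not at hc
    have := hmono u x hu hc.le
    rw [hx.2] at this
    linarith
  have htS : t ∈ S := ⟨ht.le, htz t ht.le le_rfl⟩
  have hx0 : 0 < sSup S := lt_of_lt_of_le ht (le_csSup hbdd htS)
  have hz : ∀ x, 0 ≤ x → x < sSup S → F x = 0 := by
    intro x hx hlt
    obtain ⟨s, hs, hxs⟩ := exists_lt_of_lt_csSup ⟨t, htS⟩ hlt
    have := hmono x s hx hxs.le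
    rw [hs.2] at this
    exact le_antisymm this (hFn x hx)
  have hp : ∀ x, sSup S < x → 0 < F x := by
    intro x hx
    have hx' : 0 ≤ x := (hx0.trans hx).le
    refine lt_of_le_of_ne (hFn x hx') fun h => ?_
    have : x ≤ sSup S := le_csSup hbdd ⟨hx', h.symm⟩
    linarith
  refine vanish hx0 hmono hz hp (fun a b c ha hc hac hb => ?_) (fun N A hA hN q y hq hy hy1 => ?_)
  · exact hlog a b c (hx0.trans ha) hb (hx0.trans hc) hac
  · have hne : app F N (C A * (1 + X) ^ N) ≠ 0 := by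
      intro h
      have h1 : (app F N (C A * (1 + X) ^ N)).coeff (N / 2) = 0 := by rw [h, coeff_zero]
      rw [app_coeff_le (Nat.div_le_self N 2), coeff_C_mul, coeff_one_add_X_pow] at h1
      exact (hp _ hN).ne' h1
    have hB := himg (P_binom hA N) hne
    have hr := Rineq_gen hB.rr hq hy hy1
    simp only [app_eval, coeff_C_mul, coeff_one_add_X_pow] at hr
    exact hr

end Pool.Agent.H18.Twin
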